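import Pool.Agent.N430.BP.Maxi

set_option autoImplicit false
set_option linter.all false

/-! The law for almost all points: abstract form, with an arbitrary clock. -/

namespace Pool.Agent.N430.BP

open Finset

/-- the level of a real number `≥ 1` -/
noncomputable def lvl (t : ℝ) : ℕ := Nat.log 2 ⌊t⌋₊

lemma lvl_le {t : ℝ} (ht : 1 ≤ t) : (2 : ℝ) ^ lvl t ≤ t := by
  have h1 : ⌊t⌋₊ ≠ 0 := by
    rw [Ne, Nat.floor_eq_zero]
    linarith
  have h2 := Nat.pow_log_le_self 2 h1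
  have h3 : ((2 ^ lvl t : ℕ) : ℝ) ≤ (⌊t⌋₊ : ℝ) := by exact_mod_cast h2
  have h4 := Nat.floor_le (by linarith : 0 ≤ t)
  push_cast at h3
  linarith

lemma lt_lvl {t : ℝ} : t < (2 : ℝ) ^ (lvl t + 1) := by
  have h1 := Nat.lt_pow_succ_log_self (b := 2) (by norm_num) ⌊t⌋₊
  have h2 : (⌊t⌋₊ : ℝ) + 1 ≤ ((2 ^ (lvl t + 1) : ℕ) : ℝ) := by
    exact_mod_cast h1
  have h3 := Nat.lt_floor_add_one t
  push_cast at h2
  linarith

/-- the sum of the squares of the inverses -/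
noncomputable def ZZ : ℝ := ∑' j : ℕ, 4 / ((j : ℝ) + 1) ^ 2

lemma ZZ_summable : Summable (fun j : ℕ => 4 / ((j : ℝ) + 1) ^ 2) := by
  have h1 := (summable_nat_add_iff 1).2 (Real.summable_one_div_nat_pow.2 (one_lt_two))
  have h2 := h1.mul_left 4
  refine h2.congr fun j => ?_
  push_cast
  ring

lemma ZZ_nonneg : 0 ≤ ZZ := tsum_nonneg fun j => by positivity

/-- **Moments along random times, for an arbitrary clock.** -/
theorem path_abs {Ω : Type*} (s : Finset Ω) (Y : ℕ → Ω → ℝ) (w : ℕ → ℝ) (hw : ∀ n, 0 ≤ w n) {q : ℕ}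
    (hq : 2 ≤ q) {K : ℝ} (hK : 0 ≤ K) {T : ℕ → ℝ} {x0 : ℕ} (hT : ∀ x, x0 ≤ x → 1 ≤ T x)
    {adm : ℕ → Prop}
    (hinc : ∀ x, adm x → ∀ a b, a ≤ b → b ≤ x + 1 → ∑ ω ∈ s, (∑ n ∈ Ico a b, Y n ω) ^ (2 * q) ≤
      K * (∑ n ∈ Ico a b, w n) ^ q) {B : ℝ} (hB : 0 ≤ B)
    (hwT : ∀ x, x0 ≤ x → ∑ n ∈ Ico 0 (x + 1), w n ≤ B * T x)
    (E : Finset Ω) (hE : E ⊆ s) (ξ : Ω → ℕ) (hξ : ∀ ω ∈ E, x0 ≤ ξ ω ∧ adm (ξ ω)) :
    ∑ ω ∈ E, (∑ n ∈ Ico 0 (ξ ω + 1), Y n ω) ^ (2 * q) /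
        (T (ξ ω) ^ q * (1 + Real.log (T (ξ ω))) ^ 2) ≤ AA q * K * (2 * B) ^ q * ZZ := by
  classical
  have hA := AA_pos (m := q) (by omega)
  have hZ0 := ZZ_nonneg
  set P : Ω → ℝ := fun ω => ∑ n ∈ Ico 0 (ξ ω + 1), Y n ω with hP
  have hPe : ∀ ω, 0 ≤ P ω ^ (2 * q) := fun ω => by rw [pow_mul]; positivity
  set L : Ω → ℕ := fun ω => lvl (T (ξ ω)) with hL
  -- one level
  have hlevel : ∀ j : ℕ, ∑ ω ∈ E with L ω = j, P ω ^ (2 * q) ≤
      AA q * K * (B * 2 ^ (j + 1)) ^ q := by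
    intro j
    set c' : Ω → ℕ := fun ω => if ω ∈ E ∧ L ω = j then ξ ω + 1 else 0 with hc'
    set bj := E.sup c' with hbj
    have hc0 : ∀ ω, 0 ≤ c' ω ∧ c' ω ≤ bj := by
      intro ω
      refine ⟨Nat.zero_le _, ?_⟩
      by_cases hω : ω ∈ E
      · exact Finset.le_sup (f := c') hω
      · rw [hc']
        simp only
        rw [if_neg (fun h => hω h.1)]
        exact Nat.zero_le _
    have hnn : 0 ≤ AA q * K * (B * 2 ^ (j + 1)) ^ q := by positivity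
    rcases Nat.eq_zero_or_pos bj with hb0 | hb0
    · have hem : (E.filter fun ω => L ω = j) = ∅ := by
        rw [Finset.filter_eq_empty_iff]
        intro ω hω hl
        have h1 := (hc0 ω).2
        rw [hb0, hc'] at h1
        simp only at h1
        rw [if_pos ⟨hω, hl⟩] at h1
        omega
      rw [hem, Finset.sum_empty]
      exact hnn
    -- the supremum is attained
    have hne : E.Nonempty := by
      by_contra hne
      rw [not_nonempty_iff_eq_empty] at hne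
      rw [hbj, hne, Finset.sup_empty] at hb0
      exact absurd hb0 (lt_irrefl _)
    obtain ⟨ω0, hω0, he0⟩ := Finset.exists_mem_eq_sup E hne c'
    have hc1 : ω0 ∈ E ∧ L ω0 = j := by
      by_contra hcon
      rw [hbj, he0, hc'] at hb0
      simp only at hb0
      rw [if_neg hcon] at hb0
      exact absurd hb0 (lt_irrefl _)
    have hbj1 : bj = ξ ω0 + 1 := by
      rw [hbj, he0, hc']
      simp only
      rw [if_pos hc1]
    have hx0 := hξ ω0 hω0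
    have hmax := maxi s Y w hw hq hK bj
      (fun i1 j1 hij hj => hinc _ hx0.2 i1 j1 hij (by omega))
      bj 0 bj (Nat.zero_le _) le_rfl (Nat.sub_zero _) c' hc0
    have hWb : (∑ n ∈ Ico 0 bj, w n) ^ q ≤ (B * 2 ^ (j + 1)) ^ q := by
      refine pow_le_pow_left₀ (Finset.sum_nonneg fun n _ => hw n) ?_ q
      rw [hbj1]
      refine (hwT _ hx0.1).trans (mul_le_mul_of_nonneg_left ?_ hB)
      have := (lt_lvl (t := T (ξ ω0))).le
      have h7 : lvl (T (ξ ω0)) = j := hc1.2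
      rwa [h7] at this
    have h2 : ∑ ω ∈ E with L ω = j, P ω ^ (2 * q) ≤
        ∑ ω ∈ s, (∑ n ∈ Ico 0 (c' ω), Y n ω) ^ (2 * q) := by
      calc ∑ ω ∈ E with L ω = j, P ω ^ (2 * q) =
          ∑ ω ∈ E with L ω = j, (∑ n ∈ Ico 0 (c' ω), Y n ω) ^ (2 * q) := by
            refine Finset.sum_congr rfl fun ω hω => ?_
            rw [mem_filter] at hω
            have : c' ω = ξ ω + 1 := by
              rw [hc']
              simp only
              rw [if_pos hω]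
            rw [this]
        _ ≤ _ := Finset.sum_le_sum_of_subset_of_nonneg ((Finset.filter_subset _ _).trans hE)
            fun ω _ _ => by rw [pow_mul]; positivity
    exact (h2.trans hmax).trans (mul_le_mul_of_nonneg_left hWb (by positivity))
  -- all levels
  have hterm : ∀ ω ∈ E, P ω ^ (2 * q) / (T (ξ ω) ^ q * (1 + Real.log (T (ξ ω))) ^ 2) ≤
      P ω ^ (2 * q) * ((4 / ((L ω : ℝ) + 1) ^ 2) / (2 ^ L ω) ^ q) := by
    intro ω hω
    have hx := (hξ ω hω).1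
    have h1' : (2 : ℝ) ^ L ω ≤ T (ξ ω) := lvl_le (hT _ hx)
    have hp2 : (0 : ℝ) < 2 ^ L ω := by positivity
    have hT0 : 0 < T (ξ ω) := lt_of_lt_of_le hp2 h1'
    have h2 : ((L ω : ℝ) + 1) / 2 ≤ 1 + Real.log (T (ξ ω)) := by
      have h3 := Real.log_le_log hp2 h1'
      rw [Real.log_pow] at h3
      have h4 := Real.log_two_gt_d9
      have h5 : (0 : ℝ) ≤ L ω := Nat.cast_nonneg _
      nlinarith
    rw [div_eq_mul_inv]
    refine mul_le_mul_of_nonneg_left ?_ (hPe ω)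
    rw [mul_inv, div_eq_mul_inv, mul_comm]
    refine mul_le_mul ?_ ?_ (by positivity) (by positivity)
    · have h6 : 4 / ((L ω : ℝ) + 1) ^ 2 = ((((L ω : ℝ) + 1) / 2) ^ 2)⁻¹ := by
        rw [div_pow, inv_div]
        norm_num
      rw [h6]
      apply inv_anti₀ (by positivity)
      exact pow_le_pow_left₀ (by positivity) h2 2
    · apply inv_anti₀ (by positivity)
      exact pow_le_pow_left₀ hp2.le h1' q
  refine (Finset.sum_le_sum hterm).trans ?_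
  set J := E.sup L + 1 with hJ
  have hmaps : ∀ ω ∈ E, L ω ∈ range J := by
    intro ω hω
    rw [mem_range, hJ]
    exact Nat.lt_succ_of_le (Finset.le_sup (f := L) hω)
  rw [← Finset.sum_fiberwise_of_maps_to hmaps]
  have hj : ∀ j ∈ range J, ∑ ω ∈ E with L ω = j, P ω ^ (2 * q) *
      ((4 / ((L ω : ℝ) + 1) ^ 2) / (2 ^ L ω) ^ q) ≤
      AA q * K * (2 * B) ^ q * (4 / ((j : ℝ) + 1) ^ 2) := by
    intro j _
    have e : ∑ ω ∈ E with L ω = j, P ω ^ (2 * q) *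
        ((4 / ((L ω : ℝ) + 1) ^ 2) / (2 ^ L ω) ^ q) =
        (∑ ω ∈ E with L ω = j, P ω ^ (2 * q)) * ((4 / ((j : ℝ) + 1) ^ 2) / (2 ^ j) ^ q) := by
      rw [Finset.sum_mul]
      refine Finset.sum_congr rfl fun ω hω => ?_
      rw [(mem_filter.1 hω).2]
    rw [e]
    refine (mul_le_mul_of_nonneg_right (hlevel j) (by positivity)).trans (le_of_eq ?_)
    have hp2 : (2 : ℝ) ^ j ≠ 0 := by positivity
    have e2 : (B * 2 ^ (j + 1)) ^ q = (2 * B) ^ q * (2 ^ j) ^ q := by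
      rw [← mul_pow]
      congr 1
      rw [pow_succ]
      ring
    rw [e2]
    field_simp
  refine (Finset.sum_le_sum hj).trans ?_
  rw [← Finset.mul_sum]
  have h8 : ∑ j ∈ range J, 4 / ((j : ℝ) + 1) ^ 2 ≤ ZZ :=
    ZZ_summable.sum_le_tsum _ fun j _ => by positivity
  exact mul_le_mul_of_nonneg_left h8 (by positivity)

/-- the exponent of the moments which is used -/
noncomputable def qq' (ε A : ℝ) : ℕ := max 2 (max ⌈1 / ε⌉₊ ⌈A⌉₊)

lemma two_le_qq (ε A : ℝ) : 2 ≤ qq' ε A := le_max_left _ _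

/-- the constant of the law -/
noncomputable def CC (ε A K0 B C0 : ℝ) : ℝ :=
  AA (qq' ε A) * K0 * (2 * B) ^ qq' ε A * ZZ * 2 ^ (2 * qq' ε A) + (2 * C0 + 1) ^ A

open Classical in
/-- **The law, for an arbitrary clock.** -/
theorem law_abs {Ω : Type*} (s : Finset Ω) (Y : ℕ → Ω → ℝ) (w : ℕ → ℝ) (hw : ∀ n, 0 ≤ w n)
    {ε A : ℝ} (hε : 0 < ε) (hA : 0 < A) {K0 : ℝ} (hK0 : 0 ≤ K0) {T : ℕ → ℝ} {x0 : ℕ}
    (hT : ∀ x, x0 ≤ x → 1 ≤ T x) {adm : ℕ → Prop}
    (hinc : ∀ x, adm x → ∀ a b, a ≤ b → b ≤ x + 1 →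
      ∑ ω ∈ s, (∑ n ∈ Ico a b, Y n ω) ^ (2 * qq' ε A) ≤
      (K0 * #s) * (∑ n ∈ Ico a b, w n) ^ qq' ε A) {B : ℝ} (hB : 0 ≤ B)
    (hwT : ∀ x, x0 ≤ x → ∑ n ∈ Ico 0 (x + 1), w n ≤ B * T x)
    (D : ℕ → Ω → ℝ) {C0 : ℝ} (hC0 : 0 ≤ C0)
    (hD : ∀ x, x0 ≤ x → ∀ ω ∈ s, |D x ω - ∑ n ∈ Ico 0 (x + 1), Y n ω| ≤ C0)
    {l : ℝ} (hl : 1 ≤ l) :
    ((s.filter fun ω => ∃ x : ℕ, x0 ≤ x ∧ adm x ∧
        l * T x ^ (1 / 2 : ℝ) * (1 + Real.log (T x)) ^ ε < |D x ω|).card : ℝ) ≤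
      CC ε A K0 B C0 * l ^ (-A) * #s := by
  unfold CC
  set q : ℕ := qq' ε A with hq
  have hq2 : 2 ≤ q := le_max_left _ _
  have hqε : 1 ≤ (q : ℝ) * ε := by
    have h1 : (1 / ε : ℝ) ≤ q := (Nat.le_ceil _).trans (by
      exact_mod_cast (le_max_left _ _).trans (le_max_right _ _))
    rwa [div_le_iff₀ hε] at h1
  have hqA : A ≤ 2 * (q : ℝ) := by
    have h1 : A ≤ q := (Nat.le_ceil _).trans (by
      exact_mod_cast (le_max_right _ _).trans (le_max_right _ _))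
    have h2 : (0 : ℝ) ≤ q := Nat.cast_nonneg _
    linarith
  have hAA := AA_pos (m := q) (by omega)
  have hZ0 := ZZ_nonneg
  set E := s.filter fun ω => ∃ x : ℕ, x0 ≤ x ∧ adm x ∧
        l * T x ^ (1 / 2 : ℝ) * (1 + Real.log (T x)) ^ ε < |D x ω| with hE
  have hs0 : (0 : ℝ) ≤ #s := Nat.cast_nonneg _
  have hl0 : 0 < l := by linarith
  have hlA : 0 < l ^ (-A) := Real.rpow_pos_of_pos hl0 _
  have hcardS : ((#E : ℕ) : ℝ) ≤ #s := by exact_mod_cast card_filter_le _ _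
  have hC1 : 0 ≤ AA q * K0 * (2 * B) ^ q * ZZ := by positivity
  by_cases hlC : l < 2 * C0 + 1
  · -- trivial range
    have h1 : (1 : ℝ) ≤ (2 * C0 + 1) ^ A * l ^ (-A) := by
      rw [Real.rpow_neg hl0.le, ← div_eq_mul_inv, one_le_div (Real.rpow_pos_of_pos hl0 _)]
      exact Real.rpow_le_rpow hl0.le hlC.le hA.le
    have h2 : (0 : ℝ) ≤ AA q * K0 * (2 * B) ^ q * ZZ * 2 ^ (2 * q) * l ^ (-A) := by positivity
    calc ((#E : ℕ) : ℝ) ≤ 1 * #s := by rw [one_mul]; exact hcardS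
      _ ≤ _ := by
        refine mul_le_mul_of_nonneg_right ?_ hs0
        rw [add_mul]
        linarith
  push Not at hlC
  have hmem : ∀ ω ∈ E, ∃ x : ℕ, x0 ≤ x ∧ adm x ∧
        l * T x ^ (1 / 2 : ℝ) * (1 + Real.log (T x)) ^ ε < |D x ω| := fun ω hω =>
    (mem_filter.1 hω).2
  set ξ : Ω → ℕ := fun ω => if hω : ω ∈ E then (hmem ω hω).choose else 0 with hξ
  have hξs : ∀ ω ∈ E, x0 ≤ ξ ω ∧ adm (ξ ω) ∧
        l * T (ξ ω) ^ (1 / 2 : ℝ) * (1 + Real.log (T (ξ ω))) ^ ε < |D (ξ ω) ω| := by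
    intro ω hω
    have e : ξ ω = (hmem ω hω).choose := by
      rw [hξ]
      simp only
      rw [dif_pos hω]
    rw [e]
    exact (hmem ω hω).choose_spec
  have h1 := path_abs s Y w hw hq2 (K := K0 * #s) (by positivity) hT hinc hB hwT E
    (Finset.filter_subset _ _) ξ fun ω hω => ⟨(hξs ω hω).1, (hξs ω hω).2.1⟩
  have h2 : ∀ ω ∈ E, (l / 2) ^ (2 * q) ≤ (∑ n ∈ Ico 0 (ξ ω + 1), Y n ω) ^ (2 * q) /
        (T (ξ ω) ^ q * (1 + Real.log (T (ξ ω))) ^ 2) := by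
    intro ω hω
    obtain ⟨g1, g2, g3⟩ := hξs ω hω
    set t := T (ξ ω) with ht
    set P := ∑ n ∈ Ico 0 (ξ ω + 1), Y n ω with hP
    have hT1 : 1 ≤ t := hT _ g1
    have hT0 : 0 < t := by linarith
    set ℓ := 1 + Real.log t with hℓ
    have hℓ1 : 1 ≤ ℓ := by
      have := Real.log_nonneg hT1
      linarith
    have hℓ0 : 0 < ℓ := by linarith
    have g4 := hD (ξ ω) g1 ω (mem_filter.1 hω).1
    set D' := D (ξ ω) ω with hD'
    have hTh : (1 : ℝ) ≤ t ^ (1 / 2 : ℝ) := Real.one_le_rpow hT1 (by norm_num)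
    have hℓh : (1 : ℝ) ≤ ℓ ^ ε := Real.one_le_rpow hℓ1 hε.le
    set R := t ^ (1 / 2 : ℝ) * ℓ ^ ε with hR
    have hR1 : 1 ≤ R := by nlinarith
    have g5 : |D'| ≤ |P| + C0 := by
      have h5 : D' = (D' - P) + P := by ring
      have h6 : |D'| ≤ |D' - P| + |P| := by
        conv_lhs => rw [h5]
        exact abs_add_le _ _
      linarith
    have g6 : l / 2 * R ≤ |P| := by
      have h7 : l * R < |D'| := by
        rw [hR, ← mul_assoc]
        exact g3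
      have h8 : C0 ≤ l / 2 * R := by nlinarith
      linarith
    have g7 : (l / 2 * R) ^ (2 * q) ≤ P ^ (2 * q) := by
      have h9 : |P| ^ (2 * q) = P ^ (2 * q) := by rw [pow_mul, pow_mul, sq_abs]
      rw [← h9]
      exact pow_le_pow_left₀ (by positivity) g6 _
    rw [le_div_iff₀ (by positivity)]
    refine le_trans ?_ g7
    rw [mul_pow]
    refine mul_le_mul_of_nonneg_left ?_ (by positivity)
    rw [hR, mul_pow]
    refine mul_le_mul ?_ ?_ (by positivity) (by positivity)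
    · rw [← Real.rpow_natCast (t ^ (1 / 2 : ℝ)), ← Real.rpow_mul hT0.le, ← Real.rpow_natCast t]
      refine Real.rpow_le_rpow_of_exponent_le hT1 (le_of_eq ?_)
      push_cast
      ring
    · rw [← Real.rpow_natCast (ℓ ^ ε), ← Real.rpow_mul hℓ0.le, ← Real.rpow_natCast ℓ]
      refine Real.rpow_le_rpow_of_exponent_le hℓ1 ?_
      push_cast
      nlinarith
  have h3 : ((#E : ℕ) : ℝ) * (l / 2) ^ (2 * q) ≤ AA q * K0 * (2 * B) ^ q * ZZ * #s := by
    refine le_trans ?_ (h1.trans (le_of_eq (by ring)))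
    rw [← nsmul_eq_mul]
    exact Finset.card_nsmul_le_sum _ _ _ h2
  set C1 := AA q * K0 * (2 * B) ^ q * ZZ with hC1d
  have h4 : ((#E : ℕ) : ℝ) ≤ C1 * 2 ^ (2 * q) * l ^ (-A) * #s := by
    have h5 : 0 < (l / 2) ^ (2 * q) := by positivity
    rw [← le_div_iff₀ h5] at h3
    refine h3.trans ?_
    rw [div_le_iff₀ h5, div_pow]
    have h6 : 1 ≤ l ^ (-A) * l ^ (2 * q) := by
      rw [← Real.rpow_natCast l, ← Real.rpow_add hl0]
      refine Real.one_le_rpow hl ?_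
      push_cast
      linarith
    have h7 : C1 * 2 ^ (2 * q) * l ^ (-A) * #s * (l ^ (2 * q) / 2 ^ (2 * q)) =
        C1 * #s * (l ^ (-A) * l ^ (2 * q)) := by
      field_simp
    rw [h7]
    exact le_mul_of_one_le_right (by positivity) h6
  refine h4.trans (mul_le_mul_of_nonneg_right (mul_le_mul_of_nonneg_right ?_ hlA.le) (by positivity))
  have : (0 : ℝ) ≤ (2 * C0 + 1) ^ A := by positivity
  linarith

end Pool.Agent.N430.BP
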