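import Pool.Agent.N430.CLT.Moment

set_option autoImplicit false

/-! Means over boxes and over periods of functions of two variables; all even moments of sums over
primes of centred local conditions. -/

namespace Pool.Agent.N430.BP

open Finset Pool.Agent.N430.CLT

/-- the mean value over `1 ≤ u, v ≤ N` -/
noncomputable def avg2 (N : ℕ) (F : ℕ → ℕ → ℝ) : ℝ := avg N (fun u => avg N (F u))

/-- the mean value over a period -/
noncomputable def avgP2 (M : ℕ) (F : ℕ → ℕ → ℝ) : ℝ := avgP M (fun u => avgP M (F u))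

lemma avg2_sum {ι : Type*} (N : ℕ) (s : Finset ι) (F : ι → ℕ → ℕ → ℝ) :
    avg2 N (fun u v => ∑ i ∈ s, F i u v) = ∑ i ∈ s, avg2 N (F i) := by
  unfold avg2
  rw [← avg_sum]
  congr 1
  funext u
  exact avg_sum N s (fun i => F i u)

lemma avgP2_sum {ι : Type*} (N : ℕ) (s : Finset ι) (F : ι → ℕ → ℕ → ℝ) :
    avgP2 N (fun u v => ∑ i ∈ s, F i u v) = ∑ i ∈ s, avgP2 N (F i) := by
  unfold avgP2
  rw [← avgP_sum]
  congr 1
  funext u
  exact avgP_sum N s (fun i => F i u)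

lemma avg2_mul_left (N : ℕ) (c : ℝ) (F : ℕ → ℕ → ℝ) :
    avg2 N (fun u v => c * F u v) = c * avg2 N F := by
  unfold avg2
  rw [← avg_mul_left]
  congr 1
  funext u
  exact avg_mul_left N c (F u)

lemma avgP2_mul_left (N : ℕ) (c : ℝ) (F : ℕ → ℕ → ℝ) :
    avgP2 N (fun u v => c * F u v) = c * avgP2 N F := by
  unfold avgP2
  rw [← avgP_mul_left]
  congr 1
  funext u
  exact avgP_mul_left N c (F u)

lemma avg2_mono {N : ℕ} (F G : ℕ → ℕ → ℝ) (h : ∀ u v, F u v ≤ G u v) : avg2 N F ≤ avg2 N G :=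
  avg_mono _ _ fun u => avg_mono _ _ (h u)

lemma avgP2_mono {N : ℕ} (F G : ℕ → ℕ → ℝ) (h : ∀ u v, F u v ≤ G u v) : avgP2 N F ≤ avgP2 N G :=
  avgP_mono _ _ fun u => avgP_mono _ _ (h u)

lemma avgP2_add (N : ℕ) (F G : ℕ → ℕ → ℝ) :
    avgP2 N (fun u v => F u v + G u v) = avgP2 N F + avgP2 N G := by
  unfold avgP2
  rw [← avgP_add]
  congr 1
  funext u
  exact avgP_add N (F u) (G u)

lemma avg2_eq (N : ℕ) (F : ℕ → ℕ → ℝ) :
    avg2 N F = (∑ u ∈ Icc 1 N, ∑ v ∈ Icc 1 N, F u v) / (N : ℝ) ^ 2 := by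
  unfold avg2 avg
  rw [← Finset.sum_div, div_div, sq]

lemma avgP2_eq (N : ℕ) (F : ℕ → ℕ → ℝ) :
    avgP2 N F = (∑ u ∈ range N, ∑ v ∈ range N, F u v) / (N : ℝ) ^ 2 := by
  unfold avgP2 avgP
  rw [← Finset.sum_div, div_div, sq]

/-- periodic modulo `M` in both variables -/
def Per (M : ℕ) (F : ℕ → ℕ → ℝ) : Prop :=
  (∀ u v, F (u + M) v = F u v) ∧ ∀ u v, F u (v + M) = F u v

lemma Per.dvd {M M' : ℕ} {F : ℕ → ℕ → ℝ} (h : Per M F) (hd : M ∣ M') : Per M' F := by
  obtain ⟨k, rfl⟩ := hd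
  refine ⟨fun u v => ?_, fun u v => ?_⟩
  · exact per_mul (F := fun u => F u v) (fun m => h.1 m v) k u
  · exact per_mul (F := F u) (fun m => h.2 u m) k v

lemma Per.prod {ι : Type*} (T : Finset ι) (F : ι → ℕ → ℕ → ℝ) {M : ℕ}
    (h : ∀ i ∈ T, Per M (F i)) : Per M (fun u v => ∏ i ∈ T, F i u v) :=
  ⟨fun u v => Finset.prod_congr rfl fun i hi => (h i hi).1 u v,
    fun u v => Finset.prod_congr rfl fun i hi => (h i hi).2 u v⟩

lemma avgP_per {M : ℕ} {F : ℕ → ℕ → ℝ} (h : Per M F) (K : ℕ) :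
    ∀ u, (fun u => avgP K (F u)) (u + M) = (fun u => avgP K (F u)) u := by
  intro u
  simp only [avgP]
  congr 1
  exact Finset.sum_congr rfl fun v _ => h.1 u v

lemma avgP2_dvd {M M' : ℕ} {F : ℕ → ℕ → ℝ} (h : Per M F) (hd : M ∣ M') (h0 : M' ≠ 0) :
    avgP2 M' F = avgP2 M F := by
  unfold avgP2
  have e : (fun u => avgP M' (F u)) = fun u => avgP M (F u) := by
    funext u
    exact avgP_dvd (fun m => h.2 u m) hd h0
  rw [e]
  exact avgP_dvd (avgP_per h M) hd h0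

lemma sum_per_shift' {M : ℕ} {G : ℕ → ℝ} (hG : ∀ m, G (m + M) = G m) (W : ℕ) :
    ∑ m ∈ range M, G (m + W) = ∑ m ∈ range M, G m := by
  induction W with
  | zero => rfl
  | succ W ih =>
    rw [← ih]
    have h1 := sum_per_shift (M := M) (F := fun m => G (m + W)) (fun m => by
      have : m + M + W = m + W + M := by ring
      simp only [this]
      exact hG _)
    refine Eq.trans (Finset.sum_congr rfl fun m _ => ?_) h1
    have : m + (W + 1) = m + 1 + W := by ring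
    rw [this]

/-- the mean over a period does not depend on the origin -/
lemma avgP2_shift {M : ℕ} {F : ℕ → ℕ → ℝ} (h : Per M F) (U V : ℕ) :
    avgP2 M (fun u v => F (u + U) (v + V)) = avgP2 M F := by
  rw [avgP2_eq, avgP2_eq]
  congr 1
  have h2 : ∀ u ∈ range M, ∑ v ∈ range M, F (u + U) (v + V) = ∑ v ∈ range M, F (u + U) v :=
    fun u _ => sum_per_shift' (G := F (u + U)) (fun m => h.2 _ m) V
  rw [Finset.sum_congr rfl h2]
  exact sum_per_shift' (G := fun u => ∑ v ∈ range M, F u v)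
    (fun m => Finset.sum_congr rfl fun v _ => h.1 m v) U

/-- box and period -/
lemma box {M N : ℕ} {F : ℕ → ℕ → ℝ} (h : Per M F) (hM : 0 < M) (hN : 0 < N) {B : ℝ} (hB : 0 ≤ B)
    (hF : ∀ u v, |F u v| ≤ B) : |avg2 N F - avgP2 M F| ≤ B * (4 * M / N) := by
  rcases hB.eq_or_lt with rfl | hB
  · have h0 : F = fun _ _ => 0 := by
      funext u v
      exact abs_nonpos_iff.1 (hF u v)
    rw [h0]
    simp [avg2, avgP2, avg, avgP]
  set G : ℕ → ℕ → ℝ := fun u v => B⁻¹ * F u v with hG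
  have hG1 : ∀ u v, |G u v| ≤ 1 := by
    intro u v
    rw [hG]
    simp only
    rw [abs_mul, abs_inv, abs_of_pos hB, inv_mul_le_iff₀ hB, mul_one]
    exact hF u v
  have hGp : Per M G := ⟨fun u v => by simp only [hG]; rw [h.1], fun u v => by simp only [hG]; rw [h.2]⟩
  have hFG : F = fun u v => B * G u v := by
    funext u v
    simp only [hG]
    rw [mul_inv_cancel_left₀ hB.ne']
  rw [hFG, avg2_mul_left, avgP2_mul_left, ← mul_sub, abs_mul, abs_of_pos hB]
  refine mul_le_mul_of_nonneg_left ?_ hB.le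
  have hN0 : (0 : ℝ) < N := by exact_mod_cast hN
  have hM0 : (0 : ℝ) < M := by exact_mod_cast hM
  have h1 : |avg2 N G - avg N (fun u => avgP M (G u))| ≤ 2 * M / N := by
    unfold avg2
    rw [← avg_sub']
    have h2 := norm_avg_le (N := N) (fun u => avg N (G u) - avgP M (G u)) (fun _ => 2 * M / N)
      (fun u => avg_sub_avgP (fun m => hGp.2 u m) hM hN (fun m => by
        rw [Real.norm_eq_abs]; exact hG1 u m))
    rw [avg_const hN, Real.norm_eq_abs] at h2
    exact h2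
  have h2 : |avg N (fun u => avgP M (G u)) - avgP2 M G| ≤ 2 * M / N := by
    have := avg_sub_avgP (avgP_per hGp M) hM hN (fun u => by
      have h3 := norm_avgP_le (N := M) (G u) (fun _ => 1) (fun m => by
        rw [Real.norm_eq_abs]; exact hG1 u m)
      rw [avgP_const hM] at h3
      exact h3)
    rw [Real.norm_eq_abs] at this
    exact this
  calc |avg2 N G - avgP2 M G| ≤ |avg2 N G - avg N (fun u => avgP M (G u))| +
        |avg N (fun u => avgP M (G u)) - avgP2 M G| := abs_sub_le _ _ _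
    _ ≤ 2 * M / N + 2 * M / N := add_le_add h1 h2
    _ = 4 * M / N := by ring

lemma sum_coprime2 {M q : ℕ} {F h : ℕ → ℕ → ℝ} (hF : Per M F) (hh : Per q h)
    (hc : Nat.Coprime M q) (hq : 0 < q) :
    ∑ u ∈ range (M * q), ∑ v ∈ range (M * q), F u v * h u v =
      (∑ u ∈ range M, ∑ v ∈ range M, F u v) * ∑ u ∈ range q, ∑ v ∈ range q, h u v := by
  have e1 : ∀ u ∈ range (M * q), ∑ v ∈ range (M * q), F u v * h u v =
      (∑ v ∈ range M, F u v) * ∑ v ∈ range q, h u v := fun u _ =>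
    sum_coprime (fun m => hF.2 u m) (fun m => hh.2 u m) hc hq
  rw [Finset.sum_congr rfl e1]
  exact sum_coprime (F := fun u => ∑ v ∈ range M, F u v) (h := fun u => ∑ v ∈ range q, h u v)
    (fun m => Finset.sum_congr rfl fun v _ => hF.1 m v)
    (fun m => Finset.sum_congr rfl fun v _ => hh.1 m v) hc hq

/-- product formula -/
lemma avgP2_prod (T : Finset ℕ) (hT : ∀ p ∈ T, p.Prime) (h : ℕ → ℕ → ℕ → ℝ)
    (hh : ∀ p ∈ T, Per p (h p)) :
    avgP2 (∏ p ∈ T, p) (fun u v => ∏ p ∈ T, h p u v) = ∏ p ∈ T, avgP2 p (h p) := by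
  classical
  induction T using Finset.induction_on with
  | empty => simp [avgP2, avgP]
  | insert p T hp ih =>
    have hT' : ∀ p ∈ T, p.Prime := fun q hq => hT q (Finset.mem_insert_of_mem hq)
    have hpp := hT p (Finset.mem_insert_self p T)
    rw [Finset.prod_insert hp, Finset.prod_insert hp,
      ← ih hT' (fun q hq => hh q (Finset.mem_insert_of_mem hq))]
    have hc : Nat.Coprime (∏ q ∈ T, q) p := by
      apply Nat.Coprime.prod_left
      intro q hq
      exact (Nat.coprime_primes (hT' q hq) hpp).2 (by rintro rfl; exact hp hq)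
    have e : ∀ u ∈ range (p * ∏ q ∈ T, q), ∀ v ∈ range (p * ∏ q ∈ T, q),
        ∏ q ∈ insert p T, h q u v = (∏ q ∈ T, h q u v) * h p u v := by
      intro u _ v _
      rw [Finset.prod_insert hp, mul_comm]
    rw [avgP2_eq, avgP2_eq, avgP2_eq, Finset.sum_congr rfl fun u hu =>
      Finset.sum_congr rfl (e u hu), mul_comm p, sum_coprime2 (Per.prod T h (fun q hq =>
        (hh q (Finset.mem_insert_of_mem hq)).dvd (Finset.dvd_prod_of_mem _ hq)))
      (hh p (Finset.mem_insert_self p T)) hc hpp.pos]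
    push_cast
    rw [mul_pow, mul_div_mul_comm, mul_comm]

/-- Hoeffding's inequality for one centred bounded variable -/
lemma hoeffding_one {p : ℕ} (hp : 0 < p) {X : ℕ → ℕ → ℝ} {b : ℝ} (hb : 0 ≤ b)
    (hX : ∀ u v, |X u v| ≤ b) (hm : avgP2 p X = 0) (t : ℝ) :
    avgP2 p (fun u v => Real.exp (t * X u v)) ≤ Real.exp (t ^ 2 * b ^ 2 / 2) := by
  have hc : ∀ c : ℝ, avgP2 p (fun _ _ => c) = c := by
    intro c
    unfold avgP2
    rw [avgP_const hp, avgP_const hp]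
  rcases hb.eq_or_lt with rfl | hb
  · have h0 : X = fun _ _ => 0 := by
      funext u v
      exact abs_nonpos_iff.1 (hX u v)
    rw [h0]
    simp only [mul_zero, Real.exp_zero]
    rw [hc]
    simp
  have h1 : ∀ u v, Real.exp (t * X u v) ≤ Real.cosh (t * b) + (Real.sinh (t * b) / b) * X u v := by
    intro u v
    have h2 := abs_le.1 (hX u v)
    set l := (1 + X u v / b) / 2 with hl
    have hl0 : 0 ≤ l := by
      rw [hl]
      have : -1 ≤ X u v / b := by rw [le_div_iff₀ hb]; linarith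
      linarith
    have hl1 : 0 ≤ 1 - l := by
      rw [hl]
      have : X u v / b ≤ 1 := by rw [div_le_iff₀ hb]; linarith
      linarith
    have h3 := convexOn_exp.2 (Set.mem_univ (t * b)) (Set.mem_univ (-(t * b))) hl0 hl1 (by ring)
    simp only [smul_eq_mul] at h3
    have h4 : l * (t * b) + (1 - l) * -(t * b) = t * X u v := by
      rw [hl]
      field_simp
      ring
    rw [h4] at h3
    refine h3.trans (le_of_eq ?_)
    rw [Real.cosh_eq, Real.sinh_eq, hl]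
    field_simp
    ring
  refine (avgP2_mono _ _ h1).trans ?_
  rw [avgP2_add, hc, avgP2_mul_left, hm, mul_zero, add_zero]
  refine (Real.cosh_le_exp_half_sq _).trans (le_of_eq ?_)
  rw [mul_pow]

/-- the variance proxy -/
noncomputable def Wt (b : ℕ → ℝ) (I : Finset ℕ) : ℝ := ∑ p ∈ I, b p ^ 2

lemma Wt_nonneg (b : ℕ → ℝ) (I : Finset ℕ) : 0 ≤ Wt b I := Finset.sum_nonneg fun _ _ => sq_nonneg _

lemma exp_le (I : Finset ℕ) (hI : ∀ p ∈ I, p.Prime) {X : ℕ → ℕ → ℕ → ℝ} {b : ℕ → ℝ}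
    (hb : ∀ p, 0 ≤ b p) (hper : ∀ p ∈ I, Per p (X p)) (hX : ∀ p ∈ I, ∀ u v, |X p u v| ≤ b p)
    (hm : ∀ p ∈ I, avgP2 p (X p) = 0) (t : ℝ) :
    avgP2 (∏ p ∈ I, p) (fun u v => Real.exp (t * ∑ p ∈ I, X p u v)) ≤
      Real.exp (t ^ 2 * Wt b I / 2) := by
  have e : (fun u v => Real.exp (t * ∑ p ∈ I, X p u v)) =
      fun u v => ∏ p ∈ I, (fun p u v => Real.exp (t * X p u v)) p u v := by
    funext u v
    rw [Finset.mul_sum, Real.exp_sum]
  rw [e, avgP2_prod I hI _ (fun p hp => ⟨fun u v => congrArg (fun z => Real.exp (t * z))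
    ((hper p hp).1 u v), fun u v => congrArg (fun z => Real.exp (t * z)) ((hper p hp).2 u v)⟩)]
  refine (Finset.prod_le_prod (fun p _ => ?_) (fun p hp =>
    hoeffding_one (hI p hp).pos (hb p) (hX p hp) (hm p hp) t)).trans (le_of_eq ?_)
  · unfold avgP2
    exact avgP_nonneg' _ fun u => avgP_nonneg' _ fun v => (Real.exp_pos _).le
  · rw [← Real.exp_sum]
    congr 1
    unfold Wt
    rw [Finset.mul_sum, Finset.sum_div]

lemma pow_le_exp (y : ℝ) (n : ℕ) : y ^ (2 * n) ≤ (2 * n).factorial * (Real.exp y + Real.exp (-y)) := by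
  have h1 : y ^ (2 * n) = |y| ^ (2 * n) := by rw [pow_mul, pow_mul, sq_abs]
  have h2 := Real.pow_div_factorial_le_exp |y| (abs_nonneg y) (2 * n)
  rw [div_le_iff₀ (by positivity)] at h2
  have h3 : Real.exp |y| ≤ Real.exp y + Real.exp (-y) := by
    rcases abs_cases y with ⟨h, _⟩ | ⟨h, _⟩ <;> rw [h] <;>
      linarith [Real.exp_pos y, Real.exp_pos (-y)]
  rw [h1]
  calc |y| ^ (2 * n) ≤ Real.exp |y| * (2 * n).factorial := h2
    _ ≤ (Real.exp y + Real.exp (-y)) * (2 * n).factorial := by gcongr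
    _ = _ := by ring

/-- moments over a full period -/
lemma moment_period (I : Finset ℕ) (hI : ∀ p ∈ I, p.Prime) {X : ℕ → ℕ → ℕ → ℝ} {b : ℕ → ℝ}
    (hb : ∀ p, 0 ≤ b p) (hper : ∀ p ∈ I, Per p (X p)) (hX : ∀ p ∈ I, ∀ u v, |X p u v| ≤ b p)
    (hm : ∀ p ∈ I, avgP2 p (X p) = 0) (m : ℕ) (hm1 : 1 ≤ m) :
    avgP2 (∏ p ∈ I, p) (fun u v => (∑ p ∈ I, X p u v) ^ (2 * m)) ≤
      4 * (2 * m).factorial * Wt b I ^ m := by
  rcases (Wt_nonneg b I).eq_or_lt with h0 | h0
  · have hz : ∀ p ∈ I, b p = 0 := by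
      intro p hp
      have := (Finset.sum_eq_zero_iff_of_nonneg (fun p _ => sq_nonneg (b p))).1 h0.symm p hp
      exact pow_eq_zero_iff two_ne_zero |>.1 this
    have e : (fun u v => (∑ p ∈ I, X p u v) ^ (2 * m)) = fun _ _ => (0 : ℝ) := by
      funext u v
      rw [Finset.sum_eq_zero (fun p hp => ?_), zero_pow (by omega)]
      have := hX p hp u v
      rw [hz p hp] at this
      exact abs_nonpos_iff.1 this
    rw [e, ← h0, zero_pow (by omega)]
    simp [avgP2, avgP]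
  set s := Real.sqrt (Wt b I) with hs
  have hs0 : 0 < s := Real.sqrt_pos.2 h0
  have hs2 : s ^ 2 = Wt b I := Real.sq_sqrt h0.le
  have h1 : ∀ u v, (∑ p ∈ I, X p u v) ^ (2 * m) ≤ (Wt b I ^ m * (2 * m).factorial) *
      (Real.exp (s⁻¹ * ∑ p ∈ I, X p u v) + Real.exp (-s⁻¹ * ∑ p ∈ I, X p u v)) := by
    intro u v
    have h2 := pow_le_exp (s⁻¹ * ∑ p ∈ I, X p u v) m
    have h3 : (∑ p ∈ I, X p u v) ^ (2 * m) = Wt b I ^ m * (s⁻¹ * ∑ p ∈ I, X p u v) ^ (2 * m) := by
      rw [mul_pow, ← hs2, ← pow_mul, ← mul_assoc, ← mul_pow, mul_inv_cancel₀ hs0.ne', one_pow, one_mul]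
    rw [h3, mul_assoc, neg_mul]
    exact mul_le_mul_of_nonneg_left h2 (by positivity)
  refine (avgP2_mono _ _ h1).trans ?_
  rw [avgP2_mul_left, avgP2_add]
  have h4 := exp_le I hI hb hper hX hm s⁻¹
  have h5 := exp_le I hI hb hper hX hm (-s⁻¹)
  have h6 : s⁻¹ ^ 2 * Wt b I / 2 = 1 / 2 := by
    rw [← hs2, ← mul_pow, inv_mul_cancel₀ hs0.ne', one_pow]
  have h6' : (-s⁻¹) ^ 2 * Wt b I / 2 = 1 / 2 := by rw [neg_sq, h6]
  rw [h6] at h4
  rw [h6'] at h5
  have h7 : Real.exp (1 / 2) ≤ 2 := by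
    have h8 : Real.exp (1 / 2) ^ 2 ≤ 2 ^ 2 := by
      rw [← Real.exp_nat_mul]
      have := Real.exp_one_lt_d9
      norm_num
      linarith
    exact le_of_sq_le_sq h8 (by norm_num)
  have h8 : (0 : ℝ) ≤ Wt b I ^ m * (2 * m).factorial := by positivity
  calc (Wt b I ^ m * (2 * m).factorial) * _ ≤ (Wt b I ^ m * (2 * m).factorial) * (2 + 2) :=
        mul_le_mul_of_nonneg_left (add_le_add (h4.trans h7) (h5.trans h7)) h8
    _ = _ := by ring

/-- **All even moments over a box.** -/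
theorem moment_box (I : Finset ℕ) (hI : ∀ p ∈ I, p.Prime) {X : ℕ → ℕ → ℕ → ℝ} {b : ℕ → ℝ}
    (hb : ∀ p, 0 ≤ b p) (hper : ∀ p ∈ I, Per p (X p)) (hX : ∀ p ∈ I, ∀ u v, |X p u v| ≤ b p)
    (hm : ∀ p ∈ I, avgP2 p (X p) = 0) (m : ℕ) (hm1 : 1 ≤ m) {x N : ℕ} (hx : ∀ p ∈ I, p ≤ x)
    (hN : 0 < N) (hxN : x ^ (3 * m) ≤ N) :
    avg2 N (fun u v => (∑ p ∈ I, X p u v) ^ (2 * m)) ≤
      8 * (2 * m).factorial * Wt b I ^ m := by
  classical
  set Q := ∏ p ∈ I, p with hQ
  have hQ0 : 0 < Q := Finset.prod_pos fun p hp => (hI p hp).pos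
  have hN0 : (0 : ℝ) < N := by exact_mod_cast hN
  set A := Fintype.piFinset (fun _ : Fin (2 * m) => I) with hA
  have hexp : ∀ (Y : ℕ → ℝ), (∑ p ∈ I, Y p) ^ (2 * m) = ∑ v ∈ A, ∏ i, Y (v i) := by
    intro Y
    have := Finset.prod_univ_sum (fun _ : Fin (2 * m) => I) (fun _ (q : ℕ) => Y q)
    rw [hA, ← this]
    simp
  have e : (fun u v => (∑ p ∈ I, X p u v) ^ (2 * m)) =
      fun u v => ∑ w ∈ A, (fun w u v => ∏ i, X (w i) u v) w u v := by
    funext u v
    exact hexp (fun p => X p u v)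
  have hx1 : ∀ p ∈ I, (1 : ℝ) ≤ x := fun p hp => by
    exact_mod_cast (hI p hp).one_le.trans (hx p hp)
  have key : ∀ w ∈ A, |avg2 N (fun u v => ∏ i, X (w i) u v) -
      avgP2 Q (fun u v => ∏ i, X (w i) u v)| ≤ (∏ i, b (w i)) * (4 * (x : ℝ) ^ (2 * m) / N) := by
    intro w hw
    rw [hA, Fintype.mem_piFinset] at hw
    set T := (univ : Finset (Fin (2 * m))).image w with hT
    have hTI : T ⊆ I := by
      intro p hp
      rw [hT, mem_image] at hp
      obtain ⟨i, _, rfl⟩ := hp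
      exact hw i
    set M := ∏ p ∈ T, p with hM
    have hdvd : ∀ i, w i ∣ M := fun i =>
      Finset.dvd_prod_of_mem _ (Finset.mem_image_of_mem w (mem_univ i))
    have hperM : Per M (fun u v => ∏ i, X (w i) u v) :=
      Per.prod univ (fun i => X (w i)) fun i _ => (hper _ (hw i)).dvd (hdvd i)
    have hMQ : M ∣ Q := Finset.prod_dvd_prod_of_subset _ _ _ hTI
    have hM0 : 0 < M := Finset.prod_pos fun p hp => (hI p (hTI hp)).pos
    have i0 : Fin (2 * m) := ⟨0, by omega⟩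
    have hx1' : 1 ≤ x := (hI _ (hw i0)).one_le.trans (hx _ (hw i0))
    have hMx : M ≤ x ^ (2 * m) := by
      calc M ≤ ∏ _p ∈ T, x := Finset.prod_le_prod' fun p hp => hx p (hTI hp)
        _ = x ^ #T := by simp
        _ ≤ x ^ (2 * m) := Nat.pow_le_pow_right hx1' (by
          calc #T ≤ #(univ : Finset (Fin (2 * m))) := Finset.card_image_le
            _ = 2 * m := by simp)
    have hB : ∀ u v, |∏ i, X (w i) u v| ≤ ∏ i, b (w i) := by
      intro u v
      rw [Finset.abs_prod]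
      exact Finset.prod_le_prod (fun _ _ => abs_nonneg _) fun i _ => hX _ (hw i) u v
    rw [avgP2_dvd hperM hMQ hQ0.ne']
    have hB0 : 0 ≤ ∏ i, b (w i) := Finset.prod_nonneg fun i _ => hb _
    refine (box hperM hM0 hN hB0 hB).trans (mul_le_mul_of_nonneg_left ?_ hB0)
    have h1 : (M : ℝ) ≤ (x : ℝ) ^ (2 * m) := by exact_mod_cast hMx
    gcongr
  have h1 : |avg2 N (fun u v => (∑ p ∈ I, X p u v) ^ (2 * m)) -
      avgP2 Q (fun u v => (∑ p ∈ I, X p u v) ^ (2 * m))| ≤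
      (∑ p ∈ I, b p) ^ (2 * m) * (4 * (x : ℝ) ^ (2 * m) / N) := by
    rw [e, avg2_sum, avgP2_sum, ← Finset.sum_sub_distrib, hexp b, Finset.sum_mul]
    exact (Finset.abs_sum_le_sum_abs _ _).trans (Finset.sum_le_sum key)
  have h2 := moment_period I hI hb hper hX hm m hm1
  have hbs : 0 ≤ ∑ p ∈ I, b p := Finset.sum_nonneg fun p _ => hb p
  have hcard : (#I : ℝ) ≤ x := by
    have : I ⊆ Icc 1 x := fun p hp => mem_Icc.2 ⟨(hI p hp).one_le, hx p hp⟩
    have := card_le_card this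
    rw [Nat.card_Icc, Nat.add_sub_cancel] at this
    exact_mod_cast this
  have h3 : (∑ p ∈ I, b p) ^ (2 * m) ≤ (x : ℝ) ^ m * Wt b I ^ m := by
    have h4 := sq_sum_le_card_mul_sum_sq (s := I) (f := b)
    rw [pow_mul, ← mul_pow]
    refine pow_le_pow_left₀ (sq_nonneg _) (h4.trans ?_) m
    exact mul_le_mul_of_nonneg_right hcard (Wt_nonneg b I)
  have h4 : (∑ p ∈ I, b p) ^ (2 * m) * (4 * (x : ℝ) ^ (2 * m) / N) ≤ 4 * Wt b I ^ m := by
    calc (∑ p ∈ I, b p) ^ (2 * m) * (4 * (x : ℝ) ^ (2 * m) / N)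
        ≤ ((x : ℝ) ^ m * Wt b I ^ m) * (4 * (x : ℝ) ^ (2 * m) / N) := by gcongr
      _ = 4 * Wt b I ^ m * ((x : ℝ) ^ (3 * m) / N) := by
          rw [show 3 * m = m + 2 * m by ring, pow_add]
          ring
      _ ≤ 4 * Wt b I ^ m * 1 := by
          refine mul_le_mul_of_nonneg_left ?_ (by have := Wt_nonneg b I; positivity)
          rw [div_le_one hN0]
          exact_mod_cast hxN
      _ = _ := mul_one _
  have h5 := (abs_le.1 h1).2
  have h6 : (1 : ℝ) ≤ (2 * m).factorial := by exact_mod_cast Nat.one_le_iff_ne_zero.2 (Nat.factorial_ne_zero _)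
  have h7 : 4 * Wt b I ^ m ≤ 4 * (2 * m).factorial * Wt b I ^ m := by
    have := Wt_nonneg b I
    have h8 : (0 : ℝ) ≤ Wt b I ^ m := by positivity
    nlinarith
  linarith

end Pool.Agent.N430.BP
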