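import Pool.Agent.N430.BP.Box

set_option autoImplicit false
set_option linter.all false

/-! Means over boxes and over periods of functions of `m` pairs of variables; all even moments of sums
over primes of centred local conditions. -/

namespace Pool.Agent.N430.BP

open Finset Pool.Agent.N430.CLT

/-- `m` pairs of natural numbers -/
abbrev Pt (m : ℕ) : Type := Fin m → ℕ × ℕ

/-- the first pair and the others -/
def pc {m : ℕ} (u v : ℕ) (w : Pt m) : Pt (m + 1) := Fin.cons (α := fun _ => ℕ × ℕ) (u, v) w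

/-- the mean value over a box -/
noncomputable def avgM (N : ℕ) : (m : ℕ) → (Pt m → ℝ) → ℝ
  | 0, F => F Fin.elim0
  | m + 1, F => avg2 N (fun u v => avgM N m (fun w => F (pc u v w)))

/-- the mean value over a period -/
noncomputable def avgPM (M : ℕ) : (m : ℕ) → (Pt m → ℝ) → ℝ
  | 0, F => F Fin.elim0
  | m + 1, F => avgP2 M (fun u v => avgPM M m (fun w => F (pc u v w)))

/-- periodic modulo `M` in all variables -/
def PerM {m : ℕ} (M : ℕ) (F : Pt m → ℝ) : Prop :=
  ∀ (j : Fin m) (w : Pt m), F (Function.update w j ((w j).1 + M, (w j).2)) = F w ∧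
    F (Function.update w j ((w j).1, (w j).2 + M)) = F w

lemma PerM.tail {m M : ℕ} {F : Pt (m + 1) → ℝ} (h : PerM M F) (u v : ℕ) :
    PerM M (fun w => F (pc u v w)) := by
  intro j w
  have h1 := h j.succ (pc u v w)
  have e : (pc u v w) j.succ = w j := Fin.cons_succ _ _ _
  rw [e] at h1
  unfold pc at h1 ⊢
  rw [← Fin.cons_update, ← Fin.cons_update] at h1
  exact h1

lemma PerM.head {m M : ℕ} {F : Pt (m + 1) → ℝ} (h : PerM M F) (w : Pt m) :
    Per M (fun u v => F (pc u v w)) := by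
  have key : ∀ u v, F (pc (u + M) v w) = F (pc u v w) ∧ F (pc u (v + M) w) = F (pc u v w) := by
    intro u v
    have h1 := h 0 (pc u v w)
    have e : (pc u v w) 0 = (u, v) := Fin.cons_zero _ _
    rw [e] at h1
    unfold pc at h1 ⊢
    rw [Fin.update_cons_zero, Fin.update_cons_zero] at h1
    exact h1
  exact ⟨fun u v => (key u v).1, fun u v => (key u v).2⟩

lemma avgM_sum {ι : Type*} (N : ℕ) (s : Finset ι) : ∀ (m : ℕ) (F : ι → Pt m → ℝ),
    avgM N m (fun w => ∑ i ∈ s, F i w) = ∑ i ∈ s, avgM N m (F i)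
  | 0, F => rfl
  | m + 1, F => by
    show avg2 N (fun u v => avgM N m (fun w => ∑ i ∈ s, F i (pc u v w))) = _
    simp only [avgM_sum N s m]
    exact avg2_sum N s _

lemma avgPM_sum {ι : Type*} (N : ℕ) (s : Finset ι) : ∀ (m : ℕ) (F : ι → Pt m → ℝ),
    avgPM N m (fun w => ∑ i ∈ s, F i w) = ∑ i ∈ s, avgPM N m (F i)
  | 0, F => rfl
  | m + 1, F => by
    show avgP2 N (fun u v => avgPM N m (fun w => ∑ i ∈ s, F i (pc u v w))) = _
    simp only [avgPM_sum N s m]
    exact avgP2_sum N s _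

lemma avgM_mul_left (N : ℕ) (c : ℝ) : ∀ (m : ℕ) (F : Pt m → ℝ),
    avgM N m (fun w => c * F w) = c * avgM N m F
  | 0, F => rfl
  | m + 1, F => by
    show avg2 N (fun u v => avgM N m (fun w => c * F (pc u v w))) = _
    simp only [avgM_mul_left N c m]
    exact avg2_mul_left N c _

lemma avgPM_mul_left (N : ℕ) (c : ℝ) : ∀ (m : ℕ) (F : Pt m → ℝ),
    avgPM N m (fun w => c * F w) = c * avgPM N m F
  | 0, F => rfl
  | m + 1, F => by
    show avgP2 N (fun u v => avgPM N m (fun w => c * F (pc u v w))) = _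
    simp only [avgPM_mul_left N c m]
    exact avgP2_mul_left N c _

lemma avgPM_add (N : ℕ) : ∀ (m : ℕ) (F G : Pt m → ℝ),
    avgPM N m (fun w => F w + G w) = avgPM N m F + avgPM N m G
  | 0, F, G => rfl
  | m + 1, F, G => by
    show avgP2 N (fun u v => avgPM N m (fun w => F (pc u v w) + G (pc u v w))) = _
    simp only [avgPM_add N m]
    exact avgP2_add N _ _

lemma avgM_mono (N : ℕ) : ∀ (m : ℕ) (F G : Pt m → ℝ), (∀ w, F w ≤ G w) →
    avgM N m F ≤ avgM N m G
  | 0, F, G, h => h _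
  | m + 1, F, G, h => avg2_mono _ _ fun u v => avgM_mono N m _ _ fun w => h _

lemma avgPM_mono (N : ℕ) : ∀ (m : ℕ) (F G : Pt m → ℝ), (∀ w, F w ≤ G w) →
    avgPM N m F ≤ avgPM N m G
  | 0, F, G, h => h _
  | m + 1, F, G, h => avgP2_mono _ _ fun u v => avgPM_mono N m _ _ fun w => h _

lemma avg2_const {N : ℕ} (hN : 0 < N) (c : ℝ) : avg2 N (fun _ _ => c) = c := by
  unfold avg2
  rw [avg_const hN, avg_const hN]

lemma avgP2_const {N : ℕ} (hN : 0 < N) (c : ℝ) : avgP2 N (fun _ _ => c) = c := by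
  unfold avgP2
  rw [avgP_const hN, avgP_const hN]

lemma avgM_const {N : ℕ} (hN : 0 < N) (c : ℝ) : ∀ m : ℕ, avgM N m (fun _ => c) = c
  | 0 => rfl
  | m + 1 => by
    show avg2 N (fun u v => avgM N m (fun _ => c)) = c
    rw [avgM_const hN c m, avg2_const hN]

lemma avgPM_const {N : ℕ} (hN : 0 < N) (c : ℝ) : ∀ m : ℕ, avgPM N m (fun _ => c) = c
  | 0 => rfl
  | m + 1 => by
    show avgP2 N (fun u v => avgPM N m (fun _ => c)) = c
    rw [avgPM_const hN c m, avgP2_const hN]

lemma abs_avgPM_le {N : ℕ} (hN : 0 < N) (m : ℕ) (F : Pt m → ℝ) {B : ℝ} (h : ∀ w, |F w| ≤ B) :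
    |avgPM N m F| ≤ B := by
  rw [abs_le]
  constructor
  · rw [← avgPM_const hN (-B) m]
    exact avgPM_mono N m _ _ fun w => (abs_le.1 (h w)).1
  · rw [← avgPM_const hN B m]
    exact avgPM_mono N m _ _ fun w => (abs_le.1 (h w)).2

lemma PerM.avg {m M : ℕ} {F : Pt (m + 1) → ℝ} (h : PerM M F) (K : ℕ) :
    Per M (fun u v => avgPM K m (fun w => F (pc u v w))) := by
  constructor
  · intro u v
    show avgPM K m (fun w => F (pc (u + M) v w)) = avgPM K m (fun w => F (pc u v w))
    congr 1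
    funext w
    exact (h.head w).1 u v
  · intro u v
    show avgPM K m (fun w => F (pc u (v + M) w)) = avgPM K m (fun w => F (pc u v w))
    congr 1
    funext w
    exact (h.head w).2 u v

lemma avgPM_dvd {M M' : ℕ} (hd : M ∣ M') (h0 : M' ≠ 0) : ∀ (m : ℕ) (F : Pt m → ℝ), PerM M F →
    avgPM M' m F = avgPM M m F
  | 0, F, _ => rfl
  | m + 1, F, h => by
    show avgP2 M' (fun u v => avgPM M' m (fun w => F (pc u v w))) =
      avgP2 M (fun u v => avgPM M m (fun w => F (pc u v w)))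
    have e : (fun u v => avgPM M' m (fun w => F (pc u v w))) =
        fun u v => avgPM M m (fun w => F (pc u v w)) := by
      funext u v
      exact avgPM_dvd hd h0 m _ (h.tail u v)
    rw [e]
    exact avgP2_dvd (h.avg M) hd h0

/-- box and period -/
lemma boxM {M N : ℕ} (hM : 0 < M) (hN : 0 < N) {B : ℝ} (hB : 0 ≤ B) : ∀ (m : ℕ) (F : Pt m → ℝ),
    PerM M F → (∀ w, |F w| ≤ B) → |avgM N m F - avgPM M m F| ≤ B * (m * (4 * M / N))
  | 0, F, _, _ => by
    show |F Fin.elim0 - F Fin.elim0| ≤ _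
    simp
  | m + 1, F, h, hF => by
    have h1 : |avg2 N (fun u v => avgM N m (fun w => F (pc u v w))) -
        avg2 N (fun u v => avgPM M m (fun w => F (pc u v w)))| ≤ B * (m * (4 * M / N)) := by
      have h2 : avg2 N (fun u v => avgM N m (fun w => F (pc u v w))) -
          avg2 N (fun u v => avgPM M m (fun w => F (pc u v w))) =
          avg2 N (fun u v => avgM N m (fun w => F (pc u v w)) -
            avgPM M m (fun w => F (pc u v w))) := by
        have e : (fun u v => avgM N m (fun w => F (pc u v w)) - avgPM M m (fun w => F (pc u v w))) =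
            fun u v => ∑ i ∈ (univ : Finset Bool), (fun (i : Bool) (u v : ℕ) =>
              if i then avgM N m (fun w => F (pc u v w)) else
                (-1) * avgPM M m (fun w => F (pc u v w))) i u v := by
          funext u v
          simp [sub_eq_add_neg]
        rw [e, avg2_sum]
        simp only [Fintype.univ_bool, mem_singleton, Bool.true_eq_false, not_false_eq_true,
          sum_insert, sum_singleton, if_true, Bool.false_eq_true, if_false]
        rw [avg2_mul_left]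
        ring
      rw [h2, abs_le]
      constructor
      · rw [← avg2_const hN (-(B * (m * (4 * M / N))))]
        exact avg2_mono _ _ fun u v => (abs_le.1 (boxM hM hN hB m _ (h.tail u v) fun w => hF _)).1
      · rw [← avg2_const hN (B * (m * (4 * M / N)))]
        exact avg2_mono _ _ fun u v => (abs_le.1 (boxM hM hN hB m _ (h.tail u v) fun w => hF _)).2
    have h3 := box (h.avg M) hM hN hB (fun u v => abs_avgPM_le hM m _ fun w => hF _)
    show |avg2 N (fun u v => avgM N m (fun w => F (pc u v w))) -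
      avgP2 M (fun u v => avgPM M m (fun w => F (pc u v w)))| ≤ _
    refine (abs_sub_le _ _ _).trans ((add_le_add h1 h3).trans (le_of_eq ?_))
    push_cast
    ring

/-- product formula -/
lemma avgPM_prod (T : Finset ℕ) (hT : ∀ p ∈ T, p.Prime) : ∀ (m : ℕ) (h : ℕ → Pt m → ℝ),
    (∀ p ∈ T, PerM p (h p)) →
    avgPM (∏ p ∈ T, p) m (fun w => ∏ p ∈ T, h p w) = ∏ p ∈ T, avgPM p m (h p)
  | 0, h, _ => rfl
  | m + 1, h, hh => by
    show avgP2 (∏ p ∈ T, p) (fun u v => avgPM (∏ p ∈ T, p) m (fun w => ∏ p ∈ T, h p (pc u v w))) = _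
    have e : (fun u v => avgPM (∏ p ∈ T, p) m (fun w => ∏ p ∈ T, h p (pc u v w))) =
        fun u v => ∏ p ∈ T, (fun (p u v : ℕ) => avgPM p m (fun w => h p (pc u v w))) p u v := by
      funext u v
      exact avgPM_prod T hT m (fun p w => h p (pc u v w)) fun p hp => (hh p hp).tail u v
    rw [e, avgP2_prod T hT _ fun p hp => (hh p hp).avg p]
    rfl

/-- independence of the pairs -/
lemma avgPM_indep (M : ℕ) : ∀ (m : ℕ) (g : Fin m → ℕ → ℕ → ℝ),
    avgPM M m (fun w => ∏ j, g j (w j).1 (w j).2) = ∏ j, avgP2 M (g j)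
  | 0, g => by
    show (∏ j : Fin 0, _) = ∏ j : Fin 0, _
    simp
  | m + 1, g => by
    show avgP2 M (fun u v => avgPM M m (fun w => ∏ j, g j ((pc u v w) j).1 ((pc u v w) j).2)) = _
    have e : (fun u v => avgPM M m (fun w => ∏ j, g j ((pc u v w) j).1 ((pc u v w) j).2)) =
        fun u v => (∏ j : Fin m, avgP2 M (g j.succ)) * g 0 u v := by
      funext u v
      have e1 : (fun w : Pt m => ∏ j, g j ((pc u v w) j).1 ((pc u v w) j).2) =
          fun w => g 0 u v * ∏ j : Fin m, (fun j => g j.succ) j (w j).1 (w j).2 := by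
        funext w
        rw [Fin.prod_univ_succ]
        rfl
      rw [e1, avgPM_mul_left, avgPM_indep M m (fun j => g j.succ), mul_comm]
    rw [e, avgP2_mul_left, Fin.prod_univ_succ, mul_comm]

/-- the box -/
def BX (m N : ℕ) : Finset (Pt m) := Fintype.piFinset fun _ => Icc 1 N ×ˢ Icc 1 N

lemma mem_BX {m N : ℕ} {w : Pt m} : w ∈ BX m N ↔
    ∀ j, (1 ≤ (w j).1 ∧ (w j).1 ≤ N) ∧ 1 ≤ (w j).2 ∧ (w j).2 ≤ N := by
  unfold BX
  rw [Fintype.mem_piFinset]
  refine forall_congr' fun j => ?_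
  rw [mem_product, mem_Icc, mem_Icc]

lemma card_BX (m N : ℕ) : #(BX m N) = N ^ (2 * m) := by
  unfold BX
  rw [Fintype.card_piFinset]
  simp only [card_product, Nat.card_Icc, Nat.add_sub_cancel, prod_const, card_univ, Fintype.card_fin]
  rw [pow_mul, sq]

lemma sum_BX_succ (m N : ℕ) (F : Pt (m + 1) → ℝ) : ∑ w ∈ BX (m + 1) N, F w =
    ∑ u ∈ Icc 1 N, ∑ v ∈ Icc 1 N, ∑ w ∈ BX m N, F (pc u v w) := by
  rw [← Finset.sum_product' (Icc 1 N) (Icc 1 N) (fun u v => ∑ w ∈ BX m N, F (pc u v w)),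
    ← Finset.sum_product' (Icc 1 N ×ˢ Icc 1 N) (BX m N) (fun z w => F (pc z.1 z.2 w))]
  symm
  refine Finset.sum_bij' (fun z _ => pc z.1.1 z.1.2 z.2) (fun w _ => (w 0, fun j => w j.succ))
    ?_ ?_ ?_ ?_ ?_
  · rintro ⟨⟨u, v⟩, w⟩ h
    rw [mem_product, mem_product, mem_Icc, mem_Icc, mem_BX] at h
    rw [mem_BX]
    intro j
    refine Fin.cases ?_ (fun j => ?_) j
    · exact h.1
    · exact h.2 j
  · intro w h
    rw [mem_BX] at h
    rw [mem_product, mem_product, mem_Icc, mem_Icc, mem_BX]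
    exact ⟨h 0, fun j => h j.succ⟩
  · rintro ⟨⟨u, v⟩, w⟩ _
    rfl
  · intro w _
    exact Fin.cons_self_tail w
  · intro z _
    rfl

lemma avgM_eq (N : ℕ) : ∀ (m : ℕ) (F : Pt m → ℝ),
    avgM N m F = (∑ w ∈ BX m N, F w) / (N : ℝ) ^ (2 * m)
  | 0, F => by
    have e : BX 0 N = {Fin.elim0} := by
      ext w
      rw [mem_BX, mem_singleton]
      exact ⟨fun _ => Subsingleton.elim _ _, fun _ j => j.elim0⟩
    rw [e, sum_singleton]
    simp [avgM]
  | m + 1, F => by
    show avg2 N (fun u v => avgM N m (fun w => F (pc u v w))) = _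
    simp only [avgM_eq N m]
    rw [avg2_eq, sum_BX_succ]
    simp only [← Finset.sum_div]
    rw [div_div, ← pow_add]
    congr 2

/-- Hoeffding's inequality for one centred bounded variable -/
lemma hoeffding_oneM {p : ℕ} (hp : 0 < p) {m : ℕ} {X : Pt m → ℝ} {b : ℝ} (hb : 0 ≤ b)
    (hX : ∀ w, |X w| ≤ b) (hm : avgPM p m X = 0) (t : ℝ) :
    avgPM p m (fun w => Real.exp (t * X w)) ≤ Real.exp (t ^ 2 * b ^ 2 / 2) := by
  have hc := fun c : ℝ => avgPM_const hp c m
  rcases hb.eq_or_lt with rfl | hb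
  · have h0 : X = fun _ => 0 := by
      funext w
      exact abs_nonpos_iff.1 (hX w)
    rw [h0]
    simp only [mul_zero, Real.exp_zero]
    rw [hc]
    simp
  have h1 : ∀ w, Real.exp (t * X w) ≤ Real.cosh (t * b) + (Real.sinh (t * b) / b) * X w := by
    intro w
    have h2 := abs_le.1 (hX w)
    set l := (1 + X w / b) / 2 with hl
    have hl0 : 0 ≤ l := by
      rw [hl]
      have : -1 ≤ X w / b := by rw [le_div_iff₀ hb]; linarith
      linarith
    have hl1 : 0 ≤ 1 - l := by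
      rw [hl]
      have : X w / b ≤ 1 := by rw [div_le_iff₀ hb]; linarith
      linarith
    have h3 := convexOn_exp.2 (Set.mem_univ (t * b)) (Set.mem_univ (-(t * b))) hl0 hl1 (by ring)
    simp only [smul_eq_mul] at h3
    have h4 : l * (t * b) + (1 - l) * -(t * b) = t * X w := by
      rw [hl]
      field_simp
      ring
    rw [h4] at h3
    refine h3.trans (le_of_eq ?_)
    rw [Real.cosh_eq, Real.sinh_eq, hl]
    field_simp
    ring
  refine (avgPM_mono p m _ _ h1).trans ?_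
  rw [avgPM_add, hc, avgPM_mul_left, hm, mul_zero, add_zero]
  refine (Real.cosh_le_exp_half_sq _).trans (le_of_eq ?_)
  rw [mul_pow]

lemma exp_leM {m : ℕ} (I : Finset ℕ) (hI : ∀ p ∈ I, p.Prime) {X : ℕ → Pt m → ℝ} {b : ℕ → ℝ}
    (hb : ∀ p, 0 ≤ b p) (hper : ∀ p ∈ I, PerM p (X p)) (hX : ∀ p ∈ I, ∀ w, |X p w| ≤ b p)
    (hm : ∀ p ∈ I, avgPM p m (X p) = 0) (t : ℝ) :
    avgPM (∏ p ∈ I, p) m (fun w => Real.exp (t * ∑ p ∈ I, X p w)) ≤
      Real.exp (t ^ 2 * Wt b I / 2) := by
  have e : (fun w => Real.exp (t * ∑ p ∈ I, X p w)) =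
      fun w => ∏ p ∈ I, (fun p w => Real.exp (t * X p w)) p w := by
    funext w
    rw [Finset.mul_sum, Real.exp_sum]
  rw [e, avgPM_prod I hI m _ (fun p hp j w => ⟨congrArg (fun z => Real.exp (t * z))
    ((hper p hp j w).1), congrArg (fun z => Real.exp (t * z)) ((hper p hp j w).2)⟩)]
  refine (Finset.prod_le_prod (fun p _ => ?_) (fun p hp =>
    hoeffding_oneM (hI p hp).pos (hb p) (hX p hp) (hm p hp) t)).trans (le_of_eq ?_)
  · by_cases hp0 : 0 < p
    · rw [← avgPM_const hp0 0 m]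
      exact avgPM_mono p m _ _ fun w => (Real.exp_pos _).le
    · have : p = 0 := by omega
      subst this
      have h0 : ∀ (m : ℕ) (G : Pt m → ℝ), (∀ w, 0 ≤ G w) → 0 ≤ avgPM 0 m G := by
        intro m
        induction m with
        | zero => intro G hG; exact hG _
        | succ m ih =>
          intro G hG
          show 0 ≤ avgP2 0 _
          unfold avgP2
          exact avgP_nonneg' _ fun u => avgP_nonneg' _ fun v => ih _ fun w => hG _
      exact h0 m _ fun w => (Real.exp_pos _).le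
  · rw [← Real.exp_sum]
    congr 1
    unfold Wt
    rw [Finset.mul_sum, Finset.sum_div]

/-- moments over a full period -/
lemma moment_periodM {k : ℕ} (I : Finset ℕ) (hI : ∀ p ∈ I, p.Prime) {X : ℕ → Pt k → ℝ} {b : ℕ → ℝ}
    (hb : ∀ p, 0 ≤ b p) (hper : ∀ p ∈ I, PerM p (X p)) (hX : ∀ p ∈ I, ∀ w, |X p w| ≤ b p)
    (hm : ∀ p ∈ I, avgPM p k (X p) = 0) (m : ℕ) (hm1 : 1 ≤ m) :
    avgPM (∏ p ∈ I, p) k (fun w => (∑ p ∈ I, X p w) ^ (2 * m)) ≤
      4 * (2 * m).factorial * Wt b I ^ m := by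
  have hQ0 : 0 < ∏ p ∈ I, p := Finset.prod_pos fun p hp => (hI p hp).pos
  rcases (Wt_nonneg b I).eq_or_lt with h0 | h0
  · have hz : ∀ p ∈ I, b p = 0 := by
      intro p hp
      have := (Finset.sum_eq_zero_iff_of_nonneg (fun p _ => sq_nonneg (b p))).1 h0.symm p hp
      exact pow_eq_zero_iff two_ne_zero |>.1 this
    have e : (fun w => (∑ p ∈ I, X p w) ^ (2 * m)) = fun _ => (0 : ℝ) := by
      funext w
      rw [Finset.sum_eq_zero (fun p hp => ?_), zero_pow (by omega)]
      have := hX p hp w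
      rw [hz p hp] at this
      exact abs_nonpos_iff.1 this
    rw [e, ← h0, zero_pow (by omega), avgPM_const hQ0]
    simp
  set s := Real.sqrt (Wt b I) with hs
  have hs0 : 0 < s := Real.sqrt_pos.2 h0
  have hs2 : s ^ 2 = Wt b I := Real.sq_sqrt h0.le
  have h1 : ∀ w, (∑ p ∈ I, X p w) ^ (2 * m) ≤ (Wt b I ^ m * (2 * m).factorial) *
      (Real.exp (s⁻¹ * ∑ p ∈ I, X p w) + Real.exp (-s⁻¹ * ∑ p ∈ I, X p w)) := by
    intro w
    have h2 := pow_le_exp (s⁻¹ * ∑ p ∈ I, X p w) m
    have h3 : (∑ p ∈ I, X p w) ^ (2 * m) = Wt b I ^ m * (s⁻¹ * ∑ p ∈ I, X p w) ^ (2 * m) := by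
      rw [mul_pow, ← hs2, ← pow_mul, ← mul_assoc, ← mul_pow, mul_inv_cancel₀ hs0.ne', one_pow, one_mul]
    rw [h3, mul_assoc, neg_mul]
    exact mul_le_mul_of_nonneg_left h2 (by positivity)
  refine (avgPM_mono _ k _ _ h1).trans ?_
  rw [avgPM_mul_left, avgPM_add]
  have h4 := exp_leM I hI hb hper hX hm s⁻¹
  have h5 := exp_leM I hI hb hper hX hm (-s⁻¹)
  have h6 : s⁻¹ ^ 2 * Wt b I / 2 = 1 / 2 := by
    rw [← hs2, ← mul_pow, inv_mul_cancel₀ hs0.ne', one_pow]
  have h6' : (-s⁻¹) ^ 2 * Wt b I / 2 = 1 / 2 := by rw [neg_sq, h6]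
  rw [h6] at h4
  rw [h6'] at h5
  have h7 : Real.exp (1 / 2) ≤ 2 := by
    have h8 : Real.exp (1 / 2) ^ 2 ≤ 2 ^ 2 := by
      rw [← Real.exp_nat_mul]
      have := Real.exp_one_lt_d9
      norm_num
      linarith
    exact le_of_sq_le_sq h8 (by norm_num)
  have h8 : (0 : ℝ) ≤ Wt b I ^ m * (2 * m).factorial := by positivity
  calc (Wt b I ^ m * (2 * m).factorial) * _ ≤ (Wt b I ^ m * (2 * m).factorial) * (2 + 2) :=
        mul_le_mul_of_nonneg_left (add_le_add (h4.trans h7) (h5.trans h7)) h8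
    _ = _ := by ring

/-- **All even moments over a box.** -/
theorem moment_boxM {k : ℕ} (I : Finset ℕ) (hI : ∀ p ∈ I, p.Prime) {X : ℕ → Pt k → ℝ} {b : ℕ → ℝ}
    (hb : ∀ p, 0 ≤ b p) (hper : ∀ p ∈ I, PerM p (X p)) (hX : ∀ p ∈ I, ∀ w, |X p w| ≤ b p)
    (hm : ∀ p ∈ I, avgPM p k (X p) = 0) (m : ℕ) (hm1 : 1 ≤ m) {x N : ℕ} (hx : ∀ p ∈ I, p ≤ x)
    (hN : 0 < N) (hxN : x ^ (3 * m) ≤ N) :
    avgM N k (fun w => (∑ p ∈ I, X p w) ^ (2 * m)) ≤
      (4 * (2 * m).factorial + 4 * k) * Wt b I ^ m := by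
  classical
  set Q := ∏ p ∈ I, p with hQ
  have hQ0 : 0 < Q := Finset.prod_pos fun p hp => (hI p hp).pos
  have hN0 : (0 : ℝ) < N := by exact_mod_cast hN
  set A := Fintype.piFinset (fun _ : Fin (2 * m) => I) with hA
  have hexp : ∀ (Y : ℕ → ℝ), (∑ p ∈ I, Y p) ^ (2 * m) = ∑ v ∈ A, ∏ i, Y (v i) := by
    intro Y
    have := Finset.prod_univ_sum (fun _ : Fin (2 * m) => I) (fun _ (q : ℕ) => Y q)
    rw [hA, ← this]
    simp
  have e : (fun w => (∑ p ∈ I, X p w) ^ (2 * m)) =
      fun w => ∑ z ∈ A, (fun (z : Fin (2 * m) → ℕ) (w : Pt k) => ∏ i, X (z i) w) z w := by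
    funext w
    exact hexp (fun p => X p w)
  have key : ∀ z ∈ A, |avgM N k (fun w => ∏ i, X (z i) w) -
      avgPM Q k (fun w => ∏ i, X (z i) w)| ≤ (∏ i, b (z i)) * (k * (4 * (x : ℝ) ^ (2 * m) / N)) := by
    intro z hz
    rw [hA, Fintype.mem_piFinset] at hz
    set T := (univ : Finset (Fin (2 * m))).image z with hT
    have hTI : T ⊆ I := by
      intro p hp
      rw [hT, mem_image] at hp
      obtain ⟨i, _, rfl⟩ := hp
      exact hz i
    set M := ∏ p ∈ T, p with hM
    have hdvd : ∀ i, z i ∣ M := fun i =>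
      Finset.dvd_prod_of_mem _ (Finset.mem_image_of_mem z (mem_univ i))
    have hperM : PerM M (fun w => ∏ i, X (z i) w) := by
      intro j w
      have hone : ∀ (p K : ℕ), p ∣ K → p ∈ I → X p (Function.update w j ((w j).1 + K, (w j).2)) = X p w ∧
          X p (Function.update w j ((w j).1, (w j).2 + K)) = X p w := by
        rintro p K ⟨l, rfl⟩ hp
        constructor
        · induction l with
          | zero => simp
          | succ l ih =>
            have h2 := (hper p hp j (Function.update w j ((w j).1 + p * l, (w j).2))).1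
            rw [Function.update_self, Function.update_idem] at h2
            rw [← ih, ← h2]
            congr 2
            refine Prod.ext ?_ rfl
            show (w j).1 + p * (l + 1) = (w j).1 + p * l + p
            ring
        · induction l with
          | zero => simp
          | succ l ih =>
            have h2 := (hper p hp j (Function.update w j ((w j).1, (w j).2 + p * l))).2
            rw [Function.update_self, Function.update_idem] at h2
            rw [← ih, ← h2]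
            congr 2
            refine Prod.ext rfl ?_
            show (w j).2 + p * (l + 1) = (w j).2 + p * l + p
            ring
      constructor
      · exact Finset.prod_congr rfl fun i _ => (hone _ M (hdvd i) (hz i)).1
      · exact Finset.prod_congr rfl fun i _ => (hone _ M (hdvd i) (hz i)).2
    have hMQ : M ∣ Q := Finset.prod_dvd_prod_of_subset _ _ _ hTI
    have hM0 : 0 < M := Finset.prod_pos fun p hp => (hI p (hTI hp)).pos
    have i0 : Fin (2 * m) := ⟨0, by omega⟩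
    have hx1' : 1 ≤ x := (hI _ (hz i0)).one_le.trans (hx _ (hz i0))
    have hMx : M ≤ x ^ (2 * m) := by
      calc M ≤ ∏ _p ∈ T, x := Finset.prod_le_prod' fun p hp => hx p (hTI hp)
        _ = x ^ #T := by simp
        _ ≤ x ^ (2 * m) := Nat.pow_le_pow_right hx1' (by
          calc #T ≤ #(univ : Finset (Fin (2 * m))) := Finset.card_image_le
            _ = 2 * m := by simp)
    have hB : ∀ w, |∏ i, X (z i) w| ≤ ∏ i, b (z i) := by
      intro w
      rw [Finset.abs_prod]
      exact Finset.prod_le_prod (fun _ _ => abs_nonneg _) fun i _ => hX _ (hz i) w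
    rw [avgPM_dvd hMQ hQ0.ne' k _ hperM]
    have hB0 : 0 ≤ ∏ i, b (z i) := Finset.prod_nonneg fun i _ => hb _
    refine (boxM hM0 hN hB0 k _ hperM hB).trans (mul_le_mul_of_nonneg_left ?_ hB0)
    have h1 : (M : ℝ) ≤ (x : ℝ) ^ (2 * m) := by exact_mod_cast hMx
    gcongr
  have h1 : |avgM N k (fun w => (∑ p ∈ I, X p w) ^ (2 * m)) -
      avgPM Q k (fun w => (∑ p ∈ I, X p w) ^ (2 * m))| ≤
      (∑ p ∈ I, b p) ^ (2 * m) * (k * (4 * (x : ℝ) ^ (2 * m) / N)) := by
    rw [e, avgM_sum, avgPM_sum, ← Finset.sum_sub_distrib, hexp b, Finset.sum_mul]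
    exact (Finset.abs_sum_le_sum_abs _ _).trans (Finset.sum_le_sum key)
  have h2 := moment_periodM I hI hb hper hX hm m hm1
  have hbs : 0 ≤ ∑ p ∈ I, b p := Finset.sum_nonneg fun p _ => hb p
  have hcard : (#I : ℝ) ≤ x := by
    have : I ⊆ Icc 1 x := fun p hp => mem_Icc.2 ⟨(hI p hp).one_le, hx p hp⟩
    have := card_le_card this
    rw [Nat.card_Icc, Nat.add_sub_cancel] at this
    exact_mod_cast this
  have h3 : (∑ p ∈ I, b p) ^ (2 * m) ≤ (x : ℝ) ^ m * Wt b I ^ m := by
    have h4 := sq_sum_le_card_mul_sum_sq (s := I) (f := b)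
    rw [pow_mul, ← mul_pow]
    refine pow_le_pow_left₀ (sq_nonneg _) (h4.trans ?_) m
    exact mul_le_mul_of_nonneg_right hcard (Wt_nonneg b I)
  have h4 : (∑ p ∈ I, b p) ^ (2 * m) * (k * (4 * (x : ℝ) ^ (2 * m) / N)) ≤ 4 * k * Wt b I ^ m := by
    calc (∑ p ∈ I, b p) ^ (2 * m) * (k * (4 * (x : ℝ) ^ (2 * m) / N))
        ≤ ((x : ℝ) ^ m * Wt b I ^ m) * (k * (4 * (x : ℝ) ^ (2 * m) / N)) := by gcongr
      _ = 4 * k * Wt b I ^ m * ((x : ℝ) ^ (3 * m) / N) := by
          rw [show 3 * m = m + 2 * m by ring, pow_add]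
          ring
      _ ≤ 4 * k * Wt b I ^ m * 1 := by
          refine mul_le_mul_of_nonneg_left ?_ (by have := Wt_nonneg b I; positivity)
          rw [div_le_one hN0]
          exact_mod_cast hxN
      _ = _ := mul_one _
  have h5 := (abs_le.1 h1).2
  rw [add_mul]
  linarith

end Pool.Agent.N430.BP
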