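import Pool.Agent.N430.BP.Loc

set_option autoImplicit false

/-! Decomposition of the logarithm of the local factor. -/

namespace Pool.Agent.N430.BP

open Finset Polynomial Pool.Agent.R410.NG Pool.Agent.N430.CLT

/-- hypotheses on the family -/
structure Hyp (a b c : ℤ[X]) : Prop where
  monic : c.Monic
  odd : Odd c.natDegree
  ha : a.natDegree + 2 < c.natDegree
  hb : b.natDegree + 1 < c.natDegree
  disc : b ^ 2 - 4 * a * c ≠ 0

section
variable {a b c : ℤ[X]} (h : Hyp a b c)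
include h

lemma fam_bound {p : ℕ} (hp : p.Prime) {k : ℕ} (hk : k ≠ 0) (u v : ℤ) :
    |tr (fam a b c u v) p k| ≤ c.natDegree * √((p : ℝ) ^ k) := by
  have : Fact p.Prime := ⟨hp⟩
  have h1 := fam_monic h.monic h.ha h.hb u v
  exact tr_bound h1.1 h1.2 h.odd hk

lemma mean_bound {p : ℕ} (hp : p.Prime) {k : ℕ} (hk : k ≠ 0) :
    |avgP2 p (fun u v : ℕ => tr (fam a b c u v) p k)| ≤ c.natDegree * √((p : ℝ) ^ k) := by
  have h0 : ∀ z : ℝ, avgP2 p (fun _ _ => z) = z := fun z => by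
    unfold avgP2
    rw [avgP_const hp.pos, avgP_const hp.pos]
  rw [abs_le]
  constructor
  · rw [← h0 (-(c.natDegree * √((p : ℝ) ^ k)))]
    exact avgP2_mono _ _ fun u v => (abs_le.1 (fam_bound h hp hk u v)).1
  · rw [← h0 (c.natDegree * √((p : ℝ) ^ k))]
    exact avgP2_mono _ _ fun u v => (abs_le.1 (fam_bound h hp hk u v)).2

lemma mean_two_all : ∃ C : ℝ, 0 ≤ C ∧ ∀ p : ℕ, p.Prime → p ≠ 2 →
    |avgP2 p (fun u v : ℕ => tr (fam a b c u v) p 2) - p| ≤ C := by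
  set D := b ^ 2 - 4 * a * c with hD
  refine ⟨(D.natDegree + 3) + (c.natDegree + 1) * (D.leadingCoeff.natAbs : ℝ), by positivity,
    fun p hp h2 => ?_⟩
  have : Fact p.Prime := ⟨hp⟩
  by_cases hm : D.map (Int.castRingHom (ZMod p)) ≠ 0
  · refine (mean_two h2 hm).trans ?_
    have : (0 : ℝ) ≤ (c.natDegree + 1) * (D.leadingCoeff.natAbs : ℝ) := by positivity
    rw [← hD]
    linarith
  · push Not at hm
    have hdvd : (p : ℤ) ∣ D.leadingCoeff := by
      have h1 := congrArg (fun q => q.coeff D.natDegree) hm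
      simp only [coeff_map, coeff_zero, eq_intCast] at h1
      exact (ZMod.intCast_zmod_eq_zero_iff_dvd _ p).1 h1
    have hle : p ≤ D.leadingCoeff.natAbs := by
      have h3 := Int.natAbs_le_of_dvd_ne_zero hdvd (leadingCoeff_ne_zero.2 h.disc)
      simpa using h3
    have h4 := mean_bound h hp two_ne_zero
    rw [Real.sqrt_sq (Nat.cast_nonneg _)] at h4
    have h5 : (p : ℝ) ≤ D.leadingCoeff.natAbs := by exact_mod_cast hle
    have h6 := abs_sub (avgP2 p (fun u v : ℕ => tr (fam a b c u v) p 2)) (p : ℝ)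
    rw [Nat.abs_cast] at h6
    have h7 : ((c.natDegree : ℝ) + 1) * p ≤ (c.natDegree + 1) * (D.leadingCoeff.natAbs : ℝ) :=
      mul_le_mul_of_nonneg_left h5 (by positivity)
    have h8 : (0 : ℝ) ≤ D.natDegree := Nat.cast_nonneg _
    linarith

end

/-- the centred local variable -/
noncomputable def XX (a b c : ℤ[X]) (p : ℕ) (u v : ℤ) : ℝ :=
  (tr (fam a b c u v) p 1 - avgP2 p (fun u v : ℕ => tr (fam a b c u v) p 1)) / p +
    (tr (fam a b c u v) p 2 - avgP2 p (fun u v : ℕ => tr (fam a b c u v) p 2)) / (2 * (p : ℝ) ^ 2)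

/-- its bound -/
noncomputable def bb (c : ℤ[X]) (p : ℕ) : ℝ := 3 * c.natDegree / √(p : ℝ)

lemma bb_nonneg (c : ℤ[X]) (p : ℕ) : 0 ≤ bb c p := by unfold bb; positivity

lemma XX_per {a b c : ℤ[X]} {p : ℕ} (hp : p.Prime) (U V : ℤ) :
    Per p (fun u v : ℕ => XX a b c p (U + u) (V + v)) := by
  have : Fact p.Prime := ⟨hp⟩
  have h1 := tr_per (p := p) (a := a) (b := b) (c := c) one_ne_zero U V
  have h2 := tr_per (p := p) (a := a) (b := b) (c := c) two_ne_zero U V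
  constructor
  · intro u v
    have e1 : tr (fam a b c (U + (u + p : ℕ)) (V + v)) p 1 = tr (fam a b c (U + u) (V + v)) p 1 :=
      h1.1 u v
    have e2 : tr (fam a b c (U + (u + p : ℕ)) (V + v)) p 2 = tr (fam a b c (U + u) (V + v)) p 2 :=
      h2.1 u v
    show XX a b c p (U + (u + p : ℕ)) (V + v) = XX a b c p (U + u) (V + v)
    unfold XX
    rw [e1, e2]
  · intro u v
    have e1 : tr (fam a b c (U + u) (V + (v + p : ℕ))) p 1 = tr (fam a b c (U + u) (V + v)) p 1 :=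
      h1.2 u v
    have e2 : tr (fam a b c (U + u) (V + (v + p : ℕ))) p 2 = tr (fam a b c (U + u) (V + v)) p 2 :=
      h2.2 u v
    show XX a b c p (U + u) (V + (v + p : ℕ)) = XX a b c p (U + u) (V + v)
    unfold XX
    rw [e1, e2]

lemma XX_mean {a b c : ℤ[X]} {p : ℕ} (hp : p.Prime) (U V : ℤ) :
    avgP2 p (fun u v : ℕ => XX a b c p (U + u) (V + v)) = 0 := by
  have : Fact p.Prime := ⟨hp⟩
  have h0 : ∀ z : ℝ, avgP2 p (fun _ _ => z) = z := fun z => by
    unfold avgP2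
    rw [avgP_const hp.pos, avgP_const hp.pos]
  have e : (fun u v : ℕ => XX a b c p (U + u) (V + v)) =
      fun u v : ℕ => (p : ℝ)⁻¹ * tr (fam a b c (U + u) (V + v)) p 1 +
      ((2 * (p : ℝ) ^ 2)⁻¹ * tr (fam a b c (U + u) (V + v)) p 2 +
      (-((p : ℝ)⁻¹ * avgP2 p (fun u v : ℕ => tr (fam a b c u v) p 1)) -
        (2 * (p : ℝ) ^ 2)⁻¹ * avgP2 p (fun u v : ℕ => tr (fam a b c u v) p 2))) := by
    funext u v
    unfold XX
    ring
  rw [e, avgP2_add, avgP2_mul_left, avgP2_add, avgP2_mul_left, h0,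
    mean_shift one_ne_zero, mean_shift two_ne_zero]
  ring

lemma XX_bound {a b c : ℤ[X]} (h : Hyp a b c) {p : ℕ} (hp : p.Prime) (u v : ℤ) :
    |XX a b c p u v| ≤ bb c p := by
  have hp0 : (0 : ℝ) < p := by exact_mod_cast hp.pos
  have hp1 : (1 : ℝ) ≤ p := by exact_mod_cast hp.one_le
  set s := √(p : ℝ) with hs
  have hs0 : 0 < s := Real.sqrt_pos.2 hp0
  have hs2 : s ^ 2 = p := Real.sq_sqrt hp0.le
  have hs1 : 1 ≤ s := Real.one_le_sqrt.2 hp1
  have h1 := fam_bound h hp one_ne_zero u v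
  have h2 := fam_bound h hp two_ne_zero u v
  have h3 := mean_bound h hp one_ne_zero
  have h4 := mean_bound h hp two_ne_zero
  rw [pow_one, ← hs] at h1 h3
  rw [Real.sqrt_sq hp0.le] at h2 h4
  set n : ℝ := ((c.natDegree : ℕ) : ℝ) with hn
  have hn0 : 0 ≤ n := Nat.cast_nonneg _
  unfold XX bb
  rw [← hs, ← hn]
  refine (abs_add_le _ _).trans ?_
  rw [abs_div, abs_div, abs_of_pos hp0, abs_of_pos (by positivity : (0 : ℝ) < 2 * (p : ℝ) ^ 2)]
  have h5 : |tr (fam a b c u v) p 1 - avgP2 p (fun u v : ℕ => tr (fam a b c u v) p 1)| / p ≤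
      2 * n / s := by
    rw [div_le_div_iff₀ hp0 hs0]
    have := (abs_sub (tr (fam a b c u v) p 1)
      (avgP2 p (fun u v : ℕ => tr (fam a b c u v) p 1))).trans (add_le_add h1 h3)
    calc _ ≤ (n * s + n * s) * s := mul_le_mul_of_nonneg_right this hs0.le
      _ = 2 * n * p := by rw [← hs2]; ring
  have h6 : |tr (fam a b c u v) p 2 - avgP2 p (fun u v : ℕ => tr (fam a b c u v) p 2)| /
      (2 * (p : ℝ) ^ 2) ≤ n / s := by
    rw [div_le_div_iff₀ (by positivity) hs0]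
    have := (abs_sub (tr (fam a b c u v) p 2)
      (avgP2 p (fun u v : ℕ => tr (fam a b c u v) p 2))).trans (add_le_add h2 h4)
    calc _ ≤ (n * p + n * p) * s := mul_le_mul_of_nonneg_right this hs0.le
      _ ≤ n * (2 * (p : ℝ) ^ 2) := by
        have h7 : s ≤ p := by nlinarith
        have h8 : 0 ≤ n * p := by positivity
        nlinarith
  calc _ ≤ 2 * n / s + n / s := add_le_add h5 h6
    _ = 3 * n / s := by ring

lemma summable_tr {a b c : ℤ[X]} (h : Hyp a b c) {p : ℕ} (hp : p.Prime) (u v : ℤ) :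
    Summable (fun k : ℕ => tr (fam a b c u v) p (k + 1) / ((k + 1 : ℕ) * (p : ℝ) ^ (k + 1))) := by
  have hp0 : (0 : ℝ) < p := by exact_mod_cast hp.pos
  have hp2 : (2 : ℝ) ≤ p := by exact_mod_cast hp.two_le
  set n : ℝ := ((c.natDegree : ℕ) : ℝ) with hn
  have hn0 : 0 ≤ n := Nat.cast_nonneg _
  set r : ℝ := (√(p : ℝ))⁻¹ with hr
  have hs0 : 0 < √(p : ℝ) := Real.sqrt_pos.2 hp0
  have hr0 : 0 < r := inv_pos.2 hs0
  have hr1 : r < 1 := by
    rw [hr]
    apply inv_lt_one_of_one_lt₀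
    rw [Real.lt_sqrt zero_le_one]
    linarith
  have hgs : Summable (fun k : ℕ => n * r ^ (k + 1)) := by
    have := (summable_geometric_of_lt_one hr0.le hr1).mul_left (n * r)
    refine this.congr fun k => ?_
    rw [pow_succ]
    ring
  refine Summable.of_norm_bounded hgs fun k => ?_
  rw [Real.norm_eq_abs]
  have h3 := fam_bound h hp (Nat.succ_ne_zero k) u v
  have hk1 : (1 : ℝ) ≤ ((k + 1 : ℕ) : ℝ) := by exact_mod_cast Nat.succ_le_succ (Nat.zero_le k)
  have hpk : (0 : ℝ) < (p : ℝ) ^ (k + 1) := by positivity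
  rw [abs_div, abs_of_pos (by positivity : (0 : ℝ) < ((k + 1 : ℕ) : ℝ) * (p : ℝ) ^ (k + 1)),
    div_le_iff₀ (by positivity)]
  refine h3.trans ?_
  have h4 : √((p : ℝ) ^ (k + 1)) = r ^ (k + 1) * (p : ℝ) ^ (k + 1) := by
    have h5 : √((p : ℝ) ^ (k + 1)) = √(p : ℝ) ^ (k + 1) := by
      rw [Real.sqrt_eq_iff_mul_self_eq (by positivity) (by positivity), ← mul_pow,
        Real.mul_self_sqrt hp0.le]
    rw [h5, ← mul_pow]
    congr 1
    rw [hr]
    nth_rewrite 3 [← Real.mul_self_sqrt hp0.le]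
    rw [← mul_assoc, inv_mul_cancel₀ hs0.ne', one_mul]
  rw [h4]
  have h5 : 0 ≤ n * (r ^ (k + 1) * (p : ℝ) ^ (k + 1)) := by positivity
  calc n * (r ^ (k + 1) * (p : ℝ) ^ (k + 1)) ≤
      n * (r ^ (k + 1) * (p : ℝ) ^ (k + 1)) * ((k + 1 : ℕ) : ℝ) := le_mul_of_one_le_right h5 hk1
    _ = _ := by ring

/-- the logarithm of the local factor -/
lemma log_dec {a b c : ℤ[X]} (h : Hyp a b c) : ∃ C : ℝ, 0 ≤ C ∧ ∀ p : ℕ, p.Prime → p ≠ 2 →
    ∀ u v : ℤ, |logFactor (fam a b c u v) p - XX a b c p u v -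
      avgP2 p (fun u v : ℕ => tr (fam a b c u v) p 1) / p - 1 / (2 * (p : ℝ))| ≤
      C * (p : ℝ) ^ (-(3 / 2) : ℝ) := by
  obtain ⟨C2, hC2, h2⟩ := mean_two_all h
  refine ⟨3 * c.natDegree + C2, by positivity, fun p hp hp2 u v => ?_⟩
  have hp0 : (0 : ℝ) < p := by exact_mod_cast hp.pos
  have hp3 : (3 : ℝ) ≤ p := by
    have : 3 ≤ p := by
      have := hp.two_le
      omega
    exact_mod_cast this
  set n : ℝ := ((c.natDegree : ℕ) : ℝ) with hn
  have hn0 : 0 ≤ n := Nat.cast_nonneg _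
  set r : ℝ := (√(p : ℝ))⁻¹ with hr
  have hs0 : 0 < √(p : ℝ) := Real.sqrt_pos.2 hp0
  have hr0 : 0 < r := inv_pos.2 hs0
  have hr23 : r ≤ 2 / 3 := by
    rw [hr, inv_le_comm₀ hs0 (by norm_num)]
    apply Real.le_sqrt_of_sq_le
    norm_num
    linarith
  have hr2 : r ^ 2 = (p : ℝ)⁻¹ := by rw [hr, inv_pow, Real.sq_sqrt hp0.le]
  have hr3 : r ^ 3 = (p : ℝ) ^ (-(3 / 2) : ℝ) := by
    rw [hr, Real.sqrt_eq_rpow, ← Real.rpow_neg hp0.le, ← Real.rpow_natCast, ← Real.rpow_mul hp0.le]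
    norm_num
  have hterm : ∀ k : ℕ, |tr (fam a b c u v) p (k + 1) / ((k + 1 : ℕ) * (p : ℝ) ^ (k + 1))| ≤
      n * r ^ (k + 1) := by
    intro k
    have h3 := fam_bound h hp (Nat.succ_ne_zero k) u v
    have hk1 : (1 : ℝ) ≤ ((k + 1 : ℕ) : ℝ) := by exact_mod_cast Nat.succ_le_succ (Nat.zero_le k)
    have hpk : (0 : ℝ) < (p : ℝ) ^ (k + 1) := by positivity
    rw [abs_div, abs_of_pos (by positivity : (0 : ℝ) < ((k + 1 : ℕ) : ℝ) * (p : ℝ) ^ (k + 1)),
      div_le_iff₀ (by positivity)]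
    refine h3.trans ?_
    have h4 : √((p : ℝ) ^ (k + 1)) = r ^ (k + 1) * (p : ℝ) ^ (k + 1) := by
      have h5 : √((p : ℝ) ^ (k + 1)) = √(p : ℝ) ^ (k + 1) := by
        rw [Real.sqrt_eq_iff_mul_self_eq (by positivity) (by positivity), ← mul_pow,
          Real.mul_self_sqrt hp0.le]
      rw [h5, ← mul_pow]
      congr 1
      rw [hr]
      nth_rewrite 3 [← Real.mul_self_sqrt hp0.le]
      rw [← mul_assoc, inv_mul_cancel₀ hs0.ne', one_mul]
    rw [h4]
    have h5 : 0 ≤ n * (r ^ (k + 1) * (p : ℝ) ^ (k + 1)) := by positivity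
    calc n * (r ^ (k + 1) * (p : ℝ) ^ (k + 1)) ≤
        n * (r ^ (k + 1) * (p : ℝ) ^ (k + 1)) * ((k + 1 : ℕ) : ℝ) := le_mul_of_one_le_right h5 hk1
      _ = _ := by ring
  have hgs : Summable (fun k : ℕ => n * r ^ (k + 1)) := by
    have := (summable_geometric_of_lt_one hr0.le (by linarith)).mul_left (n * r)
    refine this.congr fun k => ?_
    rw [pow_succ]
    ring
  have hsum : Summable (fun k : ℕ => tr (fam a b c u v) p (k + 1) /
      ((k + 1 : ℕ) * (p : ℝ) ^ (k + 1))) := by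
    refine Summable.of_norm_bounded hgs fun k => ?_
    rw [Real.norm_eq_abs]
    exact hterm k
  have hsplit := hsum.sum_add_tsum_nat_add 2
  have htail : |∑' k : ℕ, tr (fam a b c u v) p (k + 2 + 1) /
      ((k + 2 + 1 : ℕ) * (p : ℝ) ^ (k + 2 + 1))| ≤ 3 * n * r ^ 3 := by
    have hgs2 : HasSum (fun k : ℕ => n * r ^ (k + 2 + 1)) (n * r ^ 3 * (1 - r)⁻¹) := by
      have := (hasSum_geometric_of_lt_one hr0.le (by linarith : r < 1)).mul_left (n * r ^ 3)
      have e : (fun k : ℕ => n * r ^ (k + 2 + 1)) = fun k : ℕ => n * r ^ 3 * r ^ k := by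
        funext k
        rw [show k + 2 + 1 = 3 + k by ring, pow_add]
        ring
      rw [e]
      exact this
    have h5 := tsum_of_norm_bounded hgs2 (f := fun k : ℕ => tr (fam a b c u v) p (k + 2 + 1) /
      ((k + 2 + 1 : ℕ) * (p : ℝ) ^ (k + 2 + 1))) (fun k => by
        rw [Real.norm_eq_abs]; exact hterm (k + 2))
    rw [Real.norm_eq_abs] at h5
    refine h5.trans ?_
    have h6 : (1 - r)⁻¹ ≤ 3 := by
      rw [inv_le_comm₀ (by linarith) (by norm_num)]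
      linarith
    calc n * r ^ 3 * (1 - r)⁻¹ ≤ n * r ^ 3 * 3 := mul_le_mul_of_nonneg_left h6 (by positivity)
      _ = _ := by ring
  have hM2 : |(avgP2 p (fun u v : ℕ => tr (fam a b c u v) p 2) - p) / (2 * (p : ℝ) ^ 2)| ≤
      C2 * r ^ 3 := by
    rw [abs_div, abs_of_pos (by positivity : (0 : ℝ) < 2 * (p : ℝ) ^ 2), div_le_iff₀ (by positivity)]
    refine (h2 p hp hp2).trans ?_
    have h5 : 1 ≤ r ^ 3 * (2 * (p : ℝ) ^ 2) := by
      have h6 : r ^ 3 * (2 * (p : ℝ) ^ 2) = 2 * (r * p) * (r ^ 2 * p) := by ring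
      have h7 : r ^ 2 * p = 1 := by rw [hr2, inv_mul_cancel₀ hp0.ne']
      have h8 : 1 ≤ r * p := by
        rw [hr, inv_mul_eq_div, one_le_div hs0]
        have hs1 : 1 ≤ √(p : ℝ) := Real.one_le_sqrt.2 (by linarith)
        nlinarith [Real.mul_self_sqrt hp0.le]
      rw [h6, h7]
      linarith
    calc C2 = C2 * 1 := (mul_one _).symm
      _ ≤ C2 * (r ^ 3 * (2 * (p : ℝ) ^ 2)) := mul_le_mul_of_nonneg_left h5 hC2
      _ = _ := by ring
  have hkey : logFactor (fam a b c u v) p - XX a b c p u v -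
      avgP2 p (fun u v : ℕ => tr (fam a b c u v) p 1) / p - 1 / (2 * (p : ℝ)) =
      (∑' k : ℕ, tr (fam a b c u v) p (k + 2 + 1) / ((k + 2 + 1 : ℕ) * (p : ℝ) ^ (k + 2 + 1))) +
      (avgP2 p (fun u v : ℕ => tr (fam a b c u v) p 2) - p) / (2 * (p : ℝ) ^ 2) := by
    unfold logFactor
    rw [← hsplit]
    simp only [Finset.sum_range_succ, Finset.sum_range_zero]
    unfold XX
    push_cast
    field_simp
    ring
  rw [hkey, ← hr3]
  calc _ ≤ 3 * n * r ^ 3 + C2 * r ^ 3 := (abs_add_le _ _).trans (add_le_add htail hM2)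
    _ = _ := by ring

end Pool.Agent.N430.BP
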