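import Mathlib

set_option autoImplicit false

/-! Homomorphisms from finitely generated subrings of `ℚ` to fields. -/

namespace Pool.Agent.N430.BP

lemma hom_unique (A : Subalgebra ℤ ℚ) {F : Type} [Field F] (ψ₁ ψ₂ : A →+* F) : ψ₁ = ψ₂ := by
  ext a
  have e : ((a : ℚ).den : A) * a = (((a : ℚ).num : ℤ) : A) := by
    apply Subtype.ext
    push_cast
    exact Rat.den_mul_eq_num (a : ℚ)
  have h1 : (((a : ℚ).den : ℕ) : F) * ψ₁ a = (((a : ℚ).num : ℤ) : F) := by
    rw [← map_natCast ψ₁, ← map_mul, e, map_intCast]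
  have h2 : (((a : ℚ).den : ℕ) : F) * ψ₂ a = (((a : ℚ).num : ℤ) : F) := by
    rw [← map_natCast ψ₂, ← map_mul, e, map_intCast]
  have hd : (((a : ℚ).den : ℕ) : F) ≠ 0 := by
    intro h0
    rw [h0, zero_mul] at h1
    have hc : IsCoprime (a : ℚ).num ((a : ℚ).den : ℤ) := by
      rw [Int.isCoprime_iff_gcd_eq_one]
      exact (a : ℚ).reduced
    obtain ⟨x, y, hxy⟩ := hc
    have h3 := congrArg (Int.cast : ℤ → F) hxy
    push_cast at h3
    rw [← h1, h0, mul_zero, mul_zero, add_zero] at h3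
    exact zero_ne_one h3
  exact mul_left_cancel₀ hd (h1.trans h2.symm)

lemma hom_exists (A : Subalgebra ℤ ℚ) [hA : Algebra.FiniteType ℤ A] : ∃ N : ℕ, N ≠ 0 ∧
    ∀ (p : ℕ) [Fact p.Prime], ¬ p ∣ N → Nonempty (A →+* ZMod p) := by
  obtain ⟨S, hS⟩ := hA.out
  refine ⟨∏ s ∈ S, (s : ℚ).den, Finset.prod_ne_zero_iff.2 fun s _ => (s : ℚ).den_nz, ?_⟩
  intro p hp hpN
  have hpS : ∀ s ∈ S, ¬ p ∣ (s : ℚ).den := fun s hs h => hpN (h.trans (Finset.dvd_prod_of_mem _ hs))
  let φ : A →+* ℚ_[p] := (Rat.castHom ℚ_[p]).comp A.val.toRingHom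
  have hall : ∀ a : A, ‖φ a‖ ≤ 1 := by
    let P : Subalgebra ℤ A := subalgebraOfSubring ((PadicInt.subring p).comap φ)
    have h1 : Algebra.adjoin ℤ (S : Set A) ≤ P := by
      refine Algebra.adjoin_le fun s hs => ?_
      show ‖φ s‖ ≤ 1
      exact Padic.norm_rat_le_one (hpS s hs)
    intro a
    have h2 : a ∈ P := h1 (by rw [hS]; trivial)
    exact h2
  let ψ : A →+* ℤ_[p] :=
    { toFun := fun a => ⟨φ a, hall a⟩
      map_one' := Subtype.ext (map_one φ)
      map_mul' := fun a b => Subtype.ext (map_mul φ a b)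
      map_zero' := Subtype.ext (map_zero φ)
      map_add' := fun a b => Subtype.ext (map_add φ a b) }
  exact ⟨PadicInt.toZMod.comp ψ⟩

end Pool.Agent.N430.BP
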