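import Pool.Agent.N430.BP.Path
import Pool.Agent.N430.BP.HomQ
import Pool.Agent.R410.NG.CBd
import Pool.Agent.H474R2.GE.HomsUpper

set_option autoImplicit false

/-! The means of the first traces: `∑_{p ≤ x} E tr(p) / p = r log log x + O(1)`. -/

namespace Pool.Agent.N430.BP

open Finset Polynomial NumberField Pool.Agent.R410.NG Pool.Agent.N430.CLT
open Pool.Agent.R410.LW (FG)
open Pool.Agent.R410.BS (cF cF_le cB cB_nonneg)

/-- over `ℚ` -/
noncomputable abbrev toQ (a : ℤ[X]) : ℚ[X] := a.map (Int.castRingHom ℚ)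

open Classical in
/-- the rank -/
noncomputable def rk (a b c : ℤ[X]) : ℝ :=
  (Nat.card (SplT (toQ a) (toQ b) (toQ c)) : ℝ) - if toQ a ≠ 0 ∧ IsSquare (toQ a) then 1 else 0

lemma fg_Q : FG ℚ := ⟨∅, by
  rw [eq_top_iff]
  intro x _
  exact (SubfieldClass.ratCast_mem (Subfield.closure ((∅ : Finset ℚ) : Set ℚ)) x)⟩

open Classical in
/-- the asymptotic value of the sum over the whole line -/
theorem asy_fib (a b c : ℤ[X]) (hΔ : b ^ 2 - 4 * a * c ≠ 0) :
    ∃ (κ : Type) (_ : Fintype κ) (L : κ → Type) (_ : ∀ j, Field (L j)) (_ : ∀ j, NumberField (L j))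
      (α : κ → ℝ), ∑ j, α j = rk a b c ∧ ∃ (C : ℝ) (N : ℕ), 0 ≤ C ∧ N ≠ 0 ∧
      ∀ (p : ℕ) [Fact p.Prime] [Fintype (GaloisField p 1)], ¬ p ∣ N →
        |fib a b c (GaloisField p 1) / p - cF L α (GaloisField p 1)| * √(p : ℝ) ≤ C := by
  have h2M : (2 : ℚ) ≠ 0 := two_ne_zero
  have hM := fg_Q
  have hd : Algebra.trdeg ℚ ℚ = (0 : ℕ) := by
    rw [Nat.cast_zero]
    exact trdeg_eq_zero
  have hinjQ : Function.Injective (Int.castRingHom ℚ) := Int.cast_injective
  have hΔQ : (toQ b) ^ 2 - 4 * toQ a * toQ c ≠ 0 := by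
    have h1 : (b ^ 2 - 4 * a * c).map (Int.castRingHom ℚ) ≠ 0 :=
      (Polynomial.map_ne_zero_iff hinjQ).2 hΔ
    rwa [Polynomial.map_sub, Polynomial.map_mul, Polynomial.map_mul, Polynomial.map_pow,
      Polynomial.map_ofNat] at h1
  obtain ⟨A, hft, hfr, hAk, aA, bA, cA, δA, u, haA, hbA, hcA, hδA, hD, hst, hsq, hasq⟩ :=
    exists_dat (k := ℚ) hM (toQ a) (toQ b) (toQ c) hΔQ
  have hAinj : Function.Injective (algebraMap A ℚ) := IsFractionRing.injective A ℚ
  have h0 : Asy (fun F _ _ => sT wtc (gC aA bA cA) 1 F) (0 + 1) (rk a b c) := by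
    have t1 : ∀ i ∈ (Finset.univ : Finset (FT ((toQ b) ^ 2 - 4 * toQ a * toQ c))),
        Asy (S1 (AdjoinRoot.mk (δA i) (star aA cA (δA i)))) 0
          (if cnd (toQ a) (toQ c) i.1 then (1 : ℝ) else 0) := by
      intro i _
      have : Fact (Irreducible i.1) := ⟨((ft_mem hΔQ _).1 i.2).1⟩
      have h3 := asy_cov (d := 0) hM hd (hD.monic i) (hδA i) (star aA cA (δA i)) (by
        rw [hst]
        intro e1 e2
        exact hsq i ⟨e1, e2⟩)
      rw [hst] at h3
      unfold cnd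
      convert h3
    have t2 := (Asy.sum Finset.univ _ _ t1).mulq
    rw [card_spl h2M hΔQ] at t2
    have t3 : Asy (S2 aA) (0 + 1) (if toQ a ≠ 0 ∧ IsSquare (toQ a) then (1 : ℝ) else 0) := by
      by_cases h : toQ a ≠ 0 ∧ IsSquare (toQ a)
      · rw [if_pos h]
        obtain ⟨s, hs1, hs2, hs3⟩ := hasq h.1 h.2
        rw [hs1]
        exact asy_sq A hM hd s hs2 hs3
      · rw [if_neg h]
        by_cases h4 : toQ a = 0
        · have h5 : aA = 0 := by
            apply Polynomial.map_injective _ hAinj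
            rw [haA, h4, Polynomial.map_zero]
          rw [h5]
          exact asy_zero A (0 + 1)
        · exact asy_nsq A hM hd (fun h5 => h ⟨h4, h5⟩) aA haA
    have t4 := t2.add t3.neg
    rw [← sub_eq_add_neg] at t4
    refine t4.congr 2 two_ne_zero fun F _ _ h2 => ?_
    have hF := char_of h2
    let _ := Fintype.ofFinite F
    have hfA : Finite (A →+* F) := inferInstance
    let _ := Fintype.ofFinite (A →+* F)
    have hfX : Finite (A[X] →+* F) := Finite.of_equiv _ (polyEquiv (A := A) (F := F)).symm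
    have hfi : ∀ i, Finite (AdjoinRoot (δA i) →+* F) := fun i =>
      Finite.of_equiv _ (adjEquiv (F := F) (δA i)).symm
    rw [hD.sum hF, sub_eq_add_neg]
  obtain ⟨κ, iκ, L, iL, nL, α, hα, C0, N0, hC0, hN0, hasy⟩ := h0
  obtain ⟨N1, hN1, hex⟩ := hom_exists A
  have gen : ∀ (F : Type) [Field F] [Fintype F] (p : ℕ) [Fact p.Prime] [Algebra (ZMod p) F],
      Nat.card F = p → ((N0 : ℕ) : F) ≠ 0 → ¬ p ∣ N1 →
      |fib a b c F / p - cF L α F| * √(p : ℝ) ≤ C0 := by
    intro F _ _ p hp _ hcard hN0F hpN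
    have hp0 : (0 : ℝ) < p := by exact_mod_cast hp.out.pos
    have h1 : |sT wtc (gC aA bA cA) 1 F - cF L α F * (Nat.card F : ℝ) ^ (0 + 1)| *
        √(Nat.card F : ℝ) ≤ C0 * (Nat.card F : ℝ) ^ (0 + 1) := hasy F hN0F
    obtain ⟨ψ0⟩ := hex p hpN
    let ψ : A →+* F := (algebraMap (ZMod p) F).comp ψ0
    have hfA : Finite (A →+* F) := inferInstance
    let _ := Fintype.ofFinite (A →+* F)
    have hfX : Finite (A[X] →+* F) := Finite.of_equiv _ (polyEquiv (A := A) (F := F)).symm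
    have hlift : ∀ (q : ℤ[X]) (qA : A[X]), qA.map (algebraMap A ℚ) = toQ q → ∀ x : F,
        eval₂ ψ x qA = aeval x q := by
      intro q qA hq x
      have h3 : qA = q.map (Int.castRingHom A) := by
        apply Polynomial.map_injective _ hAinj
        rw [hq, Polynomial.map_map]
        congr 1
      rw [h3, eval₂_map, aeval_def]
      congr 1
      exact RingHom.ext_int _ _
    have h2 : sT wtc (gC aA bA cA) 1 F = fib a b c F := by
      rw [sT_gC, Finset.sum_eq_single ψ (fun φ _ hφ => (hφ (hom_unique A φ ψ)).elim)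
        (fun h => (h (Finset.mem_univ _)).elim)]
      unfold fibC fib
      refine Finset.sum_congr rfl fun z _ => Finset.sum_congr rfl fun x _ => ?_
      rw [hlift a aA haA, hlift b bA hbA, hlift c cA hcA]
    rw [h2, hcard, zero_add, pow_one] at h1
    have h3 : fib a b c F / p - cF L α F = (fib a b c F - cF L α F * p) / p := by
      field_simp
    rw [h3, abs_div, abs_of_pos hp0, div_mul_eq_mul_div, div_le_iff₀ hp0]
    exact h1
  refine ⟨κ, iκ, L, iL, nL, α, hα, C0, N0 * N1, hC0, mul_ne_zero hN0 hN1, ?_⟩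
  intro p hp iF hpN
  refine gen (GaloisField p 1) p ?_ ?_ (fun h => hpN (h.mul_left _))
  · rw [GaloisField.card p 1 one_ne_zero, pow_one]
  · rw [Ne, CharP.cast_eq_zero_iff (GaloisField p 1) p]
    exact fun h => hpN (h.mul_right _)

section mert

lemma homs_mertens (K : Type) [Field K] [NumberField K] : ∃ C : ℝ, 0 ≤ C ∧ ∀ w : ℝ, 3 ≤ w →
    |∑ p ∈ Pool.Agent.H474R2.PG.PR w, (Nat.card (𝓞 K →+* ZMod p) : ℝ) / (p : ℝ) -
      Real.log (Real.log w)| ≤ C := by
  obtain ⟨C1, h1⟩ := Pool.Agent.H474R2.GE.homs_upper K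
  obtain ⟨C2, h2⟩ := Pool.Agent.H474R2.PG.homs_lower K
  refine ⟨max C1 0 + max C2 0, by positivity, fun w hw => ?_⟩
  have := h1 w hw
  have := h2 w hw
  have := le_max_left C1 0
  have := le_max_left C2 0
  have := le_max_right C1 0
  have := le_max_right C2 0
  rw [abs_le]
  constructor <;> linarith

lemma PR_eq (x : ℕ) : Pool.Agent.H474R2.PG.PR (x : ℝ) = Pr x := by
  unfold Pool.Agent.H474R2.PG.PR Pr
  rw [Nat.floor_natCast]

lemma sum_rpow (x : ℕ) : ∑ p ∈ Pr x, (p : ℝ) ^ (-(3 / 2) : ℝ) ≤ ∑' n : ℕ, (n : ℝ) ^ (-(3 / 2) : ℝ) := by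
  have hs : Summable (fun n : ℕ => (n : ℝ) ^ (-(3 / 2) : ℝ)) :=
    Real.summable_nat_rpow.2 (by norm_num)
  exact hs.sum_le_tsum _ fun n _ => by positivity

lemma card_hom_eq (L : Type) [Field L] [NumberField L] (p : ℕ) [Fact p.Prime] :
    Nat.card (𝓞 L →+* GaloisField p 1) = Nat.card (𝓞 L →+* ZMod p) := by
  have e : GaloisField p 1 ≃+* ZMod p := (GaloisField.equivZmodP p).toRingEquiv
  exact Nat.card_congr
    { toFun := fun φ => (e : GaloisField p 1 →+* ZMod p).comp φ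
      invFun := fun φ => (e.symm : ZMod p →+* GaloisField p 1).comp φ
      left_inv := fun φ => by ext x; simp
      right_inv := fun φ => by ext x; simp }

/-- the mean of the first trace -/
noncomputable def M1 (a b c : ℤ[X]) (p : ℕ) : ℝ := avgP2 p (fun u v : ℕ => tr (fam a b c u v) p 1)

theorem drift {a b c : ℤ[X]} (h : Hyp a b c) : ∃ C : ℝ, 0 ≤ C ∧ ∀ x : ℕ, 3 ≤ x →
    |∑ p ∈ Pr x, M1 a b c p / p - rk a b c * Real.log (Real.log x)| ≤ C := by
  classical
  obtain ⟨κ, iκ, L, iL, nL, α, hα, C0, N, hC0, hN, h1⟩ := asy_fib a b c h.disc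
  choose D hD0 hD using fun j => homs_mertens (L j)
  set n : ℝ := ((c.natDegree : ℕ) : ℝ) with hn
  have hn0 : 0 ≤ n := Nat.cast_nonneg _
  set B := cB L α with hB
  have hB0 : 0 ≤ B := cB_nonneg L α
  set Z := ∑' n : ℕ, (n : ℝ) ^ (-(3 / 2) : ℝ) with hZ
  set C' : ℝ := C0 + (n + B) * N with hC'
  have hC'0 : 0 ≤ C' := by positivity
  set H : ℕ → ℝ := fun p => ∑ j, α j * (Nat.card (𝓞 (L j) →+* ZMod p) : ℝ) with hH
  have key : ∀ p : ℕ, p.Prime → |M1 a b c p / p - H p / p| ≤ C' * (p : ℝ) ^ (-(3 / 2) : ℝ) := by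
    intro p hp
    have hpf : Fact p.Prime := ⟨hp⟩
    let _ : Fintype (GaloisField p 1) := Fintype.ofFinite _
    have hp0 : (0 : ℝ) < p := by exact_mod_cast hp.pos
    have hp1 : (1 : ℝ) ≤ p := by exact_mod_cast hp.one_le
    have hs0 : 0 < √(p : ℝ) := Real.sqrt_pos.2 hp0
    have hs1 : 1 ≤ √(p : ℝ) := Real.one_le_sqrt.2 hp1
    have hcF : cF L α (GaloisField p 1) = H p := by
      unfold cF
      rw [hH]
      refine Finset.sum_congr rfl fun j _ => ?_
      rw [card_hom_eq]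
    have hM : M1 a b c p = fib a b c (GaloisField p 1) / p := mean_one
    have hr : (p : ℝ) ^ (-(3 / 2) : ℝ) = 1 / (√(p : ℝ) * p) := by
      rw [Real.rpow_neg hp0.le, show (3 / 2 : ℝ) = 1 / 2 + 1 by norm_num, Real.rpow_add hp0,
        Real.rpow_one, ← Real.sqrt_eq_rpow, one_div]
    have h2 : |M1 a b c p - H p| * √(p : ℝ) ≤ C' := by
      by_cases hpN : p ∣ N
      · have hle : (p : ℝ) ≤ N := by exact_mod_cast Nat.le_of_dvd (Nat.pos_of_ne_zero hN) hpN
        have h3 : |M1 a b c p| ≤ n * √(p : ℝ) := by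
          have := mean_bound h hp one_ne_zero
          rwa [pow_one] at this
        have h4 : |H p| ≤ B := by
          rw [← hcF]
          exact cF_le L α (GaloisField p 1)
        have h5 : |M1 a b c p - H p| ≤ n * √(p : ℝ) + B := (abs_sub _ _).trans (add_le_add h3 h4)
        have h6 : √(p : ℝ) * √(p : ℝ) = p := Real.mul_self_sqrt hp0.le
        have h7 : √(p : ℝ) ≤ p := by nlinarith
        calc |M1 a b c p - H p| * √(p : ℝ) ≤ (n * √(p : ℝ) + B) * √(p : ℝ) :=
              mul_le_mul_of_nonneg_right h5 hs0.le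
          _ = n * p + B * √(p : ℝ) := by rw [add_mul, mul_assoc, h6]
          _ ≤ n * p + B * p := by nlinarith
          _ = (n + B) * p := by ring
          _ ≤ (n + B) * N := mul_le_mul_of_nonneg_left hle (by positivity)
          _ ≤ C' := by rw [hC']; linarith
      · have h3 := h1 p hpN
        rw [hM, ← hcF]
        have h4 : 0 ≤ (n + B) * (N : ℝ) := by positivity
        rw [hC']
        linarith
    rw [← sub_div, abs_div, abs_of_pos hp0, hr, div_le_iff₀ hp0]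
    rw [← le_div_iff₀ hs0] at h2
    refine h2.trans (le_of_eq ?_)
    field_simp
  refine ⟨C' * Z + ∑ j, |α j| * D j, by
    have hZ0 : 0 ≤ Z := tsum_nonneg fun n => by positivity
    have := Finset.sum_nonneg fun j (_ : j ∈ (univ : Finset κ)) =>
      mul_nonneg (abs_nonneg (α j)) (hD0 j)
    positivity, fun x hx => ?_⟩
  have hx3 : (3 : ℝ) ≤ (x : ℝ) := by exact_mod_cast hx
  have hprime : ∀ p ∈ Pr x, p.Prime := fun p hp => (mem_filter.1 hp).2
  have h3 : |∑ p ∈ Pr x, M1 a b c p / p - ∑ p ∈ Pr x, H p / p| ≤ C' * Z := by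
    rw [← Finset.sum_sub_distrib]
    refine (Finset.abs_sum_le_sum_abs _ _).trans
      ((Finset.sum_le_sum fun p hp => key p (hprime p hp)).trans ?_)
    rw [← Finset.mul_sum]
    exact mul_le_mul_of_nonneg_left (sum_rpow x) hC'0
  have h4 : ∑ p ∈ Pr x, H p / p - rk a b c * Real.log (Real.log x) =
      ∑ j, α j * (∑ p ∈ Pr x, (Nat.card (𝓞 (L j) →+* ZMod p) : ℝ) / p - Real.log (Real.log x)) := by
    have h5 : ∑ p ∈ Pr x, H p / p = ∑ j, α j * ∑ p ∈ Pr x,
        (Nat.card (𝓞 (L j) →+* ZMod p) : ℝ) / p := by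
      simp only [hH, Finset.sum_div, Finset.mul_sum]
      rw [Finset.sum_comm]
      exact Finset.sum_congr rfl fun j _ => Finset.sum_congr rfl fun p _ => by ring
    rw [h5, ← hα, Finset.sum_mul, ← Finset.sum_sub_distrib]
    exact Finset.sum_congr rfl fun j _ => by ring
  have h5 : |∑ p ∈ Pr x, H p / p - rk a b c * Real.log (Real.log x)| ≤ ∑ j, |α j| * D j := by
    rw [h4]
    refine (Finset.abs_sum_le_sum_abs _ _).trans (Finset.sum_le_sum fun j _ => ?_)
    rw [abs_mul]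
    have h6 := hD j x hx3
    rw [PR_eq] at h6
    exact mul_le_mul_of_nonneg_left h6 (abs_nonneg _)
  exact (abs_sub_le _ _ _).trans (add_le_add h3 h5)

lemma sum_OP (f : ℕ → ℝ) {x : ℕ} (hx : 3 ≤ x) : ∑ p ∈ OP x, f p = ∑ p ∈ Pr x, f p - f 2 := by
  have h2 : 2 ∈ Pr x := by
    unfold Pr
    rw [mem_filter, mem_Icc]
    exact ⟨⟨by omega, by omega⟩, Nat.prime_two⟩
  have e : OP x = (Pr x).erase 2 := by
    unfold OP
    ext p
    rw [mem_filter, mem_erase]
    tauto
  rw [e, ← Finset.add_sum_erase (Pr x) f h2]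
  ring

/-- **The logarithm of the product.** -/
theorem log_prod {a b c : ℤ[X]} (h : Hyp a b c) : ∃ C : ℝ, 0 ≤ C ∧ ∀ x : ℕ, 3 ≤ x → ∀ u v : ℤ,
    |∑ p ∈ OP x, logFactor (fam a b c u v) p - (rk a b c + 1 / 2) * Real.log (Real.log x) -
      ∑ p ∈ OP x, XX a b c p u v| ≤ C := by
  obtain ⟨C1, hC1, h1⟩ := log_dec h
  obtain ⟨C2, hC2, h2⟩ := drift h
  obtain ⟨C3, h3⟩ := Pool.Agent.Helper256.KM.mertens_inv
  have hC3 : 0 ≤ C3 := (abs_nonneg _).trans (h3 3 le_rfl)
  set Z := ∑' n : ℕ, (n : ℝ) ^ (-(3 / 2) : ℝ) with hZ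
  have hZ0 : 0 ≤ Z := tsum_nonneg fun n => by positivity
  refine ⟨C1 * Z + (C2 + |M1 a b c 2 / 2|) + (C3 / 2 + 1 / 4), by positivity, fun x hx u v => ?_⟩
  have hprime : ∀ p ∈ OP x, p.Prime ∧ p ≠ 2 := fun p hp => by
    unfold OP Pr at hp
    rw [mem_filter, mem_filter] at hp
    exact ⟨hp.1.2, hp.2⟩
  have h4 : |∑ p ∈ OP x, (logFactor (fam a b c u v) p - XX a b c p u v -
      M1 a b c p / p - 1 / (2 * (p : ℝ)))| ≤ C1 * Z := by
    refine (Finset.abs_sum_le_sum_abs _ _).trans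
      ((Finset.sum_le_sum fun p hp => h1 p (hprime p hp).1 (hprime p hp).2 u v).trans ?_)
    rw [← Finset.mul_sum]
    refine mul_le_mul_of_nonneg_left ((Finset.sum_le_sum_of_subset_of_nonneg
      (Finset.filter_subset _ _) fun p _ _ => by positivity).trans (sum_rpow x)) hC1
  have h5 := h2 x hx
  have h6 := h3 x hx
  have e1 := sum_OP (fun p => M1 a b c p / p) hx
  have e2 := sum_OP (fun p => 1 / (2 * (p : ℝ))) hx
  have e3 : ∑ p ∈ Pr x, 1 / (2 * (p : ℝ)) = (∑ p ∈ (Icc 1 x).filter Nat.Prime, (1 : ℝ) / p) / 2 := by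
    rw [Finset.sum_div]
    refine Finset.sum_congr rfl fun p _ => ?_
    rw [one_div, mul_inv, one_div]
    ring
  rw [e3] at e2
  simp only [Nat.cast_ofNat] at e1 e2
  have e4 : ∑ p ∈ OP x, logFactor (fam a b c u v) p - (rk a b c + 1 / 2) * Real.log (Real.log x) -
      ∑ p ∈ OP x, XX a b c p u v = ∑ p ∈ OP x, (logFactor (fam a b c u v) p - XX a b c p u v -
      M1 a b c p / p - 1 / (2 * (p : ℝ))) +
      ((∑ p ∈ Pr x, M1 a b c p / p - rk a b c * Real.log (Real.log x)) - M1 a b c 2 / 2) +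
      ((∑ p ∈ (Icc 1 x).filter Nat.Prime, (1 : ℝ) / p - Real.log (Real.log x)) / 2 - 1 / (2 * 2)) := by
    rw [Finset.sum_sub_distrib, Finset.sum_sub_distrib, Finset.sum_sub_distrib, e1, e2]
    ring
  rw [e4]
  refine (abs_add_le _ _).trans (add_le_add ((abs_add_le _ _).trans (add_le_add h4 ?_)) ?_)
  · exact (abs_sub _ _).trans (add_le_add h5 le_rfl)
  · refine (abs_sub _ _).trans (add_le_add ?_ (by norm_num))
    rw [abs_div, abs_two]
    exact div_le_div_of_nonneg_right h6 (by norm_num)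

end mert

end Pool.Agent.N430.BP
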