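import Pool.Agent.N430.BP.Theta
import Pool.Agent.N430.BP.Drift

set_option autoImplicit false
set_option linter.all false

/-! The local factors at the central points of the odd cohomology of products of curves. -/

namespace Pool.Agent.N430.BP

open Finset Polynomial Pool.Agent.R410.NG Pool.Agent.N430.CLT NumberField
open Pool.Agent.R410.BS (cF cF_le cB cB_nonneg)

lemma M1_bdd {a b c : ℤ[X]} (h : Hyp a b c) : ∃ D : ℝ, 0 ≤ D ∧ ∀ p : ℕ, p.Prime →
    |M1 a b c p| ≤ D := by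
  classical
  obtain ⟨κ, iκ, L, iL, nL, α, hα, C0, N, hC0, hN, h1⟩ := asy_fib a b c h.disc
  refine ⟨c.natDegree * √(N : ℝ) + (cB L α + C0), by
    have := cB_nonneg L α
    positivity, fun p hp => ?_⟩
  have hpf : Fact p.Prime := ⟨hp⟩
  let _ : Fintype (GaloisField p 1) := Fintype.ofFinite _
  have hp1 : (1 : ℝ) ≤ p := by exact_mod_cast hp.one_le
  have hB := cB_nonneg L α
  by_cases hpN : p ∣ N
  · have hle : (p : ℝ) ≤ N := by exact_mod_cast Nat.le_of_dvd (Nat.pos_of_ne_zero hN) hpN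
    have h3 : |M1 a b c p| ≤ c.natDegree * √(p : ℝ) := by
      have := mean_bound h hp one_ne_zero
      rwa [pow_one] at this
    have h4 : √(p : ℝ) ≤ √(N : ℝ) := Real.sqrt_le_sqrt hle
    have h5 : (c.natDegree : ℝ) * √(p : ℝ) ≤ c.natDegree * √(N : ℝ) :=
      mul_le_mul_of_nonneg_left h4 (Nat.cast_nonneg _)
    linarith
  · have h3 := h1 p hpN
    have hM : M1 a b c p = fib a b c (GaloisField p 1) / p := mean_one
    have h4 : |M1 a b c p - cF L α (GaloisField p 1)| ≤ C0 := by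
      rw [hM]
      refine le_trans ?_ h3
      exact le_mul_of_one_le_right (abs_nonneg _) (Real.one_le_sqrt.2 hp1)
    have h5 := cF_le L α (GaloisField p 1)
    have h6 : |M1 a b c p| ≤ |M1 a b c p - cF L α (GaloisField p 1)| +
        |cF L α (GaloisField p 1)| := by
      have := abs_add_le (M1 a b c p - cF L α (GaloisField p 1)) (cF L α (GaloisField p 1))
      rwa [sub_add_cancel] at this
    have h7 : (0 : ℝ) ≤ c.natDegree * √(N : ℝ) := by positivity
    linarith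

section
variable {m : ℕ} (a b c : Fin m → ℤ[X]) (i : ℕ)

/-- the term of the logarithm of the local factor -/
noncomputable def TT (p k : ℕ) (z : Fin m → ℤ × ℤ) : ℝ :=
  kun (fun j => -tr (fam (a j) (b j) (c j) (z j).1 (z j).2) p k) ((p : ℝ) ^ k) (2 * i - 1) /
    (k * (p : ℝ) ^ (i * k))

/-- the logarithm of the local factor -/
noncomputable def logL (p : ℕ) (z : Fin m → ℤ × ℤ) : ℝ := ∑' k : ℕ, TT a b c i p (k + 1) z

/-- normalized traces -/
noncomputable def al (p k : ℕ) (z : Fin m → ℤ × ℤ) (j : Fin m) : ℝ :=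
  -tr (fam (a j) (b j) (c j) (z j).1 (z j).2) p k / √(p : ℝ) ^ k

/-- means of the traces -/
noncomputable def Mk (p k : ℕ) (j : Fin m) : ℝ :=
  avgP2 p (fun u v : ℕ => tr (fam (a j) (b j) (c j) u v) p k)

/-- the bounds of the degrees -/
noncomputable def nu (j : Fin m) : ℝ := (c j).natDegree

/-- the bound of the coefficients -/
noncomputable def BB : ℝ := kun (nu c) 1 (2 * i - 1)

/-- the centred variable -/
noncomputable def XM (p : ℕ) (z : Fin m → ℤ × ℤ) : ℝ :=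
  ((√(p : ℝ))⁻¹ * kun (al a b c p 1 z) 1 (2 * i - 1) +
    (√(p : ℝ))⁻¹ ^ 2 / 2 * kun (al a b c p 2 z) 1 (2 * i - 1)) -
  ((√(p : ℝ))⁻¹ * kun (fun j => -Mk a b c p 1 j / √(p : ℝ) ^ 1) 1 (2 * i - 1) +
    (√(p : ℝ))⁻¹ ^ 2 / 2 * kun (fun j => -Mk a b c p 2 j / √(p : ℝ) ^ 2) 1 (2 * i - 1))

/-- the bound of the variable -/
noncomputable def bM (p : ℕ) : ℝ := 3 * BB c i / √(p : ℝ)

/-- a point of a box with a given origin -/
def sh (W : Fin m → ℤ × ℤ) (w : Pt m) : Fin m → ℤ × ℤ :=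
  fun j => ((W j).1 + (w j).1, (W j).2 + (w j).2)

variable {a b c} {i}

lemma TT_eq (hi : 1 ≤ i) {p : ℕ} (hp : p.Prime) {k : ℕ} (z : Fin m → ℤ × ℤ) :
    TT a b c i p k z = (√(p : ℝ))⁻¹ ^ k * kun (al a b c p k z) 1 (2 * i - 1) / k := by
  have hp0 : (0 : ℝ) < p := by exact_mod_cast hp.pos
  set s := √(p : ℝ) with hs
  have hs0 : 0 < s := Real.sqrt_pos.2 hp0
  have hs2 : s ^ 2 = p := Real.sq_sqrt hp0.le
  unfold TT
  have e1 : (fun j => -tr (fam (a j) (b j) (c j) (z j).1 (z j).2) p k) =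
      fun j => s ^ k * al a b c p k z j := by
    funext j
    unfold al
    rw [← hs]
    field_simp
  have e2 : (p : ℝ) ^ k = (s ^ k) ^ 2 := by rw [← hs2, ← pow_mul, ← pow_mul, mul_comm]
  rw [e1, e2, kun_scale]
  have e3 : (p : ℝ) ^ (i * k) = (s ^ k) ^ (2 * i - 1) * s ^ k := by
    rw [← pow_succ, ← hs2, ← pow_mul, ← pow_mul]
    congr 1
    have : 2 * i - 1 + 1 = 2 * i := by omega
    rw [this]
    ring
  rw [e3, inv_pow]
  have h1 : (s ^ k) ^ (2 * i - 1) ≠ 0 := by positivity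
  have h2 : s ^ k ≠ 0 := by positivity
  field_simp

variable (h : ∀ j, Hyp (a j) (b j) (c j))
include h

lemma al_bound {p : ℕ} (hp : p.Prime) {k : ℕ} (hk : k ≠ 0) (z : Fin m → ℤ × ℤ) (j : Fin m) :
    |al a b c p k z j| ≤ nu c j := by
  have hp0 : (0 : ℝ) < p := by exact_mod_cast hp.pos
  have hs0 : 0 < √(p : ℝ) ^ k := pow_pos (Real.sqrt_pos.2 hp0) k
  unfold al nu
  rw [abs_div, abs_neg, abs_of_pos hs0, div_le_iff₀ hs0]
  have h1 := fam_bound (h j) hp hk (z j).1 (z j).2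
  have h5 : √((p : ℝ) ^ k) = √(p : ℝ) ^ k := by
    rw [Real.sqrt_eq_iff_mul_self_eq (by positivity) (by positivity), ← mul_pow,
      Real.mul_self_sqrt hp0.le]
  rwa [h5] at h1

lemma mk_bound {p : ℕ} (hp : p.Prime) {k : ℕ} (hk : k ≠ 0) (j : Fin m) :
    |-Mk a b c p k j / √(p : ℝ) ^ k| ≤ nu c j := by
  have hp0 : (0 : ℝ) < p := by exact_mod_cast hp.pos
  have hs0 : 0 < √(p : ℝ) ^ k := pow_pos (Real.sqrt_pos.2 hp0) k
  unfold nu
  rw [abs_div, abs_neg, abs_of_pos hs0, div_le_iff₀ hs0]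
  have h1 := mean_bound (h j) hp hk
  have h5 : √((p : ℝ) ^ k) = √(p : ℝ) ^ k := by
    rw [Real.sqrt_eq_iff_mul_self_eq (by positivity) (by positivity), ← mul_pow,
      Real.mul_self_sqrt hp0.le]
  rwa [h5] at h1

omit h in
lemma BB_nonneg : 0 ≤ BB c i := kun_nonneg (fun j => Nat.cast_nonneg _) _

lemma XM_bound {p : ℕ} (hp : p.Prime) (z : Fin m → ℤ × ℤ) : |XM a b c i p z| ≤ bM c i p := by
  have hp0 : (0 : ℝ) < p := by exact_mod_cast hp.pos
  have hp1 : (1 : ℝ) ≤ p := by exact_mod_cast hp.one_le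
  have hB : 0 ≤ BB c i := BB_nonneg
  set r := (√(p : ℝ))⁻¹ with hr
  have hs0 : 0 < √(p : ℝ) := Real.sqrt_pos.2 hp0
  have hr0 : 0 < r := inv_pos.2 hs0
  have hr1 : r ≤ 1 := inv_le_one_of_one_le₀ (Real.one_le_sqrt.2 hp1)
  have k1 : |kun (al a b c p 1 z) 1 (2 * i - 1)| ≤ BB c i := abs_kun_le (al_bound h hp one_ne_zero z) _
  have k2 : |kun (al a b c p 2 z) 1 (2 * i - 1)| ≤ BB c i := abs_kun_le (al_bound h hp two_ne_zero z) _
  have k3 : |kun (fun j => -Mk a b c p 1 j / √(p : ℝ) ^ 1) 1 (2 * i - 1)| ≤ BB c i :=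
    abs_kun_le (mk_bound h hp one_ne_zero) _
  have k4 : |kun (fun j => -Mk a b c p 2 j / √(p : ℝ) ^ 2) 1 (2 * i - 1)| ≤ BB c i :=
    abs_kun_le (mk_bound h hp two_ne_zero) _
  unfold XM bM
  rw [← hr]
  have e : 3 * BB c i / √(p : ℝ) = 3 * BB c i * r := by rw [hr, div_eq_mul_inv]
  rw [e]
  have t1 : ∀ y, |y| ≤ BB c i → |r * y| ≤ BB c i * r := by
    intro y hy
    rw [abs_mul, abs_of_pos hr0, mul_comm]
    exact mul_le_mul_of_nonneg_right hy hr0.le
  have t2 : ∀ y, |y| ≤ BB c i → |r ^ 2 / 2 * y| ≤ BB c i * r / 2 := by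
    intro y hy
    rw [abs_mul, abs_of_pos (by positivity : 0 < r ^ 2 / 2)]
    have h1 : r ^ 2 / 2 * |y| ≤ r ^ 2 / 2 * BB c i := mul_le_mul_of_nonneg_left hy (by positivity)
    have h2 : r ^ 2 ≤ r := by nlinarith
    have h3 : r ^ 2 * BB c i ≤ r * BB c i := mul_le_mul_of_nonneg_right h2 hB
    linarith
  have a1 := t1 _ k1
  have a2 := t2 _ k2
  have a3 := t1 _ k3
  have a4 := t2 _ k4
  refine (abs_sub _ _).trans ?_
  refine (add_le_add (abs_add_le _ _) (abs_add_le _ _)).trans ?_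
  linarith

omit h in
lemma al_per {p : ℕ} (hp : p.Prime) {k : ℕ} (hk : k ≠ 0) (W : Fin m → ℤ × ℤ) (j : Fin m) (w : Pt m) :
    al a b c p k (sh W (Function.update w j ((w j).1 + p, (w j).2))) = al a b c p k (sh W w) ∧
    al a b c p k (sh W (Function.update w j ((w j).1, (w j).2 + p))) = al a b c p k (sh W w) := by
  have : Fact p.Prime := ⟨hp⟩
  constructor
  · funext j'
    unfold al sh
    by_cases hj : j' = j
    · subst hj
      simp only [Function.update_self]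
      have h1 := (tr_per (p := p) (a := a j') (b := b j') (c := c j') hk (W j').1 (W j').2).1
        (w j').1 (w j').2
      have h2 : tr (fam (a j') (b j') (c j') ((W j').1 + ((w j').1 + p : ℕ)) ((W j').2 + (w j').2)) p k =
        tr (fam (a j') (b j') (c j') ((W j').1 + (w j').1) ((W j').2 + (w j').2)) p k := h1
      rw [h2]
    · simp only [Function.update_of_ne hj]
  · funext j'
    unfold al sh
    by_cases hj : j' = j
    · subst hj
      simp only [Function.update_self]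
      have h1 := (tr_per (p := p) (a := a j') (b := b j') (c := c j') hk (W j').1 (W j').2).2
        (w j').1 (w j').2
      have h2 : tr (fam (a j') (b j') (c j') ((W j').1 + (w j').1) ((W j').2 + ((w j').2 + p : ℕ))) p k =
        tr (fam (a j') (b j') (c j') ((W j').1 + (w j').1) ((W j').2 + (w j').2)) p k := h1
      rw [h2]
    · simp only [Function.update_of_ne hj]

omit h in
lemma XM_per {p : ℕ} (hp : p.Prime) (W : Fin m → ℤ × ℤ) :
    PerM p (fun w => XM a b c i p (sh W w)) := by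
  intro j w
  have h1 := al_per (a := a) (b := b) (c := c) hp one_ne_zero W j w
  have h2 := al_per (a := a) (b := b) (c := c) hp two_ne_zero W j w
  constructor
  · show XM a b c i p (sh W (Function.update w j ((w j).1 + p, (w j).2))) = XM a b c i p (sh W w)
    unfold XM
    rw [h1.1, h2.1]
  · show XM a b c i p (sh W (Function.update w j ((w j).1, (w j).2 + p))) = XM a b c i p (sh W w)
    unfold XM
    rw [h1.2, h2.2]

omit h in
lemma kun_al_mean {p : ℕ} (hp : p.Prime) {k : ℕ} (hk : k ≠ 0) (W : Fin m → ℤ × ℤ) (n : ℕ) :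
    avgPM p m (fun w => kun (al a b c p k (sh W w)) 1 n) =
      kun (fun j => -Mk a b c p k j / √(p : ℝ) ^ k) 1 n := by
  have : Fact p.Prime := ⟨hp⟩
  have h1 := kun_mean hp.pos (fun (j : Fin m) (u v : ℕ) =>
    -tr (fam (a j) (b j) (c j) ((W j).1 + u) ((W j).2 + v)) p k / √(p : ℝ) ^ k) n
  have e1 : (fun w : Pt m => kun (al a b c p k (sh W w)) 1 n) =
      fun w => kun (fun j => (fun (j : Fin m) (u v : ℕ) =>
        -tr (fam (a j) (b j) (c j) ((W j).1 + u) ((W j).2 + v)) p k / √(p : ℝ) ^ k) j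
          (w j).1 (w j).2) 1 n := rfl
  rw [e1]
  refine h1.trans ?_
  congr 1
  funext j
  have e2 : (fun u v : ℕ => -tr (fam (a j) (b j) (c j) ((W j).1 + u) ((W j).2 + v)) p k /
      √(p : ℝ) ^ k) = fun u v : ℕ => (-(√(p : ℝ) ^ k)⁻¹) *
        tr (fam (a j) (b j) (c j) ((W j).1 + u) ((W j).2 + v)) p k := by
    funext u v
    rw [div_eq_mul_inv]
    ring
  rw [e2, avgP2_mul_left, mean_shift hk]
  unfold Mk
  rw [div_eq_mul_inv]
  ring

omit h in
lemma XM_mean {p : ℕ} (hp : p.Prime) (W : Fin m → ℤ × ℤ) :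
    avgPM p m (fun w => XM a b c i p (sh W w)) = 0 := by
  have h1 := kun_al_mean (a := a) (b := b) (c := c) hp one_ne_zero W (2 * i - 1)
  have h2 := kun_al_mean (a := a) (b := b) (c := c) hp two_ne_zero W (2 * i - 1)
  have e : (fun w : Pt m => XM a b c i p (sh W w)) = fun w =>
      (√(p : ℝ))⁻¹ * kun (al a b c p 1 (sh W w)) 1 (2 * i - 1) +
      ((√(p : ℝ))⁻¹ ^ 2 / 2 * kun (al a b c p 2 (sh W w)) 1 (2 * i - 1) +
      (-((√(p : ℝ))⁻¹ * kun (fun j => -Mk a b c p 1 j / √(p : ℝ) ^ 1) 1 (2 * i - 1) +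
    (√(p : ℝ))⁻¹ ^ 2 / 2 * kun (fun j => -Mk a b c p 2 j / √(p : ℝ) ^ 2) 1 (2 * i - 1)))) := by
    funext w
    unfold XM
    ring
  rw [e, avgPM_add, avgPM_mul_left, avgPM_add, avgPM_mul_left, avgPM_const hp.pos, h1, h2]
  ring

/-- the number of the symplectic constituents -/
noncomputable def MM (m i : ℕ) : ℝ := kun (fun _ : Fin m => (1 : ℝ)) 1 (2 * i - 1)

omit h in
lemma MM_nonneg (m i : ℕ) : 0 ≤ MM m i := kun_nonneg (fun _ => zero_le_one) _

lemma TT_bound (hi : 1 ≤ i) {p : ℕ} (hp : p.Prime) (k : ℕ) (z : Fin m → ℤ × ℤ) :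
    |TT a b c i p (k + 1) z| ≤ BB c i * (√(p : ℝ))⁻¹ ^ (k + 1) := by
  have hp0 : (0 : ℝ) < p := by exact_mod_cast hp.pos
  have hr0 : 0 < (√(p : ℝ))⁻¹ := inv_pos.2 (Real.sqrt_pos.2 hp0)
  rw [TT_eq hi hp]
  have hk1 : (1 : ℝ) ≤ ((k + 1 : ℕ) : ℝ) := by exact_mod_cast Nat.succ_le_succ (Nat.zero_le k)
  rw [abs_div, abs_mul, abs_of_pos (by positivity : (0 : ℝ) < ((k + 1 : ℕ) : ℝ)),
    abs_of_pos (pow_pos hr0 _)]
  have k1 : |kun (al a b c p (k + 1) z) 1 (2 * i - 1)| ≤ BB c i :=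
    abs_kun_le (al_bound h hp (Nat.succ_ne_zero k) z) _
  have hB : 0 ≤ BB c i := BB_nonneg
  rw [div_le_iff₀ (by linarith)]
  calc (√(p : ℝ))⁻¹ ^ (k + 1) * |kun (al a b c p (k + 1) z) 1 (2 * i - 1)| ≤
      (√(p : ℝ))⁻¹ ^ (k + 1) * BB c i := mul_le_mul_of_nonneg_left k1 (by positivity)
    _ = BB c i * (√(p : ℝ))⁻¹ ^ (k + 1) * 1 := by ring
    _ ≤ BB c i * (√(p : ℝ))⁻¹ ^ (k + 1) * ((k + 1 : ℕ) : ℝ) :=
        mul_le_mul_of_nonneg_left hk1 (by positivity)

lemma TT_summable (hi : 1 ≤ i) {p : ℕ} (hp : p.Prime) (z : Fin m → ℤ × ℤ) :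
    Summable (fun k : ℕ => TT a b c i p (k + 1) z) := by
  have hp0 : (0 : ℝ) < p := by exact_mod_cast hp.pos
  have hp2 : (2 : ℝ) ≤ p := by exact_mod_cast hp.two_le
  set r := (√(p : ℝ))⁻¹ with hr
  have hs0 : 0 < √(p : ℝ) := Real.sqrt_pos.2 hp0
  have hr0 : 0 < r := inv_pos.2 hs0
  have hr1 : r < 1 := by
    rw [hr]
    apply inv_lt_one_of_one_lt₀
    rw [Real.lt_sqrt zero_le_one]
    linarith
  have hgs : Summable (fun k : ℕ => BB c i * r ^ (k + 1)) := by
    have := (summable_geometric_of_lt_one hr0.le hr1).mul_left (BB c i * r)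
    refine this.congr fun k => ?_
    rw [pow_succ]
    ring
  refine Summable.of_norm_bounded hgs fun k => ?_
  rw [Real.norm_eq_abs]
  exact TT_bound h hi hp k z

/-- **The logarithm of the local factor.** -/
lemma log_decM (hi : 1 ≤ i) : ∃ K : ℝ, 0 ≤ K ∧ ∀ p : ℕ, p.Prime → p ≠ 2 →
    ∀ z : Fin m → ℤ × ℤ, |logL a b c i p z - XM a b c i p z +
      (ee m (2 * i - 1) 1 * ∑ j, M1 (a j) (b j) (c j) p / p + MM m i * (1 / (2 * (p : ℝ))))| ≤
      K * (p : ℝ) ^ (-(3 / 2) : ℝ) := by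
  choose D hD0 hD using fun j => M1_bdd (h j)
  choose C2 hC20 hC2 using fun j => mean_two_all (h j)
  set D' : ℝ := 1 + ∑ j, D j with hD'
  have hD'1 : 1 ≤ D' := by
    have := Finset.sum_nonneg fun j (_ : j ∈ (univ : Finset (Fin m))) => hD0 j
    linarith
  have hDj : ∀ j, D j ≤ D' := fun j => by
    have := Finset.single_le_sum (fun j _ => hD0 j) (mem_univ j)
    linarith
  set R : ℝ := 1 + ∑ j, C2 j with hR
  have hR1 : 1 ≤ R := by
    have := Finset.sum_nonneg fun j (_ : j ∈ (univ : Finset (Fin m))) => hC20 j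
    linarith
  have hRj : ∀ j, 1 + C2 j ≤ R := fun j => by
    have := Finset.single_le_sum (fun j _ => hC20 j) (mem_univ j)
    linarith
  have hn : Odd (2 * i - 1) := ⟨i - 1, by omega⟩
  have hMM := MM_nonneg m i
  have hB : 0 ≤ BB c i := BB_nonneg
  refine ⟨3 * BB c i + (MM m i * D' ^ m + MM m i * R ^ m * (R - 1) / 2), by
    have : 0 ≤ R - 1 := by linarith
    positivity, fun p hp hp2 z => ?_⟩
  have : Fact p.Prime := ⟨hp⟩
  have hp0 : (0 : ℝ) < p := by exact_mod_cast hp.pos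
  have hp3 : (3 : ℝ) ≤ p := by
    have : 3 ≤ p := by
      have := hp.two_le
      omega
    exact_mod_cast this
  set r : ℝ := (√(p : ℝ))⁻¹ with hr
  have hs0 : 0 < √(p : ℝ) := Real.sqrt_pos.2 hp0
  have hr0 : 0 < r := inv_pos.2 hs0
  have hr23 : r ≤ 2 / 3 := by
    rw [hr, inv_le_comm₀ hs0 (by norm_num)]
    apply Real.le_sqrt_of_sq_le
    norm_num
    linarith
  have hr2 : r ^ 2 = (p : ℝ)⁻¹ := by rw [hr, inv_pow, Real.sq_sqrt hp0.le]
  have hr3 : r ^ 3 = (p : ℝ) ^ (-(3 / 2) : ℝ) := by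
    rw [hr, Real.sqrt_eq_rpow, ← Real.rpow_neg hp0.le, ← Real.rpow_natCast, ← Real.rpow_mul hp0.le]
    norm_num
  -- the tail
  have hterm := fun k => TT_bound h hi hp k z
  have hsum := TT_summable h hi hp z
  have hsplit := hsum.sum_add_tsum_nat_add 2
  have htail : |∑' k : ℕ, TT a b c i p (k + 2 + 1) z| ≤ 3 * BB c i * r ^ 3 := by
    have hgs2 : HasSum (fun k : ℕ => BB c i * r ^ (k + 2 + 1)) (BB c i * r ^ 3 * (1 - r)⁻¹) := by
      have := (hasSum_geometric_of_lt_one hr0.le (by linarith : r < 1)).mul_left (BB c i * r ^ 3)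
      have e : (fun k : ℕ => BB c i * r ^ (k + 2 + 1)) = fun k : ℕ => BB c i * r ^ 3 * r ^ k := by
        funext k
        rw [show k + 2 + 1 = 3 + k by ring, pow_add]
        ring
      rw [e]
      exact this
    have h5 := tsum_of_norm_bounded hgs2 (f := fun k : ℕ => TT a b c i p (k + 2 + 1) z) (fun k => by
        rw [Real.norm_eq_abs]; exact hterm (k + 2))
    rw [Real.norm_eq_abs] at h5
    refine h5.trans ?_
    have h6 : (1 - r)⁻¹ ≤ 3 := by
      rw [inv_le_comm₀ (by linarith) (by norm_num)]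
      linarith
    calc BB c i * r ^ 3 * (1 - r)⁻¹ ≤ BB c i * r ^ 3 * 3 :=
          mul_le_mul_of_nonneg_left h6 (by positivity)
      _ = _ := by ring
  -- the mean of the first term
  have hfirst : |r * kun (fun j => -Mk a b c p 1 j / √(p : ℝ) ^ 1) 1 (2 * i - 1) +
      ee m (2 * i - 1) 1 * ∑ j, M1 (a j) (b j) (c j) p / p| ≤ MM m i * D' ^ m * r ^ 3 := by
    have hα : ∀ j, |-Mk a b c p 1 j / √(p : ℝ) ^ 1| ≤ r * D' := by
      intro j
      rw [pow_one, abs_div, abs_neg, abs_of_pos hs0, div_eq_mul_inv, mul_comm]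
      exact mul_le_mul_of_nonneg_left ((hD j p hp).trans (hDj j)) hr0.le
    have h5 := kun_first hD'1 hr0.le (by linarith) hα hn
    have e1 : ee m (2 * i - 1) 1 * ∑ j, M1 (a j) (b j) (c j) p / p =
        -(r * (ee m (2 * i - 1) 1 * ∑ j, -Mk a b c p 1 j / √(p : ℝ) ^ 1)) := by
      rw [mul_left_comm, ← mul_neg]
      congr 1
      rw [Finset.mul_sum, ← Finset.sum_neg_distrib]
      refine Finset.sum_congr rfl fun j _ => ?_
      have e2 : M1 (a j) (b j) (c j) p = Mk a b c p 1 j := rfl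
      have e3 : (p : ℝ)⁻¹ = r * (√(p : ℝ))⁻¹ := by rw [← hr2, hr, sq]
      rw [e2, pow_one, div_eq_mul_inv, e3]
      ring
    rw [e1, ← sub_eq_add_neg, ← mul_sub, abs_mul, abs_of_pos hr0]
    have h6 : 0 ≤ MM m i * D' ^ m * r ^ 3 := by positivity
    calc r * _ ≤ r * (MM m i * D' ^ m * r ^ 3) := mul_le_mul_of_nonneg_left h5 hr0.le
      _ ≤ 1 * (MM m i * D' ^ m * r ^ 3) := mul_le_mul_of_nonneg_right (by linarith) h6
      _ = _ := one_mul _
  -- the mean of the second term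
  have hsecond : |r ^ 2 / 2 * kun (fun j => -Mk a b c p 2 j / √(p : ℝ) ^ 2) 1 (2 * i - 1) +
      MM m i * (1 / (2 * (p : ℝ)))| ≤ MM m i * R ^ m * (R - 1) / 2 * r ^ 3 := by
    have hdiff : ∀ j, |-Mk a b c p 2 j / √(p : ℝ) ^ 2 - (-1)| ≤ C2 j * r ^ 2 := by
      intro j
      rw [Real.sq_sqrt hp0.le, hr2]
      have e : -Mk a b c p 2 j / p - (-1) = -(Mk a b c p 2 j - p) * (p : ℝ)⁻¹ := by
        field_simp
        ring
      rw [e, abs_mul, abs_neg, abs_of_pos (inv_pos.2 hp0)]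
      exact mul_le_mul_of_nonneg_right (hC2 j p hp hp2) (inv_pos.2 hp0).le
    have hr21 : r ^ 2 ≤ 1 := by nlinarith
    have ha : ∀ j, |-Mk a b c p 2 j / √(p : ℝ) ^ 2| ≤ R := by
      intro j
      have h5 := abs_add_le (-Mk a b c p 2 j / √(p : ℝ) ^ 2 - (-1)) (-1)
      rw [sub_add_cancel, abs_neg, abs_one] at h5
      have h6 : C2 j * r ^ 2 ≤ C2 j * 1 := mul_le_mul_of_nonneg_left hr21 (hC20 j)
      have := hdiff j
      have := hRj j
      linarith
    have hb : ∀ j : Fin m, |(-1 : ℝ)| ≤ R := fun j => by rw [abs_neg, abs_one]; exact hR1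
    have h5 := kun_lip hR1 ha hb (2 * i - 1)
    have h6 : kun (fun _ : Fin m => (-1 : ℝ)) 1 (2 * i - 1) = -MM m i := kun_neg (fun _ => 1) hn
    rw [h6] at h5
    have h7 : ∑ j : Fin m, |-Mk a b c p 2 j / √(p : ℝ) ^ 2 - (-1)| ≤ (R - 1) * r ^ 2 := by
      refine (Finset.sum_le_sum fun j _ => hdiff j).trans (le_of_eq ?_)
      rw [← Finset.sum_mul, hR]
      ring
    have h8 : |kun (fun j => -Mk a b c p 2 j / √(p : ℝ) ^ 2) 1 (2 * i - 1) - -MM m i| ≤
        MM m i * R ^ m * ((R - 1) * r ^ 2) :=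
      h5.trans (mul_le_mul_of_nonneg_left h7 (by positivity))
    have e : r ^ 2 / 2 * kun (fun j => -Mk a b c p 2 j / √(p : ℝ) ^ 2) 1 (2 * i - 1) +
        MM m i * (1 / (2 * (p : ℝ))) = r ^ 2 / 2 *
        (kun (fun j => -Mk a b c p 2 j / √(p : ℝ) ^ 2) 1 (2 * i - 1) - -MM m i) := by
      have e4 : (1 / (2 * (p : ℝ))) = r ^ 2 / 2 := by
        rw [hr2]
        field_simp
      rw [e4]
      ring
    rw [e, abs_mul, abs_of_pos (by positivity : 0 < r ^ 2 / 2)]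
    have hR0 : 0 ≤ R - 1 := by linarith
    have h9 : r ^ 2 * r ^ 2 ≤ r ^ 3 := by
      have : r ^ 2 * r ^ 2 = r ^ 3 * r := by ring
      rw [this]
      exact mul_le_of_le_one_right (by positivity) (by linarith)
    calc r ^ 2 / 2 * _ ≤ r ^ 2 / 2 * (MM m i * R ^ m * ((R - 1) * r ^ 2)) :=
          mul_le_mul_of_nonneg_left h8 (by positivity)
      _ = MM m i * R ^ m * (R - 1) / 2 * (r ^ 2 * r ^ 2) := by ring
      _ ≤ _ := mul_le_mul_of_nonneg_left h9 (by positivity)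
  have hkey : logL a b c i p z - XM a b c i p z +
      (ee m (2 * i - 1) 1 * ∑ j, M1 (a j) (b j) (c j) p / p + MM m i * (1 / (2 * (p : ℝ)))) =
      (∑' k : ℕ, TT a b c i p (k + 2 + 1) z) +
      ((r * kun (fun j => -Mk a b c p 1 j / √(p : ℝ) ^ 1) 1 (2 * i - 1) +
      ee m (2 * i - 1) 1 * ∑ j, M1 (a j) (b j) (c j) p / p) +
      (r ^ 2 / 2 * kun (fun j => -Mk a b c p 2 j / √(p : ℝ) ^ 2) 1 (2 * i - 1) +
      MM m i * (1 / (2 * (p : ℝ))))) := by
    unfold logL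
    rw [← hsplit]
    simp only [Finset.sum_range_succ, Finset.sum_range_zero]
    rw [TT_eq hi hp, TT_eq hi hp]
    unfold XM
    rw [← hr]
    push_cast
    ring
  rw [hkey, ← hr3]
  calc _ ≤ 3 * BB c i * r ^ 3 + (MM m i * D' ^ m * r ^ 3 +
        MM m i * R ^ m * (R - 1) / 2 * r ^ 3) :=
        (abs_add_le _ _).trans (add_le_add htail ((abs_add_le _ _).trans (add_le_add hfirst hsecond)))
    _ = _ := by ring

/-- **The logarithm of the product.** -/
theorem log_prodM (hi : 1 ≤ i) : ∃ K : ℝ, 0 ≤ K ∧ ∀ x : ℕ, 3 ≤ x → ∀ z : Fin m → ℤ × ℤ,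
    |∑ p ∈ OP x, logL a b c i p z + (ee m (2 * i - 1) 1 * ∑ j, rk (a j) (b j) (c j) +
      MM m i / 2) * Real.log (Real.log x) - ∑ p ∈ OP x, XM a b c i p z| ≤ K := by
  obtain ⟨K1, hK1, h1⟩ := log_decM h hi
  choose D hD0 hD using fun j => drift (h j)
  obtain ⟨C3, h3⟩ := Pool.Agent.Helper256.KM.mertens_inv
  have hC3 : 0 ≤ C3 := (abs_nonneg _).trans (h3 3 le_rfl)
  set Z := ∑' n : ℕ, (n : ℝ) ^ (-(3 / 2) : ℝ) with hZ
  have hZ0 : 0 ≤ Z := tsum_nonneg fun n => by positivity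
  have hMM := MM_nonneg m i
  have hee := ee_nonneg m (2 * i - 1) 1
  set E := ee m (2 * i - 1) 1 with hE
  have hDs : 0 ≤ ∑ j, (D j + |M1 (a j) (b j) (c j) 2 / 2|) :=
    Finset.sum_nonneg fun j _ => add_nonneg (hD0 j) (abs_nonneg _)
  refine ⟨K1 * Z + E * ∑ j, (D j + |M1 (a j) (b j) (c j) 2 / 2|) + MM m i * (C3 / 2 + 1 / 4),
    by positivity, fun x hx z => ?_⟩
  have hprime : ∀ p ∈ OP x, p.Prime ∧ p ≠ 2 := fun p hp => (mem_OP.1 hp).2
  have h4 : |∑ p ∈ OP x, (logL a b c i p z - XM a b c i p z +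
      (E * ∑ j, M1 (a j) (b j) (c j) p / p + MM m i * (1 / (2 * (p : ℝ)))))| ≤ K1 * Z := by
    refine (Finset.abs_sum_le_sum_abs _ _).trans
      ((Finset.sum_le_sum fun p hp => h1 p (hprime p hp).1 (hprime p hp).2 z).trans ?_)
    rw [← Finset.mul_sum]
    refine mul_le_mul_of_nonneg_left ((Finset.sum_le_sum_of_subset_of_nonneg
      (Finset.filter_subset _ _) fun p _ _ => by positivity).trans (sum_rpow x)) hK1
  have e1 : ∀ j, ∑ p ∈ OP x, M1 (a j) (b j) (c j) p / p =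
      ∑ p ∈ Pr x, M1 (a j) (b j) (c j) p / p - M1 (a j) (b j) (c j) 2 / 2 := by
    intro j
    have := sum_OP (fun p => M1 (a j) (b j) (c j) p / p) hx
    simpa only [Nat.cast_ofNat] using this
  have e2 := sum_OP (fun p => 1 / (2 * (p : ℝ))) hx
  have e3 : ∑ p ∈ Pr x, 1 / (2 * (p : ℝ)) = (∑ p ∈ (Icc 1 x).filter Nat.Prime, (1 : ℝ) / p) / 2 := by
    rw [Finset.sum_div]
    refine Finset.sum_congr rfl fun p _ => ?_
    rw [one_div, mul_inv, one_div]
    ring
  rw [e3] at e2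
  simp only [Nat.cast_ofNat] at e2
  have h5 : |∑ p ∈ OP x, (E * ∑ j, M1 (a j) (b j) (c j) p / p) -
      E * (∑ j, rk (a j) (b j) (c j)) * Real.log (Real.log x)| ≤
      E * ∑ j, (D j + |M1 (a j) (b j) (c j) 2 / 2|) := by
    have e4 : ∑ p ∈ OP x, (E * ∑ j, M1 (a j) (b j) (c j) p / p) -
      E * (∑ j, rk (a j) (b j) (c j)) * Real.log (Real.log x) =
      E * ∑ j, ((∑ p ∈ Pr x, M1 (a j) (b j) (c j) p / p - rk (a j) (b j) (c j) *
        Real.log (Real.log x)) - M1 (a j) (b j) (c j) 2 / 2) := by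
      rw [← Finset.mul_sum, Finset.sum_comm, Finset.sum_congr rfl fun j _ => e1 j, mul_assoc,
        ← mul_sub, Finset.sum_mul, ← Finset.sum_sub_distrib]
      congr 1
      exact Finset.sum_congr rfl fun j _ => by ring
    rw [e4, abs_mul, abs_of_nonneg hee]
    refine mul_le_mul_of_nonneg_left ?_ hee
    refine (Finset.abs_sum_le_sum_abs _ _).trans (Finset.sum_le_sum fun j _ => ?_)
    exact (abs_sub _ _).trans (add_le_add (hD j x hx) le_rfl)
  have h6 : |∑ p ∈ OP x, (MM m i * (1 / (2 * (p : ℝ)))) - MM m i / 2 * Real.log (Real.log x)| ≤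
      MM m i * (C3 / 2 + 1 / 4) := by
    have e4 : ∑ p ∈ OP x, (MM m i * (1 / (2 * (p : ℝ)))) - MM m i / 2 * Real.log (Real.log x) =
        MM m i * ((∑ p ∈ (Icc 1 x).filter Nat.Prime, (1 : ℝ) / p - Real.log (Real.log x)) / 2 -
          1 / (2 * 2)) := by
      rw [← Finset.mul_sum, e2]
      ring
    rw [e4, abs_mul, abs_of_nonneg hMM]
    refine mul_le_mul_of_nonneg_left ?_ hMM
    refine (abs_sub _ _).trans (add_le_add ?_ (by norm_num))
    rw [abs_div, abs_two]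
    exact div_le_div_of_nonneg_right (h3 x hx) (by norm_num)
  have e5 : ∑ p ∈ OP x, logL a b c i p z + (E * ∑ j, rk (a j) (b j) (c j) +
      MM m i / 2) * Real.log (Real.log x) - ∑ p ∈ OP x, XM a b c i p z =
      ∑ p ∈ OP x, (logL a b c i p z - XM a b c i p z +
      (E * ∑ j, M1 (a j) (b j) (c j) p / p + MM m i * (1 / (2 * (p : ℝ))))) -
      (∑ p ∈ OP x, (E * ∑ j, M1 (a j) (b j) (c j) p / p) -
      E * (∑ j, rk (a j) (b j) (c j)) * Real.log (Real.log x)) -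
      (∑ p ∈ OP x, (MM m i * (1 / (2 * (p : ℝ)))) - MM m i / 2 * Real.log (Real.log x)) := by
    rw [Finset.sum_add_distrib, Finset.sum_sub_distrib, Finset.sum_add_distrib]
    ring
  rw [e5]
  refine (abs_sub _ _).trans (add_le_add ((abs_sub _ _).trans (add_le_add h4 h5)) h6)

end

end Pool.Agent.N430.BP
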