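import Pool.Agent.N430.BP.Abs

set_option autoImplicit false
set_option linter.all false

/-! Polynomials of bounded degree over a finite field modulo prime polynomials: independence and
moments. -/

namespace Pool.Agent.N430.BP.FF

open Finset Polynomial

section gen
variable {V W : Type} [AddCommGroup V] [AddCommGroup W] [Fintype V] [Fintype W]

/-- the mean value -/
noncomputable def mn {V : Type} [Fintype V] (f : V → ℝ) : ℝ := (∑ v, f v) / Fintype.card V

lemma mn_add {V : Type} [Fintype V] (f g : V → ℝ) : mn (fun v => f v + g v) = mn f + mn g := by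
  unfold mn
  rw [Finset.sum_add_distrib, add_div]

lemma mn_sum {V ι : Type} [Fintype V] (s : Finset ι) (f : ι → V → ℝ) :
    mn (fun v => ∑ i ∈ s, f i v) = ∑ i ∈ s, mn (f i) := by
  unfold mn
  rw [Finset.sum_comm, Finset.sum_div]

lemma mn_mul_left {V : Type} [Fintype V] (c : ℝ) (f : V → ℝ) : mn (fun v => c * f v) = c * mn f := by
  unfold mn
  rw [← Finset.mul_sum, mul_div_assoc]

lemma mn_const {V : Type} [Fintype V] [Nonempty V] (c : ℝ) : mn (fun _ : V => c) = c := by
  unfold mn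
  rw [Finset.sum_const, card_univ, nsmul_eq_mul]
  have : (Fintype.card V : ℝ) ≠ 0 := by exact_mod_cast Fintype.card_ne_zero
  field_simp

lemma abs_mn_le {V : Type} [Fintype V] [Nonempty V] {f : V → ℝ} {b : ℝ} (h : ∀ v, |f v| ≤ b) :
    |mn f| ≤ b := by
  have hc : (0 : ℝ) < Fintype.card V := by exact_mod_cast Fintype.card_pos
  unfold mn
  rw [abs_div, abs_of_pos hc, div_le_iff₀ hc]
  refine (Finset.abs_sum_le_sum_abs _ _).trans ((Finset.sum_le_sum fun v _ => h v).trans ?_)
  rw [Finset.sum_const, card_univ, nsmul_eq_mul, mul_comm]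

lemma mn_surj (φ : V →+ W) (hφ : Function.Surjective φ) (g : W → ℝ) :
    mn (fun v => g (φ v)) = mn g := by
  have hV : (0 : ℝ) < Fintype.card V := by exact_mod_cast Fintype.card_pos
  have hW : (0 : ℝ) < Fintype.card W := by exact_mod_cast Fintype.card_pos
  have h1 : ∀ a : W, ∑ v, g (φ v + a) = ∑ v, g (φ v) := by
    intro a
    obtain ⟨t, ht⟩ := hφ a
    refine Fintype.sum_equiv (Equiv.addRight t) _ _ fun v => ?_
    rw [Equiv.coe_addRight, map_add, ht]
  have h2 : ∑ a : W, ∑ v, g (φ v + a) = ∑ v : V, ∑ a : W, g a := by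
    rw [Finset.sum_comm]
    refine Finset.sum_congr rfl fun v _ => ?_
    exact Fintype.sum_equiv (Equiv.addLeft (φ v)) _ _ fun a => rfl
  simp only [h1] at h2
  rw [Finset.sum_const, Finset.sum_const, card_univ, card_univ, nsmul_eq_mul, nsmul_eq_mul] at h2
  unfold mn
  rw [div_eq_div_iff hV.ne' hW.ne']
  linarith

lemma mn_prod {W1 W2 : Type} [Fintype W1] [Fintype W2] (g : W1 → ℝ) (h : W2 → ℝ) :
    mn (fun w : W1 × W2 => g w.1 * h w.2) = mn g * mn h := by
  unfold mn
  rw [Fintype.sum_prod_type, Fintype.card_prod, div_mul_div_comm, Finset.sum_mul_sum]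
  push_cast
  rfl

lemma mn_indep {W1 W2 : Type} [AddCommGroup W1] [AddCommGroup W2] [Fintype W1] [Fintype W2]
    (φ1 : V →+ W1) (φ2 : V →+ W2) (h : Function.Surjective (φ1.prod φ2)) (g : W1 → ℝ) (f : W2 → ℝ) :
    mn (fun v => g (φ1 v) * f (φ2 v)) = mn (fun v => g (φ1 v)) * mn (fun v => f (φ2 v)) := by
  have s1 : Function.Surjective φ1 := fun a => by
    obtain ⟨v, hv⟩ := h (a, 0)
    exact ⟨v, congrArg Prod.fst hv⟩
  have s2 : Function.Surjective φ2 := fun a => by
    obtain ⟨v, hv⟩ := h (0, a)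
    exact ⟨v, congrArg Prod.snd hv⟩
  rw [mn_surj φ1 s1 g, mn_surj φ2 s2 f, ← mn_prod, ← mn_surj _ h]
  rfl

end gen

section poly
variable (k : Type) [Field k] [Fintype k]

instance finDeg (N : ℕ) : Finite (degreeLT k N) := Finite.of_equiv _ (degreeLTEquiv k N).symm.toEquiv

/-- the pairs of polynomials of degree less than `N` -/
abbrev VV (N : ℕ) : Type := degreeLT k N × degreeLT k N

noncomputable instance fintypeVV (N : ℕ) : Fintype (VV k N) := Fintype.ofFinite _

lemma card_VV (N : ℕ) : Fintype.card (VV k N) = Fintype.card k ^ (2 * N) := by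
  rw [← Nat.card_eq_fintype_card, Nat.card_prod, Nat.card_congr (degreeLTEquiv k N).toEquiv,
    Nat.card_eq_fintype_card, Fintype.card_fun, Fintype.card_fin, two_mul, pow_add]

variable {k}

/-- periodic functions of two polynomials -/
def Per (D : k[X]) (F : k[X] × k[X] → ℝ) : Prop :=
  ∀ v v' : k[X] × k[X], D ∣ v.1 - v'.1 → D ∣ v.2 - v'.2 → F v = F v'

lemma Per.mono {D D' : k[X]} {F : k[X] × k[X] → ℝ} (h : Per D F) (hd : D ∣ D') : Per D' F :=
  fun v v' h1 h2 => h v v' (hd.trans h1) (hd.trans h2)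

lemma Per.pow {D : k[X]} {F : k[X] × k[X] → ℝ} (h : Per D F) (n : ℕ) : Per D (fun v => F v ^ n) :=
  fun v v' h1 h2 => by simp only [h v v' h1 h2]

lemma Per.prod {ι : Type} (s : Finset ι) {D : k[X]} {F : ι → k[X] × k[X] → ℝ} (h : ∀ i ∈ s, Per D (F i)) :
    Per D (fun v => ∏ i ∈ s, F i v) :=
  fun v v' h1 h2 => Finset.prod_congr rfl fun i hi => h i hi v v' h1 h2

/-- the mean over the pairs of polynomials of degree less than `N` -/
noncomputable def mV (N : ℕ) (F : k[X] × k[X] → ℝ) : ℝ :=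
  mn (fun v : VV k N => F ((v.1 : k[X]), (v.2 : k[X])))

/-- the reduction -/
noncomputable def rd (D : k[X]) (N : ℕ) : degreeLT k N →+ k[X] ⧸ Ideal.span {D} :=
  (Ideal.Quotient.mk (Ideal.span {D})).toAddMonoidHom.comp (degreeLT k N).subtype.toAddMonoidHom

lemma rd_apply (D : k[X]) (N : ℕ) (f : degreeLT k N) :
    rd D N f = Ideal.Quotient.mk (Ideal.span {D}) (f : k[X]) := rfl

lemma mk_eq_iff (D f g : k[X]) : Ideal.Quotient.mk (Ideal.span {D}) f =
    Ideal.Quotient.mk (Ideal.span {D}) g ↔ D ∣ f - g := by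
  rw [Ideal.Quotient.eq, Ideal.mem_span_singleton]

lemma crt {D P : k[X]} (hD : D.Monic) (hP : P.Monic) (hc : IsCoprime D P) {N : ℕ}
    (hN : D.natDegree + P.natDegree ≤ N) (f g : k[X]) :
    ∃ h : degreeLT k N, D ∣ (h : k[X]) - f ∧ P ∣ (h : k[X]) - g := by
  obtain ⟨u, v, huv⟩ := hc
  have hm : (D * P).Monic := hD.mul hP
  set h0 := f * (v * P) + g * (u * D) with hh0
  have h1 : (h0 %ₘ (D * P)) ∈ degreeLT k N := by
    rw [mem_degreeLT]
    refine lt_of_lt_of_le (degree_modByMonic_lt _ hm) ?_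
    rw [degree_eq_natDegree hm.ne_zero, hD.natDegree_mul hP]
    exact_mod_cast hN
  have h2 : D * P ∣ h0 %ₘ (D * P) - h0 := by
    have := modByMonic_add_div h0 (D * P)
    refine ⟨-(h0 /ₘ (D * P)), ?_⟩
    linear_combination this
  refine ⟨⟨_, h1⟩, ?_, ?_⟩
  · have h3 : h0 - f = D * (u * (g - f)) := by
      rw [hh0]
      linear_combination (f) * huv
    have h4 := dvd_add ((dvd_mul_right D P).trans h2) (Dvd.intro _ h3.symm)
    have e : h0 %ₘ (D * P) - h0 + (h0 - f) = h0 %ₘ (D * P) - f := by ring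
    rwa [e] at h4
  · have h3 : h0 - g = P * (v * (f - g)) := by
      rw [hh0]
      linear_combination (g) * huv
    have h4 := dvd_add ((dvd_mul_left P D).trans h2) (Dvd.intro _ h3.symm)
    have e : h0 %ₘ (D * P) - h0 + (h0 - g) = h0 %ₘ (D * P) - g := by ring
    rwa [e] at h4

lemma fin_quot {D : k[X]} (hD : D.Monic) : Finite (k[X] ⧸ Ideal.span {D}) := by
  have : Function.Surjective (rd D (D.natDegree)) := by
    intro a
    obtain ⟨f, rfl⟩ := Ideal.Quotient.mk_surjective a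
    obtain ⟨h, h1, _⟩ := crt hD monic_one isCoprime_one_right (N := D.natDegree)
      (by rw [natDegree_one, add_zero]) f 0
    exact ⟨h, by rw [rd_apply, mk_eq_iff]; exact h1⟩
  exact Finite.of_surjective _ this

/-- a periodic function as a function on the quotient -/
noncomputable def qf (D : k[X]) (F : k[X] × k[X] → ℝ)
    (w : (k[X] ⧸ Ideal.span {D}) × (k[X] ⧸ Ideal.span {D})) : ℝ :=
  F (Function.surjInv Ideal.Quotient.mk_surjective w.1, Function.surjInv Ideal.Quotient.mk_surjective w.2)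

lemma qf_mk {D : k[X]} {F : k[X] × k[X] → ℝ} (h : Per D F) (v : k[X] × k[X]) :
    qf D F (Ideal.Quotient.mk _ v.1, Ideal.Quotient.mk _ v.2) = F v := by
  unfold qf
  refine h _ _ ?_ ?_
  · rw [← mk_eq_iff]
    exact Function.surjInv_eq Ideal.Quotient.mk_surjective _
  · rw [← mk_eq_iff]
    exact Function.surjInv_eq Ideal.Quotient.mk_surjective _

/-- the reduction of pairs -/
noncomputable def rp (D : k[X]) (N : ℕ) :
    VV k N →+ (k[X] ⧸ Ideal.span {D}) × (k[X] ⧸ Ideal.span {D}) :=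
  AddMonoidHom.prodMap (rd D N) (rd D N)

lemma qf_rp {D : k[X]} {F : k[X] × k[X] → ℝ} (h : Per D F) {N : ℕ} (v : VV k N) :
    qf D F (rp D N v) = F ((v.1 : k[X]), (v.2 : k[X])) := qf_mk h ((v.1 : k[X]), (v.2 : k[X]))

lemma mV_indep {D P : k[X]} (hD : D.Monic) (hP : P.Monic) (hc : IsCoprime D P) {N : ℕ}
    (hN : D.natDegree + P.natDegree ≤ N) {F G : k[X] × k[X] → ℝ} (hF : Per D F) (hG : Per P G) :
    mV N (fun v => F v * G v) = mV N F * mV N G := by
  have := fin_quot hD
  have := fin_quot hP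
  let _ := Fintype.ofFinite (k[X] ⧸ Ideal.span {D})
  let _ := Fintype.ofFinite (k[X] ⧸ Ideal.span {P})
  have hs : Function.Surjective ((rp D N).prod (rp P N)) := by
    rintro ⟨⟨a, b⟩, ⟨c, d⟩⟩
    obtain ⟨a, rfl⟩ := Ideal.Quotient.mk_surjective a
    obtain ⟨b, rfl⟩ := Ideal.Quotient.mk_surjective b
    obtain ⟨c, rfl⟩ := Ideal.Quotient.mk_surjective c
    obtain ⟨d, rfl⟩ := Ideal.Quotient.mk_surjective d
    obtain ⟨h, h1, h2⟩ := crt hD hP hc hN a c
    obtain ⟨g, g1, g2⟩ := crt hD hP hc hN b d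
    exact ⟨(h, g), Prod.ext (Prod.ext ((mk_eq_iff _ _ _).2 h1) ((mk_eq_iff _ _ _).2 g1))
      (Prod.ext ((mk_eq_iff _ _ _).2 h2) ((mk_eq_iff _ _ _).2 g2))⟩
  have h1 := mn_indep (rp D N) (rp P N) hs (qf D F) (qf P G)
  simp only [qf_rp hF, qf_rp hG] at h1
  exact h1

/-- the mean of a function of the residues -/
lemma mV_res {P : k[X]} (hP : P.Monic) {N : ℕ} (hN : P.natDegree ≤ N)
    [Fintype (k[X] ⧸ Ideal.span {P})]
    (G : (k[X] ⧸ Ideal.span {P}) → (k[X] ⧸ Ideal.span {P}) → ℝ) (f g : k[X]) :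
    mV N (fun v => G (Ideal.Quotient.mk _ (f + v.1)) (Ideal.Quotient.mk _ (g + v.2))) =
      (∑ a, ∑ b, G a b) / (Fintype.card (k[X] ⧸ Ideal.span {P}) : ℝ) ^ 2 := by
  have hs : Function.Surjective (rp P N) := by
    rintro ⟨a, b⟩
    obtain ⟨a, rfl⟩ := Ideal.Quotient.mk_surjective a
    obtain ⟨b, rfl⟩ := Ideal.Quotient.mk_surjective b
    obtain ⟨h, h1, _⟩ := crt hP monic_one isCoprime_one_right (N := N)
      (by rw [natDegree_one, add_zero]; exact hN) a 0
    obtain ⟨g, g1, _⟩ := crt hP monic_one isCoprime_one_right (N := N)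
      (by rw [natDegree_one, add_zero]; exact hN) b 0
    exact ⟨(h, g), Prod.ext ((mk_eq_iff _ _ _).2 h1) ((mk_eq_iff _ _ _).2 g1)⟩
  have h1 := mn_surj (rp P N) hs (fun w => G (Ideal.Quotient.mk _ f + w.1) (Ideal.Quotient.mk _ g + w.2))
  have h2 : mV N (fun v => G (Ideal.Quotient.mk (Ideal.span {P}) (f + v.1))
      (Ideal.Quotient.mk (Ideal.span {P}) (g + v.2))) =
      mn (fun v : VV k N => G (Ideal.Quotient.mk _ f + (rp P N v).1) (Ideal.Quotient.mk _ g + (rp P N v).2)) := by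
    unfold mV
    congr 1
  rw [h2, h1]
  unfold mn
  rw [Fintype.card_prod]
  push_cast
  rw [← sq]
  congr 1
  rw [Fintype.sum_prod_type]
  refine Fintype.sum_equiv (Equiv.addLeft (Ideal.Quotient.mk _ f)) _ _ fun a => ?_
  exact Fintype.sum_equiv (Equiv.addLeft (Ideal.Quotient.mk _ g)) _ _ fun b => rfl

end poly

section moments
variable {k : Type} [Field k] [Fintype k]

lemma exp_sub_le {y : ℝ} (hy : 0 ≤ y) : Real.exp y - y ≤ Real.exp (y ^ 2) := by
  by_cases h : y ≤ 1
  · have h1 := Real.abs_exp_sub_one_sub_id_le (x := y) (by rwa [abs_of_nonneg hy])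
    have h2 := (abs_le.1 h1).2
    have h3 := Real.add_one_le_exp (y ^ 2)
    linarith
  · push Not at h
    have h1 : Real.exp y ≤ Real.exp (y ^ 2) := by
      apply Real.exp_le_exp.2
      nlinarith
    linarith

lemma trunc_sum {y : ℝ} (hy : 0 ≤ y) (n : ℕ) :
    ∑ j ∈ range (n + 1), (if j = 1 then 0 else y ^ j / (j.factorial : ℝ)) ≤ Real.exp (y ^ 2) := by
  rcases Nat.eq_zero_or_pos n with h0 | h0
  · subst h0
    simp
    positivity
  · have h1 := Real.sum_le_exp_of_nonneg hy (n + 1)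
    have h2 : ∑ j ∈ range (n + 1), (if j = 1 then 0 else y ^ j / (j.factorial : ℝ)) =
        ∑ j ∈ range (n + 1), y ^ j / (j.factorial : ℝ) - y := by
      have h3 : ∀ j ∈ range (n + 1), (if j = 1 then 0 else y ^ j / (j.factorial : ℝ)) =
          y ^ j / (j.factorial : ℝ) - if j = 1 then y else 0 := by
        intro j _
        split_ifs with h
        · subst h
          simp
        · ring
      rw [Finset.sum_congr rfl h3, Finset.sum_sub_distrib, Finset.sum_ite_eq' (range (n + 1)) 1,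
        if_pos (mem_range.2 (by omega))]
    rw [h2]
    have h4 := exp_sub_le hy
    linarith

variable {X : k[X] → k[X] × k[X] → ℝ} {b : k[X] → ℝ} {x N : ℕ}

lemma mV_split {I : Finset k[X]} (hI : ∀ P ∈ I, P.Monic ∧ Irreducible P ∧ P.natDegree ≤ x ∧ Per P (X P))
    {P : k[X]} (hP : P.Monic ∧ Irreducible P ∧ P.natDegree ≤ x ∧ Per P (X P)) (hPI : P ∉ I) {a c : ℕ}
    (ha : (a + 1) * x ≤ N) :
    mV N (fun v => (∑ Q ∈ I, X Q v) ^ a * X P v ^ c) =
      mV N (fun v => (∑ Q ∈ I, X Q v) ^ a) * mV N (fun v => X P v ^ c) := by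
  classical
  have h1 : ∀ v, (∑ Q ∈ I, X Q v) ^ a = ∑ f ∈ Fintype.piFinset (fun _ : Fin a => I), ∏ t, X (f t) v :=
    fun v => Finset.sum_pow' I (fun Q => X Q v) a
  simp only [h1, Finset.sum_mul]
  unfold mV
  rw [mn_sum, mn_sum, Finset.sum_mul]
  refine Finset.sum_congr rfl fun f hf => ?_
  rw [Fintype.mem_piFinset] at hf
  have hmon : (∏ t, f t).Monic := monic_prod_of_monic _ _ fun t _ => (hI _ (hf t)).1
  have hdeg : (∏ t, f t).natDegree ≤ a * x := by
    rw [natDegree_prod_of_monic _ _ fun t _ => (hI _ (hf t)).1]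
    refine (Finset.sum_le_card_nsmul _ _ x fun t _ => (hI _ (hf t)).2.2.1).trans ?_
    simp
  have hcop : IsCoprime (∏ t, f t) P := by
    refine IsCoprime.prod_left fun t _ => ?_
    have hne : f t ≠ P := fun h => hPI (h ▸ hf t)
    rw [(hI _ (hf t)).2.1.coprime_iff_not_dvd]
    intro hd
    exact hne (Polynomial.eq_of_monic_of_associated (hI _ (hf t)).1 hP.1
      ((hI _ (hf t)).2.1.associated_of_dvd hP.2.1 hd))
  have hper : Per (∏ t, f t) (fun v => ∏ t, X (f t) v) :=
    Per.prod _ fun t _ => ((hI _ (hf t)).2.2.2).mono (Finset.dvd_prod_of_mem f (mem_univ t))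
  have := mV_indep hmon hP.1 hcop (N := N) (by nlinarith [hP.2.2.1]) hper (hP.2.2.2.pow c)
  exact this

/-- **Moments.** -/
theorem moment_le {I : Finset k[X]} (hI : ∀ P ∈ I, P.Monic ∧ Irreducible P ∧ P.natDegree ≤ x ∧
    Per P (X P)) (hb : ∀ P ∈ I, 0 ≤ b P ∧ (∀ v, |X P v| ≤ b P) ∧ mV N (X P) = 0) {z : ℝ} (hz : 0 < z) :
    ∀ n : ℕ, (n + 1) * x ≤ N → |mV N (fun v => (∑ Q ∈ I, X Q v) ^ n)| ≤
      n.factorial * (z⁻¹ ^ n * Real.exp (z ^ 2 * ∑ Q ∈ I, b Q ^ 2)) := by
  classical
  induction I using Finset.induction_on with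
  | empty =>
    intro n _
    rcases Nat.eq_zero_or_pos n with h0 | h0
    · subst h0
      simp [mV, mn_const]
    · simp only [Finset.sum_empty, zero_pow (by omega : n ≠ 0)]
      unfold mV
      rw [mn_const, abs_zero]
      positivity
  | insert P I hPI ih =>
    intro n hn
    have hI' := fun Q (hQ : Q ∈ I) => hI Q (mem_insert_of_mem hQ)
    have hb' := fun Q (hQ : Q ∈ I) => hb Q (mem_insert_of_mem hQ)
    have hP := hI P (mem_insert_self P I)
    obtain ⟨b0, b1, b2⟩ := hb P (mem_insert_self P I)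
    have ih' := ih hI' hb'
    set E := Real.exp (z ^ 2 * ∑ Q ∈ I, b Q ^ 2) with hE
    have hE0 : 0 < E := Real.exp_pos _
    have e1 : ∀ v, (∑ Q ∈ insert P I, X Q v) ^ n = ∑ j ∈ range (n + 1),
        (n.choose j : ℝ) * ((∑ Q ∈ I, X Q v) ^ (n - j) * X P v ^ j) := by
      intro v
      rw [Finset.sum_insert hPI, add_pow]
      refine Finset.sum_congr rfl fun j _ => ?_
      ring
    simp only [e1]
    have e2 : mV N (fun v => ∑ j ∈ range (n + 1),
        (n.choose j : ℝ) * ((∑ Q ∈ I, X Q v) ^ (n - j) * X P v ^ j)) =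
        ∑ j ∈ range (n + 1), (n.choose j : ℝ) * (mV N (fun v => (∑ Q ∈ I, X Q v) ^ (n - j)) *
          mV N (fun v => X P v ^ j)) := by
      unfold mV
      rw [mn_sum]
      refine Finset.sum_congr rfl fun j hj => ?_
      rw [mn_mul_left]
      congr 1
      refine mV_split hI' hP hPI ?_
      rw [mem_range] at hj
      refine le_trans (Nat.mul_le_mul_right x ?_) hn
      omega
    rw [e2]
    have h3 : ∀ j ∈ range (n + 1), |(n.choose j : ℝ) * (mV N (fun v => (∑ Q ∈ I, X Q v) ^ (n - j)) *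
          mV N (fun v => X P v ^ j))| ≤ (n.factorial * (z⁻¹ ^ n * E)) *
          (if j = 1 then 0 else (z * b P) ^ j / (j.factorial : ℝ)) := by
      intro j hj
      rw [mem_range] at hj
      by_cases h1 : j = 1
      · subst h1
        have b3 : mV N (fun v => X P v ^ 1) = 0 := by
          simp only [pow_one]
          exact b2
        rw [b3, if_pos rfl, mul_zero, mul_zero, mul_zero, abs_zero]
      · rw [if_neg h1, abs_mul, abs_mul, Nat.abs_cast]
        have g1 := ih' (n - j) (le_trans (Nat.mul_le_mul_right x (by omega)) hn)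
        have g2 : |mV N (fun v => X P v ^ j)| ≤ b P ^ j := by
          unfold mV
          refine abs_mn_le fun v => ?_
          rw [abs_pow]
          exact pow_le_pow_left₀ (abs_nonneg _) (b1 _) j
        have g3 := mul_le_mul g1 g2 (abs_nonneg _) (by positivity)
        refine (mul_le_mul_of_nonneg_left g3 (Nat.cast_nonneg _)).trans (le_of_eq ?_)
        have hch : (n.choose j : ℝ) = n.factorial / (j.factorial * (n - j).factorial) := by
          rw [Nat.cast_choose ℝ (by omega)]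
        have hzz : z⁻¹ ^ (n - j) = z⁻¹ ^ n * z ^ j := by
          have : n = (n - j) + j := by omega
          conv_rhs => rw [this, pow_add]
          rw [mul_assoc, ← mul_pow, inv_mul_cancel₀ hz.ne', one_pow, mul_one]
        rw [hch, hzz, mul_pow]
        have f1 : (j.factorial : ℝ) ≠ 0 := by exact_mod_cast j.factorial_ne_zero
        have f2 : ((n - j).factorial : ℝ) ≠ 0 := by exact_mod_cast (n - j).factorial_ne_zero
        field_simp
    refine (Finset.abs_sum_le_sum_abs _ _).trans ((Finset.sum_le_sum h3).trans ?_)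
    rw [← Finset.mul_sum]
    have h4 := trunc_sum (y := z * b P) (by positivity) n
    refine (mul_le_mul_of_nonneg_left h4 (by positivity)).trans (le_of_eq ?_)
    rw [Finset.sum_insert hPI, hE, mul_add, Real.exp_add, mul_pow]
    ring

/-- **Even moments.** -/
theorem moment_even {I : Finset k[X]} (hI : ∀ P ∈ I, P.Monic ∧ Irreducible P ∧ P.natDegree ≤ x ∧
    Per P (X P)) (hb : ∀ P ∈ I, 0 ≤ b P ∧ (∀ v, |X P v| ≤ b P) ∧ mV N (X P) = 0) {q : ℕ} (hq : 1 ≤ q)
    (hN : (2 * q + 1) * x ≤ N) :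
    ∑ v : VV k N, (∑ Q ∈ I, X Q ((v.1 : k[X]), (v.2 : k[X]))) ^ (2 * q) ≤
      (3 * (2 * q).factorial * #(univ : Finset (VV k N))) * (∑ Q ∈ I, b Q ^ 2) ^ q := by
  have hc : (0 : ℝ) < Fintype.card (VV k N) := by exact_mod_cast Fintype.card_pos
  have hW : 0 ≤ ∑ Q ∈ I, b Q ^ 2 := Finset.sum_nonneg fun Q _ => sq_nonneg _
  have key : mV N (fun v => (∑ Q ∈ I, X Q v) ^ (2 * q)) ≤ 3 * (2 * q).factorial * (∑ Q ∈ I, b Q ^ 2) ^ q := by
    rcases hW.eq_or_lt with h0 | h0
    · have hz : ∀ Q ∈ I, b Q = 0 := fun Q hQ => by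
        have := (Finset.sum_eq_zero_iff_of_nonneg (fun Q _ => sq_nonneg (b Q))).1 h0.symm Q hQ
        exact pow_eq_zero_iff two_ne_zero |>.1 this
      have e : ∀ v, (∑ Q ∈ I, X Q v) ^ (2 * q) = 0 := by
        intro v
        rw [Finset.sum_eq_zero, zero_pow (by omega)]
        intro Q hQ
        have := (hb Q hQ).2.1 v
        rw [hz Q hQ] at this
        exact abs_nonpos_iff.1 this
      simp only [e]
      unfold mV
      rw [mn_const, ← h0, zero_pow (by omega)]
      simp
    · set s := Real.sqrt (∑ Q ∈ I, b Q ^ 2) with hs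
      have hs0 : 0 < s := Real.sqrt_pos.2 h0
      have hs2 : s ^ 2 = ∑ Q ∈ I, b Q ^ 2 := Real.sq_sqrt h0.le
      have h1 := moment_le hI hb (z := s⁻¹) (inv_pos.2 hs0) (2 * q) hN
      rw [inv_inv, ← hs2, ← mul_pow, inv_mul_cancel₀ hs0.ne', one_pow] at h1
      have h2 : Real.exp 1 ≤ 3 := by
        have := Real.exp_one_lt_d9
        linarith
      refine (le_abs_self _).trans (h1.trans ?_)
      rw [← hs2, ← pow_mul]
      calc ((2 * q).factorial : ℝ) * (s ^ (2 * q) * Real.exp 1) ≤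
          ((2 * q).factorial : ℝ) * (s ^ (2 * q) * 3) :=
            mul_le_mul_of_nonneg_left (mul_le_mul_of_nonneg_left h2 (by positivity)) (by positivity)
        _ = _ := by ring
  unfold mV mn at key
  rw [div_le_iff₀ hc] at key
  refine key.trans (le_of_eq ?_)
  rw [card_univ]
  ring

end moments

end Pool.Agent.N430.BP.FF
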