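import Pool.Agent.R410.NG.Trc

set_option autoImplicit false
set_option linter.all false

/-! The logarithm of the number of the points of the curves `y² = x³ + a x + b` over a finite field. -/

namespace Pool.Agent.N430.BP

open Finset Polynomial Pool.Agent.R410.NG

section
variable (F : Type) [Field F]

/-- the polynomial `x³ + a x + b` -/
noncomputable def cub (a b : F) : F[X] := X ^ 3 + C a * X + C b

/-- the number of the points (with one point at infinity) -/
noncomputable def pts (a b : F) : ℕ := Nat.card {P : F × F // P.2 ^ 2 = P.1 ^ 3 + a * P.1 + b} + 1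

/-- the logarithm of the quotient by the order of the field -/
noncomputable def lg (a b : F) : ℝ := Real.log ((pts F a b : ℝ) / Nat.card F)

/-- the first order term -/
noncomputable def yy (a b : F) : ℝ := (1 - trc F (cub F a b)) / Nat.card F

variable {F}

lemma cub_monic (a b : F) : (cub F a b).Monic ∧ (cub F a b).natDegree = 3 := by
  unfold cub
  constructor
  · monicity!
  · compute_degree!

variable [Finite F]

lemma pts_eq (a b : F) : (pts F a b : ℝ) = Nat.card F - trc F (cub F a b) + 1 := by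
  unfold pts trc
  have e : ∀ P : F × F, (P.2 ^ 2 = (cub F a b).eval P.1) ↔ (P.2 ^ 2 = P.1 ^ 3 + a * P.1 + b) := by
    intro P
    unfold cub
    simp
  simp only [e]
  push_cast
  ring

lemma card_ge : (2 : ℝ) ≤ (Nat.card F : ℝ) := by
  have : 1 < Nat.card F := Finite.one_lt_card
  exact_mod_cast this

lemma tr3 (a b : F) : |trc F (cub F a b)| ≤ 3 * √(Nat.card F : ℝ) := by
  have h := cub_monic a b
  have := trc_bound h.1 (n := 3) h.2 (by decide)
  exact_mod_cast this

lemma yy_bound (a b : F) : |yy F a b| ≤ 4 / √(Nat.card F : ℝ) := by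
  have hq := card_ge (F := F)
  have hq0 : (0 : ℝ) < Nat.card F := by linarith
  have hs0 : 0 < √(Nat.card F : ℝ) := Real.sqrt_pos.2 hq0
  have hs1 : 1 ≤ √(Nat.card F : ℝ) := Real.one_le_sqrt.2 (by linarith)
  have hs2 : √(Nat.card F : ℝ) ^ 2 = Nat.card F := Real.sq_sqrt hq0.le
  unfold yy
  rw [abs_div, abs_of_pos hq0, div_le_div_iff₀ hq0 hs0]
  have h1 := tr3 a b
  have h2 : |1 - trc F (cub F a b)| ≤ 4 * √(Nat.card F : ℝ) := by
    refine (abs_sub _ _).trans ?_
    rw [abs_one]
    linarith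
  calc |1 - trc F (cub F a b)| * √(Nat.card F : ℝ) ≤ 4 * √(Nat.card F : ℝ) * √(Nat.card F : ℝ) :=
        mul_le_mul_of_nonneg_right h2 hs0.le
    _ = _ := by
      rw [mul_assoc, ← sq, hs2]

lemma lg_expand (a b : F) :
    |lg F a b - (yy F a b - yy F a b ^ 2 / 2)| ≤ 65536 * (√(Nat.card F : ℝ))⁻¹ ^ 3 := by
  have hq := card_ge (F := F)
  have hq0 : (0 : ℝ) < Nat.card F := by linarith
  set q : ℝ := ((Nat.card F : ℕ) : ℝ) with hqd
  set s := √q with hs
  have hs0 : 0 < s := Real.sqrt_pos.2 hq0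
  have hs1 : 1 ≤ s := Real.one_le_sqrt.2 (by linarith)
  have hs2 : s ^ 2 = q := Real.sq_sqrt hq0.le
  set y := yy F a b with hy
  have hyb : |y| ≤ 4 / s := yy_bound a b
  have hlg : lg F a b = Real.log (1 + y) := by
    unfold lg
    rw [pts_eq, hy]
    unfold yy
    congr 1
    rw [← hqd]
    field_simp
    ring
  have hinv : (s⁻¹) ^ 3 * s ^ 3 = 1 := by
    rw [← mul_pow, inv_mul_cancel₀ hs0.ne', one_pow]
  by_cases h64 : 8 ≤ s
  · have hy1 : |y| ≤ 1 / 2 := by
      refine hyb.trans ?_
      rw [div_le_div_iff₀ hs0 (by norm_num)]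
      linarith
    have h1 := Real.abs_log_sub_add_sum_range_le (x := -y) (by rw [abs_neg]; linarith) 2
    simp only [Finset.sum_range_succ, Finset.sum_range_zero, abs_neg] at h1
    have e : (0 + (-y) ^ (0 + 1) / ((0 : ℕ) + 1) + (-y) ^ (1 + 1) / ((1 : ℕ) + 1) +
        Real.log (1 - -y)) = lg F a b - (y - y ^ 2 / 2) := by
      rw [hlg, sub_neg_eq_add]
      push_cast
      ring
    rw [e] at h1
    refine h1.trans ?_
    rw [div_le_iff₀ (by linarith)]
    have h3 : |y| ^ 3 ≤ (4 / s) ^ 3 := pow_le_pow_left₀ (abs_nonneg _) hyb 3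
    have h4 : (4 / s) ^ 3 = 64 * s⁻¹ ^ 3 := by
      rw [div_eq_mul_inv, mul_pow]
      norm_num
    have h5 : 0 < s⁻¹ ^ 3 := by positivity
    rw [h4] at h3
    have h6 : |y| ^ (2 + 1) = |y| ^ 3 := rfl
    rw [h6]
    nlinarith
  · push Not at h64
    have hq64 : q < 64 := by rw [← hs2]; nlinarith
    have hp1 : (1 : ℝ) ≤ pts F a b := by
      unfold pts
      push_cast
      have : (0 : ℝ) ≤ (Nat.card {P : F × F // P.2 ^ 2 = P.1 ^ 3 + a * P.1 + b} : ℝ) :=
        Nat.cast_nonneg _
      linarith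
    have hp2 : (pts F a b : ℝ) ≤ q + 3 * s + 1 := by
      rw [pts_eq]
      have := (abs_le.1 (tr3 a b)).1
      linarith
    have hl1 : lg F a b ≤ 4 := by
      unfold lg
      rw [← hqd]
      have h1 : (pts F a b : ℝ) / q ≤ 5 := by
        rw [div_le_iff₀ hq0]
        nlinarith
      have h2 : 0 < (pts F a b : ℝ) / q := by positivity
      have := Real.log_le_sub_one_of_pos h2
      linarith
    have hl2 : -64 ≤ lg F a b := by
      unfold lg
      rw [← hqd]
      have h2 : 0 < (pts F a b : ℝ) / q := by positivity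
      have h3 := Real.one_sub_inv_le_log_of_pos h2
      have h4 : ((pts F a b : ℝ) / q)⁻¹ ≤ 64 := by
        rw [inv_div, div_le_iff₀ (by linarith)]
        linarith
      linarith
    have hyb4 : |y| ≤ 4 := hyb.trans (by
      rw [div_le_iff₀ hs0]
      linarith)
    have hy2 : y ^ 2 ≤ 16 := by
      rw [← sq_abs]
      nlinarith [abs_nonneg y]
    have hya := abs_le.1 hyb4
    have h5 : |lg F a b - (y - y ^ 2 / 2)| ≤ 32 * 2 + 16 := by
      rw [abs_le]
      constructor <;> nlinarith [sq_nonneg y, hya.1, hya.2]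
    refine h5.trans ?_
    have h6 : s ^ 3 ≤ 8 * 8 * 2 * 4 := by
      have : s ^ 3 = s * s ^ 2 := by ring
      rw [this, hs2]
      nlinarith
    have h7 : 1 / (8 * 8 * 2 * 4) ≤ s⁻¹ ^ 3 := by
      rw [div_le_iff₀ (by norm_num), ← hinv]
      exact mul_le_mul_of_nonneg_left h6 (by positivity)
    linarith

/-- the bound -/
lemma lg_bound (a b : F) : |lg F a b| ≤ 65600 / √(Nat.card F : ℝ) := by
  have hq := card_ge (F := F)
  have hq0 : (0 : ℝ) < Nat.card F := by linarith
  have h1 := lg_expand a b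
  have h2 := yy_bound a b
  set q : ℝ := ((Nat.card F : ℕ) : ℝ) with hqd
  set s := √q with hs
  have hs0 : 0 < s := Real.sqrt_pos.2 hq0
  have hs1 : 1 ≤ s := Real.one_le_sqrt.2 (by linarith)
  set y := yy F a b with hy
  set r := s⁻¹ with hr
  have hr0 : 0 < r := inv_pos.2 hs0
  have hr1 : r ≤ 1 := inv_le_one_of_one_le₀ hs1
  rw [div_eq_mul_inv, ← hr] at h2 ⊢
  have h3 : y ^ 2 ≤ 16 * r := by
    have h4 : |y| ^ 2 ≤ (4 * r) ^ 2 := pow_le_pow_left₀ (abs_nonneg _) h2 2
    rw [sq_abs] at h4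
    nlinarith
  have h5 : r ^ 3 ≤ r := by
    have : r ^ 3 = r * (r * r) := by ring
    rw [this]
    exact mul_le_of_le_one_right hr0.le (by nlinarith)
  have h6 := abs_le.1 h1
  have h7 := abs_le.1 h2
  rw [abs_le]
  constructor <;> nlinarith [sq_nonneg y]

end

section mean
variable {F : Type} [Field F] [Fintype F] [DecidableEq F]

lemma sum_chi_all (hF : ringChar F ≠ 2) : ∑ z : F, quadraticChar F z = 0 :=
  quadraticChar_sum_zero hF

lemma sum_chi_shift (hF : ringChar F ≠ 2) (z : F) : ∑ b : F, quadraticChar F (z + b) = 0 := by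
  rw [← sum_chi_all hF]
  exact Fintype.sum_equiv (Equiv.addLeft z) _ _ fun b => rfl

lemma trc_sum (hF : ringChar F ≠ 2) (a b : F) :
    trc F (cub F a b) = -((∑ x : F, quadraticChar F (x ^ 3 + a * x + b) : ℤ) : ℝ) := by
  rw [trc_char hF]
  congr 3
  funext x
  unfold cub
  simp

lemma mean_trc (hF : ringChar F ≠ 2) : ∑ a : F, ∑ b : F, trc F (cub F a b) = 0 := by
  refine Finset.sum_eq_zero fun a _ => ?_
  simp only [trc_sum hF]
  rw [Finset.sum_neg_distrib, ← Int.cast_sum, Finset.sum_comm]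
  rw [Finset.sum_eq_zero (fun x _ => sum_chi_shift hF (x ^ 3 + a * x))]
  simp

lemma sum_two (hF : ringChar F ≠ 2) {x y : F} (hxy : x ≠ y) :
    ∑ a : F, ∑ b : F, quadraticChar F (x ^ 3 + a * x + b) * quadraticChar F (y ^ 3 + a * y + b) = 0 := by
  have hd : y - x ≠ 0 := sub_ne_zero.2 (Ne.symm hxy)
  have e : ∑ a : F, ∑ b : F, quadraticChar F (x ^ 3 + a * x + b) * quadraticChar F (y ^ 3 + a * y + b) =
      ∑ w : F × F, quadraticChar F w.1 * quadraticChar F w.2 := by
    rw [← Fintype.sum_prod_type' (fun a b => quadraticChar F (x ^ 3 + a * x + b) *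
      quadraticChar F (y ^ 3 + a * y + b))]
    refine Fintype.sum_equiv
      { toFun := fun w : F × F => (x ^ 3 + w.1 * x + w.2, y ^ 3 + w.1 * y + w.2)
        invFun := fun w : F × F => (((w.2 - y ^ 3) - (w.1 - x ^ 3)) / (y - x),
          (w.1 - x ^ 3) - ((w.2 - y ^ 3) - (w.1 - x ^ 3)) / (y - x) * x)
        left_inv := fun w => ?_
        right_inv := fun w => ?_ } _ _ fun w => rfl
    · refine Prod.ext ?_ ?_
      · simp only
        field_simp
        ring
      · simp only
        field_simp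
        ring
    · refine Prod.ext ?_ ?_
      · simp only
        ring
      · simp only
        field_simp
        ring
  rw [e, Fintype.sum_prod_type]
  simp only
  rw [← Fintype.sum_mul_sum, sum_chi_all hF, zero_mul]

lemma sum_one (x : F) :
    ∑ a : F, ∑ b : F, quadraticChar F (x ^ 3 + a * x + b) * quadraticChar F (x ^ 3 + a * x + b) =
      (Fintype.card F : ℤ) * (Fintype.card F - 1) := by
  have h1 : ∀ a : F, ∑ b : F, quadraticChar F (x ^ 3 + a * x + b) *
      quadraticChar F (x ^ 3 + a * x + b) = (Fintype.card F : ℤ) - 1 := by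
    intro a
    have e : ∑ b : F, quadraticChar F (x ^ 3 + a * x + b) * quadraticChar F (x ^ 3 + a * x + b) =
        ∑ z : F, quadraticChar F z * quadraticChar F z :=
      Fintype.sum_equiv (Equiv.addLeft (x ^ 3 + a * x)) _ _ fun b => rfl
    rw [e]
    have e2 : ∀ z : F, quadraticChar F z * quadraticChar F z = if z = 0 then 0 else 1 := by
      intro z
      split_ifs with h
      · rw [h]
        simp
      · rw [← sq]
        exact quadraticChar_sq_one h
    simp only [e2]
    rw [Finset.sum_ite, Finset.sum_const_zero, zero_add, Finset.sum_const, nsmul_eq_mul, mul_one]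
    have h3 : #(univ.filter fun z : F => ¬ z = 0) = Fintype.card F - 1 := by
      rw [Finset.filter_not, Finset.card_sdiff_of_subset (Finset.filter_subset _ _), card_univ,
        Finset.filter_eq' univ (0 : F)]
      simp
    rw [h3, Nat.cast_sub Fintype.card_pos]
    simp
  simp only [h1]
  rw [Finset.sum_const, card_univ, nsmul_eq_mul]

lemma mean_sq (hF : ringChar F ≠ 2) : ∑ a : F, ∑ b : F, trc F (cub F a b) ^ 2 =
    (Fintype.card F : ℝ) ^ 2 * (Fintype.card F - 1) := by
  have e : ∀ a b : F, trc F (cub F a b) ^ 2 = ((∑ x : F, ∑ y : F,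
      quadraticChar F (x ^ 3 + a * x + b) * quadraticChar F (y ^ 3 + a * y + b) : ℤ) : ℝ) := by
    intro a b
    rw [trc_sum hF, neg_sq, ← Int.cast_pow, sq, Fintype.sum_mul_sum]
  simp only [e]
  have h1 : ∑ a : F, ∑ b : F, ∑ x : F, ∑ y : F,
      quadraticChar F (x ^ 3 + a * x + b) * quadraticChar F (y ^ 3 + a * y + b) =
      ∑ x : F, ∑ y : F, ∑ a : F, ∑ b : F,
      quadraticChar F (x ^ 3 + a * x + b) * quadraticChar F (y ^ 3 + a * y + b) := by
    calc _ = ∑ a : F, ∑ x : F, ∑ b : F, ∑ y : F,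
          quadraticChar F (x ^ 3 + a * x + b) * quadraticChar F (y ^ 3 + a * y + b) :=
          Finset.sum_congr rfl fun a _ => Finset.sum_comm
      _ = ∑ x : F, ∑ a : F, ∑ b : F, ∑ y : F,
          quadraticChar F (x ^ 3 + a * x + b) * quadraticChar F (y ^ 3 + a * y + b) := Finset.sum_comm
      _ = ∑ x : F, ∑ a : F, ∑ y : F, ∑ b : F,
          quadraticChar F (x ^ 3 + a * x + b) * quadraticChar F (y ^ 3 + a * y + b) :=
          Finset.sum_congr rfl fun x _ => Finset.sum_congr rfl fun a _ => Finset.sum_comm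
      _ = _ := Finset.sum_congr rfl fun x _ => Finset.sum_comm
  have h2 : ∀ x : F, ∑ y : F, ∑ a : F, ∑ b : F,
      quadraticChar F (x ^ 3 + a * x + b) * quadraticChar F (y ^ 3 + a * y + b) =
      (Fintype.card F : ℤ) * (Fintype.card F - 1) := by
    intro x
    rw [Finset.sum_eq_single x (fun y _ hy => sum_two hF (Ne.symm hy)) (fun h => absurd (mem_univ x) h)]
    exact sum_one x
  have h3 : (∑ a : F, ∑ b : F, ((∑ x : F, ∑ y : F,
      quadraticChar F (x ^ 3 + a * x + b) * quadraticChar F (y ^ 3 + a * y + b) : ℤ) : ℝ)) =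
      ((∑ a : F, ∑ b : F, ∑ x : F, ∑ y : F,
      quadraticChar F (x ^ 3 + a * x + b) * quadraticChar F (y ^ 3 + a * y + b) : ℤ) : ℝ) := by
    push_cast
    rfl
  rw [h3, h1]
  simp only [h2]
  rw [Finset.sum_const, card_univ, nsmul_eq_mul]
  push_cast
  ring

/-- the mean of the logarithm -/
noncomputable def Elg (F : Type) [Field F] [Fintype F] : ℝ :=
  (∑ a : F, ∑ b : F, lg F a b) / (Fintype.card F : ℝ) ^ 2

lemma Elg_bound : |Elg F| ≤ 65600 / √(Nat.card F : ℝ) := by
  have hq : (0 : ℝ) < Fintype.card F := by exact_mod_cast Fintype.card_pos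
  unfold Elg
  rw [abs_div, abs_of_pos (by positivity : (0 : ℝ) < (Fintype.card F : ℝ) ^ 2), div_le_iff₀ (by positivity)]
  refine (Finset.abs_sum_le_sum_abs _ _).trans ?_
  refine (Finset.sum_le_sum fun a _ => (Finset.abs_sum_le_sum_abs _ _).trans
    (Finset.sum_le_sum fun b _ => lg_bound a b)).trans (le_of_eq ?_)
  rw [Finset.sum_const, Finset.sum_const, card_univ]
  simp only [nsmul_eq_mul]
  ring

lemma Elg_eq (hF : ringChar F ≠ 2) :
    |Elg F - 1 / (2 * (Nat.card F : ℝ))| ≤ 65536 * (√(Nat.card F : ℝ))⁻¹ ^ 3 := by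
  have hq : (0 : ℝ) < Fintype.card F := by exact_mod_cast Fintype.card_pos
  have hcard : (Nat.card F : ℝ) = Fintype.card F := by rw [Nat.card_eq_fintype_card]
  have e1 : ∑ a : F, ∑ b : F, (yy F a b - yy F a b ^ 2 / 2) = (Fintype.card F : ℝ) / 2 := by
    have h1 : ∀ a b : F, yy F a b - yy F a b ^ 2 / 2 =
        (1 / (Fintype.card F : ℝ) - 1 / (2 * (Fintype.card F : ℝ) ^ 2)) +
        (-(1 / (Fintype.card F : ℝ)) + 1 / (Fintype.card F : ℝ) ^ 2) * trc F (cub F a b) +
        (-(1 / (2 * (Fintype.card F : ℝ) ^ 2))) * trc F (cub F a b) ^ 2 := by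
      intro a b
      unfold yy
      rw [hcard]
      field_simp
      ring
    simp only [h1, Finset.sum_add_distrib, ← Finset.mul_sum, mean_trc hF, mean_sq hF]
    rw [Finset.sum_const, Finset.sum_const, card_univ]
    simp only [nsmul_eq_mul]
    field_simp
    ring
  have e2 : Elg F - 1 / (2 * (Nat.card F : ℝ)) =
      (∑ a : F, ∑ b : F, (lg F a b - (yy F a b - yy F a b ^ 2 / 2))) / (Fintype.card F : ℝ) ^ 2 := by
    simp only [Finset.sum_sub_distrib]
    simp only [Finset.sum_sub_distrib] at e1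
    rw [e1]
    unfold Elg
    rw [hcard]
    field_simp
  rw [e2, abs_div, abs_of_pos (by positivity : (0 : ℝ) < (Fintype.card F : ℝ) ^ 2),
    div_le_iff₀ (by positivity)]
  refine (Finset.abs_sum_le_sum_abs _ _).trans ?_
  refine (Finset.sum_le_sum fun a _ => (Finset.abs_sum_le_sum_abs _ _).trans
    (Finset.sum_le_sum fun b _ => lg_expand a b)).trans (le_of_eq ?_)
  rw [Finset.sum_const, Finset.sum_const, card_univ]
  simp only [nsmul_eq_mul]
  ring

end mean

end Pool.Agent.N430.BP
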