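import Pool.Agent.N430.BP.FF1
import Pool.Agent.N430.BP.NF1
import Pool.Agent.N842.SQ.Pts

set_option autoImplicit false
set_option linter.all false

/-! The original products of Birch and Swinnerton-Dyer over rational function fields: local part. -/

namespace Pool.Agent.N430.BP.FF

open Finset Polynomial Pool.Agent.N430.BP

section loc
variable {k : Type} [Field k] [Fintype k]

/-- the residue ring -/
abbrev Rs (P : k[X]) : Type := k[X] ⧸ Ideal.span {P}

/-- the field structure -/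
@[reducible] noncomputable def fldP {P : k[X]} (hP : Irreducible P) : Field (Rs P) :=
  @Ideal.Quotient.field _ _ (Ideal.span {P}) (PrincipalIdealRing.isMaximal_of_irreducible hP)

lemma card_Rs {P : k[X]} (hP : P.Monic) : Nat.card (Rs P) = Fintype.card k ^ P.natDegree := by
  have := fin_quot hP
  have h1 : Module.Finite k (Rs P) := Module.Finite.of_finite
  rw [Module.natCard_eq_pow_finrank (K := k), finrank_quotient_span_eq_natDegree,
    Nat.card_eq_fintype_card]

/-- the number of the points of `y² = x³ + A x + B` over the residue ring, with one point at infinity -/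
noncomputable def pc (P A B : k[X]) : ℕ :=
  Nat.card {z : Rs P × Rs P // z.2 ^ 2 = z.1 ^ 3 + Ideal.Quotient.mk (Ideal.span {P}) A * z.1 +
    Ideal.Quotient.mk (Ideal.span {P}) B} + 1

/-- the logarithm of the local factor -/
noncomputable def lfP (P A B : k[X]) : ℝ :=
  Real.log ((pc P A B : ℝ) / (Fintype.card k : ℝ) ^ P.natDegree)

lemma lfP_lg {P : k[X]} (hm : P.Monic) (hP : Irreducible P) (A B : k[X]) :
    lfP P A B = @lg (Rs P) (fldP hP) (Ideal.Quotient.mk _ A) (Ideal.Quotient.mk _ B) := by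
  unfold lfP lg pts pc
  rw [card_Rs hm]
  push_cast
  rfl

open Classical in
/-- the mean -/
noncomputable def EP (P : k[X]) : ℝ :=
  if h : P.Monic ∧ Irreducible P then
    @Elg (Rs P) (fldP h.2) (@Fintype.ofFinite _ (fin_quot h.1)) else 0

/-- the inverse of the square root of the order of the field -/
noncomputable def rk (k : Type) [Field k] [Fintype k] : ℝ := (√(Fintype.card k : ℝ))⁻¹

variable (k) in
lemma rk_bounds : 0 < rk k ∧ rk k ≤ 3 / 4 := by
  have h1 : (2 : ℝ) ≤ Fintype.card k := by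
    have : 1 < Fintype.card k := Fintype.one_lt_card
    exact_mod_cast this
  unfold rk
  constructor
  · positivity
  · rw [inv_le_comm₀ (by positivity) (by norm_num)]
    apply Real.le_sqrt_of_sq_le
    norm_num
    linarith

variable (k) in
lemma rk_sq : rk k ^ 2 = (Fintype.card k : ℝ)⁻¹ := by
  unfold rk
  rw [inv_pow, Real.sq_sqrt (Nat.cast_nonneg _)]

lemma sqrt_Rs {P : k[X]} (hP : P.Monic) : (√((Nat.card (Rs P) : ℕ) : ℝ))⁻¹ = rk k ^ P.natDegree := by
  rw [card_Rs hP]
  unfold rk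
  rw [inv_pow]
  congr 1
  push_cast
  rw [Real.sqrt_eq_iff_mul_self_eq (by positivity) (by positivity), ← mul_pow,
    Real.mul_self_sqrt (by positivity)]

lemma lfP_bound {P : k[X]} (hm : P.Monic) (hP : Irreducible P) (A B : k[X]) :
    |lfP P A B| ≤ 65600 * rk k ^ P.natDegree := by
  rw [lfP_lg hm hP]
  have h := @lg_bound (Rs P) (fldP hP) (fin_quot hm) (Ideal.Quotient.mk _ A) (Ideal.Quotient.mk _ B)
  rwa [div_eq_mul_inv, sqrt_Rs hm] at h

lemma EP_bound {P : k[X]} (hm : P.Monic) (hP : Irreducible P) :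
    |EP P| ≤ 65600 * rk k ^ P.natDegree := by
  classical
  unfold EP
  rw [dif_pos ⟨hm, hP⟩]
  have h := @Elg_bound (Rs P) (fldP hP) (@Fintype.ofFinite _ (fin_quot hm))
  rw [div_eq_mul_inv, sqrt_Rs hm] at h
  exact h

lemma EP_eq (h2 : ringChar k ≠ 2) {P : k[X]} (hm : P.Monic) (hP : Irreducible P) :
    |EP P - rk k ^ (2 * P.natDegree) / 2| ≤ 65536 * rk k ^ (3 * P.natDegree) := by
  classical
  unfold EP
  rw [dif_pos ⟨hm, hP⟩]
  have hch : @ringChar (Rs P) (fldP hP).toNonAssocSemiring ≠ 2 := by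
    let _ := fldP hP
    have h3 : ringChar k = ringChar (Rs P) := Algebra.ringChar_eq k (Rs P)
    intro h
    exact h2 (h3.trans h)
  have h := @Elg_eq (Rs P) (fldP hP) (@Fintype.ofFinite _ (fin_quot hm)) (by
    exact fun a b => Classical.propDecidable _) hch
  have h3 : (1 : ℝ) / (2 * (Nat.card (Rs P) : ℝ)) = rk k ^ (2 * P.natDegree) / 2 := by
    rw [card_Rs hm, pow_mul, rk_sq, inv_pow]
    push_cast
    field_simp
  rw [h3, sqrt_Rs hm, ← pow_mul, mul_comm P.natDegree 3] at h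
  exact h

/-- the local variable -/
noncomputable def XP (A₀ B₀ : k[X]) (P : k[X]) (v : k[X] × k[X]) : ℝ :=
  lfP P (A₀ + v.1) (B₀ + v.2) - EP P

lemma XP_per (A₀ B₀ : k[X]) (P : k[X]) : Per P (XP A₀ B₀ P) := by
  intro v v' h1 h2
  have e1 : Ideal.Quotient.mk (Ideal.span {P}) (A₀ + v.1) =
      Ideal.Quotient.mk (Ideal.span {P}) (A₀ + v'.1) := by
    rw [mk_eq_iff]
    convert h1 using 1
    ring
  have e2 : Ideal.Quotient.mk (Ideal.span {P}) (B₀ + v.2) =
      Ideal.Quotient.mk (Ideal.span {P}) (B₀ + v'.2) := by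
    rw [mk_eq_iff]
    convert h2 using 1
    ring
  unfold XP lfP pc
  rw [e1, e2]

lemma XP_bound {P : k[X]} (hm : P.Monic) (hP : Irreducible P) (A₀ B₀ : k[X]) (v : k[X] × k[X]) :
    |XP A₀ B₀ P v| ≤ 131200 * rk k ^ P.natDegree := by
  unfold XP
  have h1 := lfP_bound hm hP (A₀ + v.1) (B₀ + v.2)
  have h2 := EP_bound hm hP
  refine (abs_sub _ _).trans ?_
  linarith

lemma XP_mean {P : k[X]} (hm : P.Monic) (hP : Irreducible P) (A₀ B₀ : k[X]) {N : ℕ}
    (hN : P.natDegree ≤ N) : mV N (XP A₀ B₀ P) = 0 := by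
  let ft : Fintype (Rs P) := @Fintype.ofFinite _ (fin_quot hm)
  have h1 := mV_res hm hN (@lg (Rs P) (fldP hP)) A₀ B₀
  have e : XP A₀ B₀ P = fun v => @lg (Rs P) (fldP hP) (Ideal.Quotient.mk _ (A₀ + v.1))
      (Ideal.Quotient.mk _ (B₀ + v.2)) + (-EP P) := by
    funext v
    unfold XP
    rw [lfP_lg hm hP]
    ring
  have e2 : EP P = (∑ a, ∑ b, @lg (Rs P) (fldP hP) a b) / (Fintype.card (Rs P) : ℝ) ^ 2 := by
    unfold EP
    rw [dif_pos (show P.Monic ∧ Irreducible P from ⟨hm, hP⟩)]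
    rfl
  rw [e]
  unfold mV at h1 ⊢
  rw [mn_add, mn_const, h1, e2]
  ring

end loc

section count
variable (k : Type) [Field k] [Fintype k]

/-- the monic irreducible polynomials of degree `n` -/
noncomputable def IR (n : ℕ) : Finset k[X] := if n = 0 then ∅ else Pool.Agent.N842.SQ.Irr k n

variable {k} in
lemma mem_IR {n : ℕ} {P : k[X]} : P ∈ IR k n ↔ P.Monic ∧ Irreducible P ∧ P.natDegree = n := by
  unfold IR
  split_ifs with h
  · subst h
    simp only [notMem_empty, false_iff]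
    rintro ⟨_, hi, h0⟩
    exact hi.natDegree_pos.ne' h0
  · exact Pool.Agent.N842.SQ.mem_Irr k n h P

lemma card_IR_le {n : ℕ} (hn : n ≠ 0) : (#(IR k n) : ℝ) ≤ (Fintype.card k : ℝ) ^ n / n := by
  have h0 : (0 : ℝ) < n := by exact_mod_cast Nat.pos_of_ne_zero hn
  rw [le_div_iff₀ h0, mul_comm]
  unfold IR
  rw [if_neg hn]
  exact Pool.Agent.N842.SQ.card_Irr_le k n hn

lemma card_IR_ge {n : ℕ} (hn : n ≠ 0) :
    (Fintype.card k : ℝ) ^ n - 2 * (Fintype.card k : ℝ) ^ (n / 2) ≤ n * (#(IR k n) : ℝ) := by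
  have hq : (2 : ℝ) ≤ Fintype.card k := by
    have : 1 < Fintype.card k := Fintype.one_lt_card
    exact_mod_cast this
  set q : ℝ := ((Fintype.card k : ℕ) : ℝ) with hqd
  have h1 := Pool.Agent.N842.SQ.sum_card k n hn
  have h2 : ∑ d ∈ n.divisors, (d : ℝ) * ((Pool.Agent.N842.SQ.Irr k d).card : ℝ) =
      ∑ d ∈ n.properDivisors, (d : ℝ) * ((Pool.Agent.N842.SQ.Irr k d).card : ℝ) +
        n * ((Pool.Agent.N842.SQ.Irr k n).card : ℝ) := by
    rw [← Nat.cons_self_properDivisors hn, Finset.sum_cons]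
    ring
  have h3 : ∑ d ∈ n.properDivisors, (d : ℝ) * ((Pool.Agent.N842.SQ.Irr k d).card : ℝ) ≤
      ∑ d ∈ range (n / 2 + 1), q ^ d := by
    have h4 : n.properDivisors ⊆ range (n / 2 + 1) := by
      intro d hd
      rw [Nat.mem_properDivisors] at hd
      rw [mem_range]
      obtain ⟨c, hc⟩ := hd.1
      have hc2 : 2 ≤ c := by
        by_contra hcon
        push Not at hcon
        have hcc : c = 0 ∨ c = 1 := by omega
        rcases hcc with rfl | rfl
        · simp at hc
          exact hn hc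
        · rw [mul_one] at hc
          omega
      have : 2 * d ≤ n := by
        rw [hc]
        nlinarith
      omega
    refine le_trans (Finset.sum_le_sum fun d hd => ?_)
      (Finset.sum_le_sum_of_subset_of_nonneg h4 fun d _ _ => by positivity)
    have hd0 : d ≠ 0 := by
      rintro rfl
      rw [Nat.mem_properDivisors] at hd
      exact hn (Nat.eq_zero_of_zero_dvd hd.1)
    exact Pool.Agent.N842.SQ.card_Irr_le k d hd0
  have h5 : ∀ m : ℕ, ∑ d ∈ range (m + 1), q ^ d ≤ 2 * q ^ m := by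
    intro m
    induction m with
    | zero => simp
    | succ m ih =>
      rw [Finset.sum_range_succ, pow_succ]
      have : 0 ≤ q ^ m := by positivity
      nlinarith
  have h6 := h5 (n / 2)
  unfold IR
  rw [if_neg hn]
  linarith

lemma density {n : ℕ} (hn : n ≠ 0) :
    |(#(IR k n) : ℝ) * rk k ^ (2 * n) - 1 / n| ≤ 2 * rk k ^ n := by
  have h0 : (1 : ℝ) ≤ n := by exact_mod_cast Nat.one_le_iff_ne_zero.2 hn
  have hq0 : (0 : ℝ) < Fintype.card k := by exact_mod_cast Fintype.card_pos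
  obtain ⟨r0, r1⟩ := rk_bounds k
  have hr : rk k ^ (2 * n) = ((Fintype.card k : ℝ) ^ n)⁻¹ := by rw [pow_mul, rk_sq, inv_pow]
  have hQ : (0 : ℝ) < (Fintype.card k : ℝ) ^ n := by positivity
  have h1 := card_IR_le k hn
  have h2 := card_IR_ge k hn
  have h3 : (Fintype.card k : ℝ) ^ (n / 2) * rk k ^ (2 * n) ≤ rk k ^ n := by
    have h4 : (Fintype.card k : ℝ) ^ (n / 2) = rk k ^ (2 * n - 2 * (n / 2)) * (rk k ^ (2 * n))⁻¹ := by
      have h5 : (Fintype.card k : ℝ) ^ (n / 2) = (rk k ^ (2 * (n / 2)))⁻¹ := by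
        rw [pow_mul, rk_sq, inv_pow, inv_inv]
      rw [h5]
      have h6 : rk k ^ (2 * n) = rk k ^ (2 * n - 2 * (n / 2)) * rk k ^ (2 * (n / 2)) := by
        rw [← pow_add]
        congr 1
        omega
      rw [h6]
      field_simp
    rw [h4, mul_assoc, inv_mul_cancel₀ (by positivity), mul_one]
    exact pow_le_pow_of_le_one r0.le (by linarith) (by omega)
  rw [abs_le]
  constructor
  · have h7 : (1 : ℝ) - 2 * rk k ^ n ≤ n * (#(IR k n) : ℝ) * rk k ^ (2 * n) := by
      have h8 := mul_le_mul_of_nonneg_right h2 (by positivity : 0 ≤ rk k ^ (2 * n))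
      rw [sub_mul, mul_assoc 2] at h8
      have h9 : (Fintype.card k : ℝ) ^ n * rk k ^ (2 * n) = 1 := by
        rw [hr, mul_inv_cancel₀ hQ.ne']
      rw [h9] at h8
      linarith
    have h10 : (0 : ℝ) ≤ 2 * rk k ^ n := by positivity
    have h11 : (1 - 2 * rk k ^ n) / n ≤ (#(IR k n) : ℝ) * rk k ^ (2 * n) := by
      rw [div_le_iff₀ (by linarith)]
      linarith
    have h12 : 1 / (n : ℝ) - 2 * rk k ^ n ≤ (1 - 2 * rk k ^ n) / n := by
      rw [sub_div]
      have : 2 * rk k ^ n / n ≤ 2 * rk k ^ n := div_le_self h10 h0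
      linarith
    linarith
  · have h7 : (#(IR k n) : ℝ) * rk k ^ (2 * n) ≤ 1 / n := by
      rw [hr]
      refine (mul_le_mul_of_nonneg_right h1 (by positivity)).trans (le_of_eq ?_)
      field_simp
    have : (0 : ℝ) ≤ 2 * rk k ^ n := by positivity
    linarith

lemma geom_le (x : ℕ) : ∑ n ∈ range x, rk k ^ n ≤ 4 := by
  obtain ⟨r0, r1⟩ := rk_bounds k
  have h1 : ∑ n ∈ range x, rk k ^ n ≤ ∑ n ∈ range x, (3 / 4 : ℝ) ^ n :=
    Finset.sum_le_sum fun n _ => pow_le_pow_left₀ r0.le r1 n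
  have h2 : ∑ n ∈ range x, (3 / 4 : ℝ) ^ n ≤ 4 := by
    have h3 := geom_sum_eq (show (3 / 4 : ℝ) ≠ 1 by norm_num) x
    rw [h3]
    have : (0 : ℝ) ≤ (3 / 4) ^ x := by positivity
    rw [div_le_iff_of_neg (by norm_num)]
    linarith
  exact h1.trans h2

end count

end Pool.Agent.N430.BP.FF
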