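import Pool.Agent.N430.BP.FF2
import Pool.Agent.N430.BP.Abs

set_option autoImplicit false
set_option linter.all false

/-! The original products of Birch and Swinnerton-Dyer over rational function fields: the law. -/

namespace Pool.Agent.N430.BP.FF

open Finset Polynomial Pool.Agent.N430.BP

variable (k : Type) [Field k] [Fintype k]

/-- the increments -/
noncomputable def YF (A₀ B₀ : k[X]) (n : ℕ) (v : k[X] × k[X]) : ℝ := ∑ P ∈ IR k n, XP A₀ B₀ P v

/-- the weights -/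
noncomputable def wF (n : ℕ) : ℝ := ∑ P ∈ IR k n, (131200 * rk k ^ P.natDegree) ^ 2

/-- the logarithm of the product -/
noncomputable def LF (A B : k[X]) (x : ℕ) : ℝ := ∑ n ∈ Ico 0 (x + 1), ∑ P ∈ IR k n, lfP P A B

lemma IR_zero : IR k 0 = ∅ := by
  unfold IR
  rw [if_pos rfl]

lemma wF_nonneg (n : ℕ) : 0 ≤ wF k n := Finset.sum_nonneg fun _ _ => sq_nonneg _

lemma dens_le {n : ℕ} (hn : n ≠ 0) : (#(IR k n) : ℝ) * rk k ^ (2 * n) ≤ 1 / n := by
  have hr : rk k ^ (2 * n) = ((Fintype.card k : ℝ) ^ n)⁻¹ := by rw [pow_mul, rk_sq, inv_pow]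
  have hq0 : (0 : ℝ) < Fintype.card k := by exact_mod_cast Fintype.card_pos
  have hn0 : (0 : ℝ) < n := by exact_mod_cast Nat.pos_of_ne_zero hn
  have h1 := card_IR_le k hn
  rw [hr]
  refine (mul_le_mul_of_nonneg_right h1 (by positivity)).trans (le_of_eq ?_)
  field_simp

lemma wF_le (n : ℕ) : wF k n ≤ 131200 ^ 2 * (1 / n) := by
  rcases Nat.eq_zero_or_pos n with rfl | hn
  · unfold wF
    rw [IR_zero]
    simp
  · have h1 : wF k n = 131200 ^ 2 * ((#(IR k n) : ℝ) * rk k ^ (2 * n)) := by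
      unfold wF
      rw [Finset.sum_congr rfl (g := fun _ => (131200 * rk k ^ n) ^ 2) fun P hP => by
        rw [(mem_IR.1 hP).2.2], Finset.sum_const, nsmul_eq_mul]
      ring
    rw [h1]
    exact mul_le_mul_of_nonneg_left (dens_le k hn.ne') (by norm_num)

lemma harm_eq (x : ℕ) : ∑ n ∈ Ico 0 (x + 1), (1 : ℝ) / n = ((harmonic x : ℚ) : ℝ) := by
  rw [← Finset.range_eq_Ico, Finset.sum_range_succ']
  unfold harmonic
  push_cast
  simp [one_div]

lemma log_ge {x : ℕ} (hx : 3 ≤ x) : 1 ≤ Real.log x := by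
  rw [Real.le_log_iff_exp_le (by positivity)]
  have h1 := Real.exp_one_lt_d9
  have h2 : (3 : ℝ) ≤ x := by exact_mod_cast hx
  linarith

lemma wF_sum {x : ℕ} (hx : 3 ≤ x) :
    ∑ n ∈ Ico 0 (x + 1), wF k n ≤ 2 * 131200 ^ 2 * Real.log x := by
  have h1 : ∑ n ∈ Ico 0 (x + 1), wF k n ≤ ∑ n ∈ Ico 0 (x + 1), 131200 ^ 2 * ((1 : ℝ) / n) :=
    Finset.sum_le_sum fun n _ => wF_le k n
  rw [← Finset.mul_sum, harm_eq] at h1
  have h2 := harmonic_le_one_add_log x
  have h3 := log_ge hx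
  nlinarith

lemma drift_n (h2 : ringChar k ≠ 2) {n : ℕ} (hn : n ≠ 0) :
    |∑ P ∈ IR k n, EP P - 1 / 2 * (1 / (n : ℝ))| ≤ 65537 * rk k ^ n := by
  obtain ⟨r0, r1⟩ := rk_bounds k
  have hn1 : (1 : ℝ) ≤ n := by exact_mod_cast Nat.one_le_iff_ne_zero.2 hn
  have h3 : |∑ P ∈ IR k n, EP P - #(IR k n) * (rk k ^ (2 * n) / 2)| ≤ 65536 * rk k ^ n := by
    have h4 : ∑ P ∈ IR k n, EP P - #(IR k n) * (rk k ^ (2 * n) / 2) =
        ∑ P ∈ IR k n, (EP P - rk k ^ (2 * n) / 2) := by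
      rw [Finset.sum_sub_distrib, Finset.sum_const, nsmul_eq_mul]
    rw [h4]
    refine (Finset.abs_sum_le_sum_abs _ _).trans ?_
    have h5 : ∀ P ∈ IR k n, |EP P - rk k ^ (2 * n) / 2| ≤ 65536 * rk k ^ (3 * n) := by
      intro P hP
      obtain ⟨a, b, c⟩ := mem_IR.1 hP
      have := EP_eq h2 a b
      rwa [c] at this
    refine (Finset.sum_le_sum h5).trans ?_
    rw [Finset.sum_const, nsmul_eq_mul]
    have h6 := dens_le k hn
    have h7 : (1 : ℝ) / n ≤ 1 := by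
      rw [div_le_one (by linarith)]
      exact hn1
    have h8 : rk k ^ (3 * n) = rk k ^ (2 * n) * rk k ^ n := by
      rw [← pow_add]
      congr 1
      ring
    rw [h8]
    have h9 : (0 : ℝ) ≤ rk k ^ n := by positivity
    have h10 : (#(IR k n) : ℝ) * (65536 * (rk k ^ (2 * n) * rk k ^ n)) =
        65536 * (((#(IR k n) : ℝ) * rk k ^ (2 * n)) * rk k ^ n) := by ring
    rw [h10]
    have h11 : ((#(IR k n) : ℝ) * rk k ^ (2 * n)) * rk k ^ n ≤ 1 * rk k ^ n :=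
      mul_le_mul_of_nonneg_right (h6.trans h7) h9
    linarith
  have h4 := density k hn
  rw [abs_le] at h3 h4 ⊢
  constructor <;> linarith [h3.1, h3.2, h4.1, h4.2]

lemma drift (h2 : ringChar k ≠ 2) {x : ℕ} (hx : 3 ≤ x) :
    |∑ n ∈ Ico 0 (x + 1), ∑ P ∈ IR k n, EP P - 1 / 2 * Real.log x| ≤ 262149 := by
  obtain ⟨r0, r1⟩ := rk_bounds k
  have h3 : |∑ n ∈ Ico 0 (x + 1), ∑ P ∈ IR k n, EP P - ∑ n ∈ Ico 0 (x + 1), 1 / 2 * (1 / (n : ℝ))| ≤
      262148 := by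
    rw [← Finset.sum_sub_distrib]
    refine (Finset.abs_sum_le_sum_abs _ _).trans ?_
    have h4 : ∀ n ∈ Ico 0 (x + 1), |∑ P ∈ IR k n, EP P - 1 / 2 * (1 / (n : ℝ))| ≤ 65537 * rk k ^ n := by
      intro n _
      rcases Nat.eq_zero_or_pos n with rfl | hn
      · rw [IR_zero]
        simp
      · exact drift_n k h2 hn.ne'
    refine (Finset.sum_le_sum h4).trans ?_
    rw [← Finset.mul_sum, ← Finset.range_eq_Ico]
    have := geom_le k (x + 1)
    linarith
  rw [← Finset.mul_sum, harm_eq] at h3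
  have h5 := harmonic_le_one_add_log x
  have h6 := log_add_one_le_harmonic x
  have h7 : Real.log x ≤ Real.log ((x + 1 : ℕ) : ℝ) := by
    apply Real.log_le_log
    · have : 0 < x := by omega
      exact_mod_cast this
    · push_cast
      linarith
  rw [abs_le] at h3 ⊢
  constructor <;> linarith [h3.1, h3.2]

lemma LF_decomp (A₀ B₀ : k[X]) (x : ℕ) (v : k[X] × k[X]) :
    LF k (A₀ + v.1) (B₀ + v.2) x =
      ∑ n ∈ Ico 0 (x + 1), YF k A₀ B₀ n v + ∑ n ∈ Ico 0 (x + 1), ∑ P ∈ IR k n, EP P := by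
  unfold LF YF XP
  rw [← Finset.sum_add_distrib]
  refine Finset.sum_congr rfl fun n _ => ?_
  rw [← Finset.sum_add_distrib]
  refine Finset.sum_congr rfl fun P _ => ?_
  ring

lemma incr (A₀ B₀ : k[X]) {N x q : ℕ} (hq : 1 ≤ q) (hx : (2 * q + 1) * x ≤ N) {a b : ℕ}
    (hb : b ≤ x + 1) :
    ∑ v : VV k N, (∑ n ∈ Ico a b, YF k A₀ B₀ n ((v.1 : k[X]), (v.2 : k[X]))) ^ (2 * q) ≤
      (3 * (2 * q).factorial * #(univ : Finset (VV k N))) * (∑ n ∈ Ico a b, wF k n) ^ q := by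
  classical
  have hdis : ((Ico a b : Finset ℕ) : Set ℕ).PairwiseDisjoint (fun n => IR k n) := by
    intro n _ m _ hnm
    rw [Function.onFun, Finset.disjoint_left]
    intro P h1 h2
    exact hnm ((mem_IR.1 h1).2.2.symm.trans (mem_IR.1 h2).2.2)
  have h1 := moment_even (k := k) (x := x) (N := N) (I := (Ico a b).biUnion fun n => IR k n)
    (X := fun P => XP A₀ B₀ P) (b := fun P => 131200 * rk k ^ P.natDegree)
    (by
      intro P hP
      rw [Finset.mem_biUnion] at hP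
      obtain ⟨n, hn, hP⟩ := hP
      obtain ⟨g1, g2, g3⟩ := mem_IR.1 hP
      rw [mem_Ico] at hn
      exact ⟨g1, g2, by omega, XP_per A₀ B₀ P⟩)
    (by
      intro P hP
      rw [Finset.mem_biUnion] at hP
      obtain ⟨n, hn, hP⟩ := hP
      obtain ⟨g1, g2, g3⟩ := mem_IR.1 hP
      rw [mem_Ico] at hn
      have hr := (rk_bounds k).1
      refine ⟨by positivity, fun v => XP_bound g1 g2 A₀ B₀ v, XP_mean g1 g2 A₀ B₀ ?_⟩
      nlinarith)
    hq hx
  simp only [Finset.sum_biUnion hdis] at h1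
  exact h1

open Classical in
/-- **The law over rational function fields.** -/
theorem main_ff (h2 : ringChar k ≠ 2) {ε A : ℝ} (hε : 0 < ε) (hA : 0 < A) (N : ℕ) (A₀ B₀ : k[X])
    {l : ℝ} (hl : 1 ≤ l) :
    ((univ.filter fun v : VV k N => ∃ x : ℕ, 3 ≤ x ∧ (2 * qq' ε A + 1) * x ≤ N ∧
        l * Real.log x ^ (1 / 2 : ℝ) * (1 + Real.log (Real.log x)) ^ ε <
          |LF k (A₀ + (v.1 : k[X])) (B₀ + (v.2 : k[X])) x - 1 / 2 * Real.log x|).card : ℝ) ≤
      CC ε A (3 * (2 * qq' ε A).factorial) (2 * 131200 ^ 2) 262149 * l ^ (-A) *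
        (Fintype.card k : ℝ) ^ (2 * N) := by
  have hq1 : 1 ≤ qq' ε A := le_trans (by norm_num) (le_max_left _ _)
  have h := law_abs (univ : Finset (VV k N))
    (fun n v => YF k A₀ B₀ n ((v.1 : k[X]), (v.2 : k[X]))) (wF k) (wF_nonneg k) hε hA
    (K0 := 3 * (2 * qq' ε A).factorial) (by positivity) (T := fun x => Real.log x) (x0 := 3)
    (fun x hx => log_ge hx) (adm := fun x => (2 * qq' ε A + 1) * x ≤ N)
    (fun x hx a b _ hb => incr k A₀ B₀ hq1 hx hb) (B := 2 * 131200 ^ 2) (by positivity)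
    (fun x hx => wF_sum k hx)
    (fun x v => LF k (A₀ + (v.1 : k[X])) (B₀ + (v.2 : k[X])) x - 1 / 2 * Real.log x)
    (C0 := 262149) (by norm_num) (by
      intro x hx v _
      rw [show LF k (A₀ + (v.1 : k[X])) (B₀ + (v.2 : k[X])) x = _ from
        LF_decomp k A₀ B₀ x ((v.1 : k[X]), (v.2 : k[X]))]
      have := drift k h2 hx
      have e : (∑ n ∈ Ico 0 (x + 1), YF k A₀ B₀ n ((v.1 : k[X]), (v.2 : k[X])) +
          ∑ n ∈ Ico 0 (x + 1), ∑ P ∈ IR k n, EP P - 1 / 2 * Real.log x -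
          ∑ n ∈ Ico 0 (x + 1), YF k A₀ B₀ n ((v.1 : k[X]), (v.2 : k[X]))) =
          ∑ n ∈ Ico 0 (x + 1), ∑ P ∈ IR k n, EP P - 1 / 2 * Real.log x := by ring
      rw [e]
      exact this) hl
  have hc : ((#(univ : Finset (VV k N)) : ℕ) : ℝ) = (Fintype.card k : ℝ) ^ (2 * N) := by
    rw [Finset.card_univ, card_VV]
    push_cast
    rfl
  rw [hc] at h
  exact h

end Pool.Agent.N430.BP.FF
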