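import Pool.Agent.R410.NG.Trc
import Pool.Agent.R410.NG.Chi

set_option autoImplicit false

/-! Sums of the quadratic character of `A(x) w² + B(x) w + C(x)`, `w = u x + v`, over `u, v` modulo `p`,
with `x` in a field with `p` or `p²` elements. -/

namespace Pool.Agent.N430.BP

open Finset Pool.Agent.R410.NG

section prime
variable {F : Type} [Field F] [Fintype F] {p : ℕ} [CharP F p]

lemma cast_inj {u v : ℕ} (hu : u < p) (hv : v < p) (h : (u : F) = v) : u = v :=
  CharP.natCast_injOn_Iio F p hu hv h

lemma sum_range_cast (hF : Fintype.card F = p) (φ : F → ℝ) :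
    ∑ v ∈ range p, φ (v : F) = ∑ z : F, φ z := by
  classical
  have h1 : (range p).image (fun v : ℕ => (v : F)) = univ := by
    apply Finset.eq_univ_of_card
    rw [Finset.card_image_of_injOn, card_range, hF]
    intro u hu v hv h
    exact cast_inj (mem_range.1 hu) (mem_range.1 hv) h
  rw [← h1, Finset.sum_image]
  intro u hu v hv h
  exact cast_inj (mem_range.1 hu) (mem_range.1 hv) h

lemma sum_line (hF : Fintype.card F = p) (φ : F → ℝ) (x : F) (u : ℕ) :
    ∑ v ∈ range p, φ ((u : F) * x + v) = ∑ z : F, φ z := by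
  rw [sum_range_cast hF (fun z => φ ((u : F) * x + z))]
  exact Equiv.sum_comp (Equiv.addLeft ((u : F) * x)) φ

end prime

section quad
variable {E : Type} [Field E] [Fintype E] {p : ℕ} [hp : Fact p.Prime] [CharP E p]

open Classical in
/-- the elements of the prime field -/
noncomputable def PF (E : Type) [Field E] [Fintype E] (p : ℕ) : Finset E := univ.filter fun x => x ^ p = x

lemma mem_PF {x : E} : x ∈ PF E p ↔ x ^ p = x := by
  classical
  unfold PF
  simp

lemma cast_PF (n : ℕ) : (n : E) ∈ PF E p := by
  rw [mem_PF]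
  exact map_natCast (frobenius E p) n

lemma PF_eq : PF E p = (open Classical in (range p).image (fun v : ℕ => (v : E))) := by
  classical
  symm
  apply Finset.eq_of_subset_of_card_le
  · intro x hx
    rw [mem_image] at hx
    obtain ⟨n, _, rfl⟩ := hx
    exact cast_PF n
  · rw [Finset.card_image_of_injOn, card_range]
    · have h1 : PF E p ⊆ (Polynomial.X ^ p - Polynomial.X : Polynomial E).roots.toFinset := by
        intro x hx
        rw [mem_PF] at hx
        rw [Multiset.mem_toFinset, Polynomial.mem_roots (FiniteField.X_pow_card_sub_X_ne_zero E hp.out.one_lt)]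
        simp [hx]
      refine (card_le_card h1).trans ((Multiset.toFinset_card_le _).trans
        ((Polynomial.card_roots' _).trans ?_))
      rw [FiniteField.X_pow_card_sub_X_natDegree_eq E hp.out.one_lt]
    · intro u hu v hv h
      exact cast_inj (mem_range.1 hu) (mem_range.1 hv) h

lemma card_PF : #(PF E p) = p := by
  classical
  rw [PF_eq, Finset.card_image_of_injOn, card_range]
  intro u hu v hv h
  exact cast_inj (mem_range.1 hu) (mem_range.1 hv) h

lemma PF_add {x y : E} (hx : x ∈ PF E p) (hy : y ∈ PF E p) : x + y ∈ PF E p := by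
  rw [mem_PF] at *
  have := (frobenius E p).map_add x y
  simp only [frobenius_def] at this
  rw [this, hx, hy]

lemma PF_mul {x y : E} (hx : x ∈ PF E p) (hy : y ∈ PF E p) : x * y ∈ PF E p := by
  rw [mem_PF] at *
  rw [mul_pow, hx, hy]

lemma PF_neg {x : E} (hx : x ∈ PF E p) : -x ∈ PF E p := by
  rw [mem_PF] at *
  have := (frobenius E p).map_neg x
  simp only [frobenius_def] at this
  rw [this, hx]

lemma PF_inv {x : E} (hx : x ∈ PF E p) : x⁻¹ ∈ PF E p := by
  rw [mem_PF] at *
  rw [inv_pow, hx]

lemma PF_aeval {x : E} (hx : x ∈ PF E p) (f : Polynomial ℤ) : Polynomial.aeval x f ∈ PF E p := by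
  rw [mem_PF] at *
  have h : (frobenius E p) (Polynomial.aeval x f) = Polynomial.aeval (frobenius E p x) f := by
    rw [Polynomial.aeval_def, Polynomial.aeval_def, Polynomial.hom_eval₂]
    congr 1
    exact RingHom.ext_int _ _
  simp only [frobenius_def] at h
  rw [h, hx]

/-- the elements of the prime field are squares -/
lemma chi_PF (hcard : Fintype.card E = p ^ 2) (h2 : p ≠ 2) {z : E} (hz : z ∈ PF E p) (h0 : z ≠ 0) :
    chi E z = 1 := by
  have hring : ringChar E = p := ringChar.eq E p
  have hE : ringChar E ≠ 2 := by rw [hring]; exact h2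
  have hodd : Odd p := hp.out.odd_of_ne_two h2
  obtain ⟨k, hk⟩ := hodd
  have hsq : IsSquare z := by
    rw [FiniteField.isSquare_iff hE h0, hcard]
    have e : p ^ 2 / 2 = (p - 1) * (k + 1) := by
      have : p ^ 2 = 2 * ((p - 1) * (k + 1)) + 1 := by
        rw [hk]
        simp only [Nat.add_sub_cancel]
        ring
      omega
    rw [e, pow_mul]
    have h3 : z ^ (p - 1) = 1 := by
      have h4 : z ^ (p - 1) * z = 1 * z := by
        rw [← pow_succ, Nat.sub_add_cancel hp.out.one_le, one_mul]
        exact mem_PF.1 hz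
      exact mul_right_cancel₀ h0 h4
    rw [h3, one_pow]
  obtain ⟨s, rfl⟩ := hsq
  rw [← sq]
  exact chi_sq hE (by rintro rfl; simp at h0)

/-- lines through points not in the prime field -/
lemma sum_plane (hcard : Fintype.card E = p ^ 2) (φ : E → ℝ) {x : E} (hx : x ∉ PF E p) :
    ∑ u ∈ range p, ∑ v ∈ range p, φ ((u : E) * x + v) = ∑ z : E, φ z := by
  classical
  rw [← Finset.sum_product']
  have hinj : Set.InjOn (fun w : ℕ × ℕ => (w.1 : E) * x + (w.2 : E))
      ((range p ×ˢ range p : Finset (ℕ × ℕ)) : Set (ℕ × ℕ)) := by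
    rintro ⟨u, v⟩ h1 ⟨u', v'⟩ h2 h
    simp only [coe_product, coe_range, Set.mem_prod, Set.mem_Iio] at h1 h2 h
    by_cases huu : u = u'
    · subst huu
      have h3 : (v : E) = v' := by simpa using h
      rw [cast_inj h1.2 h2.2 h3]
    · exfalso
      apply hx
      have h3 : (u : E) - u' ≠ 0 := fun h4 => huu (cast_inj h1.1 h2.1 (sub_eq_zero.1 h4))
      have h4 : x = ((v' : E) + -(v : E)) * ((u : E) + -(u' : E))⁻¹ := by
        rw [eq_mul_inv_iff_mul_eq₀ (by rwa [← sub_eq_add_neg])]
        linear_combination h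
      rw [h4]
      exact PF_mul (PF_add (cast_PF _) (PF_neg (cast_PF _)))
        (PF_inv (PF_add (cast_PF _) (PF_neg (cast_PF _))))
  have himg : (range p ×ˢ range p : Finset (ℕ × ℕ)).image (fun w => (w.1 : E) * x + (w.2 : E)) =
      univ := by
    apply Finset.eq_univ_of_card
    rw [Finset.card_image_of_injOn hinj, card_product, card_range, hcard, sq]
  rw [← himg, Finset.sum_image hinj]

lemma abs_sum_quad (hE : ringChar E ≠ 2) (A B C : E) :
    |∑ z : E, chi E (A * z ^ 2 + B * z + C)| ≤
      (open Classical in if B ^ 2 - 4 * A * C = 0 then (Fintype.card E : ℝ) else 0) + 1 := by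
  classical
  rw [sum_chi_quad hE]
  refine (abs_sub _ _).trans (add_le_add ?_ (chi_abs _))
  split_ifs with h1 h2
  · rw [abs_mul, Nat.abs_cast]
    exact mul_le_of_le_one_right (Nat.cast_nonneg _) (chi_abs _)
  · rw [abs_mul, Nat.abs_cast]
    exact mul_le_of_le_one_right (Nat.cast_nonneg _) (chi_abs _)
  · simp

/-- points of the prime field -/
lemma sum_pt (hcard : Fintype.card E = p ^ 2) (h2 : p ≠ 2) {x A B C : E} (hx : x ∈ PF E p)
    (hA : A ∈ PF E p) (hB : B ∈ PF E p) (hC : C ∈ PF E p) :
    |∑ u ∈ range p, ∑ v ∈ range p, chi E (A * ((u : E) * x + v) ^ 2 + B * ((u : E) * x + v) + C) -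
      (p : ℝ) ^ 2| ≤
      (open Classical in if B ^ 2 - 4 * A * C = 0 then (p : ℝ) ^ 2 else 0) + 2 * p := by
  classical
  have hp0 : (0 : ℝ) ≤ p := Nat.cast_nonneg _
  have h1 : ∀ u v : ℕ, chi E (A * ((u : E) * x + v) ^ 2 + B * ((u : E) * x + v) + C) =
      1 - if A * ((u : E) * x + v) ^ 2 + B * ((u : E) * x + v) + C = 0 then (1 : ℝ) else 0 := by
    intro u v
    split_ifs with h
    · rw [h, chi_zero]
      ring
    · have hw : (u : E) * x + v ∈ PF E p := PF_add (PF_mul (cast_PF _) hx) (cast_PF _)
      rw [chi_PF hcard h2 (PF_add (PF_add (PF_mul hA (by rw [sq]; exact PF_mul hw hw))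
        (PF_mul hB hw)) hC) h]
      ring
  have h3 : ∑ u ∈ range p, ∑ v ∈ range p,
      chi E (A * ((u : E) * x + v) ^ 2 + B * ((u : E) * x + v) + C) - (p : ℝ) ^ 2 =
      -∑ u ∈ range p, (#((range p).filter fun v : ℕ =>
        A * ((u : E) * x + v) ^ 2 + B * ((u : E) * x + v) + C = 0) : ℝ) := by
    have e : ∀ u ∈ range p, ∑ v ∈ range p,
        chi E (A * ((u : E) * x + v) ^ 2 + B * ((u : E) * x + v) + C) =
        p - (#((range p).filter fun v : ℕ =>
        A * ((u : E) * x + v) ^ 2 + B * ((u : E) * x + v) + C = 0) : ℝ) := by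
      intro u _
      rw [Finset.sum_congr rfl fun v _ => h1 u v, Finset.sum_sub_distrib, Finset.sum_const,
        card_range, nsmul_eq_mul, mul_one, Finset.sum_ite, Finset.sum_const_zero, add_zero,
        Finset.sum_const, nsmul_eq_mul, mul_one]
    rw [Finset.sum_congr rfl e, Finset.sum_sub_distrib, Finset.sum_const, card_range, nsmul_eq_mul]
    ring
  rw [h3, abs_neg, abs_of_nonneg (Finset.sum_nonneg fun _ _ => Nat.cast_nonneg _)]
  have h4 : ∀ u ∈ range p, (#((range p).filter fun v : ℕ =>
      A * ((u : E) * x + v) ^ 2 + B * ((u : E) * x + v) + C = 0) : ℝ) ≤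
      (if B ^ 2 - 4 * A * C = 0 then (p : ℝ) else 0) + 2 := by
    intro u _
    by_cases hAB : A = 0 ∧ B = 0
    · rw [if_pos (by rw [hAB.1, hAB.2]; ring)]
      have : #((range p).filter fun v : ℕ =>
        A * ((u : E) * x + v) ^ 2 + B * ((u : E) * x + v) + C = 0) ≤ p := by
        refine (card_filter_le _ _).trans ?_
        rw [card_range]
      have h5 : (#((range p).filter fun v : ℕ =>
        A * ((u : E) * x + v) ^ 2 + B * ((u : E) * x + v) + C = 0) : ℝ) ≤ p := by exact_mod_cast this
      linarith
    · have hP0 : (Polynomial.C A * Polynomial.X ^ 2 + Polynomial.C B * Polynomial.X +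
          Polynomial.C C : Polynomial E) ≠ 0 := by
        intro h
        apply hAB
        constructor
        · have := congrArg (fun P => Polynomial.coeff P 2) h
          simpa [Polynomial.coeff_X, Polynomial.coeff_C] using this
        · have := congrArg (fun P => Polynomial.coeff P 1) h
          simpa [Polynomial.coeff_X, Polynomial.coeff_C] using this
      have h5 : #((range p).filter fun v : ℕ =>
          A * ((u : E) * x + v) ^ 2 + B * ((u : E) * x + v) + C = 0) ≤ 2 := by
        have h6 : ((range p).filter fun v : ℕ =>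
            A * ((u : E) * x + v) ^ 2 + B * ((u : E) * x + v) + C = 0).image
            (fun v : ℕ => (u : E) * x + v) ⊆ (Polynomial.C A * Polynomial.X ^ 2 +
              Polynomial.C B * Polynomial.X + Polynomial.C C : Polynomial E).roots.toFinset := by
          intro z hz
          rw [mem_image] at hz
          obtain ⟨v, hv, rfl⟩ := hz
          rw [mem_filter] at hv
          rw [Multiset.mem_toFinset, Polynomial.mem_roots hP0]
          simpa using hv.2
        have h7 : Set.InjOn (fun v : ℕ => (u : E) * x + v)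
            (((range p).filter fun v : ℕ =>
            A * ((u : E) * x + v) ^ 2 + B * ((u : E) * x + v) + C = 0 : Finset ℕ) : Set ℕ) := by
          intro v hv v' hv' h
          rw [mem_coe, mem_filter, mem_range] at hv hv'
          exact cast_inj hv.1 hv'.1 (add_left_cancel h)
        rw [← Finset.card_image_of_injOn h7]
        refine (card_le_card h6).trans ((Multiset.toFinset_card_le _).trans
          ((Polynomial.card_roots' _).trans ?_))
        exact Polynomial.natDegree_quadratic_le
      have h6 : (#((range p).filter fun v : ℕ =>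
        A * ((u : E) * x + v) ^ 2 + B * ((u : E) * x + v) + C = 0) : ℝ) ≤ 2 := by exact_mod_cast h5
      split_ifs <;> linarith
  refine (Finset.sum_le_sum h4).trans (le_of_eq ?_)
  rw [Finset.sum_const, card_range, nsmul_eq_mul]
  split_ifs <;> ring

end quad

end Pool.Agent.N430.BP
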