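import Pool.Agent.N430.BP.PathM

set_option autoImplicit false
set_option linter.all false

/-! The law for almost all points of boxes: general form. -/

namespace Pool.Agent.N430.BP

open Finset Polynomial Pool.Agent.N430.CLT

/-- A family of local variables: `S` is a set of parameters (origins of the boxes, ...), with uniform
bounds. -/
structure LocalData (m : ℕ) (S : Type) where
  /-- the variables -/
  X : S → ℕ → Pt m → ℝ
  /-- the bounds -/
  b : ℕ → ℝ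
  b_nonneg : ∀ p, 0 ≤ b p
  per : ∀ s p, p.Prime → p ≠ 2 → PerM p (X s p)
  bound : ∀ s p, p.Prime → p ≠ 2 → ∀ w, |X s p w| ≤ b p
  mean : ∀ s p, p.Prime → p ≠ 2 → avgPM p m (X s p) = 0
  B : ℝ
  B_nonneg : 0 ≤ B
  sum_sq : ∀ x : ℕ, 16 ≤ x → ∑ p ∈ OP x, b p ^ 2 ≤ B * Real.log (Real.log x)

variable {m : ℕ} {S : Type} (d : LocalData m S)

/-- the sequence of the variables -/
noncomputable def LocalData.Y (s : S) (n : ℕ) (ω : Pt m) : ℝ :=
  if n.Prime ∧ n ≠ 2 then d.X s n ω else 0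

/-- the sequence of the bounds -/
noncomputable def LocalData.w (n : ℕ) : ℝ := if n.Prime ∧ n ≠ 2 then d.b n ^ 2 else 0

lemma LocalData.w_nonneg (n : ℕ) : 0 ≤ d.w n := by
  unfold LocalData.w
  split_ifs <;> positivity

lemma LocalData.sum_Y (s : S) (x : ℕ) (ω : Pt m) :
    ∑ n ∈ Ico 0 (x + 1), d.Y s n ω = ∑ p ∈ OP x, d.X s p ω := by
  unfold LocalData.Y
  rw [← Finset.sum_filter, filter_eq]

lemma LocalData.w_bound (x : ℕ) (hx : 16 ≤ x) :
    ∑ n ∈ Ico 0 (x + 1), d.w n ≤ d.B * Real.log (Real.log x) := by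
  unfold LocalData.w
  rw [← Finset.sum_filter, filter_eq]
  exact d.sum_sq x hx

lemma LocalData.increments (s : S) {q : ℕ} (hq : 1 ≤ q) {N x : ℕ}
    (hN : 0 < N) (hxN : x ^ (3 * q) ≤ N) (i1 j1 : ℕ) (hj : j1 ≤ x + 1) :
    ∑ ω ∈ BX m N, (∑ n ∈ Ico i1 j1, d.Y s n ω) ^ (2 * q) ≤
      ((4 * (2 * q).factorial + 4 * m) * (N : ℝ) ^ (2 * m)) * (∑ n ∈ Ico i1 j1, d.w n) ^ q := by
  set I := (Ico i1 j1).filter (fun n => n.Prime ∧ n ≠ 2) with hI
  have hIp : ∀ p ∈ I, p.Prime ∧ p ≠ 2 := fun p hp => (mem_filter.1 hp).2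
  have hN0 : (0 : ℝ) < N := by exact_mod_cast hN
  have h1 := moment_boxM I (fun p hp => (hIp p hp).1) (X := d.X s) (b := d.b)
    d.b_nonneg (fun p hp => d.per s p (hIp p hp).1 (hIp p hp).2)
    (fun p hp w => d.bound s p (hIp p hp).1 (hIp p hp).2 w)
    (fun p hp => d.mean s p (hIp p hp).1 (hIp p hp).2) q hq (x := x) (N := N)
    (fun p hp => by
      have := (mem_Ico.1 (mem_filter.1 hp).1).2
      omega) hN hxN
  rw [avgM_eq, div_le_iff₀ (by positivity)] at h1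
  have e1 : ∀ ω : Pt m, ∑ n ∈ Ico i1 j1, d.Y s n ω = ∑ p ∈ I, d.X s p ω := by
    intro ω
    unfold LocalData.Y
    rw [← Finset.sum_filter]
  have e2 : ∑ n ∈ Ico i1 j1, d.w n = Wt d.b I := by
    unfold LocalData.w Wt
    rw [← Finset.sum_filter]
  rw [e2]
  simp only [e1]
  refine h1.trans (le_of_eq ?_)
  ring

theorem LocalData.path_moment {q : ℕ} (hq : 2 ≤ q) : ∃ C : ℝ, 0 ≤ C ∧
    ∀ N : ℕ, 0 < N → ∀ s : S, ∀ E : Finset (Pt m), E ⊆ BX m N → ∀ ξ : Pt m → ℕ,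
      (∀ ω ∈ E, 16 ≤ ξ ω ∧ (ξ ω) ^ (3 * q) ≤ N) →
      ∑ ω ∈ E, (∑ p ∈ OP (ξ ω), d.X s p ω) ^ (2 * q) /
        (Real.log (Real.log (ξ ω)) ^ q * (1 + Real.log (Real.log (Real.log (ξ ω)))) ^ 2) ≤
        C * (N : ℝ) ^ (2 * m) := by
  classical
  set B := d.B with hBd
  have hB : 0 ≤ B := d.B_nonneg
  have hA := AA_pos (m := q) (by omega)
  set K0 : ℝ := 4 * (2 * q).factorial + 4 * m with hK0
  have hK00 : 0 ≤ K0 := by positivity
  set Z := ∑' j : ℕ, 4 / ((j : ℝ) + 1) ^ 2 with hZ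
  have hZs : Summable (fun j : ℕ => 4 / ((j : ℝ) + 1) ^ 2) := by
    have h1 := (summable_nat_add_iff 1).2 (Real.summable_one_div_nat_pow.2 (one_lt_two))
    have h2 := h1.mul_left 4
    refine h2.congr fun j => ?_
    push_cast
    ring
  have hZ0 : 0 ≤ Z := tsum_nonneg fun j => by positivity
  refine ⟨AA q * K0 * (2 * B) ^ q * Z, by positivity, fun N hN s E hE ξ hξ => ?_⟩
  have hN0 : (0 : ℝ) < N := by exact_mod_cast hN
  set P : Pt m → ℝ := fun ω => ∑ p ∈ OP (ξ ω), d.X s p ω with hP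
  have hPe : ∀ ω, 0 ≤ P ω ^ (2 * q) := fun ω => by rw [pow_mul]; positivity
  set T : Pt m → ℝ := fun ω => Real.log (Real.log (ξ ω)) with hT
  -- one level
  have hlevel : ∀ j : ℕ, ∑ ω ∈ E with lev (ξ ω) = j, P ω ^ (2 * q) ≤
      AA q * (K0 * (N : ℝ) ^ (2 * m)) * (B * 2 ^ (j + 1)) ^ q := by
    intro j
    set c' : Pt m → ℕ := fun ω => if ω ∈ E ∧ lev (ξ ω) = j then ξ ω + 1 else 0 with hc'
    set bj := E.sup c' with hbj
    have hc0 : ∀ ω, 0 ≤ c' ω ∧ c' ω ≤ bj := by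
      intro ω
      refine ⟨Nat.zero_le _, ?_⟩
      by_cases hω : ω ∈ E
      · exact Finset.le_sup (f := c') hω
      · rw [hc']
        simp only
        rw [if_neg (fun h => hω h.1)]
        exact Nat.zero_le _
    have hnn : 0 ≤ AA q * (K0 * (N : ℝ) ^ (2 * m)) * (B * 2 ^ (j + 1)) ^ q := by positivity
    rcases Nat.eq_zero_or_pos bj with hb0 | hb0
    · have hem : (E.filter fun ω => lev (ξ ω) = j) = ∅ := by
        rw [Finset.filter_eq_empty_iff]
        intro ω hω hl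
        have h1 := (hc0 ω).2
        rw [hb0, hc'] at h1
        simp only at h1
        rw [if_pos ⟨hω, hl⟩] at h1
        omega
      rw [hem, Finset.sum_empty]
      exact hnn
    -- the supremum is attained
    have hne : E.Nonempty := by
      by_contra hne
      rw [not_nonempty_iff_eq_empty] at hne
      rw [hbj, hne, Finset.sup_empty] at hb0
      exact absurd hb0 (lt_irrefl _)
    obtain ⟨ω0, hω0, he0⟩ := Finset.exists_mem_eq_sup E hne c'
    have hc1 : ω0 ∈ E ∧ lev (ξ ω0) = j := by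
      by_contra hcon
      rw [hbj, he0, hc'] at hb0
      simp only at hb0
      rw [if_neg hcon] at hb0
      exact absurd hb0 (lt_irrefl _)
    have hbj1 : bj = ξ ω0 + 1 := by
      rw [hbj, he0, hc']
      simp only
      rw [if_pos hc1]
    have hx0 := hξ ω0 hω0
    have hmax := maxi (BX m N) (d.Y s) d.w d.w_nonneg hq
      (K := K0 * (N : ℝ) ^ (2 * m)) (by positivity) bj
      (fun i1 j1 _ hj => d.increments s (by omega) hN hx0.2 i1 j1 (by omega))
      bj 0 bj (Nat.zero_le _) le_rfl (Nat.sub_zero _) c' hc0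
    have hWb : (∑ n ∈ Ico 0 bj, d.w n) ^ q ≤ (B * 2 ^ (j + 1)) ^ q := by
      refine pow_le_pow_left₀ (Finset.sum_nonneg fun n _ => d.w_nonneg n) ?_ q
      rw [hbj1]
      refine (d.w_bound _ hx0.1).trans (mul_le_mul_of_nonneg_left ?_ hB)
      have := (lt_lev (x := ξ ω0)).le
      rwa [hc1.2] at this
    have h2 : ∑ ω ∈ E with lev (ξ ω) = j, P ω ^ (2 * q) ≤
        ∑ ω ∈ BX m N, (∑ n ∈ Ico 0 (c' ω), d.Y s n ω) ^ (2 * q) := by
      calc ∑ ω ∈ E with lev (ξ ω) = j, P ω ^ (2 * q) =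
          ∑ ω ∈ E with lev (ξ ω) = j, (∑ n ∈ Ico 0 (c' ω), d.Y s n ω) ^ (2 * q) := by
            refine Finset.sum_congr rfl fun ω hω => ?_
            rw [mem_filter] at hω
            have : c' ω = ξ ω + 1 := by
              rw [hc']
              simp only
              rw [if_pos hω]
            rw [this, d.sum_Y]
        _ ≤ _ := Finset.sum_le_sum_of_subset_of_nonneg ((Finset.filter_subset _ _).trans hE)
            fun ω _ _ => by rw [pow_mul]; positivity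
    exact (h2.trans hmax).trans (mul_le_mul_of_nonneg_left hWb (by positivity))
  -- all levels
  have hterm : ∀ ω ∈ E, P ω ^ (2 * q) / (T ω ^ q * (1 + Real.log (T ω)) ^ 2) ≤
      P ω ^ (2 * q) * ((4 / ((lev (ξ ω) : ℝ) + 1) ^ 2) / (2 ^ lev (ξ ω)) ^ q) := by
    intro ω hω
    have hx := (hξ ω hω).1
    have h1 := lev_le hx
    have h1' : (2 : ℝ) ^ lev (ξ ω) ≤ T ω := h1
    have hp2 : (0 : ℝ) < 2 ^ lev (ξ ω) := by positivity
    have hT0 : 0 < T ω := lt_of_lt_of_le hp2 h1'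
    have h2 : ((lev (ξ ω) : ℝ) + 1) / 2 ≤ 1 + Real.log (T ω) := by
      have h3 := Real.log_le_log hp2 h1'
      rw [Real.log_pow] at h3
      have h4 := Real.log_two_gt_d9
      have h5 : (0 : ℝ) ≤ lev (ξ ω) := Nat.cast_nonneg _
      nlinarith
    rw [div_eq_mul_inv]
    refine mul_le_mul_of_nonneg_left ?_ (hPe ω)
    rw [mul_inv, div_eq_mul_inv, mul_comm]
    refine mul_le_mul ?_ ?_ (by positivity) (by positivity)
    · have h6 : 4 / ((lev (ξ ω) : ℝ) + 1) ^ 2 = ((((lev (ξ ω) : ℝ) + 1) / 2) ^ 2)⁻¹ := by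
        rw [div_pow, inv_div]
        norm_num
      rw [h6]
      apply inv_anti₀ (by positivity)
      exact pow_le_pow_left₀ (by positivity) h2 2
    · apply inv_anti₀ (by positivity)
      exact pow_le_pow_left₀ hp2.le h1' q
  refine (Finset.sum_le_sum hterm).trans ?_
  set J := E.sup (fun ω => lev (ξ ω)) + 1 with hJ
  have hmaps : ∀ ω ∈ E, lev (ξ ω) ∈ range J := by
    intro ω hω
    rw [mem_range, hJ]
    exact Nat.lt_succ_of_le (Finset.le_sup (f := fun ω => lev (ξ ω)) hω)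
  rw [← Finset.sum_fiberwise_of_maps_to hmaps]
  have hj : ∀ j ∈ range J, ∑ ω ∈ E with lev (ξ ω) = j, P ω ^ (2 * q) *
      ((4 / ((lev (ξ ω) : ℝ) + 1) ^ 2) / (2 ^ lev (ξ ω)) ^ q) ≤
      AA q * K0 * (2 * B) ^ q * (N : ℝ) ^ (2 * m) * (4 / ((j : ℝ) + 1) ^ 2) := by
    intro j _
    have e : ∑ ω ∈ E with lev (ξ ω) = j, P ω ^ (2 * q) *
        ((4 / ((lev (ξ ω) : ℝ) + 1) ^ 2) / (2 ^ lev (ξ ω)) ^ q) =
        (∑ ω ∈ E with lev (ξ ω) = j, P ω ^ (2 * q)) * ((4 / ((j : ℝ) + 1) ^ 2) / (2 ^ j) ^ q) := by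
      rw [Finset.sum_mul]
      refine Finset.sum_congr rfl fun ω hω => ?_
      rw [(mem_filter.1 hω).2]
    rw [e]
    refine (mul_le_mul_of_nonneg_right (hlevel j) (by positivity)).trans (le_of_eq ?_)
    have hp2 : (2 : ℝ) ^ j ≠ 0 := by positivity
    have e2 : (B * 2 ^ (j + 1)) ^ q = (2 * B) ^ q * (2 ^ j) ^ q := by
      rw [← mul_pow]
      congr 1
      rw [pow_succ]
      ring
    rw [e2]
    field_simp
  refine (Finset.sum_le_sum hj).trans ?_
  rw [← Finset.mul_sum]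
  have h8 : ∑ j ∈ range J, 4 / ((j : ℝ) + 1) ^ 2 ≤ Z :=
    hZs.sum_le_tsum _ fun j _ => by positivity
  calc _ ≤ AA q * K0 * (2 * B) ^ q * (N : ℝ) ^ (2 * m) * Z :=
        mul_le_mul_of_nonneg_left h8 (by positivity)
    _ = _ := by ring

open Classical in
/-- **The law for a function `D` which differs from the sum of the local variables by `O(1)`.** -/
theorem LocalData.law (D : S → ℕ → Pt m → ℝ) {C0 : ℝ} (hC0 : 0 ≤ C0)
    (hlog : ∀ s x w, 16 ≤ x → |D s x w - ∑ p ∈ OP x, d.X s p w| ≤ C0)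
    {ε A : ℝ} (hε : 0 < ε) (hA : 0 < A) :
    ∃ (k : ℕ) (C : ℝ), 0 < k ∧ 0 ≤ C ∧ ∀ k', k ≤ k' → ∀ N : ℕ, 0 < N → ∀ s : S, ∀ l : ℝ, 1 ≤ l →
      (((BX m N).filter fun ω : Pt m => ∃ x : ℕ, 16 ≤ x ∧ x ^ k' ≤ N ∧
        l * Real.log (Real.log x) ^ (1 / 2 : ℝ) * (1 + Real.log (Real.log (Real.log x))) ^ ε <
          |D s x ω|).card : ℝ) ≤ C * l ^ (-A) * (N : ℝ) ^ (2 * m) := by
  set q : ℕ := max 2 (max ⌈1 / ε⌉₊ ⌈A⌉₊) with hq
  have hq2 : 2 ≤ q := le_max_left _ _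
  have hqε : 1 ≤ (q : ℝ) * ε := by
    have h1 : (1 / ε : ℝ) ≤ q := (Nat.le_ceil _).trans (by
      exact_mod_cast (le_max_left _ _).trans (le_max_right _ _))
    rwa [div_le_iff₀ hε] at h1
  have hqA : A ≤ 2 * (q : ℝ) := by
    have h1 : A ≤ q := (Nat.le_ceil _).trans (by
      exact_mod_cast (le_max_right _ _).trans (le_max_right _ _))
    have h2 : (0 : ℝ) ≤ q := Nat.cast_nonneg _
    linarith
  obtain ⟨C1, hC1, hpath⟩ := d.path_moment hq2
  refine ⟨3 * q, C1 * 2 ^ (2 * q) + (2 * C0 + 1) ^ A, by omega, by positivity,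
    fun k' hk' N hN s l hl => ?_⟩
  have hN0 : (0 : ℝ) < N := by exact_mod_cast hN
  set E := (BX m N).filter fun ω : Pt m => ∃ x : ℕ, 16 ≤ x ∧ x ^ k' ≤ N ∧
        l * Real.log (Real.log x) ^ (1 / 2 : ℝ) * (1 + Real.log (Real.log (Real.log x))) ^ ε <
          |D s x ω| with hE
  have hl0 : 0 < l := by linarith
  have hlA : 0 < l ^ (-A) := Real.rpow_pos_of_pos hl0 _
  have hcardS : ((#E : ℕ) : ℝ) ≤ (N : ℝ) ^ (2 * m) := by
    have : #E ≤ N ^ (2 * m) := by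
      refine (card_filter_le _ _).trans (le_of_eq ?_)
      rw [card_BX]
    exact_mod_cast this
  by_cases hlC : l < 2 * C0 + 1
  · -- trivial range
    have h1 : (1 : ℝ) ≤ (2 * C0 + 1) ^ A * l ^ (-A) := by
      rw [Real.rpow_neg hl0.le, ← div_eq_mul_inv, one_le_div (Real.rpow_pos_of_pos hl0 _)]
      exact Real.rpow_le_rpow hl0.le hlC.le hA.le
    have h2 : (0 : ℝ) ≤ C1 * 2 ^ (2 * q) * l ^ (-A) := by positivity
    calc ((#E : ℕ) : ℝ) ≤ 1 * (N : ℝ) ^ (2 * m) := by rw [one_mul]; exact hcardS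
      _ ≤ (C1 * 2 ^ (2 * q) + (2 * C0 + 1) ^ A) * l ^ (-A) * (N : ℝ) ^ (2 * m) := by
        refine mul_le_mul_of_nonneg_right ?_ (by positivity)
        rw [add_mul]
        linarith
  push Not at hlC
  have hmem : ∀ ω ∈ E, ∃ x : ℕ, 16 ≤ x ∧ x ^ (3 * q) ≤ N ∧
        l * Real.log (Real.log x) ^ (1 / 2 : ℝ) * (1 + Real.log (Real.log (Real.log x))) ^ ε <
          |D s x ω| := fun ω hω => by
    obtain ⟨x, h1, h2, h3⟩ := (mem_filter.1 hω).2
    exact ⟨x, h1, (Nat.pow_le_pow_right (by omega) hk').trans h2, h3⟩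
  set ξ : Pt m → ℕ := fun ω => if hω : ω ∈ E then (hmem ω hω).choose else 0 with hξ
  have hξs : ∀ ω ∈ E, 16 ≤ ξ ω ∧ (ξ ω) ^ (3 * q) ≤ N ∧
        l * Real.log (Real.log (ξ ω)) ^ (1 / 2 : ℝ) *
          (1 + Real.log (Real.log (Real.log (ξ ω)))) ^ ε < |D s (ξ ω) ω| := by
    intro ω hω
    have e : ξ ω = (hmem ω hω).choose := by
      rw [hξ]
      simp only
      rw [dif_pos hω]
    rw [e]
    exact (hmem ω hω).choose_spec
  have h1 := hpath N hN s E (Finset.filter_subset _ _) ξ fun ω hω => ⟨(hξs ω hω).1, (hξs ω hω).2.1⟩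
  have h2 : ∀ ω ∈ E, (l / 2) ^ (2 * q) ≤ (∑ p ∈ OP (ξ ω), d.X s p ω) ^ (2 * q) /
        (Real.log (Real.log (ξ ω)) ^ q *
          (1 + Real.log (Real.log (Real.log (ξ ω)))) ^ 2) := by
    intro ω hω
    obtain ⟨g1, g2, g3⟩ := hξs ω hω
    set T := Real.log (Real.log (ξ ω)) with hT
    set P := ∑ p ∈ OP (ξ ω), d.X s p ω with hP
    have hT1 : 1 ≤ T := one_le_loglog g1
    have hT0 : 0 < T := by linarith
    set ℓ := 1 + Real.log T with hℓ
    have hℓ1 : 1 ≤ ℓ := by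
      have := Real.log_nonneg hT1
      linarith
    have hℓ0 : 0 < ℓ := by linarith
    have g4 := hlog s (ξ ω) ω g1
    set D' := D s (ξ ω) ω with hD'
    have hTh : (1 : ℝ) ≤ T ^ (1 / 2 : ℝ) := Real.one_le_rpow hT1 (by norm_num)
    have hℓh : (1 : ℝ) ≤ ℓ ^ ε := Real.one_le_rpow hℓ1 hε.le
    set R := T ^ (1 / 2 : ℝ) * ℓ ^ ε with hR
    have hR1 : 1 ≤ R := by nlinarith
    have g5 : |D'| ≤ |P| + C0 := by
      have h5 : D' = (D' - P) + P := by ring
      have h6 : |D'| ≤ |D' - P| + |P| := by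
        conv_lhs => rw [h5]
        exact abs_add_le _ _
      linarith
    have g6 : l / 2 * R ≤ |P| := by
      have h7 : l * R < |D'| := by
        rw [hR, ← mul_assoc]
        exact g3
      have h8 : C0 ≤ l / 2 * R := by nlinarith
      linarith
    have g7 : (l / 2 * R) ^ (2 * q) ≤ P ^ (2 * q) := by
      have h9 : |P| ^ (2 * q) = P ^ (2 * q) := by rw [pow_mul, pow_mul, sq_abs]
      rw [← h9]
      exact pow_le_pow_left₀ (by positivity) g6 _
    rw [le_div_iff₀ (by positivity)]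
    refine le_trans ?_ g7
    rw [mul_pow]
    refine mul_le_mul_of_nonneg_left ?_ (by positivity)
    rw [hR, mul_pow]
    refine mul_le_mul ?_ ?_ (by positivity) (by positivity)
    · rw [← Real.rpow_natCast (T ^ (1 / 2 : ℝ)), ← Real.rpow_mul hT0.le, ← Real.rpow_natCast T]
      refine Real.rpow_le_rpow_of_exponent_le hT1 (le_of_eq ?_)
      push_cast
      ring
    · rw [← Real.rpow_natCast (ℓ ^ ε), ← Real.rpow_mul hℓ0.le, ← Real.rpow_natCast ℓ]
      refine Real.rpow_le_rpow_of_exponent_le hℓ1 ?_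
      push_cast
      nlinarith
  have h3 : ((#E : ℕ) : ℝ) * (l / 2) ^ (2 * q) ≤ C1 * (N : ℝ) ^ (2 * m) := by
    refine le_trans ?_ h1
    rw [← nsmul_eq_mul]
    exact Finset.card_nsmul_le_sum _ _ _ h2
  have h4 : ((#E : ℕ) : ℝ) ≤ C1 * 2 ^ (2 * q) * l ^ (-A) * (N : ℝ) ^ (2 * m) := by
    have h5 : 0 < (l / 2) ^ (2 * q) := by positivity
    rw [← le_div_iff₀ h5] at h3
    refine h3.trans ?_
    rw [div_le_iff₀ h5, div_pow]
    have h6 : 1 ≤ l ^ (-A) * l ^ (2 * q) := by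
      rw [← Real.rpow_natCast l, ← Real.rpow_add hl0]
      refine Real.one_le_rpow hl ?_
      push_cast
      linarith
    have h7 : C1 * 2 ^ (2 * q) * l ^ (-A) * (N : ℝ) ^ (2 * m) * (l ^ (2 * q) / 2 ^ (2 * q)) =
        C1 * (N : ℝ) ^ (2 * m) * (l ^ (-A) * l ^ (2 * q)) := by
      field_simp
    rw [h7]
    exact le_mul_of_one_le_right (by positivity) h6
  refine h4.trans (mul_le_mul_of_nonneg_right (mul_le_mul_of_nonneg_right ?_ hlA.le) (by positivity))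
  have : (0 : ℝ) ≤ (2 * C0 + 1) ^ A := by positivity
  linarith

end Pool.Agent.N430.BP
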