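import Pool.Agent.N430.BP.Fin
import Pool.Agent.N430.BP.Box
import Pool.Agent.R410.NG.CBs

set_option autoImplicit false

/-! The family `y² = a(x) (u x + v)² + b(x) (u x + v) + c(x)`: the traces over the fields with `p^k`
elements, their means for `k = 1, 2` and their bounds. -/

namespace Pool.Agent.N430.BP

open Finset Polynomial Pool.Agent.R410.NG Pool.Agent.N430.CLT

/-- the family -/
noncomputable def fam (a b c : ℤ[X]) (u v : ℤ) : ℤ[X] :=
  a * (C u * X + C v) ^ 2 + b * (C u * X + C v) + c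

/-- the number of the affine points over `𝔽_{p^k}` minus `p^k`, for a prime `p` -/
noncomputable def tr (f : ℤ[X]) (p k : ℕ) : ℝ :=
  if h : p.Prime then
    haveI : Fact p.Prime := ⟨h⟩
    (Nat.card {P : GaloisField p k × GaloisField p k // P.2 ^ 2 = aeval P.1 f} : ℝ) - (p : ℝ) ^ k
  else 0

/-- `log (#J(𝔽_p) / p^g)` -/
noncomputable def logFactor (f : ℤ[X]) (p : ℕ) : ℝ :=
  ∑' k : ℕ, tr f p (k + 1) / ((k + 1 : ℕ) * (p : ℝ) ^ (k + 1))

section tr
variable {p : ℕ} [hp : Fact p.Prime]

lemma tr_trc (f : ℤ[X]) {k : ℕ} (hk : k ≠ 0) : tr f p k =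
    -trc (GaloisField p k) (f.map (Int.castRingHom (GaloisField p k))) := by
  unfold tr trc
  rw [dif_pos hp.out, GaloisField.card p k hk]
  have e : ∀ P : GaloisField p k × GaloisField p k,
      (P.2 ^ 2 = (f.map (Int.castRingHom (GaloisField p k))).eval P.1) ↔
        (P.2 ^ 2 = aeval P.1 f) := by
    intro P
    rw [eval_map, aeval_def]
    rfl
  simp only [e]
  push_cast
  ring

lemma tr_chi (f : ℤ[X]) {k : ℕ} (hk : k ≠ 0) [Fintype (GaloisField p k)] : tr f p k =
    ∑ x : GaloisField p k, chi (GaloisField p k) (aeval x f) := by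
  rw [tr_trc f hk, trc_chi, neg_neg]
  refine Finset.sum_congr rfl fun x _ => ?_
  rw [eval_map, aeval_def]
  rfl

lemma tr_bound {f : ℤ[X]} (hf : f.Monic) {n : ℕ} (hn : f.natDegree = n) (hodd : Odd n) {k : ℕ}
    (hk : k ≠ 0) : |tr f p k| ≤ n * √((p : ℝ) ^ k) := by
  rw [tr_trc f hk, abs_neg]
  have h := trc_bound (hf.map (Int.castRingHom (GaloisField p k)))
    (n := n) (by rw [hf.natDegree_map]; exact hn) hodd
  rw [GaloisField.card p k hk] at h
  push_cast at h
  exact h

end tr

lemma aeval_fam {R : Type} [CommRing R] (a b c : ℤ[X]) (u v : ℤ) (x : R) :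
    aeval x (fam a b c u v) = aeval x a * ((u : R) * x + v) ^ 2 + aeval x b * ((u : R) * x + v) +
      aeval x c := by
  unfold fam
  simp

lemma fam_monic {a b c : ℤ[X]} (hc : c.Monic) (ha : a.natDegree + 2 < c.natDegree)
    (hb : b.natDegree + 1 < c.natDegree) (u v : ℤ) :
    (fam a b c u v).Monic ∧ (fam a b c u v).natDegree = c.natDegree := by
  have hl : (C u * X + C v : ℤ[X]).natDegree ≤ 1 := natDegree_linear_le
  have h1 : (a * (C u * X + C v) ^ 2).natDegree < c.natDegree := by
    refine lt_of_le_of_lt (natDegree_mul_le) ?_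
    have := natDegree_pow_le (p := (C u * X + C v : ℤ[X])) (n := 2)
    omega
  have h2 : (b * (C u * X + C v)).natDegree < c.natDegree := by
    refine lt_of_le_of_lt (natDegree_mul_le) ?_
    omega
  have h3 : (a * (C u * X + C v) ^ 2 + b * (C u * X + C v)).natDegree < c.natDegree :=
    lt_of_le_of_lt (natDegree_add_le _ _) (max_lt h1 h2)
  have hc0 : c ≠ 0 := hc.ne_zero
  have h4 : (a * (C u * X + C v) ^ 2 + b * (C u * X + C v)).degree < c.degree := by
    rw [degree_eq_natDegree hc0]
    refine lt_of_le_of_lt degree_le_natDegree ?_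
    exact_mod_cast h3
  unfold fam
  refine ⟨?_, natDegree_add_eq_right_of_natDegree_lt h3⟩
  rw [Monic, leadingCoeff_add_of_degree_lt h4]
  exact hc

section means
variable {p : ℕ} [hp : Fact p.Prime] {a b c : ℤ[X]}

lemma tr_congr {k : ℕ} (hk : k ≠ 0) {u v u' v' : ℤ} (hu : (u : GaloisField p k) = (u' : ℤ))
    (hv : (v : GaloisField p k) = (v' : ℤ)) :
    tr (fam a b c u v) p k = tr (fam a b c u' v') p k := by
  let _ : Fintype (GaloisField p k) := Fintype.ofFinite _
  rw [tr_chi _ hk, tr_chi _ hk]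
  refine Finset.sum_congr rfl fun x _ => ?_
  rw [aeval_fam, aeval_fam, hu, hv]

lemma tr_per {k : ℕ} (hk : k ≠ 0) (U V : ℤ) :
    Per p (fun u v : ℕ => tr (fam a b c (U + u) (V + v)) p k) := by
  constructor
  · intro u v
    refine tr_congr hk ?_ rfl
    push_cast
    rw [CharP.cast_eq_zero (GaloisField p k) p, add_zero]
  · intro u v
    refine tr_congr hk rfl ?_
    push_cast
    rw [CharP.cast_eq_zero (GaloisField p k) p, add_zero]

lemma cast_emod {k : ℕ} {W : ℤ} {W' : ℕ} (hW : (W' : ℤ) = W % p) :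
    ((W : ℤ) : GaloisField p k) = ((W' : ℕ) : GaloisField p k) := by
  have h1 : W = p * (W / p) + (W' : ℤ) := by rw [hW]; exact (Int.mul_ediv_add_emod W p).symm
  rw [h1]
  push_cast
  rw [CharP.cast_eq_zero (GaloisField p k) p, zero_mul, zero_add]

/-- the mean over a period does not depend on the origin -/
lemma mean_shift {k : ℕ} (hk : k ≠ 0) (U V : ℤ) :
    avgP2 p (fun u v : ℕ => tr (fam a b c (U + u) (V + v)) p k) =
      avgP2 p (fun u v : ℕ => tr (fam a b c u v) p k) := by
  have hp0 : (p : ℤ) ≠ 0 := by exact_mod_cast hp.out.ne_zero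
  -- the origin may be taken to be a pair of natural numbers
  obtain ⟨U', hU'⟩ : ∃ U' : ℕ, (U' : ℤ) = U % p :=
    ⟨(U % p).toNat, Int.toNat_of_nonneg (Int.emod_nonneg _ hp0)⟩
  obtain ⟨V', hV'⟩ : ∃ V' : ℕ, (V' : ℤ) = V % p :=
    ⟨(V % p).toNat, Int.toNat_of_nonneg (Int.emod_nonneg _ hp0)⟩
  have e0 : ∀ u v : ℕ, tr (fam a b c (U + u) (V + v)) p k =
      tr (fam a b c ((u + U' : ℕ) : ℤ) ((v + V' : ℕ) : ℤ)) p k := by
    intro u v
    refine tr_congr hk ?_ ?_
    · push_cast
      rw [cast_emod hU', add_comm]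
    · push_cast
      rw [cast_emod hV', add_comm]
  have hper := tr_per (p := p) (a := a) (b := b) (c := c) hk 0 0
  simp only [zero_add] at hper
  exact (congrArg (avgP2 p) (funext fun u => funext fun v => e0 u v)).trans
    (avgP2_shift hper U' V')

/-- the sum over the whole line -/
noncomputable def fib (a b c : ℤ[X]) (F : Type) [Field F] [Fintype F] : ℝ :=
  ∑ z : F, ∑ x : F, chi F (aeval x a * z ^ 2 + aeval x b * z + aeval x c)

/-- the mean of the first trace -/
lemma mean_one [Fintype (GaloisField p 1)] :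
    avgP2 p (fun u v : ℕ => tr (fam a b c u v) p 1) = fib a b c (GaloisField p 1) / p := by
  have hp0 : (p : ℝ) ≠ 0 := by exact_mod_cast hp.out.ne_zero
  have hcard : Fintype.card (GaloisField p 1) = p := by
    rw [← Nat.card_eq_fintype_card, GaloisField.card p 1 one_ne_zero, pow_one]
  rw [avgP2_eq]
  have e1 : ∑ u ∈ range p, ∑ v ∈ range p, tr (fam a b c u v) p 1 =
      p * fib a b c (GaloisField p 1) := by
    have e2 : ∀ u v : ℕ, tr (fam a b c u v) p 1 = ∑ x : GaloisField p 1,
        chi (GaloisField p 1) (aeval x a * ((u : GaloisField p 1) * x + v) ^ 2 +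
          aeval x b * ((u : GaloisField p 1) * x + v) + aeval x c) := by
      intro u v
      rw [tr_chi _ one_ne_zero]
      refine Finset.sum_congr rfl fun x _ => ?_
      rw [aeval_fam]
      simp only [Int.cast_natCast]
    have e3 : ∀ u ∈ range p, ∑ v ∈ range p, tr (fam a b c u v) p 1 =
        fib a b c (GaloisField p 1) := by
      intro u _
      rw [Finset.sum_congr rfl fun v _ => e2 u v, Finset.sum_comm]
      unfold fib
      refine Eq.trans ?_ Finset.sum_comm
      refine Finset.sum_congr rfl fun x _ => ?_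
      exact sum_line hcard (fun z => chi (GaloisField p 1) (aeval x a * z ^ 2 + aeval x b * z +
        aeval x c)) x u
    rw [Finset.sum_congr rfl e3, Finset.sum_const, card_range, nsmul_eq_mul]
  rw [e1]
  field_simp

/-- the mean of the second trace -/
lemma mean_two (h2 : p ≠ 2) (hΔ : (b ^ 2 - 4 * a * c).map (Int.castRingHom (ZMod p)) ≠ 0) :
    |avgP2 p (fun u v : ℕ => tr (fam a b c u v) p 2) - p| ≤ (b ^ 2 - 4 * a * c).natDegree + 3 := by
  classical
  let _ : Fintype (GaloisField p 2) := Fintype.ofFinite _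
  set E := GaloisField p 2 with hE
  have hp0 : (0 : ℝ) < p := by exact_mod_cast hp.out.pos
  have hcard : Fintype.card E = p ^ 2 := by
    rw [← Nat.card_eq_fintype_card, hE, GaloisField.card p 2 two_ne_zero]
  have hring : ringChar E = p := ringChar.eq E p
  have hE2 : ringChar E ≠ 2 := by rw [hring]; exact h2
  set d := (b ^ 2 - 4 * a * c).natDegree with hd
  -- the roots of the discriminant
  set Z : Finset E := univ.filter fun x => aeval x (b ^ 2 - 4 * a * c) = 0 with hZ
  have hZc : (#Z : ℝ) ≤ d := by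
    have hmap : (b ^ 2 - 4 * a * c).map (Int.castRingHom E) ≠ 0 := by
      have e : Int.castRingHom E = (algebraMap (ZMod p) E).comp (Int.castRingHom (ZMod p)) :=
        RingHom.ext_int _ _
      rw [e, ← Polynomial.map_map]
      exact (Polynomial.map_ne_zero_iff (algebraMap (ZMod p) E).injective).2 hΔ
    have h1 : Z ⊆ ((b ^ 2 - 4 * a * c).map (Int.castRingHom E)).roots.toFinset := by
      intro x hx
      rw [hZ, mem_filter] at hx
      rw [Multiset.mem_toFinset, mem_roots hmap, IsRoot.def, eval_map]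
      have := hx.2
      rwa [aeval_def] at this
    have h3 := (card_le_card h1).trans ((Multiset.toFinset_card_le _).trans
      ((card_roots' _).trans natDegree_map_le))
    exact_mod_cast h3
  have hdisc : ∀ x : E, aeval x b ^ 2 - 4 * aeval x a * aeval x c = 0 ↔ x ∈ Z := by
    intro x
    rw [hZ, mem_filter, map_sub, map_mul, map_mul, map_pow, map_ofNat]
    simp
  have e2 : ∀ u v : ℕ, tr (fam a b c u v) p 2 = ∑ x : E,
      chi E (aeval x a * ((u : E) * x + v) ^ 2 + aeval x b * ((u : E) * x + v) + aeval x c) := by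
    intro u v
    rw [tr_chi _ two_ne_zero]
    refine Finset.sum_congr rfl fun x _ => ?_
    rw [aeval_fam]
    simp only [Int.cast_natCast]
    rfl
  have e3 : ∑ u ∈ range p, ∑ v ∈ range p, tr (fam a b c u v) p 2 = ∑ x : E,
      ∑ u ∈ range p, ∑ v ∈ range p,
        chi E (aeval x a * ((u : E) * x + v) ^ 2 + aeval x b * ((u : E) * x + v) + aeval x c) := by
    rw [Finset.sum_congr rfl fun u _ => (Finset.sum_congr rfl fun v _ => e2 u v).trans
      Finset.sum_comm, Finset.sum_comm]
  have h3 : |∑ u ∈ range p, ∑ v ∈ range p, tr (fam a b c u v) p 2 - (p : ℝ) * p ^ 2| ≤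
      (d + 3) * (p : ℝ) ^ 2 := by
    have e4 : ∑ u ∈ range p, ∑ v ∈ range p, tr (fam a b c u v) p 2 - (p : ℝ) * p ^ 2 =
        ∑ x : E, (∑ u ∈ range p, ∑ v ∈ range p,
        chi E (aeval x a * ((u : E) * x + v) ^ 2 + aeval x b * ((u : E) * x + v) + aeval x c) -
        if x ∈ PF E p then (p : ℝ) ^ 2 else 0) := by
      rw [Finset.sum_sub_distrib, ← e3]
      congr 1
      rw [Finset.sum_ite_mem, univ_inter, Finset.sum_const, card_PF, nsmul_eq_mul]
    rw [e4]
    have h5 : ∀ x ∈ (univ : Finset E), |∑ u ∈ range p, ∑ v ∈ range p,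
        chi E (aeval x a * ((u : E) * x + v) ^ 2 + aeval x b * ((u : E) * x + v) + aeval x c) -
        if x ∈ PF E p then (p : ℝ) ^ 2 else 0| ≤ (if x ∈ Z then (p : ℝ) ^ 2 else 0) +
          ((if x ∈ PF E p then 2 * (p : ℝ) else 0) + 1) := by
      intro x _
      by_cases hx : x ∈ PF E p
      · rw [if_pos hx, if_pos hx]
        have h6 := sum_pt hcard h2 hx (PF_aeval hx a) (PF_aeval hx b) (PF_aeval hx c)
        simp only [hdisc] at h6
        linarith
      · rw [if_neg hx, if_neg hx, sub_zero,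
          sum_plane hcard (fun z => chi E (aeval x a * z ^ 2 + aeval x b * z + aeval x c)) hx]
        have h6 := abs_sum_quad hE2 (aeval x a) (aeval x b) (aeval x c)
        simp only [hdisc] at h6
        rw [hcard] at h6
        push_cast at h6
        linarith
    refine (Finset.abs_sum_le_sum_abs _ _).trans ((Finset.sum_le_sum h5).trans ?_)
    rw [Finset.sum_add_distrib, Finset.sum_add_distrib, Finset.sum_ite_mem, univ_inter,
      Finset.sum_ite_mem, univ_inter, Finset.sum_const, Finset.sum_const, Finset.sum_const,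
      card_PF, card_univ, hcard, nsmul_eq_mul, nsmul_eq_mul, nsmul_eq_mul]
    push_cast
    nlinarith [mul_le_mul_of_nonneg_right hZc (sq_nonneg (p : ℝ))]
  rw [avgP2_eq]
  have e5 : (∑ u ∈ range p, ∑ v ∈ range p, tr (fam a b c u v) p 2) / (p : ℝ) ^ 2 - p =
      (∑ u ∈ range p, ∑ v ∈ range p, tr (fam a b c u v) p 2 - (p : ℝ) * p ^ 2) / (p : ℝ) ^ 2 := by
    field_simp
  rw [e5, abs_div, abs_of_pos (by positivity : (0 : ℝ) < (p : ℝ) ^ 2), div_le_iff₀ (by positivity)]
  exact h3

end means

end Pool.Agent.N430.BP
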