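import Mathlib

set_option autoImplicit false

/-! A maximal inequality for partial sums whose increments have moments bounded by powers of an additive
function of the interval. -/

namespace Pool.Agent.N430.BP

open Finset

lemma split_pow {m : ℕ} (hm : 1 ≤ m) {x y : ℝ} (hx : 0 ≤ x) (hy : 0 ≤ y) :
    (x + y) ^ (2 * m) ≤ (4 * (m : ℝ)) ^ (2 * m - 1) * x ^ (2 * m) + 2 * y ^ (2 * m) := by
  have hm0 : (1 : ℝ) ≤ m := by exact_mod_cast hm
  set l : ℝ := (4 * (m : ℝ))⁻¹ with hl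
  have h4 : (0 : ℝ) < 4 * m := by linarith
  have hl0 : 0 < l := inv_pos.2 h4
  have hl4 : l ≤ 1 / 4 := by
    rw [hl, inv_eq_one_div]
    exact one_div_le_one_div_of_le (by norm_num) (by linarith)
  have hl1 : 0 < 1 - l := by linarith
  have h1 := (convexOn_pow (2 * m)).2 (Set.mem_Ici.2 (div_nonneg hx hl0.le))
    (Set.mem_Ici.2 (div_nonneg hy hl1.le)) hl0.le hl1.le (by ring)
  simp only [smul_eq_mul] at h1
  have e1 : l * (x / l) + (1 - l) * (y / (1 - l)) = x + y := by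
    rw [mul_div_cancel₀ _ hl0.ne', mul_div_cancel₀ _ hl1.ne']
  rw [e1] at h1
  refine h1.trans (add_le_add (le_of_eq ?_) ?_)
  · have e2 : (2 * m) = (2 * m - 1) + 1 := by omega
    have e3 : (4 * (m : ℝ)) = l⁻¹ := by rw [hl, inv_inv]
    rw [e3, div_pow]
    conv_lhs => rw [e2, pow_succ l]
    conv_rhs => rw [e2, Nat.add_sub_cancel]
    rw [inv_pow]
    field_simp
    rw [one_div, ← e3]
  · have h2 : (1 / 2 : ℝ) ≤ (1 - l) ^ (2 * m - 1) := by
      have h3 := one_add_mul_le_pow (show (-2 : ℝ) ≤ -l by linarith) (2 * m - 1)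
      rw [← sub_eq_add_neg] at h3
      refine le_trans ?_ h3
      have h5 : ((2 * m - 1 : ℕ) : ℝ) ≤ 2 * m := by
        have : (2 * m - 1 : ℕ) ≤ 2 * m := Nat.sub_le _ _
        exact_mod_cast this
      have h6 : ((2 * m - 1 : ℕ) : ℝ) * l ≤ 2 * m * l := mul_le_mul_of_nonneg_right h5 hl0.le
      have h7 : 2 * (m : ℝ) * l = 1 / 2 := by
        rw [hl]
        field_simp
        norm_num
      nlinarith
    have e2 : (2 * m) = (2 * m - 1) + 1 := by omega
    have h3 : (1 - l) * (y / (1 - l)) ^ (2 * m) = y ^ (2 * m) / (1 - l) ^ (2 * m - 1) := by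
      rw [div_pow]
      conv_lhs => rw [e2, pow_succ (1 - l)]
      conv_rhs => rw [e2, Nat.add_sub_cancel]
      field_simp
    rw [h3, div_le_iff₀ (by linarith)]
    have h4 : 0 ≤ y ^ (2 * m) := pow_nonneg hy _
    nlinarith

/-- the constant -/
noncomputable def AA (m : ℕ) : ℝ := 4 * (4 * (m : ℝ)) ^ (2 * m - 1)

lemma AA_pos {m : ℕ} (hm : 1 ≤ m) : 0 < AA m := by
  have hm0 : (1 : ℝ) ≤ m := by exact_mod_cast hm
  unfold AA
  positivity

/-- splitting an interval -/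
lemma exists_split (w : ℕ → ℝ) (hw : ∀ n, 0 ≤ w n) {a b : ℕ} (hab : a < b) :
    ∃ k, a ≤ k ∧ k < b ∧ ∑ n ∈ Ico a k, w n ≤ (∑ n ∈ Ico a b, w n) / 2 ∧
      ∑ n ∈ Ico (k + 1) b, w n ≤ (∑ n ∈ Ico a b, w n) / 2 := by
  classical
  set W := ∑ n ∈ Ico a b, w n with hW
  have hW0 : 0 ≤ W := Finset.sum_nonneg fun n _ => hw n
  by_cases hP : ∃ j, ¬ (∑ n ∈ Ico a j, w n ≤ W / 2)
  · set j := Nat.find hP with hj
    have h1 : ¬ (∑ n ∈ Ico a j, w n ≤ W / 2) := Nat.find_spec hP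
    have h2 : ∀ i, i < j → ∑ n ∈ Ico a i, w n ≤ W / 2 := by
      intro i hi
      by_contra h
      exact Nat.find_min hP hi h
    have h3 : a < j := by
      by_contra h
      apply h1
      rw [Ico_eq_empty_of_le (by omega)]
      simpa using by linarith
    by_cases hjb : j ≤ b
    · refine ⟨j - 1, by omega, by omega, h2 _ (by omega), ?_⟩
      have h4 : ∑ n ∈ Ico a j, w n + ∑ n ∈ Ico j b, w n = W :=
        Finset.sum_Ico_consecutive w h3.le hjb
      rw [Nat.sub_add_cancel (by omega)]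
      push Not at h1
      linarith
    · have h4 := h2 b (by omega)
      refine ⟨a, le_rfl, hab, ?_, ?_⟩
      · simp; linarith
      · have h5 : ∑ n ∈ Ico (a + 1) b, w n ≤ W := by
          rw [hW]
          exact Finset.sum_le_sum_of_subset_of_nonneg (Ico_subset_Ico_left (by omega))
            fun n _ _ => hw n
        linarith
  · push Not at hP
    have h4 := hP b
    refine ⟨a, le_rfl, hab, ?_, ?_⟩
    · simp; linarith
    · have h5 : ∑ n ∈ Ico (a + 1) b, w n ≤ W := by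
        rw [hW]
        exact Finset.sum_le_sum_of_subset_of_nonneg (Ico_subset_Ico_left (by omega))
          fun n _ _ => hw n
      linarith

/-- **The maximal inequality.** -/
theorem maxi {Ω : Type*} (s : Finset Ω) (Y : ℕ → Ω → ℝ) (w : ℕ → ℝ) (hw : ∀ n, 0 ≤ w n) {m : ℕ}
    (hm : 2 ≤ m) {K : ℝ} (hK : 0 ≤ K) (L : ℕ)
    (h : ∀ a b, a ≤ b → b ≤ L → ∑ ω ∈ s, (∑ n ∈ Ico a b, Y n ω) ^ (2 * m) ≤
      K * (∑ n ∈ Ico a b, w n) ^ m) :
    ∀ d a b, a ≤ b → b ≤ L → b - a = d → ∀ c : Ω → ℕ, (∀ ω, a ≤ c ω ∧ c ω ≤ b) →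
      ∑ ω ∈ s, (∑ n ∈ Ico a (c ω), Y n ω) ^ (2 * m) ≤
        AA m * K * (∑ n ∈ Ico a b, w n) ^ m := by
  have hA := AA_pos (m := m) (by omega)
  intro d
  induction d using Nat.strong_induction_on with
  | _ d ih =>
  intro a b hab hbL hd c hc
  have hW0 : ∀ a b, 0 ≤ ∑ n ∈ Ico a b, w n := fun a b => Finset.sum_nonneg fun n _ => hw n
  rcases hab.eq_or_lt with rfl | hab'
  · have : ∀ ω ∈ s, (∑ n ∈ Ico a (c ω), Y n ω) ^ (2 * m) = 0 := by
      intro ω _
      rw [Ico_eq_empty_of_le (hc ω).2, Finset.sum_empty, zero_pow (by omega)]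
    rw [Finset.sum_congr rfl this, Finset.sum_const_zero]
    have := hW0 a a
    positivity
  obtain ⟨k, hak, hkb, h1, h2⟩ := exists_split w hw hab'
  set W := ∑ n ∈ Ico a b, w n with hW
  have hpt : ∀ ω, (∑ n ∈ Ico a (c ω), Y n ω) ^ (2 * m) ≤
      (∑ n ∈ Ico a (min (c ω) k), Y n ω) ^ (2 * m) +
      ((4 * (m : ℝ)) ^ (2 * m - 1) * (∑ n ∈ Ico a (k + 1), Y n ω) ^ (2 * m) +
        2 * (∑ n ∈ Ico (k + 1) (max (c ω) (k + 1)), Y n ω) ^ (2 * m)) := by
    intro ω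
    have habs : ∀ z : ℝ, |z| ^ (2 * m) = z ^ (2 * m) := fun z => by rw [pow_mul, pow_mul, sq_abs]
    have hnn : ∀ z : ℝ, 0 ≤ z ^ (2 * m) := fun z => by rw [pow_mul]; positivity
    by_cases hck : c ω ≤ k
    · rw [min_eq_left hck]
      have h3 := hnn (∑ n ∈ Ico a (k + 1), Y n ω)
      have h4 := hnn (∑ n ∈ Ico (k + 1) (max (c ω) (k + 1)), Y n ω)
      have h5 : (0 : ℝ) ≤ (4 * (m : ℝ)) ^ (2 * m - 1) := by positivity
      have h6 := mul_nonneg h5 h3
      linarith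
    · push Not at hck
      rw [max_eq_left (by omega : k + 1 ≤ c ω)]
      have h3 : ∑ n ∈ Ico a (c ω), Y n ω = ∑ n ∈ Ico a (k + 1), Y n ω +
          ∑ n ∈ Ico (k + 1) (c ω), Y n ω :=
        (Finset.sum_Ico_consecutive (fun n => Y n ω) (by omega) (by omega)).symm
      have h4 := split_pow (m := m) (by omega) (abs_nonneg (∑ n ∈ Ico a (k + 1), Y n ω))
        (abs_nonneg (∑ n ∈ Ico (k + 1) (c ω), Y n ω))
      rw [habs, habs] at h4
      have h5 := hnn (∑ n ∈ Ico a (min (c ω) k), Y n ω)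
      have h6 : (∑ n ∈ Ico a (c ω), Y n ω) ^ (2 * m) ≤
          (|∑ n ∈ Ico a (k + 1), Y n ω| + |∑ n ∈ Ico (k + 1) (c ω), Y n ω|) ^ (2 * m) := by
        rw [h3, ← habs]
        exact pow_le_pow_left₀ (abs_nonneg _) (abs_add_le _ _) _
      linarith
  refine (Finset.sum_le_sum fun ω _ => hpt ω).trans ?_
  rw [Finset.sum_add_distrib, Finset.sum_add_distrib, ← Finset.mul_sum, ← Finset.mul_sum]
  have g1 := ih (k - a) (by omega) a k hak (by omega) rfl (fun ω => min (c ω) k)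
    (fun ω => ⟨le_min (hc ω).1 hak, min_le_right _ _⟩)
  have g2 := ih (b - (k + 1)) (by omega) (k + 1) b (by omega) hbL rfl (fun ω => max (c ω) (k + 1))
    (fun ω => ⟨le_max_right _ _, max_le (hc ω).2 (by omega)⟩)
  have g3 := h a (k + 1) (by omega) (by omega)
  have hWk : ∑ n ∈ Ico a (k + 1), w n ≤ W := by
    rw [hW]
    exact Finset.sum_le_sum_of_subset_of_nonneg (Ico_subset_Ico_right (by omega)) fun n _ _ => hw n
  have hWn : 0 ≤ W := hW0 a b
  have hpow2 : (4 : ℝ) ≤ 2 ^ m := by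
    calc (4 : ℝ) = 2 ^ 2 := by norm_num
      _ ≤ 2 ^ m := pow_le_pow_right₀ (by norm_num) hm
  have hhalf : (W / 2) ^ m ≤ W ^ m / 4 := by
    rw [div_pow]
    exact div_le_div_of_nonneg_left (by positivity) (by norm_num) hpow2
  have k1 : (∑ n ∈ Ico a k, w n) ^ m ≤ W ^ m / 4 := (pow_le_pow_left₀ (hW0 a k) h1 m).trans hhalf
  have k2 : (∑ n ∈ Ico (k + 1) b, w n) ^ m ≤ W ^ m / 4 :=
    (pow_le_pow_left₀ (hW0 (k + 1) b) h2 m).trans hhalf
  have k3 : (∑ n ∈ Ico a (k + 1), w n) ^ m ≤ W ^ m := pow_le_pow_left₀ (hW0 a (k + 1)) hWk m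
  have hAK : 0 ≤ AA m * K := by positivity
  have l1 := g1.trans (mul_le_mul_of_nonneg_left k1 hAK)
  have l2 := g2.trans (mul_le_mul_of_nonneg_left k2 hAK)
  have l3 := g3.trans (mul_le_mul_of_nonneg_left k3 hK)
  have h5 : (0 : ℝ) ≤ (4 * (m : ℝ)) ^ (2 * m - 1) := by positivity
  have l4 := mul_le_mul_of_nonneg_left l3 h5
  have e4 : (4 * (m : ℝ)) ^ (2 * m - 1) * (K * W ^ m) = AA m * K * W ^ m / 4 := by
    unfold AA
    ring
  rw [e4] at l4
  linarith

end Pool.Agent.N430.BP
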