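import Pool.Agent.N430.BP.Gen
import Pool.Agent.N430.BP.NF1
import Pool.Agent.H921R2.TatePole.Homs

set_option autoImplicit false
set_option linter.all false

/-! Equidistribution of algebraic integers with coordinates in boxes modulo prime ideals. -/

namespace Pool.Agent.N430.BP

open Finset Polynomial Pool.Agent.N430.CLT NumberField IsDedekindDomain Module

lemma avgPM_shift {M : ℕ} : ∀ {m : ℕ} {F : Pt m → ℝ} (h : PerM M F) (t : Pt m),
    avgPM M m (fun w => F (fun j => ((w j).1 + (t j).1, (w j).2 + (t j).2))) = avgPM M m F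
  | 0, F, h, t => by
    show F _ = F _
    congr 1
    exact Subsingleton.elim _ _
  | m + 1, F, h, t => by
    show avgP2 M (fun u v => avgPM M m (fun w => F (fun j => ((pc u v w j).1 + (t j).1,
      (pc u v w j).2 + (t j).2)))) = avgP2 M (fun u v => avgPM M m (fun w => F (pc u v w)))
    have e : ∀ (u v : ℕ) (w : Pt m), (fun j => ((pc u v w j).1 + (t j).1, (pc u v w j).2 + (t j).2)) =
        pc (u + (t 0).1) (v + (t 0).2)
          (fun j => ((w j).1 + (t j.succ).1, (w j).2 + (t j.succ).2)) := by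
      intro u v w
      funext j
      refine Fin.cases ?_ (fun j => ?_) j
      · rfl
      · rfl
    simp only [e]
    have h1 : ∀ u v : ℕ, avgPM M m (fun w => F (pc (u + (t 0).1) (v + (t 0).2)
        (fun j => ((w j).1 + (t j.succ).1, (w j).2 + (t j.succ).2)))) =
        avgPM M m (fun w => F (pc (u + (t 0).1) (v + (t 0).2) w)) := fun u v =>
      avgPM_shift (h.tail _ _) (fun j => t j.succ)
    simp only [h1]
    exact avgP2_shift (h.avg M) (t 0).1 (t 0).2

section equi
variable {n p : ℕ} {κ : Type} [CommRing κ] [Fintype κ]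

lemma lin_update (hchar : (p : κ) = 0) (e : Fin n → κ) (w : Fin n → ℕ) (j : Fin n) :
    ∑ i, (Function.update w j (w j + p) i : κ) * e i = ∑ i, (w i : κ) * e i := by
  refine Finset.sum_congr rfl fun i _ => ?_
  by_cases hij : i = j
  · subst hij
    rw [Function.update_self]
    push_cast
    rw [hchar, add_zero]
  · rw [Function.update_of_ne hij]

lemma per_lin (hchar : (p : κ) = 0) (e : Fin n → κ) (G : κ → κ → ℝ) (c1 c2 : κ) :
    PerM p (fun w : Pt n => G (c1 + ∑ j, ((w j).1 : κ) * e j) (c2 + ∑ j, ((w j).2 : κ) * e j)) := by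
  intro j w
  have k1 : ∀ (z : ℕ × ℕ) (i : Fin n), (Function.update w j z i).1 =
      Function.update (fun i => (w i).1) j z.1 i := by
    intro z i
    by_cases hij : i = j
    · subst hij
      simp
    · simp [Function.update_of_ne hij]
  have k2 : ∀ (z : ℕ × ℕ) (i : Fin n), (Function.update w j z i).2 =
      Function.update (fun i => (w i).2) j z.2 i := by
    intro z i
    by_cases hij : i = j
    · subst hij
      simp
    · simp [Function.update_of_ne hij]
  have u1 : Function.update (fun i => (w i).1) j (w j).1 = fun i => (w i).1 :=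
    Function.update_eq_self j _
  have u2 : Function.update (fun i => (w i).2) j (w j).2 = fun i => (w i).2 :=
    Function.update_eq_self j _
  constructor
  · show G (c1 + ∑ i, ((Function.update w j ((w j).1 + p, (w j).2) i).1 : κ) * e i)
        (c2 + ∑ i, ((Function.update w j ((w j).1 + p, (w j).2) i).2 : κ) * e i) = _
    simp only [k1, k2, u2]
    rw [lin_update hchar e (fun i => (w i).1) j]
  · show G (c1 + ∑ i, ((Function.update w j ((w j).1, (w j).2 + p) i).1 : κ) * e i)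
        (c2 + ∑ i, ((Function.update w j ((w j).1, (w j).2 + p) i).2 : κ) * e i) = _
    simp only [k1, k2, u1]
    rw [lin_update hchar e (fun i => (w i).2) j]

lemma equi (hp : 0 < p) (hchar : (p : κ) = 0) (e : Fin n → κ)
    (hsurj : ∀ a : κ, ∃ t : Fin n → ℕ, ∑ j, (t j : κ) * e j = a) (G : κ → κ → ℝ) (c1 c2 : κ) :
    avgPM p n (fun w : Pt n => G (c1 + ∑ j, ((w j).1 : κ) * e j) (c2 + ∑ j, ((w j).2 : κ) * e j)) =
      (∑ a : κ, ∑ b : κ, G a b) / (Fintype.card κ : ℝ) ^ 2 := by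
  set F : Pt n → ℝ := fun w => G (c1 + ∑ j, ((w j).1 : κ) * e j) (c2 + ∑ j, ((w j).2 : κ) * e j)
    with hF
  have hper : PerM p F := per_lin hchar e G c1 c2
  have hq : (0 : ℝ) < Fintype.card κ := by exact_mod_cast Fintype.card_pos
  have h1 : ∀ a b : κ, avgPM p n (fun w : Pt n => G (a + (c1 + ∑ j, ((w j).1 : κ) * e j))
      (b + (c2 + ∑ j, ((w j).2 : κ) * e j))) = avgPM p n F := by
    intro a b
    obtain ⟨t1, ht1⟩ := hsurj a
    obtain ⟨t2, ht2⟩ := hsurj b
    rw [← avgPM_shift hper (fun j => (t1 j, t2 j))]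
    congr 1
    funext w
    rw [hF]
    simp only
    congr 1
    · rw [← ht1]
      push_cast
      simp only [add_mul, Finset.sum_add_distrib]
      ring
    · rw [← ht2]
      push_cast
      simp only [add_mul, Finset.sum_add_distrib]
      ring
  have h2 : ∑ ab : κ × κ, avgPM p n (fun w : Pt n => G (ab.1 + (c1 + ∑ j, ((w j).1 : κ) * e j))
      (ab.2 + (c2 + ∑ j, ((w j).2 : κ) * e j))) = ∑ a : κ, ∑ b : κ, G a b := by
    rw [← avgPM_sum]
    have h3 : (fun w : Pt n => ∑ ab : κ × κ, G (ab.1 + (c1 + ∑ j, ((w j).1 : κ) * e j))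
        (ab.2 + (c2 + ∑ j, ((w j).2 : κ) * e j))) = fun _ => ∑ a : κ, ∑ b : κ, G a b := by
      funext w
      rw [← Fintype.sum_prod_type']
      exact Fintype.sum_equiv (Equiv.prodCongr (Equiv.addRight _) (Equiv.addRight _)) _ _
        fun ab => rfl
    rw [h3, avgPM_const hp]
  simp only [h1] at h2
  rw [Finset.sum_const, card_univ, Fintype.card_prod, nsmul_eq_mul] at h2
  push_cast at h2
  rw [eq_div_iff (by positivity), ← h2]
  ring

end equi

section nf
variable {K : Type} [Field K] [NumberField K] {n : ℕ} (B : Basis (Fin n) ℤ (𝓞 K))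

/-- the element with the first coordinates -/
noncomputable def elA (z : Fin n → ℤ × ℤ) : 𝓞 K := ∑ j, (z j).1 • B j

/-- the element with the second coordinates -/
noncomputable def elB (z : Fin n → ℤ × ℤ) : 𝓞 K := ∑ j, (z j).2 • B j

lemma al_sh (U : Fin n → ℤ × ℤ) (w : Pt n) (v : HeightOneSpectrum (𝓞 K)) :
    (Ideal.Quotient.mk v.asIdeal (elA B (sh U w))) = Ideal.Quotient.mk v.asIdeal (elA B U) +
      ∑ j, ((w j).1 : 𝓞 K ⧸ v.asIdeal) * Ideal.Quotient.mk v.asIdeal (B j) := by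
  unfold elA sh
  rw [map_sum, map_sum, ← Finset.sum_add_distrib]
  refine Finset.sum_congr rfl fun j _ => ?_
  simp only [zsmul_eq_mul, map_mul, map_intCast]
  push_cast
  ring

lemma be_sh (U : Fin n → ℤ × ℤ) (w : Pt n) (v : HeightOneSpectrum (𝓞 K)) :
    (Ideal.Quotient.mk v.asIdeal (elB B (sh U w))) = Ideal.Quotient.mk v.asIdeal (elB B U) +
      ∑ j, ((w j).2 : 𝓞 K ⧸ v.asIdeal) * Ideal.Quotient.mk v.asIdeal (B j) := by
  unfold elB sh
  rw [map_sum, map_sum, ← Finset.sum_add_distrib]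
  refine Finset.sum_congr rfl fun j _ => ?_
  simp only [zsmul_eq_mul, map_mul, map_intCast]
  push_cast
  ring

lemma surj_res {p : ℕ} (hp : 0 < p) (v : HeightOneSpectrum (𝓞 K)) (hpv : (p : 𝓞 K) ∈ v.asIdeal)
    (a : 𝓞 K ⧸ v.asIdeal) :
    ∃ t : Fin n → ℕ, ∑ j, (t j : 𝓞 K ⧸ v.asIdeal) * Ideal.Quotient.mk v.asIdeal (B j) = a := by
  obtain ⟨A, rfl⟩ := Ideal.Quotient.mk_surjective a
  have hchar : (p : 𝓞 K ⧸ v.asIdeal) = 0 := by
    have : Ideal.Quotient.mk v.asIdeal (p : 𝓞 K) = 0 := Ideal.Quotient.eq_zero_iff_mem.2 hpv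
    rwa [map_natCast] at this
  have hp0 : (p : ℤ) ≠ 0 := by exact_mod_cast hp.ne'
  refine ⟨fun j => (B.repr A j % p).toNat, ?_⟩
  conv_rhs => rw [← B.sum_repr A]
  rw [map_sum]
  refine Finset.sum_congr rfl fun j _ => ?_
  rw [zsmul_eq_mul, map_mul, map_intCast]
  congr 1
  have h1 : ((B.repr A j % p).toNat : ℤ) = B.repr A j % p := Int.toNat_of_nonneg (Int.emod_nonneg _ hp0)
  have h2 : (((B.repr A j % p).toNat : ℤ) : 𝓞 K ⧸ v.asIdeal) = ((B.repr A j : ℤ) : 𝓞 K ⧸ v.asIdeal) := by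
    rw [h1]
    have h3 : B.repr A j = p * (B.repr A j / p) + B.repr A j % p := (Int.mul_ediv_add_emod _ _).symm
    conv_rhs => rw [h3]
    push_cast
    rw [hchar, zero_mul, zero_add]
  rw [← h2]
  push_cast
  rfl

/-- the logarithm of the local factor -/
noncomputable def lf (v : HeightOneSpectrum (𝓞 K)) (α β : 𝓞 K) : ℝ :=
  Real.log (((Nat.card {P : (𝓞 K ⧸ v.asIdeal) × (𝓞 K ⧸ v.asIdeal) //
    P.2 ^ 2 = P.1 ^ 3 + Ideal.Quotient.mk v.asIdeal α * P.1 + Ideal.Quotient.mk v.asIdeal β} + 1 : ℕ) : ℝ) /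
      Ideal.absNorm v.asIdeal)

/-- the field structure of the residue field -/
@[reducible] noncomputable def fld (v : HeightOneSpectrum (𝓞 K)) : Field (𝓞 K ⧸ v.asIdeal) :=
  @Ideal.Quotient.field _ _ v.asIdeal (v.isPrime.isMaximal v.ne_bot)

lemma card_res (v : HeightOneSpectrum (𝓞 K)) :
    Nat.card (𝓞 K ⧸ v.asIdeal) = Ideal.absNorm v.asIdeal := (Ideal.absNorm_apply _).symm

lemma fin_res (v : HeightOneSpectrum (𝓞 K)) : Finite (𝓞 K ⧸ v.asIdeal) := by
  apply Nat.finite_of_card_ne_zero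
  rw [card_res]
  exact (Ideal.absNorm_ne_zero_iff_mem_nonZeroDivisors).2
    (mem_nonZeroDivisors_iff_ne_zero.2 v.ne_bot)

lemma lf_lg (v : HeightOneSpectrum (𝓞 K)) (α β : 𝓞 K) :
    lf v α β = @lg (𝓞 K ⧸ v.asIdeal) (fld v) (Ideal.Quotient.mk v.asIdeal α)
      (Ideal.Quotient.mk v.asIdeal β) := by
  unfold lf lg pts
  rw [card_res]

end nf

end Pool.Agent.N430.BP
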