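import Pool.Agent.N430.BP.NF2

set_option autoImplicit false
set_option linter.all false

/-! The original products of Birch and Swinnerton-Dyer over number fields. -/

namespace Pool.Agent.N430.BP

open Finset Polynomial Pool.Agent.N430.CLT NumberField IsDedekindDomain Module
open Pool.Agent.H921R2.TatePole (below deg nm nm_eq fiber_card_le R R_eq_hc hc R_le)

section nf
variable {K : Type} [Field K] [NumberField K]

/-- the mean of the logarithm of the local factor -/
noncomputable def Ev (v : HeightOneSpectrum (𝓞 K)) : ℝ :=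
  @Elg (𝓞 K ⧸ v.asIdeal) (fld v) (@Fintype.ofFinite _ (fin_res v))

/-- the inverse of the square root -/
noncomputable def ri (p : ℕ) : ℝ := (√(p : ℝ))⁻¹

lemma ri_nonneg (p : ℕ) : 0 ≤ ri p := by unfold ri; positivity

lemma ri_le_one {p : ℕ} (hp : 0 < p) : ri p ≤ 1 := by
  unfold ri
  apply inv_le_one_of_one_le₀
  apply Real.one_le_sqrt.2
  exact_mod_cast hp

lemma ri_sq {p : ℕ} : ri p ^ 2 = (p : ℝ)⁻¹ := by
  unfold ri
  rw [inv_pow, Real.sq_sqrt (Nat.cast_nonneg _)]

lemma ri_cube {p : ℕ} : ri p ^ 3 = (p : ℝ) ^ (-(3 / 2) : ℝ) := by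
  unfold ri
  rw [Real.sqrt_eq_rpow, ← Real.rpow_neg (Nat.cast_nonneg _), ← Real.rpow_natCast,
    ← Real.rpow_mul (Nat.cast_nonneg _)]
  norm_num

lemma sum_ri (x : ℕ) : ∑ p ∈ OP x, ri p ^ 3 ≤ ∑' n : ℕ, (n : ℝ) ^ (-(3 / 2) : ℝ) := by
  refine (Finset.sum_le_sum_of_subset_of_nonneg (Finset.filter_subset _ _)
    (fun p _ _ => pow_nonneg (ri_nonneg p) 3)).trans ?_
  simp only [ri_cube]
  exact sum_rpow x

lemma sqrt_nm (v : HeightOneSpectrum (𝓞 K)) :
    (√((Nat.card (𝓞 K ⧸ v.asIdeal) : ℕ) : ℝ))⁻¹ = ri (below v : ℕ) ^ deg v := by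
  have h1 := (nm_eq v).1
  have h2 : Nat.card (𝓞 K ⧸ v.asIdeal) = (below v : ℕ) ^ deg v := by
    rw [card_res]
    exact h1
  rw [h2]
  unfold ri
  rw [inv_pow]
  congr 1
  push_cast
  rw [Real.sqrt_eq_iff_mul_self_eq (by positivity) (by positivity), ← mul_pow,
    Real.mul_self_sqrt (by positivity)]

lemma lf_bound (v : HeightOneSpectrum (𝓞 K)) (α β : 𝓞 K) :
    |lf v α β| ≤ 65600 * ri (below v : ℕ) ^ deg v := by
  rw [lf_lg]
  have h := @lg_bound (𝓞 K ⧸ v.asIdeal) (fld v) (fin_res v) (Ideal.Quotient.mk v.asIdeal α)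
    (Ideal.Quotient.mk v.asIdeal β)
  rwa [div_eq_mul_inv, sqrt_nm] at h

lemma Ev_bound (v : HeightOneSpectrum (𝓞 K)) : |Ev v| ≤ 65600 * ri (below v : ℕ) ^ deg v := by
  classical
  have h := @Elg_bound (𝓞 K ⧸ v.asIdeal) (fld v) (@Fintype.ofFinite _ (fin_res v))
  rw [div_eq_mul_inv, sqrt_nm] at h
  exact h

lemma natCast_res (v : HeightOneSpectrum (𝓞 K)) : (((below v : ℕ) : 𝓞 K ⧸ v.asIdeal)) = 0 := by
  have : Ideal.Quotient.mk v.asIdeal (((below v : ℕ) : 𝓞 K)) = 0 :=
    Ideal.Quotient.eq_zero_iff_mem.2 (nm_eq v).2.2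
  rwa [map_natCast] at this

lemma ringChar_ne (v : HeightOneSpectrum (𝓞 K)) (h2 : (below v : ℕ) ≠ 2) :
    @ringChar (𝓞 K ⧸ v.asIdeal) (fld v).toNonAssocSemiring ≠ 2 := by
  intro h
  have h3 : @ringChar (𝓞 K ⧸ v.asIdeal) (fld v).toNonAssocSemiring ∣ (below v : ℕ) :=
    (@ringChar.spec (𝓞 K ⧸ v.asIdeal) (fld v).toNonAssocSemiring (below v : ℕ)).1 (natCast_res v)
  rw [h] at h3
  exact h2 ((Nat.prime_dvd_prime_iff_eq Nat.prime_two (below v).2).1 h3).symm

lemma Ev_eq (v : HeightOneSpectrum (𝓞 K)) (h2 : (below v : ℕ) ≠ 2) :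
    |Ev v - ri (below v : ℕ) ^ (2 * deg v) / 2| ≤ 65536 * ri (below v : ℕ) ^ (3 * deg v) := by
  classical
  have h := @Elg_eq (𝓞 K ⧸ v.asIdeal) (fld v) (@Fintype.ofFinite _ (fin_res v)) (by
    exact fun a b => Classical.propDecidable _) (ringChar_ne v h2)
  have h3 : (1 : ℝ) / (2 * (Nat.card (𝓞 K ⧸ v.asIdeal) : ℝ)) = ri (below v : ℕ) ^ (2 * deg v) / 2 := by
    have h4 : (Nat.card (𝓞 K ⧸ v.asIdeal) : ℝ) = ((below v : ℕ) : ℝ) ^ deg v := by
      rw [card_res]
      exact_mod_cast (nm_eq v).1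
    rw [h4, pow_mul, ri_sq, inv_pow]
    field_simp
  rw [h3, sqrt_nm, ← pow_mul, mul_comm (deg v) 3] at h
  exact h

/-- the prime number `p` -/
def mkP (p : ℕ) (h : p.Prime) : Nat.Primes := ⟨p, h⟩

lemma mkP_coe (p : ℕ) (h : p.Prime) : ((mkP p h : Nat.Primes) : ℕ) = p := rfl

/-- the sum over the primes above `p` of degree `f` -/
noncomputable def XF (f p : ℕ) (α β : 𝓞 K) : ℝ :=
  if h : p.Prime then ∑ v : {v : HeightOneSpectrum (𝓞 K) // below v = mkP p h},
    (if deg v.1 = f then lf v.1 α β - Ev v.1 else 0) else 0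

variable {n : ℕ} (B : Basis (Fin n) ℤ (𝓞 K))

lemma lf_sh (v : HeightOneSpectrum (𝓞 K)) (U : Fin n → ℤ × ℤ) (w : Pt n) :
    lf v (elA B (sh U w)) (elB B (sh U w)) = @lg (𝓞 K ⧸ v.asIdeal) (fld v)
      (Ideal.Quotient.mk v.asIdeal (elA B U) +
        ∑ j, ((w j).1 : 𝓞 K ⧸ v.asIdeal) * Ideal.Quotient.mk v.asIdeal (B j))
      (Ideal.Quotient.mk v.asIdeal (elB B U) +
        ∑ j, ((w j).2 : 𝓞 K ⧸ v.asIdeal) * Ideal.Quotient.mk v.asIdeal (B j)) := by
  rw [lf_lg, al_sh, be_sh]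

lemma lf_per {p : ℕ} (v : HeightOneSpectrum (𝓞 K)) (hv : (below v : ℕ) = p) (U : Fin n → ℤ × ℤ) :
    PerM p (fun w : Pt n => lf v (elA B (sh U w)) (elB B (sh U w))) := by
  have := @Fintype.ofFinite _ (fin_res v)
  simp only [lf_sh]
  have hchar : ((p : ℕ) : 𝓞 K ⧸ v.asIdeal) = 0 := by
    rw [← hv]
    exact natCast_res v
  exact per_lin hchar _ _ _ _

lemma lf_mean {p : ℕ} (hp : 0 < p) (v : HeightOneSpectrum (𝓞 K)) (hv : (below v : ℕ) = p)
    (U : Fin n → ℤ × ℤ) :
    avgPM p n (fun w : Pt n => lf v (elA B (sh U w)) (elB B (sh U w))) = Ev v := by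
  let _ : Fintype (𝓞 K ⧸ v.asIdeal) := @Fintype.ofFinite _ (fin_res v)
  simp only [lf_sh]
  have hchar : ((p : ℕ) : 𝓞 K ⧸ v.asIdeal) = 0 := by
    rw [← hv]
    exact natCast_res v
  have h1 := equi (n := n) hp hchar (fun j => Ideal.Quotient.mk v.asIdeal (B j))
    (surj_res B hp v (by rw [← hv]; exact (nm_eq v).2.2))
    (@lg (𝓞 K ⧸ v.asIdeal) (fld v)) (Ideal.Quotient.mk v.asIdeal (elA B U))
    (Ideal.Quotient.mk v.asIdeal (elB B U))
  rw [h1]
  rfl

lemma fiber_le (p : Nat.Primes) :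
    (Fintype.card {v : HeightOneSpectrum (𝓞 K) // below v = p} : ℝ) ≤ finrank ℚ K := by
  exact_mod_cast fiber_card_le p

/-- the local data -/
noncomputable def nfData : LocalData n ((Fin n → ℤ × ℤ) × Bool) where
  X s p w := XF (if s.2 then 1 else 2) p (elA B (sh s.1 w)) (elB B (sh s.1 w))
  b p := finrank ℚ K * (131200 * ri p)
  b_nonneg p := by
    have := ri_nonneg p
    positivity
  per s p hp _ := by
    intro j w
    constructor
    · show XF _ p _ _ = XF _ p _ _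
      unfold XF
      rw [dif_pos hp, dif_pos hp]
      refine Finset.sum_congr rfl fun v _ => ?_
      have hv : (below v.1 : ℕ) = p := by rw [v.2]; rfl
      have := (lf_per B v.1 hv s.1 j w).1
      simp only at this
      rw [this]
    · show XF _ p _ _ = XF _ p _ _
      unfold XF
      rw [dif_pos hp, dif_pos hp]
      refine Finset.sum_congr rfl fun v _ => ?_
      have hv : (below v.1 : ℕ) = p := by rw [v.2]; rfl
      have := (lf_per B v.1 hv s.1 j w).2
      simp only at this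
      rw [this]
  bound s p hp _ w := by
    unfold XF
    rw [dif_pos hp]
    have hr0 := ri_nonneg p
    have hr1 := ri_le_one hp.pos
    refine (Finset.abs_sum_le_sum_abs _ _).trans ?_
    have h1 : ∀ v : {v : HeightOneSpectrum (𝓞 K) // below v = mkP p hp},
        |if deg v.1 = (if s.2 then 1 else 2) then
          lf v.1 (elA B (sh s.1 w)) (elB B (sh s.1 w)) - Ev v.1 else 0| ≤ 131200 * ri p := by
      intro v
      by_cases hd0 : deg v.1 = (if s.2 then 1 else 2)
      · rw [if_pos hd0]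
        have hv : (below v.1 : ℕ) = p := by rw [v.2]; rfl
        have k1 := lf_bound v.1 (elA B (sh s.1 w)) (elB B (sh s.1 w))
        have k2 := Ev_bound v.1
        rw [hv] at k1 k2
        have hd := (nm_eq v.1).2.1
        have k3 : ri p ^ deg v.1 ≤ ri p := pow_le_of_le_one hr0 hr1 hd.ne'
        refine (abs_sub _ _).trans ?_
        linarith
      · rw [if_neg hd0, abs_zero]
        positivity
    refine (Finset.sum_le_sum fun v _ => h1 v).trans ?_
    rw [Finset.sum_const, card_univ, nsmul_eq_mul]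
    exact mul_le_mul_of_nonneg_right (fiber_le _) (by positivity)
  mean s p hp _ := by
    unfold XF
    simp only [dif_pos hp]
    rw [avgPM_sum]
    refine Finset.sum_eq_zero fun v _ => ?_
    by_cases hd0 : deg v.1 = (if s.2 then 1 else 2)
    · simp only [if_pos hd0]
      have e : (fun w : Pt n => lf v.1 (elA B (sh s.1 w)) (elB B (sh s.1 w)) - Ev v.1) =
          fun w : Pt n => lf v.1 (elA B (sh s.1 w)) (elB B (sh s.1 w)) + (-Ev v.1) := by
        funext w
        ring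
      rw [e, avgPM_add, avgPM_const hp.pos, lf_mean B hp.pos v.1 (by rw [v.2]; rfl) s.1]
      ring
    · simp only [if_neg hd0]
      exact avgPM_const hp.pos 0 n
  B := (finrank ℚ K * 131200) ^ 2 * (1 + |(Pool.Agent.Helper256.KM.mertens_inv).choose|)
  B_nonneg := by positivity
  sum_sq x hx := by
    have h3 := (Pool.Agent.Helper256.KM.mertens_inv).choose_spec x (by omega)
    set C3 := (Pool.Agent.Helper256.KM.mertens_inv).choose with hC3
    have hT := one_le_loglog hx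
    have h1 : ∀ p ∈ OP x, (finrank ℚ K * (131200 * ri p)) ^ 2 =
        (finrank ℚ K * 131200) ^ 2 * (1 / (p : ℝ)) := by
      intro p _
      have := ri_sq (p := p)
      rw [one_div, ← this]
      ring
    rw [Finset.sum_congr rfl h1, ← Finset.mul_sum, mul_assoc]
    refine mul_le_mul_of_nonneg_left ?_ (by positivity)
    have h4 : ∑ p ∈ OP x, (1 : ℝ) / p ≤ ∑ p ∈ (Icc 1 x).filter Nat.Prime, (1 : ℝ) / p :=
      Finset.sum_le_sum_of_subset_of_nonneg (Finset.filter_subset _ _) fun p _ _ => by positivity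
    have h5 := (abs_le.1 h3).2
    have h6 : C3 ≤ |C3| := le_abs_self _
    nlinarith [abs_nonneg C3]

end nf

end Pool.Agent.N430.BP
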