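import Pool.Agent.N430.BP.NF3

set_option autoImplicit false
set_option linter.all false

/-! The original products of Birch and Swinnerton-Dyer over number fields: the law. -/

namespace Pool.Agent.N430.BP

open Finset Polynomial Pool.Agent.N430.CLT NumberField IsDedekindDomain Module
open Pool.Agent.H921R2.TatePole (below deg nm nm_eq fiber_card_le R R_eq_hc hc R_le)

section nf
variable {K : Type} [Field K] [NumberField K]

lemma fin_T (K : Type) [Field K] [NumberField K] (x : ℕ) :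
    {v : HeightOneSpectrum (𝓞 K) | Ideal.absNorm v.asIdeal ≤ x}.Finite := by
  have h1 := (Ideal.finite_setOf_absNorm_le (S := 𝓞 K) x)
  refine Set.Finite.of_finite_image (f := fun v : HeightOneSpectrum (𝓞 K) => v.asIdeal)
    (h1.subset ?_) (fun v _ w _ h => HeightOneSpectrum.ext h)
  rintro I ⟨v, hv, rfl⟩
  exact hv

/-- the primes of norm at most `x` -/
noncomputable def Tx (K : Type) [Field K] [NumberField K] (x : ℕ) : Finset (HeightOneSpectrum (𝓞 K)) :=
  (fin_T K x).toFinset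

lemma mem_Tx {x : ℕ} {v : HeightOneSpectrum (𝓞 K)} : v ∈ Tx K x ↔ nm v ≤ x := by
  unfold Tx
  rw [Set.Finite.mem_toFinset]
  rfl

/-- the part of the sum above `p` -/
noncomputable def HH (g : HeightOneSpectrum (𝓞 K) → ℝ) (x p : ℕ) : ℝ :=
  if h : p.Prime then ∑ v : {v : HeightOneSpectrum (𝓞 K) // below v = mkP p h},
    (if nm v.1 ≤ x then g v.1 else 0) else 0

lemma sum_Tx (g : HeightOneSpectrum (𝓞 K) → ℝ) (x : ℕ) :
    ∑ v ∈ Tx K x, g v = ∑ p ∈ Pr x, HH g x p := by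
  classical
  have hmaps : ∀ v ∈ Tx K x, ((below v : Nat.Primes) : ℕ) ∈ Pr x := by
    intro v hv
    rw [mem_Tx] at hv
    unfold Pr
    rw [mem_filter, mem_Icc]
    exact ⟨⟨(below v).2.one_le, (Pool.Agent.H921R2.TatePole.below_le_nm v).trans hv⟩, (below v).2⟩
  rw [← Finset.sum_fiberwise_of_maps_to hmaps]
  refine Finset.sum_congr rfl fun p hp => ?_
  unfold Pr at hp
  rw [mem_filter] at hp
  unfold HH
  rw [dif_pos hp.2, ← Finset.sum_filter]
  symm
  refine Finset.sum_bij (fun v _ => v.1) ?_ ?_ ?_ ?_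
  · intro v hv
    rw [mem_filter] at hv
    rw [mem_filter, mem_Tx]
    exact ⟨hv.2, by rw [v.2]; rfl⟩
  · intro v _ w _ h
    exact Subtype.ext h
  · intro v hv
    rw [mem_filter, mem_Tx] at hv
    refine ⟨⟨v, Subtype.ext hv.2⟩, ?_, rfl⟩
    rw [mem_filter]
    exact ⟨mem_univ _, hv.1⟩
  · intro v _
    rfl

/-- the sum of the means over the primes above `p` of degree `f` -/
noncomputable def EF (K : Type) [Field K] [NumberField K] (f p : ℕ) : ℝ :=
  if h : p.Prime then ∑ v : {v : HeightOneSpectrum (𝓞 K) // below v = mkP p h},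
    (if deg v.1 = f then Ev v.1 else 0) else 0

lemma HH_two (g : HeightOneSpectrum (𝓞 K) → ℝ) (hg : ∀ v, |g v| ≤ 65600 * ri (below v : ℕ) ^ deg v)
    (x p : ℕ) : |HH g x p| ≤ finrank ℚ K * 65600 := by
  unfold HH
  split_ifs with h
  · refine (Finset.abs_sum_le_sum_abs _ _).trans ?_
    have h1 : ∀ v : {v : HeightOneSpectrum (𝓞 K) // below v = mkP p h},
        |if nm v.1 ≤ x then g v.1 else 0| ≤ 65600 := by
      intro v
      split_ifs
      · refine (hg v.1).trans ?_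
        have h2 := pow_le_one₀ (n := deg v.1) (ri_nonneg _) (ri_le_one (below v.1).2.pos)
        linarith
      · rw [abs_zero]
        norm_num
    refine (Finset.sum_le_sum fun v _ => h1 v).trans ?_
    rw [Finset.sum_const, card_univ, nsmul_eq_mul]
    exact mul_le_mul_of_nonneg_right (fiber_le _) (by norm_num)
  · rw [abs_zero]
    positivity

lemma HH_dec (α β : 𝓞 K) {x p : ℕ} (hp : p ∈ OP x) :
    |HH (fun v => lf v α β) x p - (XF 1 p α β + EF K 1 p + if p ^ 2 ≤ x then (XF 2 p α β + EF K 2 p)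
      else 0)| ≤ finrank ℚ K * (65600 * ri p ^ 3) := by
  rw [mem_OP] at hp
  obtain ⟨hpx, hpp, hp2⟩ := hp
  unfold HH XF EF
  simp only [dif_pos hpp]
  rw [← Finset.sum_add_distrib, ← Finset.sum_add_distrib]
  have e : (if p ^ 2 ≤ x then ∑ v : {v : HeightOneSpectrum (𝓞 K) // below v = mkP p hpp},
      ((if deg v.1 = 2 then lf v.1 α β - Ev v.1 else 0) + (if deg v.1 = 2 then Ev v.1 else 0)) else 0) =
      ∑ v : {v : HeightOneSpectrum (𝓞 K) // below v = mkP p hpp}, (if p ^ 2 ≤ x then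
      ((if deg v.1 = 2 then lf v.1 α β - Ev v.1 else 0) + (if deg v.1 = 2 then Ev v.1 else 0)) else 0) := by
    split_ifs
    · rfl
    · rw [Finset.sum_const_zero]
  rw [e, ← Finset.sum_add_distrib, ← Finset.sum_sub_distrib]
  refine (Finset.abs_sum_le_sum_abs _ _).trans ?_
  have hr0 := ri_nonneg p
  have hr1 := ri_le_one hpp.pos
  have h1 : ∀ v : {v : HeightOneSpectrum (𝓞 K) // below v = mkP p hpp},
      |(if nm v.1 ≤ x then lf v.1 α β else 0) - ((if deg v.1 = 1 then lf v.1 α β - Ev v.1 else 0) +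
        (if deg v.1 = 1 then Ev v.1 else 0) + (if p ^ 2 ≤ x then
      ((if deg v.1 = 2 then lf v.1 α β - Ev v.1 else 0) + (if deg v.1 = 2 then Ev v.1 else 0)) else 0))| ≤
      65600 * ri p ^ 3 := by
    intro v
    have hv : (below v.1 : ℕ) = p := by rw [v.2]; rfl
    obtain ⟨n1, n2, _⟩ := nm_eq v.1
    rw [hv] at n1
    have hb := lf_bound v.1 α β
    rw [hv] at hb
    have hpos : 0 ≤ 65600 * ri p ^ 3 := by positivity
    rcases (show deg v.1 = 1 ∨ deg v.1 = 2 ∨ 3 ≤ deg v.1 by omega) with h1 | h2 | h3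
    · rw [h1, pow_one] at n1
      rw [n1, if_pos hpx, h1]
      simp only [if_true, Nat.reduceEqDiff, if_false]
      simp
      positivity
    · rw [h2] at n1
      rw [n1, h2]
      simp only [Nat.reduceEqDiff, if_false, if_true]
      split_ifs <;> simp <;> positivity
    · have k1 : ¬ deg v.1 = 1 := by omega
      have k2 : ¬ deg v.1 = 2 := by omega
      simp only [if_neg k1, if_neg k2, add_zero, ite_self, sub_zero]
      split_ifs
      · refine hb.trans (mul_le_mul_of_nonneg_left ?_ (by norm_num))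
        exact pow_le_pow_of_le_one hr0 hr1 h3
      · rw [abs_zero]
        exact hpos
  refine (Finset.sum_le_sum fun v _ => h1 v).trans ?_
  rw [Finset.sum_const, card_univ, nsmul_eq_mul]
  exact mul_le_mul_of_nonneg_right (fiber_le _) (by positivity)

lemma EF_one {p : ℕ} (hp : p.Prime) (h2 : p ≠ 2) :
    |EF K 1 p - (Nat.card (𝓞 K →+* ZMod p) : ℝ) / p / 2| ≤ finrank ℚ K * (65536 * ri p ^ 3) := by
  classical
  have h1 : (Nat.card (𝓞 K →+* ZMod p) : ℝ) =
      ∑ v : {v : HeightOneSpectrum (𝓞 K) // below v = mkP p hp}, (if deg v.1 = 1 then (1 : ℝ) else 0) := by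
    have h3 := R_eq_hc (K := K) (mkP p hp)
    unfold hc R at h3
    rw [mkP_coe] at h3
    rw [← h3, Finset.sum_boole]
  rw [h1]
  unfold EF
  rw [dif_pos hp, Finset.sum_div, Finset.sum_div, ← Finset.sum_sub_distrib]
  refine (Finset.abs_sum_le_sum_abs _ _).trans ?_
  have hr0 := ri_nonneg p
  have hr1 := ri_le_one hp.pos
  have h4 : ∀ v : {v : HeightOneSpectrum (𝓞 K) // below v = mkP p hp},
      |(if deg v.1 = 1 then Ev v.1 else 0) - (if deg v.1 = 1 then (1 : ℝ) else 0) / p / 2| ≤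
      65536 * ri p ^ 3 := by
    intro v
    have hv : (below v.1 : ℕ) = p := by rw [v.2]; rfl
    split_ifs with hd
    · have h5 := Ev_eq v.1 (by rw [hv]; exact h2)
      rw [hv, hd] at h5
      simp only [mul_one] at h5
      rw [ri_sq] at h5
      rw [one_div]
      exact h5
    · rw [zero_div, zero_div, sub_zero, abs_zero]
      positivity
  refine (Finset.sum_le_sum fun v _ => h4 v).trans ?_
  rw [Finset.sum_const, card_univ, nsmul_eq_mul]
  exact mul_le_mul_of_nonneg_right (fiber_le _) (by positivity)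

lemma EF_two {p : ℕ} (hp : p.Prime) (h2 : p ≠ 2) :
    |EF K 2 p| ≤ finrank ℚ K * (65537 * ri p ^ 3) := by
  unfold EF
  rw [dif_pos hp]
  refine (Finset.abs_sum_le_sum_abs _ _).trans ?_
  have hr0 := ri_nonneg p
  have hr1 := ri_le_one hp.pos
  have h4 : ∀ v : {v : HeightOneSpectrum (𝓞 K) // below v = mkP p hp},
      |if deg v.1 = 2 then Ev v.1 else 0| ≤ 65537 * ri p ^ 3 := by
    intro v
    have hv : (below v.1 : ℕ) = p := by rw [v.2]; rfl
    split_ifs with hd
    · have h5 := Ev_eq v.1 (by rw [hv]; exact h2)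
      rw [hv, hd] at h5
      have h6 : ri p ^ (2 * 2) ≤ ri p ^ 3 := pow_le_pow_of_le_one hr0 hr1 (by norm_num)
      have h7 : ri p ^ (3 * 2) ≤ ri p ^ 3 := pow_le_pow_of_le_one hr0 hr1 (by norm_num)
      have h8 : 0 ≤ ri p ^ (2 * 2) := by positivity
      have h9 := abs_le.1 h5
      have h10 : 0 ≤ ri p ^ 3 := by positivity
      generalize ri p ^ (2 * 2) = a at h5 h6 h8 h9
      generalize ri p ^ (3 * 2) = b at h5 h7 h9
      generalize ri p ^ 3 = c at h6 h7 h10 ⊢
      obtain ⟨h9, h9'⟩ := h9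
      rw [abs_le]
      constructor <;> linarith
    · rw [abs_zero]
      positivity
  refine (Finset.sum_le_sum fun v _ => h4 v).trans ?_
  rw [Finset.sum_const, card_univ, nsmul_eq_mul]
  exact mul_le_mul_of_nonneg_right (fiber_le _) (by positivity)

lemma OP_sqrt (x : ℕ) : (OP x).filter (fun p => p ^ 2 ≤ x) = OP (Nat.sqrt x) := by
  ext p
  rw [mem_filter, mem_OP, mem_OP]
  constructor
  · rintro ⟨⟨_, h2⟩, h3⟩
    exact ⟨Nat.le_sqrt'.2 h3, h2⟩
  · rintro ⟨h1, h2⟩
    exact ⟨⟨h1.trans (Nat.sqrt_le_self x), h2⟩, Nat.le_sqrt'.1 h1⟩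

theorem nf_dec (K : Type) [Field K] [NumberField K] : ∃ C : ℝ, 0 ≤ C ∧ ∀ x : ℕ, 16 ≤ x → ∀ α β : 𝓞 K,
    |∑ v ∈ Tx K x, lf v α β - 1 / 2 * Real.log (Real.log x) - ∑ p ∈ OP (Nat.sqrt x), XF 2 p α β -
      ∑ p ∈ OP x, XF 1 p α β| ≤ C := by
  obtain ⟨C1, hC1, h1⟩ := homs_mertens K
  set Z := ∑' n : ℕ, (n : ℝ) ^ (-(3 / 2) : ℝ) with hZ
  have hZ0 : 0 ≤ Z := tsum_nonneg fun n => by positivity
  set d : ℝ := ((finrank ℚ K : ℕ) : ℝ) with hd
  have hd0 : 0 ≤ d := Nat.cast_nonneg _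
  set c2 : ℝ := (Nat.card (𝓞 K →+* ZMod 2) : ℝ) with hc2
  have hc20 : 0 ≤ c2 := Nat.cast_nonneg _
  refine ⟨d * 65600 + d * 65600 * Z + d * 65536 * Z + d * 65537 * Z + (C1 / 2 + c2 / 4), by positivity,
    fun x hx α β => ?_⟩
  have hprime : ∀ p ∈ OP x, p.Prime ∧ p ≠ 2 := fun p hp => (mem_OP.1 hp).2
  have e1 := sum_Tx (fun v => lf v α β) x
  have e2 := sum_OP (fun p => HH (fun v => lf v α β) x p) (x := x) (by omega)
  have b1 : |HH (fun v => lf v α β) x 2| ≤ d * 65600 := HH_two _ (fun v => lf_bound v α β) x 2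
  have b2 : |∑ p ∈ OP x, (HH (fun v => lf v α β) x p - (XF 1 p α β + EF K 1 p +
      if p ^ 2 ≤ x then (XF 2 p α β + EF K 2 p) else 0))| ≤ d * 65600 * Z := by
    refine (Finset.abs_sum_le_sum_abs _ _).trans ((Finset.sum_le_sum fun p hp => HH_dec α β hp).trans ?_)
    rw [← Finset.mul_sum, ← Finset.mul_sum, mul_assoc]
    exact mul_le_mul_of_nonneg_left (mul_le_mul_of_nonneg_left (sum_ri x) (by norm_num)) hd0
  have b3 : |∑ p ∈ OP x, (EF K 1 p - (Nat.card (𝓞 K →+* ZMod p) : ℝ) / p / 2)| ≤ d * 65536 * Z := by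
    refine (Finset.abs_sum_le_sum_abs _ _).trans ((Finset.sum_le_sum fun p hp =>
      EF_one (hprime p hp).1 (hprime p hp).2).trans ?_)
    rw [← Finset.mul_sum, ← Finset.mul_sum, mul_assoc]
    exact mul_le_mul_of_nonneg_left (mul_le_mul_of_nonneg_left (sum_ri x) (by norm_num)) hd0
  have b4 : |∑ p ∈ OP (Nat.sqrt x), EF K 2 p| ≤ d * 65537 * Z := by
    refine (Finset.abs_sum_le_sum_abs _ _).trans ((Finset.sum_le_sum fun p hp =>
      EF_two (mem_OP.1 hp).2.1 (mem_OP.1 hp).2.2).trans ?_)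
    rw [← Finset.mul_sum, ← Finset.mul_sum, mul_assoc]
    exact mul_le_mul_of_nonneg_left (mul_le_mul_of_nonneg_left (sum_ri _) (by norm_num)) hd0
  have e3 := sum_OP (fun p => (Nat.card (𝓞 K →+* ZMod p) : ℝ) / p / 2) (x := x) (by omega)
  have b5 : |∑ p ∈ Pr x, (Nat.card (𝓞 K →+* ZMod p) : ℝ) / p / 2 - 1 / 2 * Real.log (Real.log x)| ≤
      C1 / 2 := by
    have h2 := h1 x (by exact_mod_cast (by omega : 3 ≤ x))
    rw [PR_eq] at h2
    rw [← Finset.sum_div]
    have e : (∑ p ∈ Pr x, (Nat.card (𝓞 K →+* ZMod p) : ℝ) / p) / 2 - 1 / 2 * Real.log (Real.log x) =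
        (∑ p ∈ Pr x, (Nat.card (𝓞 K →+* ZMod p) : ℝ) / p - Real.log (Real.log x)) / 2 := by ring
    rw [e, abs_div, abs_two]
    exact div_le_div_of_nonneg_right h2 (by norm_num)
  simp only [Nat.cast_ofNat] at e3
  rw [← hc2] at e3
  simp only [Finset.sum_sub_distrib, Finset.sum_add_distrib] at b2 b3
  rw [← Finset.sum_filter, OP_sqrt, Finset.sum_add_distrib] at b2
  rw [e1]
  have f1 := abs_le.1 b1
  have f2 := abs_le.1 b2
  have f3 := abs_le.1 b3
  have f4 := abs_le.1 b4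
  have f5 := abs_le.1 b5
  rw [abs_le]
  constructor <;> linarith [f1.1, f1.2, f2.1, f2.2, f3.1, f3.2, f4.1, f4.2, f5.1, f5.2]

/-- the gauge -/
noncomputable def gauge (ε : ℝ) (x : ℕ) : ℝ :=
  Real.log (Real.log x) ^ (1 / 2 : ℝ) * (1 + Real.log (Real.log (Real.log x))) ^ ε

lemma gauge_ge {ε : ℝ} (hε : 0 < ε) {x : ℕ} (hx : 16 ≤ x) : 1 ≤ gauge ε x := by
  have h1 := one_le_loglog hx
  have h2 := Real.log_nonneg h1
  have h3 : (1 : ℝ) ≤ Real.log (Real.log x) ^ (1 / 2 : ℝ) := Real.one_le_rpow h1 (by norm_num)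
  have h4 : (1 : ℝ) ≤ (1 + Real.log (Real.log (Real.log x))) ^ ε :=
    Real.one_le_rpow (by linarith) hε.le
  unfold gauge
  nlinarith

lemma gauge_mono {ε : ℝ} (hε : 0 < ε) {x y : ℕ} (hy : 16 ≤ y) (hyx : y ≤ x) : gauge ε y ≤ gauge ε x := by
  have hyR : (16 : ℝ) ≤ y := by exact_mod_cast hy
  have hyxR : (y : ℝ) ≤ x := by exact_mod_cast hyx
  have h1 := one_le_loglog hy
  have hl1 : Real.log y ≤ Real.log x := Real.log_le_log (by linarith) hyxR
  have hlp : 0 < Real.log y := Real.log_pos (by linarith)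
  have hl2 : Real.log (Real.log y) ≤ Real.log (Real.log x) := Real.log_le_log hlp hl1
  have hl3 : Real.log (Real.log (Real.log y)) ≤ Real.log (Real.log (Real.log x)) :=
    Real.log_le_log (by linarith) hl2
  have h2 := Real.log_nonneg h1
  have hl4 : 0 ≤ 1 + Real.log (Real.log (Real.log y)) := by linarith
  have hl5 : 0 ≤ Real.log (Real.log x) := by linarith
  unfold gauge
  exact mul_le_mul (Real.rpow_le_rpow (by linarith) hl2 (by norm_num))
    (Real.rpow_le_rpow hl4 (by linarith) hε.le) (Real.rpow_nonneg hl4 _) (Real.rpow_nonneg hl5 _)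

variable {n : ℕ} (B : Basis (Fin n) ℤ (𝓞 K))

open Classical in
theorem main_nf {ε A : ℝ} (hε : 0 < ε) (hA : 0 < A) :
    ∃ (k : ℕ) (C : ℝ), 0 < k ∧ ∀ N : ℕ, 0 < N → ∀ U : Fin n → ℤ × ℤ, ∀ l : ℝ, 1 ≤ l →
      (((BX n N).filter fun ω : Pt n => ∃ x : ℕ, 16 ≤ x ∧ x ^ k ≤ N ∧
        l * gauge ε x < |∑ v ∈ Tx K x, lf v (elA B (sh U ω)) (elB B (sh U ω)) -
          1 / 2 * Real.log (Real.log x)|).card : ℝ) ≤ C * l ^ (-A) * (N : ℝ) ^ (2 * n) := by
  obtain ⟨C0, hC0, hdec⟩ := nf_dec K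
  set D : (Fin n → ℤ × ℤ) × Bool → ℕ → Pt n → ℝ := fun s x w =>
    if s.2 then ∑ v ∈ Tx K x, lf v (elA B (sh s.1 w)) (elB B (sh s.1 w)) -
      1 / 2 * Real.log (Real.log x) - ∑ p ∈ OP (Nat.sqrt x), XF 2 p (elA B (sh s.1 w)) (elB B (sh s.1 w))
    else ∑ p ∈ OP x, XF 2 p (elA B (sh s.1 w)) (elB B (sh s.1 w)) with hD
  have hD0 : ∀ s x w, 16 ≤ x → |D s x w - ∑ p ∈ OP x, (nfData B).X s p w| ≤ C0 := by
    rintro ⟨U, t⟩ x w hx
    rcases t with _ | _
    · have : D (U, false) x w - ∑ p ∈ OP x, (nfData B).X (U, false) p w = 0 := by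
        rw [hD]
        simp only
        rw [sub_eq_zero]
        rfl
      rw [this, abs_zero]
      exact hC0
    · have := hdec x hx (elA B (sh U w)) (elB B (sh U w))
      exact this
  obtain ⟨k, C, hk, hC, hlaw⟩ := (nfData B).law D hC0 hD0 hε hA
  set C2 : ℝ := ∑ p ∈ OP 16, (nfData B).b p with hC2
  have hC20 : 0 ≤ C2 := Finset.sum_nonneg fun p _ => (nfData B).b_nonneg p
  set l0 : ℝ := 2 + 2 * C2 with hl0
  refine ⟨k, 2 * C * 2 ^ A + l0 ^ A, hk, fun N hN U l hl => ?_⟩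
  have hN0 : (0 : ℝ) < N := by exact_mod_cast hN
  have hlp : 0 < l := by linarith
  have hlA : 0 < l ^ (-A) := Real.rpow_pos_of_pos hlp _
  have h2A : (0 : ℝ) < 2 ^ A := Real.rpow_pos_of_pos (by norm_num) _
  set E := (BX n N).filter fun ω : Pt n => ∃ x : ℕ, 16 ≤ x ∧ x ^ k ≤ N ∧
        l * gauge ε x < |∑ v ∈ Tx K x, lf v (elA B (sh U ω)) (elB B (sh U ω)) -
          1 / 2 * Real.log (Real.log x)| with hE
  have hcardS : ((#E : ℕ) : ℝ) ≤ (N : ℝ) ^ (2 * n) := by
    have : #E ≤ N ^ (2 * n) := by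
      refine (card_filter_le _ _).trans (le_of_eq ?_)
      rw [card_BX]
    exact_mod_cast this
  by_cases hlC : l < l0
  · have h1 : (1 : ℝ) ≤ l0 ^ A * l ^ (-A) := by
      rw [Real.rpow_neg hlp.le, ← div_eq_mul_inv, one_le_div (Real.rpow_pos_of_pos hlp _)]
      exact Real.rpow_le_rpow hlp.le hlC.le hA.le
    have h2 : (0 : ℝ) ≤ 2 * C * 2 ^ A * l ^ (-A) := by positivity
    calc ((#E : ℕ) : ℝ) ≤ 1 * (N : ℝ) ^ (2 * n) := by rw [one_mul]; exact hcardS
      _ ≤ (2 * C * 2 ^ A + l0 ^ A) * l ^ (-A) * (N : ℝ) ^ (2 * n) := by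
        refine mul_le_mul_of_nonneg_right ?_ (by positivity)
        rw [add_mul]
        linarith
  push Not at hlC
  have hl2 : 1 ≤ l / 2 := by linarith
  have L1 := hlaw k le_rfl N hN (U, true) (l / 2) hl2
  have L2 := hlaw k le_rfl N hN (U, false) (l / 2) hl2
  set E1 := (BX n N).filter fun ω : Pt n => ∃ x : ℕ, 16 ≤ x ∧ x ^ k ≤ N ∧
        l / 2 * Real.log (Real.log x) ^ (1 / 2 : ℝ) * (1 + Real.log (Real.log (Real.log x))) ^ ε <
          |D (U, true) x ω| with hE1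
  set E2 := (BX n N).filter fun ω : Pt n => ∃ x : ℕ, 16 ≤ x ∧ x ^ k ≤ N ∧
        l / 2 * Real.log (Real.log x) ^ (1 / 2 : ℝ) * (1 + Real.log (Real.log (Real.log x))) ^ ε <
          |D (U, false) x ω| with hE2
  have hsub : E ⊆ E1 ∪ E2 := by
    intro ω hω
    rw [hE, mem_filter] at hω
    obtain ⟨hωB, x, hx, hxN, hxl⟩ := hω
    rw [mem_union]
    by_cases h1 : l / 2 * gauge ε x < |D (U, true) x ω|
    · left
      rw [hE1, mem_filter]
      refine ⟨hωB, x, hx, hxN, ?_⟩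
      rw [mul_assoc]
      exact h1
    · right
      push Not at h1
      set y := Nat.sqrt x with hy
      have hDt : D (U, true) x ω = ∑ v ∈ Tx K x, lf v (elA B (sh U ω)) (elB B (sh U ω)) -
          1 / 2 * Real.log (Real.log x) - D (U, false) y ω := rfl
      have h2 : l / 2 * gauge ε x < |D (U, false) y ω| := by
        have h3 : ∑ v ∈ Tx K x, lf v (elA B (sh U ω)) (elB B (sh U ω)) -
          1 / 2 * Real.log (Real.log x) = D (U, true) x ω + D (U, false) y ω := by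
          rw [hDt]
          ring
        rw [h3] at hxl
        have := abs_add_le (D (U, true) x ω) (D (U, false) y ω)
        linarith
      have hyx : y ≤ x := Nat.sqrt_le_self x
      have hy16 : 16 ≤ y := by
        by_contra hcon
        push Not at hcon
        have h4 : |D (U, false) y ω| ≤ C2 := by
          have h5 : D (U, false) y ω = ∑ p ∈ OP y, (nfData B).X (U, false) p ω := rfl
          rw [h5]
          refine (Finset.abs_sum_le_sum_abs _ _).trans ?_
          refine (Finset.sum_le_sum fun p hp => (nfData B).bound (U, false) p (mem_OP.1 hp).2.1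
            (mem_OP.1 hp).2.2 ω).trans ?_
          refine Finset.sum_le_sum_of_subset_of_nonneg ?_ fun p _ _ => (nfData B).b_nonneg p
          intro p hp
          rw [mem_OP] at hp ⊢
          exact ⟨by omega, hp.2⟩
        have h6 := gauge_ge hε hx
        have h7 : l / 2 ≤ l / 2 * gauge ε x := le_mul_of_one_le_right (by linarith) h6
        linarith
      rw [hE2, mem_filter]
      refine ⟨hωB, y, hy16, (Nat.pow_le_pow_left hyx k).trans hxN, ?_⟩
      rw [mul_assoc]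
      have h8 := gauge_mono hε hy16 hyx
      have h9 : l / 2 * gauge ε y ≤ l / 2 * gauge ε x := mul_le_mul_of_nonneg_left h8 (by linarith)
      exact lt_of_le_of_lt h9 h2
  have hcard : ((#E : ℕ) : ℝ) ≤ (#E1 : ℝ) + #E2 := by
    have := (card_le_card hsub).trans (card_union_le _ _)
    exact_mod_cast this
  have hl2A : (l / 2) ^ (-A) = 2 ^ A * l ^ (-A) := by
    rw [Real.div_rpow hlp.le (by norm_num), Real.rpow_neg (by norm_num : (0 : ℝ) ≤ 2), div_inv_eq_mul,
      mul_comm]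
  rw [hl2A] at L1 L2
  have hl0A : 0 ≤ l0 ^ A := by
    have : 0 ≤ l0 := by rw [hl0]; linarith
    positivity
  calc ((#E : ℕ) : ℝ) ≤ (#E1 : ℝ) + #E2 := hcard
    _ ≤ C * (2 ^ A * l ^ (-A)) * (N : ℝ) ^ (2 * n) + C * (2 ^ A * l ^ (-A)) * (N : ℝ) ^ (2 * n) :=
        add_le_add L1 L2
    _ = (2 * C * 2 ^ A) * l ^ (-A) * (N : ℝ) ^ (2 * n) := by ring
    _ ≤ _ := by
      refine mul_le_mul_of_nonneg_right (mul_le_mul_of_nonneg_right ?_ hlA.le) (by positivity)
      linarith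

end nf

end Pool.Agent.N430.BP
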