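import Pool.Agent.N430.BP.Dec
import Pool.Agent.N430.BP.Maxi
import Pool.Agent.Helper256.KM.Mertens

set_option autoImplicit false

/-! The maximum over the whole range of `x` of the centred sums. -/

namespace Pool.Agent.N430.BP

open Finset Polynomial Pool.Agent.N430.CLT

/-- the primes up to `x` -/
def Pr (x : ℕ) : Finset ℕ := (Icc 1 x).filter Nat.Prime

/-- the odd primes up to `x` -/
def OP (x : ℕ) : Finset ℕ := (Pr x).filter (· ≠ 2)

lemma mem_OP {x p : ℕ} : p ∈ OP x ↔ p ≤ x ∧ p.Prime ∧ p ≠ 2 := by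
  unfold OP Pr
  rw [mem_filter, mem_filter, mem_Icc]
  constructor
  · rintro ⟨⟨⟨_, h2⟩, h3⟩, h4⟩
    exact ⟨h2, h3, h4⟩
  · rintro ⟨h2, h3, h4⟩
    exact ⟨⟨⟨h3.one_le, h2⟩, h3⟩, h4⟩

/-- the sequence of the variables -/
noncomputable def YY (a b c : ℤ[X]) (U V : ℤ) (n : ℕ) (ω : ℕ × ℕ) : ℝ :=
  if n.Prime ∧ n ≠ 2 then XX a b c n (U + ω.1) (V + ω.2) else 0

/-- the sequence of the bounds -/
noncomputable def ww (c : ℤ[X]) (n : ℕ) : ℝ := if n.Prime ∧ n ≠ 2 then bb c n ^ 2 else 0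

lemma ww_nonneg (c : ℤ[X]) (n : ℕ) : 0 ≤ ww c n := by
  unfold ww
  split_ifs <;> positivity

lemma filter_eq (x : ℕ) : (Ico 0 (x + 1)).filter (fun n => n.Prime ∧ n ≠ 2) = OP x := by
  ext p
  rw [mem_filter, mem_Ico, mem_OP]
  constructor
  · rintro ⟨⟨_, h1⟩, h2⟩
    exact ⟨by omega, h2⟩
  · rintro ⟨h1, h2⟩
    exact ⟨⟨by omega, by omega⟩, h2⟩

lemma sum_YY (a b c : ℤ[X]) (U V : ℤ) (x : ℕ) (ω : ℕ × ℕ) :
    ∑ n ∈ Ico 0 (x + 1), YY a b c U V n ω = ∑ p ∈ OP x, XX a b c p (U + ω.1) (V + ω.2) := by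
  unfold YY
  rw [← Finset.sum_filter, filter_eq]

lemma sum_ww (c : ℤ[X]) (x : ℕ) : ∑ n ∈ Ico 0 (x + 1), ww c n = ∑ p ∈ OP x, bb c p ^ 2 := by
  unfold ww
  rw [← Finset.sum_filter, filter_eq]

lemma one_le_loglog {x : ℕ} (hx : 16 ≤ x) : 1 ≤ Real.log (Real.log x) := by
  have h1 : Real.log 16 ≤ Real.log x := Real.log_le_log (by norm_num) (by exact_mod_cast hx)
  have h2 : Real.log 16 = 4 * Real.log 2 := by
    rw [show (16 : ℝ) = 2 ^ 4 by norm_num, Real.log_pow]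
    norm_num
  have h3 := Real.log_two_gt_d9
  have h4 := Real.exp_one_lt_d9
  have h5 : Real.exp 1 ≤ Real.log x := by linarith
  have h6 := Real.log_le_log (Real.exp_pos 1) h5
  rwa [Real.log_exp] at h6

lemma ww_bound (c : ℤ[X]) : ∃ C : ℝ, 0 ≤ C ∧ ∀ x : ℕ, 16 ≤ x →
    ∑ n ∈ Ico 0 (x + 1), ww c n ≤ C * Real.log (Real.log x) := by
  obtain ⟨C3, h3⟩ := Pool.Agent.Helper256.KM.mertens_inv
  have hC3 : 0 ≤ C3 := (abs_nonneg _).trans (h3 3 le_rfl)
  set n : ℝ := ((c.natDegree : ℕ) : ℝ) with hn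
  refine ⟨9 * n ^ 2 * (1 + C3), by positivity, fun x hx => ?_⟩
  have hT := one_le_loglog hx
  rw [sum_ww]
  have h1 : ∀ p ∈ OP x, bb c p ^ 2 = 9 * n ^ 2 * (1 / p) := by
    intro p hp
    unfold bb
    rw [div_pow, Real.sq_sqrt (Nat.cast_nonneg _), ← hn]
    ring
  rw [Finset.sum_congr rfl h1, ← Finset.mul_sum]
  have h2 : ∑ p ∈ OP x, (1 : ℝ) / p ≤ Real.log (Real.log x) + C3 := by
    have h4 : ∑ p ∈ OP x, (1 : ℝ) / p ≤ ∑ p ∈ (Icc 1 x).filter Nat.Prime, (1 : ℝ) / p :=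
      Finset.sum_le_sum_of_subset_of_nonneg (Finset.filter_subset _ _) fun p _ _ => by positivity
    have h5 := (abs_le.1 (h3 x (by omega))).2
    linarith
  rw [mul_assoc (9 * n ^ 2)]
  refine mul_le_mul_of_nonneg_left (h2.trans ?_) (by positivity)
  nlinarith

/-- the level -/
noncomputable def lev (x : ℕ) : ℕ := Nat.log 2 ⌊Real.log (Real.log x)⌋₊

lemma lev_le {x : ℕ} (hx : 16 ≤ x) : (2 : ℝ) ^ lev x ≤ Real.log (Real.log x) := by
  have hT := one_le_loglog hx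
  have h1 : ⌊Real.log (Real.log x)⌋₊ ≠ 0 := by
    rw [Ne, Nat.floor_eq_zero]
    linarith
  have h2 := Nat.pow_log_le_self 2 h1
  have h3 : ((2 ^ lev x : ℕ) : ℝ) ≤ (⌊Real.log (Real.log x)⌋₊ : ℝ) := by exact_mod_cast h2
  have h4 := Nat.floor_le (by linarith : 0 ≤ Real.log (Real.log x))
  push_cast at h3
  linarith

lemma lt_lev {x : ℕ} : Real.log (Real.log x) < (2 : ℝ) ^ (lev x + 1) := by
  have h1 := Nat.lt_pow_succ_log_self (b := 2) (by norm_num) ⌊Real.log (Real.log x)⌋₊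
  have h2 : (⌊Real.log (Real.log x)⌋₊ : ℝ) + 1 ≤ ((2 ^ (lev x + 1) : ℕ) : ℝ) := by
    exact_mod_cast h1
  have h3 := Nat.lt_floor_add_one (Real.log (Real.log x))
  push_cast at h2
  linarith

/-- the moments of increments -/
lemma increments {a b c : ℤ[X]} (h : Hyp a b c) (U V : ℤ) {m : ℕ} (hm : 1 ≤ m) {N x : ℕ}
    (hN : 0 < N) (hxN : x ^ (3 * m) ≤ N) (i j : ℕ) (hj : j ≤ x + 1) :
    ∑ ω ∈ Icc 1 N ×ˢ Icc 1 N, (∑ n ∈ Ico i j, YY a b c U V n ω) ^ (2 * m) ≤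
      (8 * (2 * m).factorial * (N : ℝ) ^ 2) * (∑ n ∈ Ico i j, ww c n) ^ m := by
  set I := (Ico i j).filter (fun n => n.Prime ∧ n ≠ 2) with hI
  have hIp : ∀ p ∈ I, p.Prime := fun p hp => (mem_filter.1 hp).2.1
  have hN0 : (0 : ℝ) < N := by exact_mod_cast hN
  have h1 := moment_box I hIp (X := fun p (u v : ℕ) => XX a b c p (U + u) (V + v)) (b := bb c)
    (bb_nonneg c) (fun p hp => XX_per (hIp p hp) U V)
    (fun p hp u v => XX_bound h (hIp p hp) _ _)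
    (fun p hp => XX_mean (hIp p hp) U V) m hm (x := x) (N := N)
    (fun p hp => by
      have := (mem_Ico.1 (mem_filter.1 hp).1).2
      omega) hN hxN
  rw [avg2_eq, div_le_iff₀ (by positivity)] at h1
  have e1 : ∀ ω : ℕ × ℕ, ∑ n ∈ Ico i j, YY a b c U V n ω =
      ∑ p ∈ I, XX a b c p (U + ω.1) (V + ω.2) := by
    intro ω
    unfold YY
    rw [← Finset.sum_filter]
  have e2 : ∑ n ∈ Ico i j, ww c n = Wt (bb c) I := by
    unfold ww Wt
    rw [← Finset.sum_filter]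
  rw [e2, Finset.sum_product]
  simp only [e1]
  refine h1.trans (le_of_eq ?_)
  ring

theorem path_moment {a b c : ℤ[X]} (h : Hyp a b c) {m : ℕ} (hm : 2 ≤ m) : ∃ C : ℝ, 0 ≤ C ∧
    ∀ N : ℕ, 0 < N → ∀ U V : ℤ, ∀ S : Finset (ℕ × ℕ), S ⊆ Icc 1 N ×ˢ Icc 1 N → ∀ ξ : ℕ × ℕ → ℕ,
      (∀ ω ∈ S, 16 ≤ ξ ω ∧ (ξ ω) ^ (3 * m) ≤ N) →
      ∑ ω ∈ S, (∑ p ∈ OP (ξ ω), XX a b c p (U + ω.1) (V + ω.2)) ^ (2 * m) /
        (Real.log (Real.log (ξ ω)) ^ m * (1 + Real.log (Real.log (Real.log (ξ ω)))) ^ 2) ≤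
        C * (N : ℝ) ^ 2 := by
  classical
  obtain ⟨B, hB, hW⟩ := ww_bound c
  have hA := AA_pos (m := m) (by omega)
  set K0 : ℝ := 8 * (2 * m).factorial with hK0
  have hK00 : 0 ≤ K0 := by positivity
  set Z := ∑' j : ℕ, 4 / ((j : ℝ) + 1) ^ 2 with hZ
  have hZs : Summable (fun j : ℕ => 4 / ((j : ℝ) + 1) ^ 2) := by
    have h1 := (summable_nat_add_iff 1).2 (Real.summable_one_div_nat_pow.2 (one_lt_two))
    have h2 := h1.mul_left 4
    refine h2.congr fun j => ?_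
    push_cast
    ring
  have hZ0 : 0 ≤ Z := tsum_nonneg fun j => by positivity
  refine ⟨AA m * K0 * (2 * B) ^ m * Z, by positivity, fun N hN U V S hS ξ hξ => ?_⟩
  have hN0 : (0 : ℝ) < N := by exact_mod_cast hN
  set P : ℕ × ℕ → ℝ := fun ω => ∑ p ∈ OP (ξ ω), XX a b c p (U + ω.1) (V + ω.2) with hP
  have hPe : ∀ ω, 0 ≤ P ω ^ (2 * m) := fun ω => by rw [pow_mul]; positivity
  set T : ℕ × ℕ → ℝ := fun ω => Real.log (Real.log (ξ ω)) with hT
  -- one level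
  have hlevel : ∀ j : ℕ, ∑ ω ∈ S with lev (ξ ω) = j, P ω ^ (2 * m) ≤
      AA m * (K0 * (N : ℝ) ^ 2) * (B * 2 ^ (j + 1)) ^ m := by
    intro j
    set c' : ℕ × ℕ → ℕ := fun ω => if ω ∈ S ∧ lev (ξ ω) = j then ξ ω + 1 else 0 with hc'
    set bj := S.sup c' with hbj
    have hc0 : ∀ ω, 0 ≤ c' ω ∧ c' ω ≤ bj := by
      intro ω
      refine ⟨Nat.zero_le _, ?_⟩
      by_cases hω : ω ∈ S
      · exact Finset.le_sup (f := c') hω
      · rw [hc']
        simp only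
        rw [if_neg (fun h => hω h.1)]
        exact Nat.zero_le _
    have hnn : 0 ≤ AA m * (K0 * (N : ℝ) ^ 2) * (B * 2 ^ (j + 1)) ^ m := by positivity
    rcases Nat.eq_zero_or_pos bj with hb0 | hb0
    · have hem : (S.filter fun ω => lev (ξ ω) = j) = ∅ := by
        rw [Finset.filter_eq_empty_iff]
        intro ω hω hl
        have h1 := (hc0 ω).2
        rw [hb0, hc'] at h1
        simp only at h1
        rw [if_pos ⟨hω, hl⟩] at h1
        omega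
      rw [hem, Finset.sum_empty]
      exact hnn
    -- the supremum is attained
    have hne : S.Nonempty := by
      by_contra hne
      rw [not_nonempty_iff_eq_empty] at hne
      rw [hbj, hne, Finset.sup_empty] at hb0
      exact absurd hb0 (lt_irrefl _)
    obtain ⟨ω0, hω0, he0⟩ := Finset.exists_mem_eq_sup S hne c'
    have hc1 : ω0 ∈ S ∧ lev (ξ ω0) = j := by
      by_contra hcon
      rw [hbj, he0, hc'] at hb0
      simp only at hb0
      rw [if_neg hcon] at hb0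
      exact absurd hb0 (lt_irrefl _)
    have hbj1 : bj = ξ ω0 + 1 := by
      rw [hbj, he0, hc']
      simp only
      rw [if_pos hc1]
    have hx0 := hξ ω0 hω0
    have hmax := maxi (Icc 1 N ×ˢ Icc 1 N) (YY a b c U V) (ww c) (ww_nonneg c) hm
      (K := K0 * (N : ℝ) ^ 2) (by positivity) bj
      (fun i j _ hj => increments h U V (by omega) hN hx0.2 i j (by omega))
      bj 0 bj (Nat.zero_le _) le_rfl (Nat.sub_zero _) c' hc0
    have hWb : (∑ n ∈ Ico 0 bj, ww c n) ^ m ≤ (B * 2 ^ (j + 1)) ^ m := by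
      refine pow_le_pow_left₀ (Finset.sum_nonneg fun n _ => ww_nonneg c n) ?_ m
      rw [hbj1]
      refine (hW _ hx0.1).trans (mul_le_mul_of_nonneg_left ?_ hB)
      have := (lt_lev (x := ξ ω0)).le
      rwa [hc1.2] at this
    have h2 : ∑ ω ∈ S with lev (ξ ω) = j, P ω ^ (2 * m) ≤
        ∑ ω ∈ Icc 1 N ×ˢ Icc 1 N, (∑ n ∈ Ico 0 (c' ω), YY a b c U V n ω) ^ (2 * m) := by
      calc ∑ ω ∈ S with lev (ξ ω) = j, P ω ^ (2 * m) =
          ∑ ω ∈ S with lev (ξ ω) = j, (∑ n ∈ Ico 0 (c' ω), YY a b c U V n ω) ^ (2 * m) := by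
            refine Finset.sum_congr rfl fun ω hω => ?_
            rw [mem_filter] at hω
            have : c' ω = ξ ω + 1 := by
              rw [hc']
              simp only
              rw [if_pos hω]
            rw [this, sum_YY]
        _ ≤ _ := Finset.sum_le_sum_of_subset_of_nonneg ((Finset.filter_subset _ _).trans hS)
            fun ω _ _ => by rw [pow_mul]; positivity
    exact (h2.trans hmax).trans (mul_le_mul_of_nonneg_left hWb (by positivity))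
  -- all levels
  have hterm : ∀ ω ∈ S, P ω ^ (2 * m) / (T ω ^ m * (1 + Real.log (T ω)) ^ 2) ≤
      P ω ^ (2 * m) * ((4 / ((lev (ξ ω) : ℝ) + 1) ^ 2) / (2 ^ lev (ξ ω)) ^ m) := by
    intro ω hω
    have hx := (hξ ω hω).1
    have h1 := lev_le hx
    have h1' : (2 : ℝ) ^ lev (ξ ω) ≤ T ω := h1
    have hp2 : (0 : ℝ) < 2 ^ lev (ξ ω) := by positivity
    have hT0 : 0 < T ω := lt_of_lt_of_le hp2 h1'
    have h2 : ((lev (ξ ω) : ℝ) + 1) / 2 ≤ 1 + Real.log (T ω) := by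
      have h3 := Real.log_le_log hp2 h1'
      rw [Real.log_pow] at h3
      have h4 := Real.log_two_gt_d9
      have h5 : (0 : ℝ) ≤ lev (ξ ω) := Nat.cast_nonneg _
      nlinarith
    rw [div_eq_mul_inv]
    refine mul_le_mul_of_nonneg_left ?_ (hPe ω)
    rw [mul_inv, div_eq_mul_inv, mul_comm]
    refine mul_le_mul ?_ ?_ (by positivity) (by positivity)
    · have h6 : 4 / ((lev (ξ ω) : ℝ) + 1) ^ 2 = ((((lev (ξ ω) : ℝ) + 1) / 2) ^ 2)⁻¹ := by
        rw [div_pow, inv_div]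
        norm_num
      rw [h6]
      apply inv_anti₀ (by positivity)
      exact pow_le_pow_left₀ (by positivity) h2 2
    · apply inv_anti₀ (by positivity)
      exact pow_le_pow_left₀ hp2.le h1' m
  refine (Finset.sum_le_sum hterm).trans ?_
  set J := S.sup (fun ω => lev (ξ ω)) + 1 with hJ
  have hmaps : ∀ ω ∈ S, lev (ξ ω) ∈ range J := by
    intro ω hω
    rw [mem_range, hJ]
    exact Nat.lt_succ_of_le (Finset.le_sup (f := fun ω => lev (ξ ω)) hω)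
  rw [← Finset.sum_fiberwise_of_maps_to hmaps]
  have hj : ∀ j ∈ range J, ∑ ω ∈ S with lev (ξ ω) = j, P ω ^ (2 * m) *
      ((4 / ((lev (ξ ω) : ℝ) + 1) ^ 2) / (2 ^ lev (ξ ω)) ^ m) ≤
      AA m * K0 * (2 * B) ^ m * (N : ℝ) ^ 2 * (4 / ((j : ℝ) + 1) ^ 2) := by
    intro j _
    have e : ∑ ω ∈ S with lev (ξ ω) = j, P ω ^ (2 * m) *
        ((4 / ((lev (ξ ω) : ℝ) + 1) ^ 2) / (2 ^ lev (ξ ω)) ^ m) =
        (∑ ω ∈ S with lev (ξ ω) = j, P ω ^ (2 * m)) * ((4 / ((j : ℝ) + 1) ^ 2) / (2 ^ j) ^ m) := by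
      rw [Finset.sum_mul]
      refine Finset.sum_congr rfl fun ω hω => ?_
      rw [(mem_filter.1 hω).2]
    rw [e]
    refine (mul_le_mul_of_nonneg_right (hlevel j) (by positivity)).trans (le_of_eq ?_)
    have hp2 : (2 : ℝ) ^ j ≠ 0 := by positivity
    have e2 : (B * 2 ^ (j + 1)) ^ m = (2 * B) ^ m * (2 ^ j) ^ m := by
      rw [← mul_pow]
      congr 1
      rw [pow_succ]
      ring
    rw [e2]
    field_simp
  refine (Finset.sum_le_sum hj).trans ?_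
  rw [← Finset.mul_sum]
  have h8 : ∑ j ∈ range J, 4 / ((j : ℝ) + 1) ^ 2 ≤ Z :=
    hZs.sum_le_tsum _ fun j _ => by positivity
  calc _ ≤ AA m * K0 * (2 * B) ^ m * (N : ℝ) ^ 2 * Z :=
        mul_le_mul_of_nonneg_left h8 (by positivity)
    _ = _ := by ring

end Pool.Agent.N430.BP
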