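import Pool.Agent.N430.BP.DecM

set_option autoImplicit false
set_option linter.all false

/-! The maximum over the whole range of `x` of the centred sums, for products of curves. -/

namespace Pool.Agent.N430.BP

open Finset Polynomial Pool.Agent.N430.CLT

section
variable {m : ℕ} (a b c : Fin m → ℤ[X]) (i : ℕ)

/-- the sequence of the variables -/
noncomputable def YM (W : Fin m → ℤ × ℤ) (n : ℕ) (ω : Pt m) : ℝ :=
  if n.Prime ∧ n ≠ 2 then XM a b c i n (sh W ω) else 0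

/-- the sequence of the bounds -/
noncomputable def wM (n : ℕ) : ℝ := if n.Prime ∧ n ≠ 2 then bM c i n ^ 2 else 0

lemma wM_nonneg (n : ℕ) : 0 ≤ wM c i n := by
  unfold wM
  split_ifs <;> positivity

lemma sum_YM (W : Fin m → ℤ × ℤ) (x : ℕ) (ω : Pt m) :
    ∑ n ∈ Ico 0 (x + 1), YM a b c i W n ω = ∑ p ∈ OP x, XM a b c i p (sh W ω) := by
  unfold YM
  rw [← Finset.sum_filter, filter_eq]

lemma sum_wM (x : ℕ) : ∑ n ∈ Ico 0 (x + 1), wM c i n = ∑ p ∈ OP x, bM c i p ^ 2 := by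
  unfold wM
  rw [← Finset.sum_filter, filter_eq]

lemma wM_bound : ∃ C : ℝ, 0 ≤ C ∧ ∀ x : ℕ, 16 ≤ x →
    ∑ n ∈ Ico 0 (x + 1), wM c i n ≤ C * Real.log (Real.log x) := by
  obtain ⟨C3, h3⟩ := Pool.Agent.Helper256.KM.mertens_inv
  have hC3 : 0 ≤ C3 := (abs_nonneg _).trans (h3 3 le_rfl)
  set n : ℝ := BB c i with hn
  refine ⟨9 * n ^ 2 * (1 + C3), by positivity, fun x hx => ?_⟩
  have hT := one_le_loglog hx
  rw [sum_wM]
  have h1 : ∀ p ∈ OP x, bM c i p ^ 2 = 9 * n ^ 2 * (1 / p) := by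
    intro p hp
    unfold bM
    rw [div_pow, Real.sq_sqrt (Nat.cast_nonneg _), ← hn]
    ring
  rw [Finset.sum_congr rfl h1, ← Finset.mul_sum]
  have h2 : ∑ p ∈ OP x, (1 : ℝ) / p ≤ Real.log (Real.log x) + C3 := by
    have h4 : ∑ p ∈ OP x, (1 : ℝ) / p ≤ ∑ p ∈ (Icc 1 x).filter Nat.Prime, (1 : ℝ) / p :=
      Finset.sum_le_sum_of_subset_of_nonneg (Finset.filter_subset _ _) fun p _ _ => by positivity
    have h5 := (abs_le.1 (h3 x (by omega))).2
    linarith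
  rw [mul_assoc (9 * n ^ 2)]
  refine mul_le_mul_of_nonneg_left (h2.trans ?_) (by positivity)
  nlinarith

variable {a b c i}

lemma bM_nonneg (p : ℕ) : 0 ≤ bM c i p := by
  unfold bM
  have : 0 ≤ BB c i := BB_nonneg
  positivity

/-- the moments of increments -/
lemma incrementsM (h : ∀ j, Hyp (a j) (b j) (c j)) (W : Fin m → ℤ × ℤ) {q : ℕ} (hq : 1 ≤ q) {N x : ℕ}
    (hN : 0 < N) (hxN : x ^ (3 * q) ≤ N) (i1 j1 : ℕ) (hj : j1 ≤ x + 1) :
    ∑ ω ∈ BX m N, (∑ n ∈ Ico i1 j1, YM a b c i W n ω) ^ (2 * q) ≤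
      ((4 * (2 * q).factorial + 4 * m) * (N : ℝ) ^ (2 * m)) * (∑ n ∈ Ico i1 j1, wM c i n) ^ q := by
  set I := (Ico i1 j1).filter (fun n => n.Prime ∧ n ≠ 2) with hI
  have hIp : ∀ p ∈ I, p.Prime := fun p hp => (mem_filter.1 hp).2.1
  have hN0 : (0 : ℝ) < N := by exact_mod_cast hN
  have h1 := moment_boxM I hIp (X := fun p w => XM a b c i p (sh W w)) (b := bM c i)
    bM_nonneg (fun p hp => XM_per (hIp p hp) W)
    (fun p hp w => XM_bound h (hIp p hp) _)
    (fun p hp => XM_mean (hIp p hp) W) q hq (x := x) (N := N)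
    (fun p hp => by
      have := (mem_Ico.1 (mem_filter.1 hp).1).2
      omega) hN hxN
  rw [avgM_eq, div_le_iff₀ (by positivity)] at h1
  have e1 : ∀ ω : Pt m, ∑ n ∈ Ico i1 j1, YM a b c i W n ω =
      ∑ p ∈ I, XM a b c i p (sh W ω) := by
    intro ω
    unfold YM
    rw [← Finset.sum_filter]
  have e2 : ∑ n ∈ Ico i1 j1, wM c i n = Wt (bM c i) I := by
    unfold wM Wt
    rw [← Finset.sum_filter]
  rw [e2]
  simp only [e1]
  refine h1.trans (le_of_eq ?_)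
  ring

theorem path_momentM (h : ∀ j, Hyp (a j) (b j) (c j)) {q : ℕ} (hq : 2 ≤ q) : ∃ C : ℝ, 0 ≤ C ∧
    ∀ N : ℕ, 0 < N → ∀ W : Fin m → ℤ × ℤ, ∀ S : Finset (Pt m), S ⊆ BX m N → ∀ ξ : Pt m → ℕ,
      (∀ ω ∈ S, 16 ≤ ξ ω ∧ (ξ ω) ^ (3 * q) ≤ N) →
      ∑ ω ∈ S, (∑ p ∈ OP (ξ ω), XM a b c i p (sh W ω)) ^ (2 * q) /
        (Real.log (Real.log (ξ ω)) ^ q * (1 + Real.log (Real.log (Real.log (ξ ω)))) ^ 2) ≤
        C * (N : ℝ) ^ (2 * m) := by
  classical
  obtain ⟨B, hB, hW⟩ := wM_bound c i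
  have hA := AA_pos (m := q) (by omega)
  set K0 : ℝ := 4 * (2 * q).factorial + 4 * m with hK0
  have hK00 : 0 ≤ K0 := by positivity
  set Z := ∑' j : ℕ, 4 / ((j : ℝ) + 1) ^ 2 with hZ
  have hZs : Summable (fun j : ℕ => 4 / ((j : ℝ) + 1) ^ 2) := by
    have h1 := (summable_nat_add_iff 1).2 (Real.summable_one_div_nat_pow.2 (one_lt_two))
    have h2 := h1.mul_left 4
    refine h2.congr fun j => ?_
    push_cast
    ring
  have hZ0 : 0 ≤ Z := tsum_nonneg fun j => by positivity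
  refine ⟨AA q * K0 * (2 * B) ^ q * Z, by positivity, fun N hN W S hS ξ hξ => ?_⟩
  have hN0 : (0 : ℝ) < N := by exact_mod_cast hN
  set P : Pt m → ℝ := fun ω => ∑ p ∈ OP (ξ ω), XM a b c i p (sh W ω) with hP
  have hPe : ∀ ω, 0 ≤ P ω ^ (2 * q) := fun ω => by rw [pow_mul]; positivity
  set T : Pt m → ℝ := fun ω => Real.log (Real.log (ξ ω)) with hT
  -- one level
  have hlevel : ∀ j : ℕ, ∑ ω ∈ S with lev (ξ ω) = j, P ω ^ (2 * q) ≤
      AA q * (K0 * (N : ℝ) ^ (2 * m)) * (B * 2 ^ (j + 1)) ^ q := by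
    intro j
    set c' : Pt m → ℕ := fun ω => if ω ∈ S ∧ lev (ξ ω) = j then ξ ω + 1 else 0 with hc'
    set bj := S.sup c' with hbj
    have hc0 : ∀ ω, 0 ≤ c' ω ∧ c' ω ≤ bj := by
      intro ω
      refine ⟨Nat.zero_le _, ?_⟩
      by_cases hω : ω ∈ S
      · exact Finset.le_sup (f := c') hω
      · rw [hc']
        simp only
        rw [if_neg (fun h => hω h.1)]
        exact Nat.zero_le _
    have hnn : 0 ≤ AA q * (K0 * (N : ℝ) ^ (2 * m)) * (B * 2 ^ (j + 1)) ^ q := by positivity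
    rcases Nat.eq_zero_or_pos bj with hb0 | hb0
    · have hem : (S.filter fun ω => lev (ξ ω) = j) = ∅ := by
        rw [Finset.filter_eq_empty_iff]
        intro ω hω hl
        have h1 := (hc0 ω).2
        rw [hb0, hc'] at h1
        simp only at h1
        rw [if_pos ⟨hω, hl⟩] at h1
        omega
      rw [hem, Finset.sum_empty]
      exact hnn
    -- the supremum is attained
    have hne : S.Nonempty := by
      by_contra hne
      rw [not_nonempty_iff_eq_empty] at hne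
      rw [hbj, hne, Finset.sup_empty] at hb0
      exact absurd hb0 (lt_irrefl _)
    obtain ⟨ω0, hω0, he0⟩ := Finset.exists_mem_eq_sup S hne c'
    have hc1 : ω0 ∈ S ∧ lev (ξ ω0) = j := by
      by_contra hcon
      rw [hbj, he0, hc'] at hb0
      simp only at hb0
      rw [if_neg hcon] at hb0
      exact absurd hb0 (lt_irrefl _)
    have hbj1 : bj = ξ ω0 + 1 := by
      rw [hbj, he0, hc']
      simp only
      rw [if_pos hc1]
    have hx0 := hξ ω0 hω0
    have hmax := maxi (BX m N) (YM a b c i W) (wM c i) (wM_nonneg c i) hq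
      (K := K0 * (N : ℝ) ^ (2 * m)) (by positivity) bj
      (fun i1 j1 _ hj => incrementsM h W (by omega) hN hx0.2 i1 j1 (by omega))
      bj 0 bj (Nat.zero_le _) le_rfl (Nat.sub_zero _) c' hc0
    have hWb : (∑ n ∈ Ico 0 bj, wM c i n) ^ q ≤ (B * 2 ^ (j + 1)) ^ q := by
      refine pow_le_pow_left₀ (Finset.sum_nonneg fun n _ => wM_nonneg c i n) ?_ q
      rw [hbj1]
      refine (hW _ hx0.1).trans (mul_le_mul_of_nonneg_left ?_ hB)
      have := (lt_lev (x := ξ ω0)).le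
      rwa [hc1.2] at this
    have h2 : ∑ ω ∈ S with lev (ξ ω) = j, P ω ^ (2 * q) ≤
        ∑ ω ∈ BX m N, (∑ n ∈ Ico 0 (c' ω), YM a b c i W n ω) ^ (2 * q) := by
      calc ∑ ω ∈ S with lev (ξ ω) = j, P ω ^ (2 * q) =
          ∑ ω ∈ S with lev (ξ ω) = j, (∑ n ∈ Ico 0 (c' ω), YM a b c i W n ω) ^ (2 * q) := by
            refine Finset.sum_congr rfl fun ω hω => ?_
            rw [mem_filter] at hω
            have : c' ω = ξ ω + 1 := by
              rw [hc']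
              simp only
              rw [if_pos hω]
            rw [this, sum_YM]
        _ ≤ _ := Finset.sum_le_sum_of_subset_of_nonneg ((Finset.filter_subset _ _).trans hS)
            fun ω _ _ => by rw [pow_mul]; positivity
    exact (h2.trans hmax).trans (mul_le_mul_of_nonneg_left hWb (by positivity))
  -- all levels
  have hterm : ∀ ω ∈ S, P ω ^ (2 * q) / (T ω ^ q * (1 + Real.log (T ω)) ^ 2) ≤
      P ω ^ (2 * q) * ((4 / ((lev (ξ ω) : ℝ) + 1) ^ 2) / (2 ^ lev (ξ ω)) ^ q) := by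
    intro ω hω
    have hx := (hξ ω hω).1
    have h1 := lev_le hx
    have h1' : (2 : ℝ) ^ lev (ξ ω) ≤ T ω := h1
    have hp2 : (0 : ℝ) < 2 ^ lev (ξ ω) := by positivity
    have hT0 : 0 < T ω := lt_of_lt_of_le hp2 h1'
    have h2 : ((lev (ξ ω) : ℝ) + 1) / 2 ≤ 1 + Real.log (T ω) := by
      have h3 := Real.log_le_log hp2 h1'
      rw [Real.log_pow] at h3
      have h4 := Real.log_two_gt_d9
      have h5 : (0 : ℝ) ≤ lev (ξ ω) := Nat.cast_nonneg _
      nlinarith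
    rw [div_eq_mul_inv]
    refine mul_le_mul_of_nonneg_left ?_ (hPe ω)
    rw [mul_inv, div_eq_mul_inv, mul_comm]
    refine mul_le_mul ?_ ?_ (by positivity) (by positivity)
    · have h6 : 4 / ((lev (ξ ω) : ℝ) + 1) ^ 2 = ((((lev (ξ ω) : ℝ) + 1) / 2) ^ 2)⁻¹ := by
        rw [div_pow, inv_div]
        norm_num
      rw [h6]
      apply inv_anti₀ (by positivity)
      exact pow_le_pow_left₀ (by positivity) h2 2
    · apply inv_anti₀ (by positivity)
      exact pow_le_pow_left₀ hp2.le h1' q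
  refine (Finset.sum_le_sum hterm).trans ?_
  set J := S.sup (fun ω => lev (ξ ω)) + 1 with hJ
  have hmaps : ∀ ω ∈ S, lev (ξ ω) ∈ range J := by
    intro ω hω
    rw [mem_range, hJ]
    exact Nat.lt_succ_of_le (Finset.le_sup (f := fun ω => lev (ξ ω)) hω)
  rw [← Finset.sum_fiberwise_of_maps_to hmaps]
  have hj : ∀ j ∈ range J, ∑ ω ∈ S with lev (ξ ω) = j, P ω ^ (2 * q) *
      ((4 / ((lev (ξ ω) : ℝ) + 1) ^ 2) / (2 ^ lev (ξ ω)) ^ q) ≤
      AA q * K0 * (2 * B) ^ q * (N : ℝ) ^ (2 * m) * (4 / ((j : ℝ) + 1) ^ 2) := by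
    intro j _
    have e : ∑ ω ∈ S with lev (ξ ω) = j, P ω ^ (2 * q) *
        ((4 / ((lev (ξ ω) : ℝ) + 1) ^ 2) / (2 ^ lev (ξ ω)) ^ q) =
        (∑ ω ∈ S with lev (ξ ω) = j, P ω ^ (2 * q)) * ((4 / ((j : ℝ) + 1) ^ 2) / (2 ^ j) ^ q) := by
      rw [Finset.sum_mul]
      refine Finset.sum_congr rfl fun ω hω => ?_
      rw [(mem_filter.1 hω).2]
    rw [e]
    refine (mul_le_mul_of_nonneg_right (hlevel j) (by positivity)).trans (le_of_eq ?_)
    have hp2 : (2 : ℝ) ^ j ≠ 0 := by positivity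
    have e2 : (B * 2 ^ (j + 1)) ^ q = (2 * B) ^ q * (2 ^ j) ^ q := by
      rw [← mul_pow]
      congr 1
      rw [pow_succ]
      ring
    rw [e2]
    field_simp
  refine (Finset.sum_le_sum hj).trans ?_
  rw [← Finset.mul_sum]
  have h8 : ∑ j ∈ range J, 4 / ((j : ℝ) + 1) ^ 2 ≤ Z :=
    hZs.sum_le_tsum _ fun j _ => by positivity
  calc _ ≤ AA q * K0 * (2 * B) ^ q * (N : ℝ) ^ (2 * m) * Z :=
        mul_le_mul_of_nonneg_left h8 (by positivity)
    _ = _ := by ring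

open Classical in
theorem mainM (h : ∀ j, Hyp (a j) (b j) (c j)) (hi : 1 ≤ i) {ε A : ℝ} (hε : 0 < ε) (hA : 0 < A) :
    ∃ (k : ℕ) (C : ℝ), 0 < k ∧ ∀ N : ℕ, 0 < N → ∀ W : Fin m → ℤ × ℤ, ∀ l : ℝ, 1 ≤ l →
      (((BX m N).filter fun ω : Pt m => ∃ x : ℕ, 16 ≤ x ∧ x ^ k ≤ N ∧
        l * Real.log (Real.log x) ^ (1 / 2 : ℝ) * (1 + Real.log (Real.log (Real.log x))) ^ ε <
          |∑ p ∈ OP x, logL a b c i p (sh W ω) +
            (ee m (2 * i - 1) 1 * ∑ j, rk (a j) (b j) (c j) + MM m i / 2) *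
              Real.log (Real.log x)|).card : ℝ) ≤ C * l ^ (-A) * (N : ℝ) ^ (2 * m) := by
  obtain ⟨C0, hC0, hlog⟩ := log_prodM h hi
  set R0 := ee m (2 * i - 1) 1 * ∑ j, rk (a j) (b j) (c j) + MM m i / 2 with hR0
  set q : ℕ := max 2 (max ⌈1 / ε⌉₊ ⌈A⌉₊) with hq
  have hq2 : 2 ≤ q := le_max_left _ _
  have hqε : 1 ≤ (q : ℝ) * ε := by
    have h1 : (1 / ε : ℝ) ≤ q := (Nat.le_ceil _).trans (by
      exact_mod_cast (le_max_left _ _).trans (le_max_right _ _))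
    rwa [div_le_iff₀ hε] at h1
  have hqA : A ≤ 2 * (q : ℝ) := by
    have h1 : A ≤ q := (Nat.le_ceil _).trans (by
      exact_mod_cast (le_max_right _ _).trans (le_max_right _ _))
    have h2 : (0 : ℝ) ≤ q := Nat.cast_nonneg _
    linarith
  obtain ⟨C1, hC1, hpath⟩ := path_momentM (i := i) h hq2
  refine ⟨3 * q, C1 * 2 ^ (2 * q) + (2 * C0 + 1) ^ A, by omega, fun N hN W l hl => ?_⟩
  have hN0 : (0 : ℝ) < N := by exact_mod_cast hN
  set S := (BX m N).filter fun ω : Pt m => ∃ x : ℕ, 16 ≤ x ∧ x ^ (3 * q) ≤ N ∧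
        l * Real.log (Real.log x) ^ (1 / 2 : ℝ) * (1 + Real.log (Real.log (Real.log x))) ^ ε <
          |∑ p ∈ OP x, logL a b c i p (sh W ω) + R0 * Real.log (Real.log x)| with hS
  have hl0 : 0 < l := by linarith
  have hlA : 0 < l ^ (-A) := Real.rpow_pos_of_pos hl0 _
  have hcardS : ((#S : ℕ) : ℝ) ≤ (N : ℝ) ^ (2 * m) := by
    have : #S ≤ N ^ (2 * m) := by
      refine (card_filter_le _ _).trans (le_of_eq ?_)
      rw [card_BX]
    exact_mod_cast this
  by_cases hlC : l < 2 * C0 + 1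
  · -- trivial range
    have h1 : (1 : ℝ) ≤ (2 * C0 + 1) ^ A * l ^ (-A) := by
      rw [Real.rpow_neg hl0.le, ← div_eq_mul_inv, one_le_div (Real.rpow_pos_of_pos hl0 _)]
      exact Real.rpow_le_rpow hl0.le hlC.le hA.le
    have h2 : (0 : ℝ) ≤ C1 * 2 ^ (2 * q) * l ^ (-A) := by positivity
    calc ((#S : ℕ) : ℝ) ≤ 1 * (N : ℝ) ^ (2 * m) := by rw [one_mul]; exact hcardS
      _ ≤ (C1 * 2 ^ (2 * q) + (2 * C0 + 1) ^ A) * l ^ (-A) * (N : ℝ) ^ (2 * m) := by
        refine mul_le_mul_of_nonneg_right ?_ (by positivity)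
        rw [add_mul]
        linarith
  push Not at hlC
  have hmem : ∀ ω ∈ S, ∃ x : ℕ, 16 ≤ x ∧ x ^ (3 * q) ≤ N ∧
        l * Real.log (Real.log x) ^ (1 / 2 : ℝ) * (1 + Real.log (Real.log (Real.log x))) ^ ε <
          |∑ p ∈ OP x, logL a b c i p (sh W ω) + R0 * Real.log (Real.log x)| :=
    fun ω hω => (mem_filter.1 hω).2
  set ξ : Pt m → ℕ := fun ω => if hω : ω ∈ S then (hmem ω hω).choose else 0 with hξ
  have hξs : ∀ ω ∈ S, 16 ≤ ξ ω ∧ (ξ ω) ^ (3 * q) ≤ N ∧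
        l * Real.log (Real.log (ξ ω)) ^ (1 / 2 : ℝ) *
          (1 + Real.log (Real.log (Real.log (ξ ω)))) ^ ε <
          |∑ p ∈ OP (ξ ω), logL a b c i p (sh W ω) + R0 * Real.log (Real.log (ξ ω))| := by
    intro ω hω
    have e : ξ ω = (hmem ω hω).choose := by
      rw [hξ]
      simp only
      rw [dif_pos hω]
    rw [e]
    exact (hmem ω hω).choose_spec
  have h1 := hpath N hN W S (Finset.filter_subset _ _) ξ fun ω hω => ⟨(hξs ω hω).1, (hξs ω hω).2.1⟩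
  have h2 : ∀ ω ∈ S, (l / 2) ^ (2 * q) ≤ (∑ p ∈ OP (ξ ω), XM a b c i p (sh W ω)) ^ (2 * q) /
        (Real.log (Real.log (ξ ω)) ^ q *
          (1 + Real.log (Real.log (Real.log (ξ ω)))) ^ 2) := by
    intro ω hω
    obtain ⟨g1, g2, g3⟩ := hξs ω hω
    set T := Real.log (Real.log (ξ ω)) with hT
    set P := ∑ p ∈ OP (ξ ω), XM a b c i p (sh W ω) with hP
    have hT1 : 1 ≤ T := one_le_loglog g1
    have hT0 : 0 < T := by linarith
    set ℓ := 1 + Real.log T with hℓ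
    have hℓ1 : 1 ≤ ℓ := by
      have := Real.log_nonneg hT1
      linarith
    have hℓ0 : 0 < ℓ := by linarith
    have g4 := hlog (ξ ω) (by omega) (sh W ω)
    set D := ∑ p ∈ OP (ξ ω), logL a b c i p (sh W ω) + R0 * T with hD
    have hTh : (1 : ℝ) ≤ T ^ (1 / 2 : ℝ) := Real.one_le_rpow hT1 (by norm_num)
    have hℓh : (1 : ℝ) ≤ ℓ ^ ε := Real.one_le_rpow hℓ1 hε.le
    set R := T ^ (1 / 2 : ℝ) * ℓ ^ ε with hR
    have hR1 : 1 ≤ R := by nlinarith
    have g5 : |D| ≤ |P| + C0 := by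
      have h5 : D = (D - P) + P := by ring
      have h6 : |D| ≤ |D - P| + |P| := by
        conv_lhs => rw [h5]
        exact abs_add_le _ _
      linarith
    have g6 : l / 2 * R ≤ |P| := by
      have h7 : l * R < |D| := by
        rw [hR, ← mul_assoc]
        exact g3
      have h8 : C0 ≤ l / 2 * R := by nlinarith
      linarith
    have g7 : (l / 2 * R) ^ (2 * q) ≤ P ^ (2 * q) := by
      have h9 : |P| ^ (2 * q) = P ^ (2 * q) := by rw [pow_mul, pow_mul, sq_abs]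
      rw [← h9]
      exact pow_le_pow_left₀ (by positivity) g6 _
    rw [le_div_iff₀ (by positivity)]
    refine le_trans ?_ g7
    rw [mul_pow]
    refine mul_le_mul_of_nonneg_left ?_ (by positivity)
    rw [hR, mul_pow]
    refine mul_le_mul ?_ ?_ (by positivity) (by positivity)
    · rw [← Real.rpow_natCast (T ^ (1 / 2 : ℝ)), ← Real.rpow_mul hT0.le, ← Real.rpow_natCast T]
      refine Real.rpow_le_rpow_of_exponent_le hT1 (le_of_eq ?_)
      push_cast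
      ring
    · rw [← Real.rpow_natCast (ℓ ^ ε), ← Real.rpow_mul hℓ0.le, ← Real.rpow_natCast ℓ]
      refine Real.rpow_le_rpow_of_exponent_le hℓ1 ?_
      push_cast
      nlinarith
  have h3 : ((#S : ℕ) : ℝ) * (l / 2) ^ (2 * q) ≤ C1 * (N : ℝ) ^ (2 * m) := by
    refine le_trans ?_ h1
    rw [← nsmul_eq_mul]
    exact Finset.card_nsmul_le_sum _ _ _ h2
  have h4 : ((#S : ℕ) : ℝ) ≤ C1 * 2 ^ (2 * q) * l ^ (-A) * (N : ℝ) ^ (2 * m) := by
    have h5 : 0 < (l / 2) ^ (2 * q) := by positivity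
    rw [← le_div_iff₀ h5] at h3
    refine h3.trans ?_
    rw [div_le_iff₀ h5, div_pow]
    have h6 : 1 ≤ l ^ (-A) * l ^ (2 * q) := by
      rw [← Real.rpow_natCast l, ← Real.rpow_add hl0]
      refine Real.one_le_rpow hl ?_
      push_cast
      linarith
    have h7 : C1 * 2 ^ (2 * q) * l ^ (-A) * (N : ℝ) ^ (2 * m) * (l ^ (2 * q) / 2 ^ (2 * q)) =
        C1 * (N : ℝ) ^ (2 * m) * (l ^ (-A) * l ^ (2 * q)) := by
      field_simp
    rw [h7]
    exact le_mul_of_one_le_right (by positivity) h6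
  refine h4.trans (mul_le_mul_of_nonneg_right (mul_le_mul_of_nonneg_right ?_ hlA.le) (by positivity))
  have : (0 : ℝ) ≤ (2 * C0 + 1) ^ A := by positivity
  linarith

end

end Pool.Agent.N430.BP
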