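import Pool.Agent.N430.BP.NF3

set_option autoImplicit false
set_option linter.all false

/-! Local factors of `ζ_K / ζ` at the central point for polynomials modulo `p`. -/

namespace Pool.Agent.N430.BP

open Finset Polynomial Pool.Agent.N430.CLT

/-- `-log (1 - t)` -/
noncomputable def hh (t : ℝ) : ℝ := -Real.log (1 - t)

lemma hh_bounds {t : ℝ} (h0 : 0 ≤ t) (h1 : t ≤ 3 / 4) : t ≤ hh t ∧ hh t ≤ 4 * t := by
  have hp : 0 < 1 - t := by linarith
  unfold hh
  constructor
  · have := Real.log_le_sub_one_of_pos hp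
    linarith
  · have h2 := Real.one_sub_inv_le_log_of_pos hp
    have h3 : (1 - t)⁻¹ - 1 ≤ 4 * t := by
      rw [sub_le_iff_le_add, inv_le_comm₀ hp (by linarith), ← one_div, div_le_iff₀ (by linarith)]
      nlinarith
    linarith

lemma hh_second {t : ℝ} (h0 : 0 ≤ t) (h1 : t ≤ 1 / 2) : |hh t - t| ≤ 2 * t ^ 2 := by
  have hp : 0 < 1 - t := by linarith
  have h2 := (hh_bounds h0 (by linarith)).1
  rw [abs_of_nonneg (by linarith)]
  unfold hh
  have h3 := Real.one_sub_inv_le_log_of_pos hp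
  have h4 : (1 - t)⁻¹ - 1 - t ≤ 2 * t ^ 2 := by
    rw [sub_sub, sub_le_iff_le_add, inv_le_comm₀ hp (by positivity), ← one_div,
      div_le_iff₀ (by positivity)]
    nlinarith [sq_nonneg t, mul_nonneg h0 (sq_nonneg t), mul_nonneg (sq_nonneg t) (sub_nonneg.2 h1)]
  linarith

lemma ri_le_three_four {p : ℕ} (hp : 2 ≤ p) : ri p ≤ 3 / 4 := by
  unfold ri
  rw [inv_le_comm₀ (by positivity) (by norm_num)]
  apply Real.le_sqrt_of_sq_le
  have : (2 : ℝ) ≤ p := by exact_mod_cast hp
  norm_num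
  linarith

section loc
variable {p : ℕ} [Fact p.Prime]

open Classical in
/-- monic irreducible divisors -/
noncomputable def irr (f : (ZMod p)[X]) : Finset (ZMod p)[X] :=
  (UniqueFactorizationMonoid.normalizedFactors f).toFinset

lemma mem_irr {f g : (ZMod p)[X]} (hf : f ≠ 0) : g ∈ irr f ↔ g.Monic ∧ Irreducible g ∧ g ∣ f := by
  classical
  unfold irr
  rw [Multiset.mem_toFinset, Polynomial.mem_normalizedFactors_iff hf]
  tauto

lemma sum_deg {f : (ZMod p)[X]} (hf : f ≠ 0) : ∑ g ∈ irr f, g.natDegree ≤ f.natDegree := by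
  classical
  have h1 : ∏ g ∈ irr f, g ∣ f := by
    refine Finset.prod_dvd_of_coprime ?_ fun g hg => ((mem_irr hf).1 hg).2.2
    intro g hg g' hg' hne
    obtain ⟨m1, i1, _⟩ := (mem_irr hf).1 hg
    obtain ⟨m2, i2, _⟩ := (mem_irr hf).1 hg'
    show IsCoprime g g'
    rw [i1.coprime_iff_not_dvd]
    intro hd
    exact hne (Polynomial.eq_of_monic_of_associated m1 m2 (i1.associated_of_dvd i2 hd))
  have h2 := Polynomial.natDegree_le_of_dvd h1 hf
  rwa [Polynomial.natDegree_prod_of_monic _ _ fun g hg => ((mem_irr hf).1 hg).1] at h2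

lemma card_irr {f : (ZMod p)[X]} (hf : f ≠ 0) : #(irr f) ≤ f.natDegree := by
  refine le_trans ?_ (sum_deg hf)
  rw [Finset.card_eq_sum_ones]
  refine Finset.sum_le_sum fun g hg => ?_
  have := ((mem_irr hf).1 hg).2.1.natDegree_pos
  omega

/-- the logarithm of the Euler factor of `ζ_K / ζ` at the central point -/
noncomputable def Lf (f : (ZMod p)[X]) : ℝ := -hh (ri p) + ∑ g ∈ irr f, hh (ri p ^ g.natDegree)

lemma ri_pow_le {d : ℕ} (hd : 1 ≤ d) : ri p ^ d ≤ ri p :=
  pow_le_of_le_one (ri_nonneg p) (ri_le_one (Fact.out : p.Prime).pos) (by omega)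

lemma hh_pow {d : ℕ} (hd : 1 ≤ d) : 0 ≤ hh (ri p ^ d) ∧ hh (ri p ^ d) ≤ 4 * ri p ^ d := by
  have h0 := ri_nonneg p
  have h1 := ri_le_three_four (Fact.out : p.Prime).two_le
  have h2 := ri_pow_le (p := p) hd
  have h3 : 0 ≤ ri p ^ d := by positivity
  obtain ⟨a, b⟩ := hh_bounds h3 (by linarith)
  exact ⟨by linarith, b⟩

lemma Lf_bound {f : (ZMod p)[X]} (hf : f ≠ 0) {n : ℕ} (hn : f.natDegree = n) :
    |Lf f| ≤ 4 * (n + 1) * ri p := by
  have h0 := ri_nonneg p
  have h1 := hh_pow (p := p) (le_refl 1)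
  rw [pow_one] at h1
  have h2 : |∑ g ∈ irr f, hh (ri p ^ g.natDegree)| ≤ n * (4 * ri p) := by
    refine (Finset.abs_sum_le_sum_abs _ _).trans ?_
    have h3 : ∀ g ∈ irr f, |hh (ri p ^ g.natDegree)| ≤ 4 * ri p := by
      intro g hg
      have hd : 1 ≤ g.natDegree := ((mem_irr hf).1 hg).2.1.natDegree_pos
      obtain ⟨a, b⟩ := hh_pow (p := p) hd
      have c := ri_pow_le (p := p) hd
      rw [abs_of_nonneg a]
      linarith
    refine (Finset.sum_le_sum h3).trans ?_
    rw [Finset.sum_const, nsmul_eq_mul]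
    refine mul_le_mul_of_nonneg_right ?_ (by positivity)
    exact_mod_cast (card_irr hf).trans hn.le
  unfold Lf
  have h4 := abs_le.1 h2
  rw [abs_le]
  constructor <;> nlinarith [h1.1, h1.2, h4.1, h4.2]

/-- the quadratic polynomial -/
noncomputable def qq (s t : ZMod p) : (ZMod p)[X] := X ^ 2 + C s * X + C t

lemma qq_monic (s t : ZMod p) : (qq s t).Monic ∧ (qq s t).natDegree = 2 := by
  unfold qq
  constructor
  · monicity!
  · compute_degree!

lemma qq_inj {s t s' t' : ZMod p} (h : qq s t = qq s' t') : s = s' ∧ t = t' := by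
  have h1 := congrArg (fun f => f.coeff 1) h
  have h0 := congrArg (fun f => f.coeff 0) h
  unfold qq at h1 h0
  simp [coeff_X, coeff_X_pow, coeff_C] at h1 h0
  exact ⟨h1, h0⟩

lemma eq_qq {g : (ZMod p)[X]} (hm : g.Monic) (hd : g.natDegree = 2) :
    g = qq (g.coeff 1) (g.coeff 0) := by
  have h1 := hm.as_sum
  rw [hd] at h1
  rw [Finset.sum_range_succ, Finset.sum_range_one] at h1
  rw [pow_zero, mul_one, pow_one] at h1
  unfold qq
  conv_lhs => rw [h1]
  ring

open Classical in
/-- the number of the zeros -/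
noncomputable def n1 (f : (ZMod p)[X]) : ℕ := #{a : ZMod p | f.eval a = 0}

open Classical in
/-- the number of the irreducible quadratic factors -/
noncomputable def n2 (f : (ZMod p)[X]) : ℕ :=
  #{st : ZMod p × ZMod p | Irreducible (qq st.1 st.2) ∧ qq st.1 st.2 ∣ f}

lemma card_one {f : (ZMod p)[X]} (hf : f ≠ 0) :
    #((irr f).filter fun g => g.natDegree = 1) = n1 f := by
  classical
  unfold n1
  symm
  refine Finset.card_bij (fun a _ => X - C a) ?_ ?_ ?_
  · intro a ha
    rw [mem_filter] at ha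
    rw [mem_filter, mem_irr hf]
    exact ⟨⟨monic_X_sub_C a, irreducible_X_sub_C a, dvd_iff_isRoot.2 ha.2⟩, natDegree_X_sub_C a⟩
  · intro a _ b _ h
    have := congrArg (fun f => f.coeff 0) h
    simpa using this
  · intro g hg
    rw [mem_filter, mem_irr hf] at hg
    obtain ⟨⟨hm, hi, hd⟩, h1⟩ := hg
    have e : g = X - C (-g.coeff 0) := by
      have := hm.as_sum
      rw [h1, Finset.sum_range_one, pow_one, pow_zero, mul_one] at this
      rw [map_neg, sub_neg_eq_add]
      exact this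
    refine ⟨-g.coeff 0, ?_, e.symm⟩
    rw [mem_filter]
    refine ⟨mem_univ _, ?_⟩
    rw [e] at hd
    exact dvd_iff_isRoot.1 (by simpa using hd)

lemma card_two {f : (ZMod p)[X]} (hf : f ≠ 0) :
    #((irr f).filter fun g => g.natDegree = 2) = n2 f := by
  classical
  unfold n2
  symm
  refine Finset.card_bij (fun st _ => qq st.1 st.2) ?_ ?_ ?_
  · intro st hst
    rw [mem_filter] at hst
    rw [mem_filter, mem_irr hf]
    exact ⟨⟨(qq_monic _ _).1, hst.2.1, hst.2.2⟩, (qq_monic _ _).2⟩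
  · intro a _ b _ h
    obtain ⟨h1, h2⟩ := qq_inj h
    exact Prod.ext h1 h2
  · intro g hg
    rw [mem_filter, mem_irr hf] at hg
    obtain ⟨⟨hm, hi, hd⟩, h2⟩ := hg
    have e := eq_qq hm h2
    refine ⟨(g.coeff 1, g.coeff 0), ?_, e.symm⟩
    rw [mem_filter]
    refine ⟨mem_univ _, ?_⟩
    rw [← e]
    exact ⟨hi, hd⟩

lemma Lf_dec {f : (ZMod p)[X]} (hf : f ≠ 0) {n : ℕ} (hn : f.natDegree = n) :
    |Lf f - (((n1 f : ℝ) - 1) * hh (ri p) + n2 f * hh (ri p ^ 2))| ≤ 4 * n * ri p ^ 3 := by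
  classical
  have h0 := ri_nonneg p
  have h1 := ri_le_one (Fact.out : p.Prime).pos
  have e : ∑ g ∈ irr f, hh (ri p ^ g.natDegree) = n1 f * hh (ri p) + n2 f * hh (ri p ^ 2) +
      ∑ g ∈ (irr f).filter (fun g => 3 ≤ g.natDegree), hh (ri p ^ g.natDegree) := by
    have e1 : ∑ g ∈ (irr f).filter (fun g => g.natDegree = 1), hh (ri p ^ g.natDegree) =
        n1 f * hh (ri p) := by
      rw [Finset.sum_congr rfl (g := fun _ => hh (ri p))]
      · rw [Finset.sum_const, card_one hf, nsmul_eq_mul]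
      · intro g hg
        rw [(mem_filter.1 hg).2, pow_one]
    have e2 : ∑ g ∈ (irr f).filter (fun g => g.natDegree = 2), hh (ri p ^ g.natDegree) =
        n2 f * hh (ri p ^ 2) := by
      rw [Finset.sum_congr rfl (g := fun _ => hh (ri p ^ 2))]
      · rw [Finset.sum_const, card_two hf, nsmul_eq_mul]
      · intro g hg
        rw [(mem_filter.1 hg).2]
    rw [← e1, ← e2, ← Finset.sum_union, ← Finset.sum_union]
    · refine Finset.sum_congr ?_ fun _ _ => rfl
      ext g
      simp only [mem_union, mem_filter]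
      constructor
      · intro hg
        have := ((mem_irr hf).1 hg).2.1.natDegree_pos
        rcases (show g.natDegree = 1 ∨ g.natDegree = 2 ∨ 3 ≤ g.natDegree by omega) with h | h | h
        · exact Or.inl (Or.inl ⟨hg, h⟩)
        · exact Or.inl (Or.inr ⟨hg, h⟩)
        · exact Or.inr ⟨hg, h⟩
      · rintro ((⟨h, _⟩ | ⟨h, _⟩) | ⟨h, _⟩) <;> exact h
    · rw [Finset.disjoint_left]
      intro g hg hg'
      simp only [mem_union, mem_filter] at hg hg'
      rcases hg with ⟨_, h⟩ | ⟨_, h⟩ <;> omega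
    · rw [Finset.disjoint_left]
      intro g hg hg'
      simp only [mem_filter] at hg hg'
      omega
  have h2 : |∑ g ∈ (irr f).filter (fun g => 3 ≤ g.natDegree), hh (ri p ^ g.natDegree)| ≤
      n * (4 * ri p ^ 3) := by
    refine (Finset.abs_sum_le_sum_abs _ _).trans ?_
    have h3 : ∀ g ∈ (irr f).filter (fun g => 3 ≤ g.natDegree), |hh (ri p ^ g.natDegree)| ≤
        4 * ri p ^ 3 := by
      intro g hg
      have hd := (mem_filter.1 hg).2
      obtain ⟨a, b⟩ := hh_pow (p := p) (show 1 ≤ g.natDegree by omega)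
      have c : ri p ^ g.natDegree ≤ ri p ^ 3 := pow_le_pow_of_le_one h0 h1 hd
      rw [abs_of_nonneg a]
      linarith
    refine (Finset.sum_le_sum h3).trans ?_
    rw [Finset.sum_const, nsmul_eq_mul]
    refine mul_le_mul_of_nonneg_right ?_ (by positivity)
    exact_mod_cast (card_le_card (filter_subset _ _)).trans ((card_irr hf).trans hn.le)
  unfold Lf
  rw [e]
  have e3 : -hh (ri p) + (n1 f * hh (ri p) + n2 f * hh (ri p ^ 2) +
      ∑ g ∈ (irr f).filter (fun g => 3 ≤ g.natDegree), hh (ri p ^ g.natDegree)) -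
      (((n1 f : ℝ) - 1) * hh (ri p) + n2 f * hh (ri p ^ 2)) =
      ∑ g ∈ (irr f).filter (fun g => 3 ≤ g.natDegree), hh (ri p ^ g.natDegree) := by ring
  rw [e3]
  linarith

end loc

end Pool.Agent.N430.BP
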