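import Pool.Agent.N430.BP.Poly1

set_option autoImplicit false
set_option linter.all false

/-! The mean of the logarithm of the local factor over `f₀ + a X + b`. -/

namespace Pool.Agent.N430.BP

open Finset Polynomial Pool.Agent.N430.CLT

section loc
variable {p : ℕ} [Fact p.Prime]

/-- the family -/
noncomputable def ff (f0 : (ZMod p)[X]) (a b : ZMod p) : (ZMod p)[X] := f0 + C a * X + C b

lemma ff_monic {f0 : (ZMod p)[X]} (hm : f0.Monic) (hn : 2 ≤ f0.natDegree) (a b : ZMod p) :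
    (ff f0 a b).Monic ∧ (ff f0 a b).natDegree = f0.natDegree := by
  have h1 : (C a * X + C b : (ZMod p)[X]).degree < f0.degree := by
    refine lt_of_le_of_lt degree_linear_le ?_
    rw [degree_eq_natDegree hm.ne_zero]
    exact_mod_cast (by omega : 1 < f0.natDegree)
  unfold ff
  rw [add_assoc]
  exact ⟨hm.add_of_left h1, natDegree_add_eq_left_of_degree_lt h1⟩

lemma sum_n1 (f0 : (ZMod p)[X]) : ∑ a : ZMod p, ∑ b : ZMod p, n1 (ff f0 a b) = p ^ 2 := by
  classical
  have h1 : ∀ a b : ZMod p, n1 (ff f0 a b) = ∑ x : ZMod p, if b = -(f0.eval x + a * x) then 1 else 0 := by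
    intro a b
    unfold n1 ff
    rw [Finset.card_filter]
    refine Finset.sum_congr rfl fun x _ => ?_
    simp only [eval_add, eval_mul, eval_C, eval_X]
    congr 1
    rw [eq_iff_iff, eq_neg_iff_add_eq_zero, add_comm]
  simp only [h1]
  have h2 : ∀ a : ZMod p, ∑ b : ZMod p, ∑ x : ZMod p, (if b = -(f0.eval x + a * x) then 1 else 0) = p := by
    intro a
    rw [Finset.sum_comm]
    simp [ZMod.card]
  simp only [h2]
  rw [Finset.sum_const, card_univ, ZMod.card, smul_eq_mul, sq]

lemma dvd_iff {f0 : (ZMod p)[X]} (s t a b : ZMod p) : qq s t ∣ ff f0 a b ↔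
    a = -(f0 %ₘ qq s t).coeff 1 ∧ b = -(f0 %ₘ qq s t).coeff 0 := by
  obtain ⟨hm, hd⟩ := qq_monic s t
  have hdeg : (qq s t).degree = 2 := by rw [degree_eq_natDegree hm.ne_zero, hd]; rfl
  have h1 : (C a * X + C b) %ₘ qq s t = C a * X + C b := by
    rw [modByMonic_eq_self_iff hm, hdeg]
    exact lt_of_le_of_lt degree_linear_le (by decide)
  have h2 : f0 %ₘ qq s t = C ((f0 %ₘ qq s t).coeff 1) * X + C ((f0 %ₘ qq s t).coeff 0) := by
    have h3 := degree_modByMonic_lt f0 hm
    rw [hdeg] at h3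
    refine eq_X_add_C_of_natDegree_le_one ?_
    by_contra hcon
    push Not at hcon
    have h5 : f0 %ₘ qq s t ≠ 0 := by
      intro h0
      rw [h0] at hcon
      simp at hcon
    rw [degree_eq_natDegree h5] at h3
    have h6 : (f0 %ₘ qq s t).natDegree < 2 := by exact_mod_cast h3
    omega
  rw [← modByMonic_eq_zero_iff_dvd hm]
  unfold ff
  rw [add_assoc, add_modByMonic, h1]
  constructor
  · intro h
    have e1 := congrArg (fun f => f.coeff 1) h
    have e0 := congrArg (fun f => f.coeff 0) h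
    simp [coeff_X, coeff_C] at e1 e0
    exact ⟨by linear_combination e1, by linear_combination e0⟩
  · rintro ⟨rfl, rfl⟩
    simp only [map_neg]
    linear_combination h2

open Classical in
lemma sum_n2 (f0 : (ZMod p)[X]) : ∑ a : ZMod p, ∑ b : ZMod p, n2 (ff f0 a b) =
    #{st : ZMod p × ZMod p | Irreducible (qq st.1 st.2)} := by
  have h1 : ∀ a b : ZMod p, n2 (ff f0 a b) = ∑ st ∈ (univ : Finset (ZMod p × ZMod p)).filter
      (fun st => Irreducible (qq st.1 st.2)), if a = -(f0 %ₘ qq st.1 st.2).coeff 1 ∧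
        b = -(f0 %ₘ qq st.1 st.2).coeff 0 then 1 else 0 := by
    intro a b
    unfold n2
    rw [← Finset.filter_filter, Finset.card_filter]
    refine Finset.sum_congr rfl fun st _ => ?_
    simp only [dvd_iff]
  simp only [h1]
  have h2 : ∀ a : ZMod p, ∑ b : ZMod p, ∑ st ∈ (univ : Finset (ZMod p × ZMod p)).filter
      (fun st => Irreducible (qq st.1 st.2)), (if a = -(f0 %ₘ qq st.1 st.2).coeff 1 ∧
        b = -(f0 %ₘ qq st.1 st.2).coeff 0 then 1 else 0) =
      ∑ st ∈ (univ : Finset (ZMod p × ZMod p)).filter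
      (fun st => Irreducible (qq st.1 st.2)), if a = -(f0 %ₘ qq st.1 st.2).coeff 1 then 1 else 0 := by
    intro a
    rw [Finset.sum_comm]
    refine Finset.sum_congr rfl fun st _ => ?_
    by_cases h : a = -(f0 %ₘ qq st.1 st.2).coeff 1
    · simp [h]
    · simp [h]
  simp only [h2]
  rw [Finset.sum_comm]
  simp

lemma irr_qq (hp2 : p ≠ 2) (s t : ZMod p) : Irreducible (qq s t) ↔ ¬ IsSquare (s ^ 2 - 4 * t) := by
  obtain ⟨hm, hd⟩ := qq_monic s t
  have h2 : (2 : ZMod p) ≠ 0 := by
    intro h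
    have : ((2 : ℕ) : ZMod p) = 0 := by exact_mod_cast h
    rw [ZMod.natCast_eq_zero_iff] at this
    exact hp2 ((Nat.prime_dvd_prime_iff_eq (Fact.out : p.Prime) Nat.prime_two).1 this)
  rw [hm.irreducible_iff_roots_eq_zero_of_degree_le_three (by rw [hd]) (by rw [hd]; norm_num)]
  rw [Multiset.eq_zero_iff_forall_notMem, ← not_exists, not_iff_not]
  constructor
  · rintro ⟨x, hx⟩
    rw [mem_roots hm.ne_zero, IsRoot.def] at hx
    unfold qq at hx
    simp only [eval_add, eval_mul, eval_C, eval_X, eval_pow] at hx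
    refine ⟨2 * x + s, ?_⟩
    linear_combination (-4 : ZMod p) * hx
  · rintro ⟨r, hr⟩
    refine ⟨(r - s) / 2, ?_⟩
    rw [mem_roots hm.ne_zero, IsRoot.def]
    unfold qq
    simp only [eval_add, eval_mul, eval_C, eval_X, eval_pow]
    field_simp
    linear_combination -hr

open Classical in
lemma card_irr_qq (hp2 : p ≠ 2) :
    (#{st : ZMod p × ZMod p | Irreducible (qq st.1 st.2)} : ℝ) = (p : ℝ) * (p - 1) / 2 := by
  have h2 : (2 : ZMod p) ≠ 0 := by
    intro h
    have : ((2 : ℕ) : ZMod p) = 0 := by exact_mod_cast h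
    rw [ZMod.natCast_eq_zero_iff] at this
    exact hp2 ((Nat.prime_dvd_prime_iff_eq (Fact.out : p.Prime) Nat.prime_two).1 this)
  have h4 : (4 : ZMod p) ≠ 0 := by
    have : (4 : ZMod p) = 2 * 2 := by norm_num
    rw [this]
    exact mul_ne_zero h2 h2
  have hrc : ringChar (ZMod p) ≠ 2 := by rw [ZMod.ringChar_zmod_n]; exact hp2
  -- the number of the nonsquares
  have h5 : ((#{D : ZMod p | ¬ IsSquare D} : ℕ) : ℤ) * 2 = p - 1 := by
    have e : ∀ D : ZMod p, (if ¬ IsSquare D then (1 : ℤ) else 0) * 2 =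
        1 - quadraticChar (ZMod p) D - if D = 0 then 1 else 0 := by
      intro D
      by_cases h0 : D = 0
      · subst h0
        simp
      · by_cases hs : IsSquare D
        · rw [(quadraticChar_one_iff_isSquare h0).2 hs]
          simp [h0, hs]
        · rw [quadraticChar_neg_one_iff_not_isSquare.2 hs]
          simp [h0, hs]
    have e2 : ((#{D : ZMod p | ¬ IsSquare D} : ℕ) : ℤ) * 2 = ∑ D : ZMod p,
        (1 - quadraticChar (ZMod p) D - if D = 0 then 1 else 0) := by
      rw [Finset.card_filter]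
      push_cast
      rw [Finset.sum_mul]
      exact Finset.sum_congr rfl fun D _ => e D
    rw [e2, Finset.sum_sub_distrib, Finset.sum_sub_distrib, quadraticChar_sum_zero hrc]
    simp [ZMod.card]
  have h6 : #{st : ZMod p × ZMod p | Irreducible (qq st.1 st.2)} =
      p * #{D : ZMod p | ¬ IsSquare D} := by
    have e3 : #{st : ZMod p × ZMod p | Irreducible (qq st.1 st.2)} =
        #((univ : Finset (ZMod p)) ×ˢ (univ.filter fun D : ZMod p => ¬ IsSquare D)) := by
      refine Finset.card_bij (fun st _ => (st.1, st.1 ^ 2 - 4 * st.2)) ?_ ?_ ?_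
      · intro st hst
        rw [mem_filter, irr_qq hp2] at hst
        rw [mem_product, mem_filter]
        exact ⟨mem_univ _, mem_univ _, hst.2⟩
      · intro a _ b _ h
        rw [Prod.mk.injEq] at h
        obtain ⟨h1, h3⟩ := h
        rw [h1] at h3
        refine Prod.ext h1 (mul_left_cancel₀ h4 ?_)
        linear_combination -h3
      · intro b hb
        rw [mem_product, mem_filter] at hb
        refine ⟨(b.1, (b.1 ^ 2 - b.2) / 4), ?_, ?_⟩
        · rw [mem_filter, irr_qq hp2]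
          refine ⟨mem_univ _, ?_⟩
          have : b.1 ^ 2 - 4 * ((b.1 ^ 2 - b.2) / 4) = b.2 := by
            field_simp
            ring
          rw [this]
          exact hb.2.2
        · refine Prod.ext rfl ?_
          show b.1 ^ 2 - 4 * ((b.1 ^ 2 - b.2) / 4) = b.2
          field_simp
          ring
    rw [e3, card_product, card_univ, ZMod.card]
  have h7 : ((#{D : ZMod p | ¬ IsSquare D} : ℕ) : ℝ) * 2 = p - 1 := by exact_mod_cast h5
  rw [h6]
  push_cast
  linear_combination (p : ℝ) / 2 * h7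

/-- the mean of the logarithm of the local factor -/
noncomputable def EL (f0 : (ZMod p)[X]) : ℝ :=
  (∑ a : ZMod p, ∑ b : ZMod p, Lf (ff f0 a b)) / (p : ℝ) ^ 2

lemma EL_eq (hp2 : p ≠ 2) {f0 : (ZMod p)[X]} (hm : f0.Monic) {n : ℕ} (hn : 2 ≤ n)
    (hd : f0.natDegree = n) : |EL f0 - ri p ^ 2 / 2| ≤ (4 * n + 2) * ri p ^ 3 := by
  classical
  have hp := (Fact.out : p.Prime)
  have hp0 : (0 : ℝ) < p := by exact_mod_cast hp.pos
  have hp2' : (2 : ℝ) ≤ p := by exact_mod_cast hp.two_le
  have h0 := ri_nonneg p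
  have h1 := ri_le_one hp.pos
  have hr2 : ri p ^ 2 = (p : ℝ)⁻¹ := ri_sq
  set M : ℝ := (∑ a : ZMod p, ∑ b : ZMod p, (((n1 (ff f0 a b) : ℝ) - 1) * hh (ri p) +
    n2 (ff f0 a b) * hh (ri p ^ 2))) / (p : ℝ) ^ 2 with hM
  have hMe : M = (1 - (p : ℝ)⁻¹) / 2 * hh (ri p ^ 2) := by
    have s1 : ∑ a : ZMod p, ∑ b : ZMod p, ((n1 (ff f0 a b) : ℝ)) = (p : ℝ) ^ 2 := by
      exact_mod_cast sum_n1 f0
    have s2 : ∑ a : ZMod p, ∑ b : ZMod p, ((n2 (ff f0 a b) : ℝ)) = (p : ℝ) * (p - 1) / 2 := by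
      rw [← card_irr_qq hp2, ← sum_n2 f0]
      push_cast
      rfl
    have s3 : ∑ a : ZMod p, ∑ b : ZMod p, (1 : ℝ) = (p : ℝ) ^ 2 := by
      simp [ZMod.card]
      ring
    rw [hM]
    simp only [Finset.sum_add_distrib, ← Finset.sum_mul, Finset.sum_sub_distrib]
    rw [s1, s2, s3]
    field_simp
    ring
  have h2 : |EL f0 - M| ≤ 4 * n * ri p ^ 3 := by
    unfold EL
    rw [hM, ← sub_div, ← Finset.sum_sub_distrib]
    simp only [← Finset.sum_sub_distrib]
    rw [abs_div, abs_of_pos (by positivity : (0 : ℝ) < (p : ℝ) ^ 2), div_le_iff₀ (by positivity)]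
    refine (Finset.abs_sum_le_sum_abs _ _).trans ?_
    have h3 : ∀ a : ZMod p, |∑ b : ZMod p, (Lf (ff f0 a b) - (((n1 (ff f0 a b) : ℝ) - 1) * hh (ri p) +
        n2 (ff f0 a b) * hh (ri p ^ 2)))| ≤ p * (4 * n * ri p ^ 3) := by
      intro a
      refine (Finset.abs_sum_le_sum_abs _ _).trans ?_
      refine (Finset.sum_le_sum fun b _ => Lf_dec (ff_monic hm (by omega) a b).1.ne_zero
        ((ff_monic hm (by omega) a b).2.trans hd)).trans ?_
      rw [Finset.sum_const, card_univ, ZMod.card, nsmul_eq_mul]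
    refine (Finset.sum_le_sum fun a _ => h3 a).trans ?_
    rw [Finset.sum_const, card_univ, ZMod.card, nsmul_eq_mul]
    apply le_of_eq
    ring
  have hi : (p : ℝ)⁻¹ ≤ 1 / 2 := by
    rw [inv_le_comm₀ hp0 (by norm_num)]
    linarith
  have h4 : |M - ri p ^ 2 / 2| ≤ 2 * ri p ^ 3 := by
    rw [hMe]
    have hr0 : 0 ≤ ri p ^ 2 := by positivity
    have h5 := hh_second hr0 (by rw [hr2]; exact hi)
    set t := ri p ^ 2 with ht
    rw [← hr2]
    have ht1 : t ≤ 1 / 2 := by rw [hr2]; exact hi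
    have h6 : t ^ 2 ≤ ri p ^ 3 := by
      rw [ht, ← pow_mul]
      exact pow_le_pow_of_le_one h0 h1 (by norm_num)
    obtain ⟨h7, h8⟩ := abs_le.1 h5
    have h9 : hh t ≤ t + 2 * t ^ 2 := by linarith
    have h10 : t - 2 * t ^ 2 ≤ hh t := by linarith
    have h11 : |(1 - t) / 2 * hh t - t / 2| ≤ 2 * t ^ 2 := by
      rw [abs_le]
      constructor
      · nlinarith [mul_nonneg hr0 (sq_nonneg t)]
      · nlinarith [mul_nonneg hr0 (sq_nonneg t)]
    linarith
  have h5 := abs_le.1 h2
  have h6 := abs_le.1 h4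
  rw [abs_le]
  constructor <;> linarith

end loc

end Pool.Agent.N430.BP
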