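import Pool.Agent.N430.BP.Poly2

set_option autoImplicit false
set_option linter.all false

/-! The law of the central products of `ζ_K / ζ` for almost all polynomials `f₀ + u X + v`. -/

namespace Pool.Agent.N430.BP

open Finset Polynomial Pool.Agent.N430.CLT

/-- the reduction modulo `p` -/
noncomputable def red (f : ℤ[X]) (p : ℕ) : (ZMod p)[X] := f.map (Int.castRingHom (ZMod p))

/-- the logarithm of the local factor -/
noncomputable def LLf (f : ℤ[X]) (p : ℕ) : ℝ :=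
  if h : p.Prime then haveI : Fact p.Prime := ⟨h⟩; Lf (red f p) else 0

/-- the mean of the logarithm of the local factor -/
noncomputable def ELL (f : ℤ[X]) (p : ℕ) : ℝ :=
  if h : p.Prime then haveI : Fact p.Prime := ⟨h⟩; EL (red f p) else 0

/-- the member of the family -/
noncomputable def famP (f0 : ℤ[X]) (U : Fin 1 → ℤ × ℤ) (w : Pt 1) : ℤ[X] :=
  f0 + C (sh U w 0).1 * X + C (sh U w 0).2

lemma red_fam (f0 : ℤ[X]) (U : Fin 1 → ℤ × ℤ) (w : Pt 1) (p : ℕ) [Fact p.Prime] :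
    red (famP f0 U w) p = ff (red f0 p) (((U 0).1 : ZMod p) + ∑ j, ((w j).1 : ZMod p) * 1)
      (((U 0).2 : ZMod p) + ∑ j, ((w j).2 : ZMod p) * 1) := by
  unfold red famP ff sh
  simp

lemma red_monic {f0 : ℤ[X]} (hm : f0.Monic) (p : ℕ) [Fact p.Prime] :
    (red f0 p).Monic ∧ (red f0 p).natDegree = f0.natDegree := by
  unfold red
  exact ⟨hm.map _, hm.natDegree_map _⟩

/-- the parameters -/
def SP (n : ℕ) : Type := {f : ℤ[X] // f.Monic ∧ f.natDegree = n} × (Fin 1 → ℤ × ℤ)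

lemma EL_bound {p : ℕ} [Fact p.Prime] {f0 : (ZMod p)[X]} (hm : f0.Monic) {n : ℕ} (hn : 2 ≤ n)
    (hd : f0.natDegree = n) : |EL f0| ≤ 4 * (n + 1) * ri p := by
  have hp0 : (0 : ℝ) < p := by exact_mod_cast (Fact.out : p.Prime).pos
  unfold EL
  rw [abs_div, abs_of_pos (by positivity : (0 : ℝ) < (p : ℝ) ^ 2), div_le_iff₀ (by positivity)]
  refine (Finset.abs_sum_le_sum_abs _ _).trans ?_
  have h3 : ∀ a : ZMod p, |∑ b : ZMod p, Lf (ff f0 a b)| ≤ p * (4 * (n + 1) * ri p) := by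
    intro a
    refine (Finset.abs_sum_le_sum_abs _ _).trans ?_
    refine (Finset.sum_le_sum fun b _ => Lf_bound (ff_monic hm (by omega) a b).1.ne_zero
      ((ff_monic hm (by omega) a b).2.trans hd)).trans ?_
    rw [Finset.sum_const, card_univ, ZMod.card, nsmul_eq_mul]
  refine (Finset.sum_le_sum fun a _ => h3 a).trans ?_
  rw [Finset.sum_const, card_univ, ZMod.card, nsmul_eq_mul]
  apply le_of_eq
  ring

lemma fam_monic' {f0 : ℤ[X]} (hm : f0.Monic) (hn : 2 ≤ f0.natDegree) (a b : ℤ) :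
    (f0 + C a * X + C b).Monic ∧ (f0 + C a * X + C b).natDegree = f0.natDegree := by
  have h1 : (C a * X + C b : ℤ[X]).degree < f0.degree := by
    refine lt_of_le_of_lt degree_linear_le ?_
    rw [degree_eq_natDegree hm.ne_zero]
    exact_mod_cast (by omega : 1 < f0.natDegree)
  rw [add_assoc]
  exact ⟨hm.add_of_left h1, natDegree_add_eq_left_of_degree_lt h1⟩

lemma LLf_bound {f : ℤ[X]} (hm : f.Monic) {n : ℕ} (hd : f.natDegree = n) {p : ℕ} (hp : p.Prime) :
    |LLf f p| ≤ 4 * (n + 1) * ri p := by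
  haveI : Fact p.Prime := ⟨hp⟩
  unfold LLf
  rw [dif_pos hp]
  exact Lf_bound (red_monic hm p).1.ne_zero ((red_monic hm p).2.trans hd)

/-- the local data -/
noncomputable def polyData {n : ℕ} (hn : 2 ≤ n) : LocalData 1 (SP n) where
  X s p w := LLf (famP s.1.1 s.2 w) p - ELL s.1.1 p
  b p := 8 * (n + 1) * ri p
  b_nonneg p := by
    have := ri_nonneg p
    positivity
  per s p hp _ := by
    haveI : Fact p.Prime := ⟨hp⟩
    have h := per_lin (n := 1) (κ := ZMod p) (p := p) (ZMod.natCast_self p) (fun _ => 1)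
      (fun a b => Lf (ff (red s.1.1 p) a b)) ((s.2 0).1 : ZMod p) ((s.2 0).2 : ZMod p)
    intro j w
    constructor
    · show LLf _ p - _ = LLf _ p - _
      unfold LLf
      rw [dif_pos hp, dif_pos hp, red_fam, red_fam]
      congr 1
      exact (h j w).1
    · show LLf _ p - _ = LLf _ p - _
      unfold LLf
      rw [dif_pos hp, dif_pos hp, red_fam, red_fam]
      congr 1
      exact (h j w).2
  bound s p hp _ w := by
    haveI : Fact p.Prime := ⟨hp⟩
    have h1 : |LLf (famP s.1.1 s.2 w) p| ≤ 4 * (n + 1) * ri p := by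
      have := fam_monic' s.1.2.1 (by rw [s.1.2.2]; exact hn) (sh s.2 w 0).1 (sh s.2 w 0).2
      exact LLf_bound this.1 (this.2.trans s.1.2.2) hp
    have h2 : |ELL s.1.1 p| ≤ 4 * (n + 1) * ri p := by
      unfold ELL
      rw [dif_pos hp]
      exact EL_bound (red_monic s.1.2.1 p).1 hn ((red_monic s.1.2.1 p).2.trans s.1.2.2)
    refine (abs_sub _ _).trans ?_
    linarith
  mean s p hp _ := by
    haveI : Fact p.Prime := ⟨hp⟩
    have h := equi (n := 1) (κ := ZMod p) (p := p) hp.pos (ZMod.natCast_self p) (fun _ => 1)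
      (fun a => ⟨fun _ => a.val, by simp⟩)
      (fun a b => Lf (ff (red s.1.1 p) a b)) ((s.2 0).1 : ZMod p) ((s.2 0).2 : ZMod p)
    have e : (fun w : Pt 1 => LLf (famP s.1.1 s.2 w) p - ELL s.1.1 p) =
        fun w : Pt 1 => Lf (ff (red s.1.1 p) (((s.2 0).1 : ZMod p) + ∑ j, ((w j).1 : ZMod p) * 1)
      (((s.2 0).2 : ZMod p) + ∑ j, ((w j).2 : ZMod p) * 1)) + (-EL (red s.1.1 p)) := by
      funext w
      unfold LLf ELL
      rw [dif_pos hp, dif_pos hp, red_fam]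
      ring
    rw [e, avgPM_add, avgPM_const hp.pos, h]
    unfold EL
    rw [ZMod.card]
    ring
  B := (8 * (n + 1)) ^ 2 * (1 + |(Pool.Agent.Helper256.KM.mertens_inv).choose|)
  B_nonneg := by positivity
  sum_sq x hx := by
    have h3 := (Pool.Agent.Helper256.KM.mertens_inv).choose_spec x (by omega)
    set C3 := (Pool.Agent.Helper256.KM.mertens_inv).choose with hC3
    have hT := one_le_loglog hx
    have h1 : ∀ p ∈ OP x, (8 * ((n : ℝ) + 1) * ri p) ^ 2 =
        (8 * ((n : ℝ) + 1)) ^ 2 * (1 / (p : ℝ)) := by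
      intro p _
      have := ri_sq (p := p)
      rw [one_div, ← this]
      ring
    rw [Finset.sum_congr rfl h1, ← Finset.mul_sum, mul_assoc]
    refine mul_le_mul_of_nonneg_left ?_ (by positivity)
    have h4 : ∑ p ∈ OP x, (1 : ℝ) / p ≤ ∑ p ∈ (Icc 1 x).filter Nat.Prime, (1 : ℝ) / p :=
      Finset.sum_le_sum_of_subset_of_nonneg (Finset.filter_subset _ _) fun p _ _ => by positivity
    have h5 := (abs_le.1 h3).2
    have h6 : C3 ≤ |C3| := le_abs_self _
    nlinarith [abs_nonneg C3]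

theorem poly_dec {n : ℕ} (hn : 2 ≤ n) : ∃ C : ℝ, 0 ≤ C ∧ ∀ (s : SP n) (x : ℕ) (w : Pt 1), 16 ≤ x →
    |(∑ p ∈ Pr x, LLf (famP s.1.1 s.2 w) p - 1 / 2 * Real.log (Real.log x)) -
      ∑ p ∈ OP x, (polyData hn).X s p w| ≤ C := by
  set C3 := (Pool.Agent.Helper256.KM.mertens_inv).choose with hC3
  have hsp := (Pool.Agent.Helper256.KM.mertens_inv).choose_spec
  rw [← hC3] at hsp
  set Z := ∑' m : ℕ, (m : ℝ) ^ (-(3 / 2) : ℝ) with hZ
  have hZ0 : 0 ≤ Z := tsum_nonneg fun m => by positivity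
  refine ⟨4 * (n + 1) + (4 * n + 2) * Z + (|C3| / 2 + 1 / 4), by positivity, fun s x w hx => ?_⟩
  have hX : ∀ p, (polyData hn).X s p w = LLf (famP s.1.1 s.2 w) p - ELL s.1.1 p := fun p => rfl
  simp only [hX]
  have e1 := sum_OP (fun p => LLf (famP s.1.1 s.2 w) p) (x := x) (by omega)
  have e2 := sum_OP (fun p => (1 : ℝ) / p) (x := x) (by omega)
  have hM := fam_monic' s.1.2.1 (by rw [s.1.2.2]; exact hn) (sh s.2 w 0).1 (sh s.2 w 0).2
  have b1 : |LLf (famP s.1.1 s.2 w) 2| ≤ 4 * (n + 1) := by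
    refine (LLf_bound hM.1 (hM.2.trans s.1.2.2) Nat.prime_two).trans ?_
    have := ri_le_one (show 0 < 2 by norm_num)
    exact mul_le_of_le_one_right (by positivity) this
  have b2 : |∑ p ∈ OP x, (ELL s.1.1 p - 1 / p / 2)| ≤ (4 * n + 2) * Z := by
    refine (Finset.abs_sum_le_sum_abs _ _).trans ?_
    have h1 : ∀ p ∈ OP x, |ELL s.1.1 p - 1 / p / 2| ≤ (4 * n + 2) * ri p ^ 3 := by
      intro p hp
      obtain ⟨_, hpp, hp2⟩ := mem_OP.1 hp
      haveI : Fact p.Prime := ⟨hpp⟩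
      have h2 := EL_eq hp2 (red_monic s.1.2.1 p).1 hn ((red_monic s.1.2.1 p).2.trans s.1.2.2)
      unfold ELL
      rw [dif_pos hpp, one_div, ← ri_sq]
      exact h2
    refine (Finset.sum_le_sum h1).trans ?_
    rw [← Finset.mul_sum]
    exact mul_le_mul_of_nonneg_left (sum_ri x) (by positivity)
  have b3 := hsp x (by omega)
  have e3 : ∑ p ∈ (Icc 1 x).filter Nat.Prime, (1 : ℝ) / p = ∑ p ∈ Pr x, (1 : ℝ) / p := rfl
  rw [e3] at b3
  rw [Finset.sum_sub_distrib, ← Finset.sum_div] at b2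
  rw [Finset.sum_sub_distrib]
  have f1 := abs_le.1 b1
  have f2 := abs_le.1 b2
  have f3 := abs_le.1 b3
  have f4 : C3 ≤ |C3| := le_abs_self _
  simp only [Nat.cast_ofNat] at e2
  rw [abs_le]
  constructor <;> linarith [f1.1, f1.2, f2.1, f2.2, f3.1, f3.2]

open Classical in
theorem main_poly {n : ℕ} (hn : 2 ≤ n) {ε A : ℝ} (hε : 0 < ε) (hA : 0 < A) :
    ∃ (k : ℕ) (C : ℝ), 0 < k ∧ ∀ N : ℕ, 0 < N → ∀ s : SP n, ∀ l : ℝ, 1 ≤ l →
      (((BX 1 N).filter fun ω : Pt 1 => ∃ x : ℕ, 16 ≤ x ∧ x ^ k ≤ N ∧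
        l * Real.log (Real.log x) ^ (1 / 2 : ℝ) * (1 + Real.log (Real.log (Real.log x))) ^ ε <
          |∑ p ∈ Pr x, LLf (famP s.1.1 s.2 ω) p - 1 / 2 * Real.log (Real.log x)|).card : ℝ) ≤
        C * l ^ (-A) * (N : ℝ) ^ 2 := by
  obtain ⟨C0, hC0, h0⟩ := poly_dec hn
  obtain ⟨k, C, hk, hC, hlaw⟩ := (polyData hn).law
    (fun s x w => ∑ p ∈ Pr x, LLf (famP s.1.1 s.2 w) p - 1 / 2 * Real.log (Real.log x)) hC0 h0 hε hA
  refine ⟨k, C, hk, fun N hN s l hl => ?_⟩
  have := hlaw k le_rfl N hN s l hl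
  rw [mul_one] at this
  convert this using 3

end Pool.Agent.N430.BP
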