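import Pool.Agent.N430.BP.BoxM

set_option autoImplicit false
set_option linter.all false

/-! The coefficients of `∏_j (1 + A_j T + Q T²)`. -/

namespace Pool.Agent.N430.BP

open Finset Polynomial Pool.Agent.N430.CLT

/-- the coefficient of `T^n` in `∏_j (1 + A_j T + Q T²)` -/
noncomputable def kun {m : ℕ} (A : Fin m → ℝ) (Q : ℝ) (n : ℕ) : ℝ :=
  (∏ j, (1 + C (A j) * X + C Q * X ^ 2 : ℝ[X])).coeff n

lemma kun_scale {m : ℕ} (α : Fin m → ℝ) (q : ℝ) (n : ℕ) :
    kun (fun j => q * α j) (q ^ 2) n = q ^ n * kun α 1 n := by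
  unfold kun
  have e : ∏ j, (1 + C (q * α j) * X + C (q ^ 2) * X ^ 2 : ℝ[X]) =
      (∏ j, (1 + C (α j) * X + C 1 * X ^ 2 : ℝ[X])).comp (C q * X) := by
    rw [Polynomial.prod_comp]
    refine Finset.prod_congr rfl fun j _ => ?_
    simp only [add_comp, mul_comp, one_comp, C_comp, X_comp, pow_comp, C_mul, C_pow, map_one]
    ring
  rw [e, comp_C_mul_X_coeff, mul_comm]

/-- the coefficient of a monomial -/
noncomputable def ee (m n s : ℕ) : ℝ :=
  if s ≤ n then ((1 + X ^ 2 : ℝ[X]) ^ (m - s)).coeff (n - s) else 0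

lemma pow_eq_expand (k : ℕ) : (1 + X ^ 2 : ℝ[X]) ^ k = expand ℝ 2 ((1 + X) ^ k) := by
  rw [map_pow, map_add, map_one, expand_X]

lemma ee_nonneg (m n s : ℕ) : 0 ≤ ee m n s := by
  unfold ee
  split_ifs with h
  · rw [pow_eq_expand, coeff_expand (by norm_num)]
    split_ifs
    · rw [coeff_one_add_X_pow]
      positivity
    · exact le_rfl
  · exact le_rfl

lemma ee_even {m n s : ℕ} (hn : Odd n) (hs : Even s) : ee m n s = 0 := by
  unfold ee
  split_ifs with h
  · rw [pow_eq_expand, coeff_expand (by norm_num), if_neg]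
    intro h2
    have h3 : Odd (n - s) := Nat.Odd.sub_even h hn hs
    exact (Nat.not_even_iff_odd.2 h3) (even_iff_two_dvd.2 h2)
  · rfl

lemma ee_one {m i : ℕ} (hi : 1 ≤ i) : ee m (2 * i - 1) 1 = ((m - 1).choose (i - 1) : ℕ) := by
  unfold ee
  rw [if_pos (by omega), pow_eq_expand, coeff_expand (by norm_num), if_pos (by
    exact ⟨i - 1, by omega⟩), coeff_one_add_X_pow]
  congr 2
  omega

lemma kun_expand {m : ℕ} (α : Fin m → ℝ) (n : ℕ) :
    kun α 1 n = ∑ S ∈ (univ : Finset (Fin m)).powerset, ee m n #S * ∏ j ∈ S, α j := by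
  unfold kun
  have e : ∏ j, (1 + C (α j) * X + C 1 * X ^ 2 : ℝ[X]) =
      ∑ S ∈ (univ : Finset (Fin m)).powerset,
        C (∏ j ∈ S, α j) * (X ^ #S * (1 + X ^ 2) ^ (m - #S)) := by
    have e1 : ∀ j ∈ (univ : Finset (Fin m)), (1 + C (α j) * X + C 1 * X ^ 2 : ℝ[X]) =
        C (α j) * X + (1 + X ^ 2) := by
      intro j _
      rw [C_1]
      ring
    rw [Finset.prod_congr rfl e1, Finset.prod_add]
    refine Finset.sum_congr rfl fun S hS => ?_
    rw [Finset.prod_mul_distrib, Finset.prod_const, Finset.prod_const, ← map_prod,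
      card_sdiff_of_subset (mem_powerset.1 hS), card_univ, Fintype.card_fin]
    ring
  rw [e, finset_sum_coeff]
  refine Finset.sum_congr rfl fun S _ => ?_
  rw [coeff_C_mul, coeff_X_pow_mul', mul_comm]
  rfl

lemma abs_prod_le {m : ℕ} (S : Finset (Fin m)) {α ν : Fin m → ℝ} (h : ∀ j, |α j| ≤ ν j) :
    |∏ j ∈ S, α j| ≤ ∏ j ∈ S, ν j := by
  rw [Finset.abs_prod]
  exact Finset.prod_le_prod (fun _ _ => abs_nonneg _) fun j _ => h j

lemma abs_kun_le {m : ℕ} {α ν : Fin m → ℝ} (h : ∀ j, |α j| ≤ ν j) (n : ℕ) :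
    |kun α 1 n| ≤ kun ν 1 n := by
  rw [kun_expand, kun_expand]
  refine (Finset.abs_sum_le_sum_abs _ _).trans (Finset.sum_le_sum fun S _ => ?_)
  rw [abs_mul, abs_of_nonneg (ee_nonneg _ _ _)]
  exact mul_le_mul_of_nonneg_left (abs_prod_le S h) (ee_nonneg _ _ _)

lemma kun_nonneg {m : ℕ} {ν : Fin m → ℝ} (h : ∀ j, 0 ≤ ν j) (n : ℕ) : 0 ≤ kun ν 1 n := by
  rw [kun_expand]
  exact Finset.sum_nonneg fun S _ => mul_nonneg (ee_nonneg _ _ _) (Finset.prod_nonneg fun j _ => h j)

lemma kun_one {m : ℕ} (n : ℕ) : kun (fun _ : Fin m => (1 : ℝ)) 1 n =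
    ∑ S ∈ (univ : Finset (Fin m)).powerset, ee m n #S := by
  rw [kun_expand]
  simp

lemma kun_neg {m : ℕ} (α : Fin m → ℝ) {n : ℕ} (hn : Odd n) :
    kun (fun j => -α j) 1 n = -kun α 1 n := by
  have h := kun_scale α (-1) n
  rw [hn.neg_one_pow] at h
  simp only [neg_one_mul] at h
  norm_num at h
  exact h

/-- the first order term -/
lemma kun_first {m : ℕ} {α : Fin m → ℝ} {D t : ℝ} (hD : 1 ≤ D) (ht0 : 0 ≤ t) (ht1 : t ≤ 1)
    (h : ∀ j, |α j| ≤ t * D) {n : ℕ} (hn : Odd n) :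
    |kun α 1 n - ee m n 1 * ∑ j, α j| ≤ kun (fun _ : Fin m => (1 : ℝ)) 1 n * D ^ m * t ^ 3 := by
  have hfirst : ee m n 1 * ∑ j, α j = ∑ S ∈ (univ : Finset (Fin m)).powerset,
      if #S = 1 then ee m n #S * ∏ j ∈ S, α j else 0 := by
    rw [← Finset.sum_filter, ← powersetCard_eq_filter]
    rw [Finset.mul_sum]
    symm
    refine Finset.sum_bij' (i := fun S hS => (card_eq_one.1 (mem_powersetCard.1 hS).2).choose)
      (j := fun j _ => ({j} : Finset (Fin m))) ?_ ?_ ?_ ?_ ?_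
    · intro S hS
      exact mem_univ _
    · intro j _
      exact mem_powersetCard.2 ⟨subset_univ _, card_singleton j⟩
    · intro S hS
      exact ((card_eq_one.1 (mem_powersetCard.1 hS).2).choose_spec).symm
    · intro j hj
      have h1 : ({j} : Finset (Fin m)) ∈ powersetCard 1 univ :=
        mem_powersetCard.2 ⟨subset_univ _, card_singleton j⟩
      have h2 := (card_eq_one.1 (mem_powersetCard.1 h1).2).choose_spec
      exact (singleton_injective h2).symm
    · intro S hS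
      have h2 := (card_eq_one.1 (mem_powersetCard.1 hS).2).choose_spec
      have h3 := (mem_powersetCard.1 hS).2
      refine congrArg₂ (· * ·) (by rw [h3]) ?_
      conv_lhs => rw [h2]
      rw [prod_singleton]
  rw [hfirst, kun_expand, kun_one, ← Finset.sum_sub_distrib, Finset.sum_mul, Finset.sum_mul]
  refine (Finset.abs_sum_le_sum_abs _ _).trans (Finset.sum_le_sum fun S _ => ?_)
  have hnn : 0 ≤ ee m n #S * D ^ m * t ^ 3 := by
    have := ee_nonneg m n #S
    positivity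
  by_cases h1 : #S = 1
  · rw [if_pos h1, sub_self, abs_zero]
    exact hnn
  rw [if_neg h1, sub_zero]
  rcases Nat.even_or_odd #S with he | ho
  · rw [ee_even hn he, zero_mul, abs_zero, zero_mul, zero_mul]
  · have h3 : 3 ≤ #S := by
      obtain ⟨k, hk⟩ := ho
      omega
    rw [abs_mul, abs_of_nonneg (ee_nonneg _ _ _), mul_assoc]
    refine mul_le_mul_of_nonneg_left ?_ (ee_nonneg _ _ _)
    refine (abs_prod_le S h).trans ?_
    rw [Finset.prod_const, mul_pow, mul_comm]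
    have hSm : #S ≤ m := by
      have := card_le_univ S
      rwa [Fintype.card_fin] at this
    refine mul_le_mul (pow_le_pow_right₀ hD hSm) (pow_le_pow_of_le_one ht0 ht1 h3) (by positivity)
      (by positivity)

lemma prod_sub_prod {m : ℕ} {R : ℝ} (hR : 1 ≤ R) {a b : Fin m → ℝ} (ha : ∀ j, |a j| ≤ R)
    (hb : ∀ j, |b j| ≤ R) (S : Finset (Fin m)) :
    |∏ j ∈ S, a j - ∏ j ∈ S, b j| ≤ R ^ #S * ∑ j ∈ S, |a j - b j| := by
  classical
  induction S using Finset.induction_on with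
  | empty => simp
  | insert i T hi ih =>
    rw [Finset.prod_insert hi, Finset.prod_insert hi, Finset.sum_insert hi, card_insert_of_notMem hi]
    have e : a i * ∏ j ∈ T, a j - b i * ∏ j ∈ T, b j =
        (a i - b i) * ∏ j ∈ T, a j + b i * (∏ j ∈ T, a j - ∏ j ∈ T, b j) := by ring
    rw [e]
    refine (abs_add_le _ _).trans ?_
    rw [abs_mul, abs_mul]
    have hA : |∏ j ∈ T, a j| ≤ R ^ #T := by
      refine (abs_prod_le T ha).trans (le_of_eq ?_)
      rw [Finset.prod_const]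
    have hRT : (1 : ℝ) ≤ R ^ #T := one_le_pow₀ hR
    have hs : 0 ≤ ∑ j ∈ T, |a j - b j| := Finset.sum_nonneg fun _ _ => abs_nonneg _
    have h1 : |a i - b i| * |∏ j ∈ T, a j| ≤ |a i - b i| * R ^ (#T + 1) := by
      refine mul_le_mul_of_nonneg_left (hA.trans ?_) (abs_nonneg _)
      exact pow_le_pow_right₀ hR (by omega)
    have h2 : |b i| * |∏ j ∈ T, a j - ∏ j ∈ T, b j| ≤ R * (R ^ #T * ∑ j ∈ T, |a j - b j|) :=
      mul_le_mul (hb i) ih (abs_nonneg _) (by linarith)
    rw [pow_succ] at h1 ⊢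
    nlinarith

lemma kun_lip {m : ℕ} {R : ℝ} (hR : 1 ≤ R) {a b : Fin m → ℝ} (ha : ∀ j, |a j| ≤ R)
    (hb : ∀ j, |b j| ≤ R) (n : ℕ) : |kun a 1 n - kun b 1 n| ≤
      kun (fun _ : Fin m => (1 : ℝ)) 1 n * R ^ m * ∑ j, |a j - b j| := by
  rw [kun_expand, kun_expand, kun_one, ← Finset.sum_sub_distrib, Finset.sum_mul, Finset.sum_mul]
  refine (Finset.abs_sum_le_sum_abs _ _).trans (Finset.sum_le_sum fun S _ => ?_)
  rw [← mul_sub, abs_mul, abs_of_nonneg (ee_nonneg _ _ _), mul_assoc]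
  refine mul_le_mul_of_nonneg_left ((prod_sub_prod hR ha hb S).trans ?_) (ee_nonneg _ _ _)
  have hSm : #S ≤ m := by
    have := card_le_univ S
    rwa [Fintype.card_fin] at this
  refine mul_le_mul (pow_le_pow_right₀ hR hSm) ?_ (Finset.sum_nonneg fun _ _ => abs_nonneg _)
    (by positivity)
  exact Finset.sum_le_sum_of_subset_of_nonneg (subset_univ _) fun _ _ _ => abs_nonneg _

/-- the mean of the coefficient -/
lemma kun_mean {p : ℕ} (hp : 0 < p) {m : ℕ} (g : Fin m → ℕ → ℕ → ℝ) (n : ℕ) :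
    avgPM p m (fun w => kun (fun j => g j (w j).1 (w j).2) 1 n) =
      kun (fun j => avgP2 p (g j)) 1 n := by
  simp only [kun_expand]
  rw [avgPM_sum]
  refine Finset.sum_congr rfl fun S _ => ?_
  rw [avgPM_mul_left]
  congr 1
  have e : (fun w : Pt m => ∏ j ∈ S, g j (w j).1 (w j).2) =
      fun w => ∏ j, (fun (j : Fin m) (u v : ℕ) => if j ∈ S then g j u v else 1) j (w j).1 (w j).2 := by
    funext w
    simp only
    rw [Finset.prod_ite_mem, univ_inter]
  rw [e]
  refine (avgPM_indep p m (fun (j : Fin m) (u v : ℕ) => if j ∈ S then g j u v else 1)).trans ?_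
  rw [← Finset.prod_subset (subset_univ S)]
  · refine Finset.prod_congr rfl fun j hj => ?_
    simp only [if_pos hj]
  · intro j _ hj
    simp only [if_neg hj]
    exact avgP2_const hp 1

end Pool.Agent.N430.BP
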